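import Mathlib
import Pool.Agent.H540R2.Circ

/-!
# Monotone circuits, layered circuits, monotone SC and monotone NC
-/

set_option autoImplicit false

namespace Pool.Agent.H540R2

variable {n : ℕ}

/-- The circuit is monotone: it has no NOT gates. -/
def Circuit.Monotone (C : Circuit n) : Prop := ∀ i < C.size, ∀ a, C.gate i ≠ .not a

/-- The circuit is layered of width at most `w`: the gates are partitioned into layers `1, …, d`
(`lay i` is the layer of gate `i`), every wire into a gate of layer `j` comes from a gate of layer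
`j - 1` or from a source, the output gate lies in layer `d`, and every layer has at most `w`
gates. -/
def Circuit.Layered (C : Circuit n) (w : ℕ) : Prop :=
  ∃ (d : ℕ) (lay : ℕ → ℕ), (∀ i < C.size, 1 ≤ lay i ∧ lay i ≤ d) ∧
    (∀ i < C.size, ∀ j, (C.gate i).wires j ≠ 0 → lay j + 1 = lay i) ∧
    (∃ o < C.size, C.out = .gate o ∧ lay o = d) ∧
    ∀ l, ((Finset.range C.size).filter (fun i => lay i = l)).card ≤ w

/-- Non-uniform monotone SC: polynomial size and polylogarithmic width. -/
def MonoSC (f : (n : ℕ) → (Fin n → Bool) → Bool) : Prop :=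
  ∃ c : ℕ, ∀ n, ∃ C : Circuit n, C.Monotone ∧ (∀ x, C.eval x = f n x) ∧
    C.size ≤ n ^ c + c ∧ C.Layered ((Nat.log 2 n) ^ c + c)

/-- Non-uniform monotone NC: polynomial size and polylogarithmic depth. -/
def MonoNC (f : (n : ℕ) → (Fin n → Bool) → Bool) : Prop :=
  ∃ c : ℕ, ∀ n, ∃ C : Circuit n, C.Monotone ∧ (∀ x, C.eval x = f n x) ∧
    C.size ≤ n ^ c + c ∧ C.depth ≤ (Nat.log 2 n) ^ c + c

end Pool.Agent.H540R2
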