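import Mathlib
import Pool.Agent.H540R2.Build
import Pool.Agent.H540R2.Lift.Defs

/-!
# Layered circuits from register programs
-/

set_option autoImplicit false
set_option linter.unusedSectionVars false

namespace Pool.Agent.H540R2

variable {n : ℕ}

namespace Lift

/-- operand: register, variable or constant -/
inductive LNode (R : Type) (n : ℕ) where
  | reg (r : R) : LNode R n
  | var (i : Fin n) : LNode R n
  | const (b : Bool) : LNode R n

/-- monotone gates -/
inductive LGate (R : Type) (n : ℕ) where
  | and (a b : LNode R n) : LGate R n
  | or (a b : LNode R n) : LGate R n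

variable {R : Type}

/-- value -/
def LNode.eval (x : Fin n → Bool) (v : R → Bool) : LNode R n → Bool
  | .reg r => v r
  | .var i => x i
  | .const b => b

/-- value -/
def LGate.eval (x : Fin n → Bool) (v : R → Bool) : LGate R n → Bool
  | .and a b => a.eval x v && b.eval x v
  | .or a b => a.eval x v || b.eval x v

/-- one layer: a gate for every register -/
abbrev Step (R : Type) (n : ℕ) := R → LGate R n

/-- run a program -/
def run (x : Fin n → Bool) : List (Step R n) → (R → Bool) → (R → Bool)
  | [], v => v
  | s :: l, v => run x l (fun r => (s r).eval x v)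

lemma run_append (x : Fin n → Bool) (l l' : List (Step R n)) (v : R → Bool) :
    run x (l ++ l') v = run x l' (run x l v) := by
  induction l generalizing v with
  | nil => rfl
  | cons s l ih => exact ih _

variable [Fintype R] [DecidableEq R]

section conv

variable {W : ℕ} (e : R ≃ Fin W)

/-- conversion of an operand; registers refer to gates `o + e r` -/
def LNode.conv (o : Option ℕ) : LNode R n → Node n
  | .reg r => match o with
    | none => .const false
    | some o => .gate (o + (e r).1)
  | .var i => .var i
  | .const b => .const b

/-- conversion of a gate -/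
def LGate.conv (o : Option ℕ) : LGate R n → Gate n
  | .and a b => .and (a.conv e o) (b.conv e o)
  | .or a b => .or (a.conv e o) (b.conv e o)

lemma LNode.conv_wires (o : ℕ) (a : LNode R n) (j : ℕ) (h : (a.conv e (some o)).wires j ≠ 0) :
    o ≤ j ∧ j < o + W := by
  cases a with
  | reg r =>
    simp only [LNode.conv, Node.wires] at h
    split_ifs at h with h1
    · have := (e r).2; omega
    · exact absurd rfl h
  | var i => exact absurd rfl h
  | const b => exact absurd rfl h

lemma LNode.conv_wires_none (a : LNode R n) (j : ℕ) : (a.conv e none).wires j = 0 := by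
  cases a <;> rfl

lemma LGate.conv_wires (o : ℕ) (g : LGate R n) (j : ℕ) (h : (g.conv e (some o)).wires j ≠ 0) :
    o ≤ j ∧ j < o + W := by
  cases g with
  | and a b =>
    simp only [LGate.conv, Gate.wires] at h
    by_cases ha : (a.conv e (some o)).wires j = 0
    · exact b.conv_wires e o j (by omega)
    · exact a.conv_wires e o j ha
  | or a b =>
    simp only [LGate.conv, Gate.wires] at h
    by_cases ha : (a.conv e (some o)).wires j = 0
    · exact b.conv_wires e o j (by omega)
    · exact a.conv_wires e o j ha

lemma LGate.conv_wires_none (g : LGate R n) (j : ℕ) : (g.conv e none).wires j = 0 := by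
  cases g <;> simp [LGate.conv, Gate.wires, LNode.conv_wires_none]

/-- the circuit of a program: gate `t * W + p` is register `p` after step `t` -/
def progCircuit (hW : 0 < W) (l : List (Step R n)) (ro : R) (hl : l ≠ []) : Circuit n where
  size := l.length * W
  gate i := match l[i / W]? with
    | none => .and (.const false) (.const false)
    | some s => (s (e.symm ⟨i % W, Nat.mod_lt _ hW⟩)).conv e
        (if i / W = 0 then none else some ((i / W - 1) * W))
  out := .gate ((l.length - 1) * W + (e ro).1)
  gate_lt i hi j hj := by
    have h1 : i / W < l.length := by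
      rw [Nat.div_lt_iff_lt_mul hW]; exact hi
    rw [List.getElem?_eq_getElem h1] at hj
    simp only at hj
    split_ifs at hj with h0
    · exact absurd (LGate.conv_wires_none e _ j) hj
    · have h2 := (LGate.conv_wires e _ _ j hj).2
      have h3 : (i / W - 1) * W + W = i / W * W := by
        obtain ⟨t, ht⟩ : ∃ t, i / W = t + 1 := Nat.exists_eq_succ_of_ne_zero h0
        rw [ht]; simp; ring
      have h4 := Nat.div_mul_le_self i W
      omega
  out_lt j hj := by
    simp only [Node.wires] at hj
    split_ifs at hj with h
    · subst h
      have h1 := (e ro).2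
      have h2 : 0 < l.length := List.length_pos_of_ne_nil hl
      obtain ⟨t, ht⟩ : ∃ t, l.length = t + 1 := ⟨l.length - 1, by omega⟩
      rw [ht, Nat.add_sub_cancel, Nat.add_mul, one_mul]
      omega
    · exact absurd rfl hj

lemma LNode.conv_eval (x : Fin n → Bool) (w : ℕ → Bool) (v : R → Bool) (o : Option ℕ)
    (h : ∀ r, (match o with | none => false | some o => w (o + (e r).1)) = v r)
    (a : LNode R n) : (a.conv e o).eval x w = a.eval x v := by
  cases a with
  | reg r =>
    cases o with
    | none => exact h r
    | some o => exact h r
  | var i => rfl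
  | const b => rfl

lemma LGate.conv_eval (x : Fin n → Bool) (w : ℕ → Bool) (v : R → Bool) (o : Option ℕ)
    (h : ∀ r, (match o with | none => false | some o => w (o + (e r).1)) = v r)
    (g : LGate R n) : (g.conv e o).eval x w = g.eval x v := by
  cases g with
  | and a b => simp only [LGate.conv, Gate.eval, LGate.eval, LNode.conv_eval e x w v o h]
  | or a b => simp only [LGate.conv, Gate.eval, LGate.eval, LNode.conv_eval e x w v o h]

lemma progCircuit_val (hW : 0 < W) (l : List (Step R n)) (ro : R) (hl : l ≠ [])
    (x : Fin n → Bool) : ∀ t < l.length, ∀ r : R,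
      (progCircuit e hW l ro hl).val x (t * W + (e r).1) =
        run x (l.take (t + 1)) (fun _ => false) r := by
  intro t
  induction t with
  | zero =>
    intro ht r
    have hsz : 0 * W + (e r).1 < (progCircuit e hW l ro hl).size := by
      show 0 * W + (e r).1 < l.length * W
      have := (e r).2
      calc 0 * W + (e r).1 < 1 * W := by omega
        _ ≤ l.length * W := Nat.mul_le_mul_right _ ht
    rw [Circuit.val_gate _ hsz]
    have hdiv : (0 * W + (e r).1) / W = 0 := by
      rw [Nat.zero_mul, Nat.zero_add]; exact Nat.div_eq_of_lt (e r).2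
    have hmod : (0 * W + (e r).1) % W = (e r).1 := by
      rw [Nat.zero_mul, Nat.zero_add]; exact Nat.mod_eq_of_lt (e r).2
    have hg : (progCircuit e hW l ro hl).gate (0 * W + (e r).1) = (l[0] r).conv e none := by
      simp only [progCircuit, hdiv, hmod]
      rw [List.getElem?_eq_getElem ht]
      simp
    rw [hg, LGate.conv_eval e x _ (fun _ => false) none (fun _ => rfl)]
    have htake : l.take (0 + 1) = [l[0]] := by
      rw [List.take_succ_eq_append_getElem (by omega)]; simp
    rw [htake]
    rfl
  | succ t ih =>
    intro ht r
    have hsz : (t + 1) * W + (e r).1 < (progCircuit e hW l ro hl).size := by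
      show (t + 1) * W + (e r).1 < l.length * W
      have := (e r).2
      calc (t + 1) * W + (e r).1 < (t + 1) * W + W := by omega
        _ = (t + 1 + 1) * W := by ring
        _ ≤ l.length * W := Nat.mul_le_mul_right _ ht
    rw [Circuit.val_gate _ hsz]
    have hdiv : ((t + 1) * W + (e r).1) / W = t + 1 := by
      rw [Nat.mul_comm, Nat.mul_add_div hW, Nat.div_eq_of_lt (e r).2, Nat.add_zero]
    have hmod : ((t + 1) * W + (e r).1) % W = (e r).1 := by
      rw [Nat.mul_comm, Nat.mul_add_mod]; exact Nat.mod_eq_of_lt (e r).2
    have hg : (progCircuit e hW l ro hl).gate ((t + 1) * W + (e r).1) =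
        (l[t + 1] r).conv e (some (t * W)) := by
      simp only [progCircuit, hdiv, hmod]
      rw [List.getElem?_eq_getElem ht]
      simp
    rw [hg, LGate.conv_eval e x _ (run x (l.take (t + 1)) (fun _ => false)) (some (t * W))
      (fun r' => ih (by omega) r')]
    rw [List.take_succ_eq_append_getElem ht, run_append]
    rfl

lemma progCircuit_eval (hW : 0 < W) (l : List (Step R n)) (ro : R) (hl : l ≠ [])
    (x : Fin n → Bool) :
    (progCircuit e hW l ro hl).eval x = run x l (fun _ => false) ro := by
  have h2 : 0 < l.length := List.length_pos_of_ne_nil hl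
  have h := progCircuit_val e hW l ro hl x (l.length - 1) (by omega) ro
  rw [show l.length - 1 + 1 = l.length by omega, List.take_length] at h
  exact h

lemma progCircuit_mono (hW : 0 < W) (l : List (Step R n)) (ro : R) (hl : l ≠ []) :
    ∀ i < (progCircuit e hW l ro hl).size, ∀ a, (progCircuit e hW l ro hl).gate i ≠ .not a := by
  intro i hi a
  have h1 : i / W < l.length := by
    rw [Nat.div_lt_iff_lt_mul hW]; exact hi
  simp only [progCircuit]
  rw [List.getElem?_eq_getElem h1]
  simp only
  cases l[i / W] (e.symm ⟨i % W, Nat.mod_lt _ hW⟩) <;> simp [LGate.conv]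

lemma progCircuit_layered (hW : 0 < W) (l : List (Step R n)) (ro : R) (hl : l ≠ []) :
    (progCircuit e hW l ro hl).Layered W := by
  have h0 : 0 < l.length := List.length_pos_of_ne_nil hl
  have hsize : (progCircuit e hW l ro hl).size = l.length * W := rfl
  refine ⟨l.length, fun i => i / W + 1, ?_, ?_, ?_, ?_⟩
  · intro i hi
    have h1 : i / W < l.length := by
      rw [Nat.div_lt_iff_lt_mul hW]; exact hi
    exact ⟨Nat.le_add_left _ _, h1⟩
  · intro i hi j hj
    have h1 : i / W < l.length := by
      rw [Nat.div_lt_iff_lt_mul hW]; exact hi
    simp only [progCircuit] at hj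
    rw [List.getElem?_eq_getElem h1] at hj
    simp only at hj
    split_ifs at hj with h0
    · exact absurd (LGate.conv_wires_none e _ j) hj
    · have h2 := LGate.conv_wires e _ _ j hj
      obtain ⟨t, ht⟩ : ∃ t, i / W = t + 1 := Nat.exists_eq_succ_of_ne_zero h0
      show j / W + 1 + 1 = i / W + 1
      rw [ht] at h2 ⊢
      simp only [Nat.add_sub_cancel] at h2
      have h3 : j / W = t := by
        apply Nat.div_eq_of_lt_le h2.1
        rw [Nat.succ_mul]
        exact h2.2
      omega
  · refine ⟨(l.length - 1) * W + (e ro).1, ?_, rfl, ?_⟩
    · rw [hsize]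
      obtain ⟨t, ht⟩ : ∃ t, l.length = t + 1 := ⟨l.length - 1, by omega⟩
      have := (e ro).2
      rw [ht, Nat.add_sub_cancel, Nat.add_mul, one_mul]
      omega
    · simp only
      rw [Nat.mul_comm, Nat.mul_add_div hW, Nat.div_eq_of_lt (e ro).2]
      omega
  · intro t
    have hsub : (Finset.range (progCircuit e hW l ro hl).size).filter (fun i => i / W + 1 = t) ⊆
        Finset.Ico ((t - 1) * W) ((t - 1) * W + W) := by
      intro i hi
      obtain ⟨-, h2⟩ := Finset.mem_filter.1 hi
      rw [Finset.mem_Ico]
      have h3 : i / W = t - 1 := Nat.eq_sub_of_add_eq h2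
      have h4 := Nat.div_add_mod i W
      have h5 := Nat.mod_lt i hW
      rw [h3, Nat.mul_comm] at h4
      omega
    refine (Finset.card_le_card hsub).trans ?_
    simp

end conv

end Lift

end Pool.Agent.H540R2
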