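import Mathlib
import Pool.Agent.H540R2.Lift.Prog

/-!
# Monotone formulas and depth reduction for register programs
-/

set_option autoImplicit false
set_option linter.unusedSectionVars false

namespace Pool.Agent.H540R2.Lift

variable {n : ℕ}

/-- monotone formulas -/
inductive MFm (n : ℕ) where
  | var (i : Fin n) : MFm n
  | const (b : Bool) : MFm n
  | and (F G : MFm n) : MFm n
  | or (F G : MFm n) : MFm n

namespace MFm

/-- value -/
def eval (x : Fin n → Bool) : MFm n → Bool
  | .var i => x i
  | .const b => b
  | .and F G => F.eval x && G.eval x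
  | .or F G => F.eval x || G.eval x

/-- depth -/
def depth : MFm n → ℕ
  | .var _ => 0
  | .const _ => 0
  | .and F G => max F.depth G.depth + 1
  | .or F G => max F.depth G.depth + 1

end MFm

/-- computed by a monotone formula of depth at most `d` -/
def MDp (f : (Fin n → Bool) → Bool) (d : ℕ) : Prop :=
  ∃ F : MFm n, F.depth ≤ d ∧ ∀ x, F.eval x = f x

namespace MDp

variable {f g : (Fin n → Bool) → Bool} {d : ℕ}

lemma mono {d' : ℕ} (h : MDp f d) (hd : d ≤ d') : MDp f d' := by
  obtain ⟨F, h1, h2⟩ := h
  exact ⟨F, h1.trans hd, h2⟩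

lemma congr (h : MDp f d) (hg : ∀ x, f x = g x) : MDp g d := by
  obtain ⟨F, h1, h2⟩ := h
  exact ⟨F, h1, fun x => (h2 x).trans (hg x)⟩

lemma const (b : Bool) (d : ℕ) : MDp (fun _ : Fin n → Bool => b) d :=
  ⟨.const b, Nat.zero_le _, fun _ => rfl⟩

lemma var (i : Fin n) (d : ℕ) : MDp (fun x : Fin n → Bool => x i) d :=
  ⟨.var i, Nat.zero_le _, fun _ => rfl⟩

lemma and (hf : MDp f d) (hg : MDp g d) : MDp (fun x => f x && g x) (d + 1) := by
  obtain ⟨F, h1, h2⟩ := hf
  obtain ⟨G, h3, h4⟩ := hg
  exact ⟨F.and G, by simp [MFm.depth, h1, h3], fun x => by simp [MFm.eval, h2, h4]⟩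

lemma or (hf : MDp f d) (hg : MDp g d) : MDp (fun x => f x || g x) (d + 1) := by
  obtain ⟨F, h1, h2⟩ := hf
  obtain ⟨G, h3, h4⟩ := hg
  exact ⟨F.or G, by simp [MFm.depth, h1, h3], fun x => by simp [MFm.eval, h2, h4]⟩

/-- conjunction of a list of length at most `2 ^ t` -/
lemma listAnd {ι : Type} (φ : ι → (Fin n → Bool) → Bool) : ∀ (t : ℕ) (l : List ι),
    l.length ≤ 2 ^ t → (∀ i ∈ l, MDp (φ i) d) → MDp (fun x => l.all (fun i => φ i x)) (d + t) := by
  intro t
  induction t with
  | zero =>
    intro l hl h
    match l, hl, h with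
    | [], _, _ => exact (const true _).congr (fun x => by simp)
    | [i], _, h => exact (h i (by simp)).congr (fun x => by simp)
    | _ :: _ :: _, hl, _ => simp at hl
  | succ t ih =>
    intro l hl h
    have h1 : (l.take (2 ^ t)).length ≤ 2 ^ t := by simp
    have h2 : (l.drop (2 ^ t)).length ≤ 2 ^ t := by
      rw [List.length_drop]; rw [pow_succ] at hl; omega
    have e1 := ih _ h1 (fun i hi => h i (List.mem_of_mem_take hi))
    have e2 := ih _ h2 (fun i hi => h i (List.mem_of_mem_drop hi))
    refine (e1.and e2).congr fun x => ?_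
    rw [← List.all_append, List.take_append_drop]

/-- disjunction of a list of length at most `2 ^ t` -/
lemma listOr {ι : Type} (φ : ι → (Fin n → Bool) → Bool) : ∀ (t : ℕ) (l : List ι),
    l.length ≤ 2 ^ t → (∀ i ∈ l, MDp (φ i) d) → MDp (fun x => l.any (fun i => φ i x)) (d + t) := by
  intro t
  induction t with
  | zero =>
    intro l hl h
    match l, hl, h with
    | [], _, _ => exact (const false _).congr (fun x => by simp)
    | [i], _, h => exact (h i (by simp)).congr (fun x => by simp)
    | _ :: _ :: _, hl, _ => simp at hl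
  | succ t ih =>
    intro l hl h
    have h1 : (l.take (2 ^ t)).length ≤ 2 ^ t := by simp
    have h2 : (l.drop (2 ^ t)).length ≤ 2 ^ t := by
      rw [List.length_drop]; rw [pow_succ] at hl; omega
    have e1 := ih _ h1 (fun i hi => h i (List.mem_of_mem_take hi))
    have e2 := ih _ h2 (fun i hi => h i (List.mem_of_mem_drop hi))
    refine (e1.or e2).congr fun x => ?_
    rw [← List.any_append, List.take_append_drop]

lemma fAnd {ι : Type} [Fintype ι] (φ : ι → (Fin n → Bool) → Bool) (t : ℕ)
    (ht : Fintype.card ι ≤ 2 ^ t) (h : ∀ i, MDp (φ i) d) :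
    MDp (fun x => decide (∀ i, φ i x = true)) (d + t) := by
  refine (listAnd φ t (Finset.univ : Finset ι).toList (by simpa using ht)
    (fun i _ => h i)).congr fun x => ?_
  rw [Bool.eq_iff_iff]
  simp

lemma fOr {ι : Type} [Fintype ι] (φ : ι → (Fin n → Bool) → Bool) (t : ℕ)
    (ht : Fintype.card ι ≤ 2 ^ t) (h : ∀ i, MDp (φ i) d) :
    MDp (fun x => decide (∃ i, φ i x = true)) (d + t) := by
  refine (listOr φ t (Finset.univ : Finset ι).toList (by simpa using ht)
    (fun i _ => h i)).congr fun x => ?_
  rw [Bool.eq_iff_iff]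
  simp

end MDp

/-! ### depth reduction for programs -/

variable {R : Type}

lemma LNode.eval_mono (x : Fin n → Bool) {v w : R → Bool} (h : ∀ r, v r = true → w r = true)
    (a : LNode R n) (ha : a.eval x v = true) : a.eval x w = true := by
  cases a with
  | reg r => exact h r ha
  | var i => exact ha
  | const b => exact ha

lemma LGate.eval_mono (x : Fin n → Bool) {v w : R → Bool} (h : ∀ r, v r = true → w r = true)
    (g : LGate R n) (hg : g.eval x v = true) : g.eval x w = true := by
  cases g with
  | and a b =>
    simp only [LGate.eval, Bool.and_eq_true] at hg ⊢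
    exact ⟨a.eval_mono x h hg.1, b.eval_mono x h hg.2⟩
  | or a b =>
    simp only [LGate.eval, Bool.or_eq_true] at hg ⊢
    rcases hg with hg | hg
    · exact Or.inl (a.eval_mono x h hg)
    · exact Or.inr (b.eval_mono x h hg)

lemma run_mono (x : Fin n → Bool) (l : List (Step R n)) : ∀ {v w : R → Bool},
    (∀ r, v r = true → w r = true) → ∀ r, run x l v r = true → run x l w r = true := by
  induction l with
  | nil => intro v w h r hr; exact h r hr
  | cons s l ih =>
    intro v w h r hr
    exact ih (fun r' hr' => LGate.eval_mono x h _ hr') r hr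

variable [Fintype R] [DecidableEq R]

lemma mdp_step (s : Step R n) (v : R → Bool) (r : R) :
    MDp (fun x => (s r).eval x v) 1 := by
  have hn : ∀ a : LNode R n, MDp (fun x => a.eval x v) 0 := by
    intro a
    cases a with
    | reg r => exact MDp.const _ _
    | var i => exact MDp.var i _
    | const b => exact MDp.const b _
  cases s r with
  | and a b => exact (hn a).and (hn b)
  | or a b => exact (hn a).or (hn b)

/-- **Depth reduction**: a program with `W` registers and `2 ^ t` steps has monotone depth
`t (2 W + 2) + 1`. -/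
lemma mdp_run {W : ℕ} (hW : Fintype.card R ≤ W) : ∀ (t : ℕ) (l : List (Step R n)),
    l.length ≤ 2 ^ t → ∀ (v : R → Bool) (r : R), MDp (fun x => run x l v r)
      (t * (2 * W + 2) + 1) := by
  intro t
  induction t with
  | zero =>
    intro l hl v r
    match l, hl with
    | [], _ => exact MDp.const _ _
    | [s], _ => exact (mdp_step s v r).mono (by omega)
    | _ :: _ :: _, hl => simp at hl
  | succ t ih =>
    intro l hl v r
    have h1 : (l.take (2 ^ t)).length ≤ 2 ^ t := by simp
    have h2 : (l.drop (2 ^ t)).length ≤ 2 ^ t := by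
      rw [List.length_drop]; rw [pow_succ] at hl; omega
    set l1 := l.take (2 ^ t) with hl1
    set l2 := l.drop (2 ^ t) with hl2
    set D := t * (2 * W + 2) + 1 with hD
    -- for every intermediate state `s`
    have e1 : ∀ s : R → Bool, MDp (fun x => decide (∀ p : R, (!(s p) || run x l1 v p) = true))
        (D + 1 + W) := by
      intro s
      apply MDp.fAnd (d := D + 1) (fun p x => (!(s p) || run x l1 v p)) W
      · calc Fintype.card R ≤ W := hW
          _ ≤ 2 ^ W := Nat.lt_two_pow_self.le
      · intro p
        exact (MDp.const (!(s p)) D).or (ih l1 h1 v p)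
    have e2 : ∀ s : R → Bool, MDp (fun x =>
        (decide (∀ p : R, (!(s p) || run x l1 v p) = true) && run x l2 s r))
        (D + 1 + W + 1) := fun s =>
      (e1 s).and ((ih l2 h2 s r).mono (by omega))
    have e3 := MDp.fOr (fun (s : R → Bool) x =>
        (decide (∀ p : R, (!(s p) || run x l1 v p) = true) && run x l2 s r)) W
      (by
        rw [Fintype.card_fun, Fintype.card_bool]
        exact Nat.pow_le_pow_right (by norm_num) hW) e2
    refine (e3.mono ?_).congr fun x => ?_
    · rw [hD]; ring_nf; omega
    · rw [Bool.eq_iff_iff, decide_eq_true_iff]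
      have hsplit : run x l v = run x l2 (run x l1 v) := by
        rw [← run_append, hl1, hl2, List.take_append_drop]
      constructor
      · rintro ⟨s, hs⟩
        simp only [Bool.and_eq_true, decide_eq_true_eq, Bool.or_eq_true, Bool.not_eq_true']
          at hs
        rw [hsplit]
        refine run_mono x l2 ?_ r hs.2
        intro p hp
        rcases hs.1 p with h | h
        · rw [hp] at h; exact absurd h (by decide)
        · exact h
      · intro hr
        rw [hsplit] at hr
        refine ⟨run x l1 v, ?_⟩
        simp only [Bool.and_eq_true, decide_eq_true_eq, Bool.or_eq_true, Bool.not_eq_true']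
        refine ⟨fun p => ?_, hr⟩
        cases run x l1 v p <;> simp

/-! ### monotone formulas to monotone circuits -/

/-- Appending a monotone formula whose leaves are nodes of the circuit. -/
lemma mbuild {m : ℕ} (F : MFm m) : ∀ (P : Circuit n) (ν : Fin m → Node n)
    (_ : ∀ i j, (ν i).wires j ≠ 0 → j < P.size),
    ∃ P' : Circuit n, Circuit.Ext P P' ∧ P'.size + 1 ≤ P.size + 2 ^ F.depth ∧
      (P.Monotone → P'.Monotone) ∧
      (∀ x, P'.eval x = F.eval (fun i => (ν i).eval x (P.val x))) ∧
      ∀ D, (∀ i, (ν i).depth P.gateDepth ≤ D) → P'.depth ≤ D + F.depth := by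
  have hadd : ∀ (P : Circuit n) (g : Gate n) (hg : ∀ j, g.wires j ≠ 0 → j < P.size),
      (∀ a, g ≠ .not a) → P.Monotone → (P.add g hg).Monotone := by
    intro P g hg hna hP i hi a
    have hs : (P.add g hg).size = P.size + 1 := rfl
    rw [hs] at hi
    by_cases h : i = P.size
    · subst h
      have : (P.add g hg).gate P.size = g := Function.update_self _ _ _
      rw [this]; exact hna a
    · have : (P.add g hg).gate i = P.gate i := Function.update_of_ne h _ _
      rw [this]; exact hP i (by omega) a
  induction F with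
  | var i =>
    intro P ν hν
    refine ⟨P.setOut (ν i) (hν i), P.setOut_ext _ _, le_rfl, fun h => h, ?_, ?_⟩
    · intro x; rw [Circuit.setOut_eval]; rfl
    · intro D hD; rw [Circuit.setOut_depth]; exact hD i
  | const b =>
    intro P ν hν
    have hc : ∀ j, (Node.const b : Node n).wires j ≠ 0 → j < P.size :=
      fun j hj => absurd rfl hj
    refine ⟨P.setOut (.const b) hc, P.setOut_ext _ _, le_rfl, fun h => h, ?_, ?_⟩
    · intro x; rw [Circuit.setOut_eval]; rfl
    · intro D hD; rw [Circuit.setOut_depth]; exact Nat.zero_le _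
  | and F G hF hG =>
    intro P ν hν
    obtain ⟨P1, e1, s1, m1, v1, d1⟩ := hF P ν hν
    obtain ⟨P2, e2, s2, m2, v2, d2⟩ := hG P1 ν (fun i j hj => lt_of_lt_of_le (hν i j hj) e1.1)
    have ho1 : ∀ j, P1.out.wires j ≠ 0 → j < P2.size := fun j hj =>
      lt_of_lt_of_le (P1.out_lt j hj) e2.1
    have hg : ∀ j, (Gate.and P1.out P2.out).wires j ≠ 0 → j < P2.size := by
      intro j hj
      simp only [Gate.wires] at hj
      by_cases h : P1.out.wires j = 0
      · exact P2.out_lt j (by omega)
      · exact ho1 j h
    refine ⟨P2.add (.and P1.out P2.out) hg, (e1.trans e2).trans (P2.add_ext _ _), ?_,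
      fun h => hadd _ _ _ (fun a => by simp) (m2 (m1 h)), ?_, ?_⟩
    · show P2.size + 1 + 1 ≤ _
      have h1 : 2 ^ F.depth ≤ 2 ^ (max F.depth G.depth) :=
        Nat.pow_le_pow_right (by norm_num) (by omega)
      have h2 : 2 ^ G.depth ≤ 2 ^ (max F.depth G.depth) :=
        Nat.pow_le_pow_right (by norm_num) (by omega)
      simp only [MFm.depth]
      rw [pow_succ 2 (max F.depth G.depth)]
      omega
    · intro x
      rw [Circuit.add_eval]
      simp only [Gate.eval, MFm.eval]
      rw [e2.node_eval x P1.out_lt]
      have h1 : P1.out.eval x (P1.val x) = P1.eval x := rfl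
      have h2 : P2.out.eval x (P2.val x) = P2.eval x := rfl
      rw [h1, h2, v1, v2]
      congr 2
      funext i
      exact e1.node_eval x (hν i)
    · intro D hD
      rw [Circuit.add_depth]
      simp only [Gate.depth, MFm.depth]
      rw [e2.node_depth P1.out_lt]
      have h1 : P1.out.depth P1.gateDepth = P1.depth := rfl
      have h2 : P2.out.depth P2.gateDepth = P2.depth := rfl
      rw [h1, h2]
      have := d1 D hD
      have := d2 D (fun i => by rw [e1.node_depth (hν i)]; exact hD i)
      omega
  | or F G hF hG =>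
    intro P ν hν
    obtain ⟨P1, e1, s1, m1, v1, d1⟩ := hF P ν hν
    obtain ⟨P2, e2, s2, m2, v2, d2⟩ := hG P1 ν (fun i j hj => lt_of_lt_of_le (hν i j hj) e1.1)
    have ho1 : ∀ j, P1.out.wires j ≠ 0 → j < P2.size := fun j hj =>
      lt_of_lt_of_le (P1.out_lt j hj) e2.1
    have hg : ∀ j, (Gate.or P1.out P2.out).wires j ≠ 0 → j < P2.size := by
      intro j hj
      simp only [Gate.wires] at hj
      by_cases h : P1.out.wires j = 0
      · exact P2.out_lt j (by omega)
      · exact ho1 j h
    refine ⟨P2.add (.or P1.out P2.out) hg, (e1.trans e2).trans (P2.add_ext _ _), ?_,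
      fun h => hadd _ _ _ (fun a => by simp) (m2 (m1 h)), ?_, ?_⟩
    · show P2.size + 1 + 1 ≤ _
      have h1 : 2 ^ F.depth ≤ 2 ^ (max F.depth G.depth) :=
        Nat.pow_le_pow_right (by norm_num) (by omega)
      have h2 : 2 ^ G.depth ≤ 2 ^ (max F.depth G.depth) :=
        Nat.pow_le_pow_right (by norm_num) (by omega)
      simp only [MFm.depth]
      rw [pow_succ 2 (max F.depth G.depth)]
      omega
    · intro x
      rw [Circuit.add_eval]
      simp only [Gate.eval, MFm.eval]
      rw [e2.node_eval x P1.out_lt]
      have h1 : P1.out.eval x (P1.val x) = P1.eval x := rfl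
      have h2 : P2.out.eval x (P2.val x) = P2.eval x := rfl
      rw [h1, h2, v1, v2]
      congr 2
      funext i
      exact e1.node_eval x (hν i)
    · intro D hD
      rw [Circuit.add_depth]
      simp only [Gate.depth, MFm.depth]
      rw [e2.node_depth P1.out_lt]
      have h1 : P1.out.depth P1.gateDepth = P1.depth := rfl
      have h2 : P2.out.depth P2.gateDepth = P2.depth := rfl
      rw [h1, h2]
      have := d1 D hD
      have := d2 D (fun i => by rw [e1.node_depth (hν i)]; exact hD i)
      omega

lemma MDp.toCircuit {f : (Fin n → Bool) → Bool} {d : ℕ} (h : MDp f d) :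
    ∃ C : Circuit n, C.Monotone ∧ C.depth ≤ d ∧ C.size < 2 ^ d ∧ ∀ x, C.eval x = f x := by
  obtain ⟨F, hF, hf⟩ := h
  obtain ⟨P', _, s, mo, v, dd⟩ := mbuild F (Circuit.empty n) (fun i => .var i)
    (by simp [Node.wires])
  refine ⟨P', mo ?_, ?_, ?_, ?_⟩
  · intro i hi
    exact absurd hi (Nat.not_lt_zero _)
  · have := dd 0 (fun i => by simp [Node.depth])
    omega
  · have h0 : (Circuit.empty n).size = 0 := rfl
    rw [h0] at s
    have h1 : 2 ^ F.depth ≤ 2 ^ d := Nat.pow_le_pow_right (by norm_num) hF
    omega
  · intro x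
    rw [v x, ← hf x]
    rfl

end Pool.Agent.H540R2.Lift
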