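import Mathlib
import Pool.Agent.H540R2.Circ

/-!
# The number of NOT gates
-/

set_option autoImplicit false

namespace Pool.Agent.H540R2

variable {n : ℕ}

/-- Whether a gate is a NOT gate. -/
def Gate.isNot : Gate n → Bool
  | .and _ _ => false
  | .or _ _ => false
  | .not _ => true

/-- The number of NOT gates of a circuit. -/
def Circuit.nots (C : Circuit n) : ℕ :=
  ((Finset.range C.size).filter (fun i => (C.gate i).isNot = true)).card

end Pool.Agent.H540R2
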