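import Mathlib
import Pool.Agent.H540R2.Lift.MFm
import Pool.Agent.H540R2.Lift.NegDefs

/-!
# Circuits with few NOT gates: freezing the NOT gates on one of many copies
-/

set_option autoImplicit false

namespace Pool.Agent.H540R2.Lift

open Finset

variable {N : ℕ}

/-- a NOT gate of depth at most `D` -/
def tg (C : Circuit N) (D i : ℕ) : Prop := (C.gate i).isNot = true ∧ C.gateDepth i ≤ D

instance (C : Circuit N) (D i : ℕ) : Decidable (tg C D i) :=
  inferInstanceAs (Decidable (_ ∧ _))

/-- lexicographic rank of the vector of inputs of the NOT gates -/
def rk (C : Circuit N) (D : ℕ) (x : Fin N → Bool) : ℕ → ℕ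
  | 0 => 0
  | i + 1 => if tg C D i then 2 * rk C D x i + (!C.val x i).toNat else rk C D x i

lemma rk_lt (C : Circuit N) (D : ℕ) (x : Fin N → Bool) (i : ℕ) :
    rk C D x i + 1 ≤ 2 ^ ((range i).filter (fun j => (C.gate j).isNot = true)).card := by
  induction i with
  | zero => simp [rk]
  | succ i ih =>
    rw [Finset.range_add_one, Finset.filter_insert]
    simp only [rk]
    by_cases h : (C.gate i).isNot = true
    · rw [if_pos h, Finset.card_insert_of_notMem (by simp), pow_succ]
      have := Bool.toNat_le (!C.val x i)
      split_ifs <;> omega
    · rw [if_neg h, if_neg (fun h' => h h'.1)]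
      exact ih

lemma rk_eq (C : Circuit N) (D : ℕ) (x y : Fin N → Bool) : ∀ i, rk C D x i = rk C D y i →
    ∀ j < i, tg C D j → C.val x j = C.val y j := by
  intro i
  induction i with
  | zero => intro _ j hj; omega
  | succ i ih =>
    intro h j hj ht
    simp only [rk] at h
    by_cases hi : tg C D i
    · rw [if_pos hi, if_pos hi] at h
      have b1 := Bool.toNat_le (!C.val x i)
      have b2 := Bool.toNat_le (!C.val y i)
      have hr : rk C D x i = rk C D y i := by omega
      rcases Nat.lt_or_ge j i with hji | hji
      · exact ih hr j hji ht
      · have : j = i := by omega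
        subst this
        have h3 : (!C.val x j).toNat = (!C.val y j).toNat := by omega
        revert h3
        cases C.val x j <;> cases C.val y j <;> simp
    · rw [if_neg hi, if_neg hi] at h
      rcases Nat.lt_or_ge j i with hji | hji
      · exact ih h j hji ht
      · have : j = i := by omega
        subst this
        exact absurd ht hi

lemma node_mono {C : Circuit N} {D i : ℕ} {a : Node N} (ha : ∀ j, a.wires j ≠ 0 → j < i)
    (hd : a.depth C.gateDepth ≤ D) {x y : Fin N → Bool} (hxy : ∀ v, x v = true → y v = true)
    (h : ∀ j < i, C.gateDepth j ≤ D → C.val x j = true → C.val y j = true)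
    (hax : a.eval x (C.val x) = true) : a.eval y (C.val y) = true := by
  cases a with
  | var v => exact hxy v hax
  | const b => exact hax
  | gate j => exact h j (ha j (by simp [Node.wires])) hd hax

lemma rk_mono (C : Circuit N) (D : ℕ) {x y : Fin N → Bool} (hxy : ∀ v, x v = true → y v = true) :
    ∀ i ≤ C.size, rk C D x i < rk C D y i ∨ (rk C D x i = rk C D y i ∧
      ∀ j < i, C.gateDepth j ≤ D → C.val x j = true → C.val y j = true) := by
  intro i
  induction i with
  | zero => intro _; right; exact ⟨rfl, fun j hj => by omega⟩
  | succ i ih =>
    intro hi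
    rcases ih (by omega) with h | ⟨h1, h2⟩
    · left
      simp only [rk]
      have b1 := Bool.toNat_le (!C.val x i)
      have b2 := Bool.toNat_le (!C.val y i)
      by_cases ht : tg C D i
      · rw [if_pos ht, if_pos ht]
        omega
      · rw [if_neg ht, if_neg ht]; exact h
    · have hw := C.gate_lt i (by omega)
      have hd := C.gateDepth_gate (show i < C.size by omega)
      have hvx := C.val_gate (show i < C.size by omega) x
      have hvy := C.val_gate (show i < C.size by omega) y
      cases hg : C.gate i with
      | and a b =>
        right
        have hnt : ¬ tg C D i := fun h' => by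
          have := h'.1; rw [hg] at this; exact absurd this (by simp [Gate.isNot])
        simp only [rk]
        rw [if_neg hnt, if_neg hnt]
        refine ⟨h1, fun j hj hjD hjx => ?_⟩
        rcases Nat.lt_or_ge j i with hji | hji
        · exact h2 j hji hjD hjx
        · have : j = i := by omega
          subst this
          rw [hg] at hw hd hvx hvy
          simp only [Gate.depth] at hd
          rw [hvx] at hjx
          rw [hvy]
          simp only [Gate.eval, Bool.and_eq_true] at hjx ⊢
          exact ⟨node_mono (fun l hl => hw l (by simp only [Gate.wires]; omega)) (by omega) hxy h2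
            hjx.1, node_mono (fun l hl => hw l (by simp only [Gate.wires]; omega)) (by omega) hxy
            h2 hjx.2⟩
      | or a b =>
        right
        have hnt : ¬ tg C D i := fun h' => by
          have := h'.1; rw [hg] at this; exact absurd this (by simp [Gate.isNot])
        simp only [rk]
        rw [if_neg hnt, if_neg hnt]
        refine ⟨h1, fun j hj hjD hjx => ?_⟩
        rcases Nat.lt_or_ge j i with hji | hji
        · exact h2 j hji hjD hjx
        · have : j = i := by omega
          subst this
          rw [hg] at hw hd hvx hvy
          simp only [Gate.depth] at hd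
          rw [hvx] at hjx
          rw [hvy]
          simp only [Gate.eval, Bool.or_eq_true] at hjx ⊢
          rcases hjx with hjx | hjx
          · exact Or.inl (node_mono (fun l hl => hw l (by simp only [Gate.wires]; omega))
              (by omega) hxy h2 hjx)
          · exact Or.inr (node_mono (fun l hl => hw l (by simp only [Gate.wires]; omega))
              (by omega) hxy h2 hjx)
      | not a =>
        by_cases ht : tg C D i
        · have hdD := ht.2
          rw [hg] at hw hd hvx hvy
          simp only [Gate.depth] at hd
          have hm := node_mono (C := C) (D := D) (a := a)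
            (fun l hl => hw l (by simp only [Gate.wires]; omega)) (by omega) hxy h2
          simp only [rk]
          rw [if_pos ht, if_pos ht, hvx, hvy]
          simp only [Gate.eval]
          cases hax : a.eval x (C.val x) with
          | true =>
            have hay := hm hax
            right
            rw [hay]
            refine ⟨by simp [h1], fun j hj hjD hjx => ?_⟩
            rcases Nat.lt_or_ge j i with hji | hji
            · exact h2 j hji hjD hjx
            · have : j = i := by omega
              subst this
              rw [hvx] at hjx
              simp only [Gate.eval] at hjx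
              rw [hax] at hjx
              exact absurd hjx (by decide)
          | false =>
            cases hay : a.eval y (C.val y) with
            | true => left; simp [h1]
            | false =>
              right
              refine ⟨by simp [h1], fun j hj hjD hjx => ?_⟩
              rcases Nat.lt_or_ge j i with hji | hji
              · exact h2 j hji hjD hjx
              · have : j = i := by omega
                subst this
                rw [hvy]
                simp only [Gate.eval]
                rw [hay]; rfl
        · right
          simp only [rk]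
          rw [if_neg ht, if_neg ht]
          refine ⟨h1, fun j hj hjD hjx => ?_⟩
          rcases Nat.lt_or_ge j i with hji | hji
          · exact h2 j hji hjD hjx
          · have : j = i := by omega
            subst this
            exact absurd ⟨by rw [hg]; rfl, hjD⟩ ht

/-! ### the frozen circuit -/

section frz

open Classical

variable (C : Circuit N) (R : Fin N → Prop) (x0 : Fin N → Bool)

/-- replace the inputs outside `R` by constants -/
noncomputable def sub : Node N → Node N
  | .var i => if R i then .var i else .const (x0 i)
  | .const b => .const b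
  | .gate j => .gate j

/-- the input that is `w` on `R` and `x0` elsewhere -/
noncomputable def mix (w : Fin N → Bool) : Fin N → Bool := fun i => if R i then w i else x0 i

lemma sub_wires (a : Node N) (j : ℕ) : (sub R x0 a).wires j = a.wires j := by
  cases a with
  | var i => simp only [sub]; split_ifs <;> rfl
  | const b => rfl
  | gate i => rfl

lemma sub_depth (a : Node N) (d : ℕ → ℕ) : (sub R x0 a).depth d = a.depth d := by
  cases a with
  | var i => simp only [sub]; split_ifs <;> rfl
  | const b => rfl
  | gate i => rfl

lemma sub_eval (a : Node N) (w : Fin N → Bool) (v : ℕ → Bool) :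
    (sub R x0 a).eval w v = a.eval (mix R x0 w) v := by
  cases a with
  | var i =>
    simp only [sub, mix, Node.eval]
    split_ifs with h <;> rfl
  | const b => rfl
  | gate i => rfl

/-- the frozen gate -/
noncomputable def frzGate (i : ℕ) : Gate N := match C.gate i with
  | .and a b => .and (sub R x0 a) (sub R x0 b)
  | .or a b => .or (sub R x0 a) (sub R x0 b)
  | .not _ => .or (.const (C.val x0 i)) (.const (C.val x0 i))

/-- NOT gates replaced by their values on `x0`, inputs outside `R` fixed as in `x0` -/
noncomputable def frz : Circuit N where
  size := C.size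
  gate := frzGate C R x0
  out := sub R x0 C.out
  gate_lt i hi j hj := by
    have h := C.gate_lt i hi j
    unfold frzGate at hj
    cases hg : C.gate i with
    | and a b =>
      rw [hg] at hj h
      simp only [Gate.wires, sub_wires] at hj h
      exact h hj
    | or a b =>
      rw [hg] at hj h
      simp only [Gate.wires, sub_wires] at hj h
      exact h hj
    | not a =>
      rw [hg] at hj
      exact absurd rfl hj
  out_lt j hj := by
    rw [sub_wires] at hj
    exact C.out_lt j hj

lemma frz_mono' : (frz C R x0).Monotone := by
  intro i _ a
  show frzGate C R x0 i ≠ _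
  unfold frzGate
  cases C.gate i <;> simp

lemma frz_depth : ∀ i < C.size, (frz C R x0).gateDepth i ≤ C.gateDepth i := by
  intro i
  induction i using Nat.strong_induction_on with
  | _ i ih =>
    intro hi
    rw [(frz C R x0).gateDepth_gate hi, C.gateDepth_gate hi]
    have hnode : ∀ a : Node N, (∀ j, a.wires j ≠ 0 → j < i) →
        (sub R x0 a).depth (frz C R x0).gateDepth ≤ a.depth C.gateDepth := by
      intro a ha
      rw [sub_depth]
      cases a with
      | var v => exact le_rfl
      | const b => exact le_rfl
      | gate j =>
        have hj := ha j (by simp [Node.wires])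
        exact ih j hj (by omega)
    have hw := C.gate_lt i hi
    show (frzGate C R x0 i).depth _ ≤ _
    unfold frzGate
    cases hg : C.gate i with
    | and a b =>
      rw [hg] at hw
      have h1 := hnode a (fun j hj => hw j (by simp only [Gate.wires]; omega))
      have h2 := hnode b (fun j hj => hw j (by simp only [Gate.wires]; omega))
      simp only [Gate.depth]
      omega
    | or a b =>
      rw [hg] at hw
      have h1 := hnode a (fun j hj => hw j (by simp only [Gate.wires]; omega))
      have h2 := hnode b (fun j hj => hw j (by simp only [Gate.wires]; omega))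
      simp only [Gate.depth]
      omega
    | not a =>
      simp only [Gate.depth, Node.depth]
      omega

lemma frz_node_depth (a : Node N) (ha : ∀ j, a.wires j ≠ 0 → j < C.size) :
    (sub R x0 a).depth (frz C R x0).gateDepth ≤ a.depth C.gateDepth := by
  rw [sub_depth]
  cases a with
  | var v => exact le_rfl
  | const b => exact le_rfl
  | gate j => exact frz_depth C R x0 j (ha j (by simp [Node.wires]))

lemma frz_val {D i : ℕ} (hi : i ≤ C.size) (w : Fin N → Bool)
    (h : ∀ j < i, tg C D j → C.val (mix R x0 w) j = C.val x0 j) :
    ∀ j < i, C.gateDepth j ≤ D → (frz C R x0).val w j = C.val (mix R x0 w) j := by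
  intro j
  induction j using Nat.strong_induction_on with
  | _ j ih =>
    intro hj hjD
    have hjs : j < C.size := by omega
    rw [(frz C R x0).val_gate hjs]
    show (frzGate C R x0 j).eval _ _ = _
    have hw := C.gate_lt j hjs
    have hd := C.gateDepth_gate hjs
    have hnode : ∀ a : Node N, (∀ l, a.wires l ≠ 0 → l < j) → a.depth C.gateDepth ≤ D →
        (sub R x0 a).eval w ((frz C R x0).val w) = a.eval (mix R x0 w) (C.val (mix R x0 w)) := by
      intro a ha had
      rw [sub_eval]
      cases a with
      | var v => rfl
      | const b => rfl
      | gate l =>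
        have hl := ha l (by simp [Node.wires])
        exact ih l hl (by omega) had
    unfold frzGate
    cases hg : C.gate j with
    | and a b =>
      rw [C.val_gate hjs (mix R x0 w)]
      rw [hg] at hw hd
      rw [hg]
      simp only [Gate.depth] at hd
      simp only [Gate.eval]
      rw [hnode a (fun l hl => hw l (by simp only [Gate.wires]; omega)) (by omega),
        hnode b (fun l hl => hw l (by simp only [Gate.wires]; omega)) (by omega)]
    | or a b =>
      rw [C.val_gate hjs (mix R x0 w)]
      rw [hg] at hw hd
      rw [hg]
      simp only [Gate.depth] at hd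
      simp only [Gate.eval]
      rw [hnode a (fun l hl => hw l (by simp only [Gate.wires]; omega)) (by omega),
        hnode b (fun l hl => hw l (by simp only [Gate.wires]; omega)) (by omega)]
    | not a =>
      simp only [Gate.eval, Node.eval, Bool.or_self]
      exact (h j hj ⟨by rw [hg]; rfl, hjD⟩).symm

lemma frz_node_val {D i : ℕ} (hi : i ≤ C.size) (w : Fin N → Bool)
    (h : ∀ j < i, tg C D j → C.val (mix R x0 w) j = C.val x0 j) (a : Node N)
    (ha : ∀ l, a.wires l ≠ 0 → l < i) (had : a.depth C.gateDepth ≤ D) :
    (sub R x0 a).eval w ((frz C R x0).val w) = a.eval (mix R x0 w) (C.val (mix R x0 w)) := by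
  rw [sub_eval]
  cases a with
  | var v => rfl
  | const b => rfl
  | gate l => exact frz_val C R x0 hi w h l (ha l (by simp [Node.wires])) had

/-- monotone circuits are monotone -/
lemma mono_val {C : Circuit N} (hC : C.Monotone) {x y : Fin N → Bool}
    (hxy : ∀ v, x v = true → y v = true) : ∀ i < C.size, C.val x i = true → C.val y i = true := by
  intro i
  induction i using Nat.strong_induction_on with
  | _ i ih =>
    intro hi
    rw [C.val_gate hi, C.val_gate hi]
    have hw := C.gate_lt i hi
    have hnode : ∀ a : Node N, (∀ l, a.wires l ≠ 0 → l < i) →
        a.eval x (C.val x) = true → a.eval y (C.val y) = true := by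
      intro a ha h
      cases a with
      | var v => exact hxy v h
      | const b => exact h
      | gate l =>
        have hl := ha l (by simp [Node.wires])
        exact ih l hl (by omega) h
    cases hg : C.gate i with
    | and a b =>
      rw [hg] at hw
      simp only [Gate.eval, Bool.and_eq_true]
      rintro ⟨h1, h2⟩
      exact ⟨hnode a (fun l hl => hw l (by simp only [Gate.wires]; omega)) h1,
        hnode b (fun l hl => hw l (by simp only [Gate.wires]; omega)) h2⟩
    | or a b =>
      rw [hg] at hw
      simp only [Gate.eval, Bool.or_eq_true]
      rintro (h1 | h1)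
      · exact Or.inl (hnode a (fun l hl => hw l (by simp only [Gate.wires]; omega)) h1)
      · exact Or.inr (hnode b (fun l hl => hw l (by simp only [Gate.wires]; omega)) h1)
    | not a => exact absurd hg (hC i hi a)

lemma mono_node {C : Circuit N} (hC : C.Monotone) {x y : Fin N → Bool}
    (hxy : ∀ v, x v = true → y v = true) (a : Node N) (ha : ∀ l, a.wires l ≠ 0 → l < C.size)
    (h : a.eval x (C.val x) = true) : a.eval y (C.val y) = true := by
  cases a with
  | var v => exact hxy v h
  | const b => exact h
  | gate l => exact mono_val hC hxy l (ha l (by simp [Node.wires])) h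

end frz

/-! ### the main lemma -/

/-- the operand of a NOT gate -/
def opd : Gate N → Node N
  | .and a _ => a
  | .or a _ => a
  | .not a => a

open Classical in
theorem freeze (C : Circuit N) {V : Type} {m : ℕ} (e : Fin m → V → Fin N)
    (he : ∀ j j' v v', e j v = e j' v' → j = j' ∧ v = v') (G : (V → Bool) → Bool)
    (hG0 : G (fun _ => false) = false)
    (hC : ∀ x : Fin N → Bool, (∀ i, (∀ j v, e j v ≠ i) → x i = false) →
      C.eval x = decide (∃ j, G (fun v => x (e j v)) = true))
    (hm : 2 ^ C.nots ≤ m) {a : ℕ} (ha : C.size + 1 ≤ 2 ^ a) :
    ∃ (j : Fin m) (C' : Circuit N), C'.Monotone ∧ C'.size + 1 ≤ C.size + 2 ^ a ∧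
      C'.depth ≤ C.depth + a ∧ ∀ w, C'.eval w = G (fun v => w (e j v)) := by
  set D := C.depth with hD
  -- the frozen copy
  have key : ∃ (j0 : Fin m) (x0 : Fin N → Bool),
      (∀ i, (∀ j < j0, ∀ v, e j v ≠ i) → x0 i = false) ∧
      (∀ j, G (fun v => x0 (e j v)) = false) ∧
      ∀ y : Fin N → Bool, (∀ i, (∀ v, e j0 v ≠ i) → y i = x0 i) →
        G (fun v => y (e j0 v)) = false → rk C D y C.size = rk C D x0 C.size := by
    by_contra hcon
    push Not at hcon
    have hchain : ∀ t ≤ m, ∃ x : Fin N → Bool,
        (∀ i, (∀ j : Fin m, j.1 < t → ∀ v, e j v ≠ i) → x i = false) ∧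
        (∀ j, G (fun v => x (e j v)) = false) ∧ t ≤ rk C D x C.size := by
      intro t
      induction t with
      | zero => exact fun _ => ⟨fun _ => false, fun _ _ => rfl, fun _ => hG0, Nat.zero_le _⟩
      | succ t ih =>
        intro ht
        obtain ⟨x, h1, h2, h3⟩ := ih (by omega)
        obtain ⟨y, g1, g2, g3⟩ := hcon ⟨t, by omega⟩ x (fun i hi => h1 i (fun j hj v =>
          hi j (by rw [Fin.lt_def]; exact hj) v)) h2
        refine ⟨y, ?_, ?_, ?_⟩
        · intro i hi
          rw [g1 i (fun v => hi ⟨t, by omega⟩ (by simp) v)]
          exact h1 i (fun j hj v => hi j (by omega) v)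
        · intro j
          by_cases hj : j = ⟨t, by omega⟩
          · rw [hj]; exact g2
          · rw [← h2 j]
            congr 1
            funext v
            refine g1 _ (fun v' hv' => hj ?_)
            exact ((he _ _ _ _ hv').1).symm
        · have hxy : ∀ v, x v = true → y v = true := by
            intro i hi
            by_cases hr : ∃ v, e ⟨t, by omega⟩ v = i
            · obtain ⟨v, hv⟩ := hr
              have : x i = false := h1 i (fun j hj v' hv' => by
                rw [← hv] at hv'
                have := (he _ _ _ _ hv').1
                rw [this] at hj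
                simp at hj)
              rw [this] at hi
              exact absurd hi (by decide)
            · push Not at hr
              rw [g1 i hr]; exact hi
          rcases rk_mono C D hxy C.size le_rfl with h | ⟨h, -⟩
          · omega
          · exact absurd h.symm g3
    obtain ⟨x, -, -, h3⟩ := hchain m le_rfl
    have h4 := rk_lt C D x C.size
    have h5 : 2 ^ ((range C.size).filter (fun j => (C.gate j).isNot = true)).card ≤ m := hm
    omega
  obtain ⟨j0, x0, h1, h2, h3⟩ := key
  set R : Fin N → Prop := fun i => ∃ v, e j0 v = i with hR
  have hx0R : ∀ i, R i → x0 i = false := by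
    rintro i ⟨v, rfl⟩
    refine h1 _ (fun j hj v' hv' => ?_)
    have := (he _ _ _ _ hv').1
    rw [this] at hj
    exact lt_irrefl _ hj
  have hmix0 : mix R x0 (fun _ => false) = x0 := by
    funext i
    unfold mix
    split_ifs with h
    · exact (hx0R i h).symm
    · rfl
  have hmixR : ∀ w i, ¬ R i → mix R x0 w i = x0 i := fun w i hi => by
    unfold mix; rw [if_neg hi]
  have hmixe : ∀ w v, mix R x0 w (e j0 v) = w (e j0 v) := fun w v => by
    unfold mix; rw [if_pos ⟨v, rfl⟩]
  have hother : ∀ w j, j ≠ j0 → (fun v => mix R x0 w (e j v)) = fun v => x0 (e j v) := by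
    intro w j hj
    funext v
    refine hmixR w _ ?_
    rintro ⟨v', hv'⟩
    exact hj ((he _ _ _ _ hv').1).symm
  have hCmix : ∀ w, C.eval (mix R x0 w) = G (fun v => w (e j0 v)) := by
    intro w
    rw [hC]
    · rw [Bool.eq_iff_iff, decide_eq_true_iff]
      constructor
      · rintro ⟨j, hj⟩
        by_cases hjj : j = j0
        · subst hjj
          rw [← hj]; congr 1; funext v; exact (hmixe w v).symm
        · rw [hother w j hjj, h2 j] at hj
          exact absurd hj (by decide)
      · intro h
        refine ⟨j0, ?_⟩
        rw [← h]; congr 1; funext v; exact hmixe w v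
    · intro i hi
      rw [hmixR w i (fun ⟨v, hv⟩ => hi j0 v hv)]
      exact h1 i (fun j _ v => hi j v)
  set Cf := frz C R x0 with hCf
  -- the nodes
  set T : ℕ → Prop := fun i => tg C D i ∧ C.val x0 i = true with hT
  set ν : Fin (C.size + 1) → Node N := fun i =>
    if i.1 < C.size ∧ T i.1 then sub R x0 (opd (C.gate i.1)) else sub R x0 C.out with hν
  have hTnot : ∀ i, tg C D i → ∃ b, C.gate i = .not b := by
    intro i hi
    have := hi.1
    cases hg : C.gate i with
    | and a b => rw [hg] at this; exact absurd this (by simp [Gate.isNot])
    | or a b => rw [hg] at this; exact absurd this (by simp [Gate.isNot])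
    | not b => exact ⟨b, rfl⟩
  obtain ⟨Fm', hFd, hFe⟩ := MDp.fOr (n := C.size + 1) (d := 0)
    (fun (i : Fin (C.size + 1)) (x : Fin (C.size + 1) → Bool) => x i) a (by simpa using ha)
    (fun i => MDp.var i 0)
  have hFe' : ∀ x : Fin (C.size + 1) → Bool, Fm'.eval x = true ↔ ∃ i, x i = true := by
    intro x
    rw [hFe]
    simp
  have hνw : ∀ i j, (ν i).wires j ≠ 0 → j < Cf.size := by
    intro i j hj
    simp only [hν] at hj
    split_ifs at hj with h
    · rw [sub_wires] at hj
      obtain ⟨b, hb⟩ := hTnot i.1 h.2.1
      rw [hb] at hj
      have := C.gate_lt i.1 h.1 j (by rw [hb]; exact hj)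
      exact this.trans h.1
    · rw [sub_wires] at hj
      exact C.out_lt j hj
  obtain ⟨P', -, q1, q2, q3, q4⟩ := mbuild Fm' Cf ν hνw
  refine ⟨j0, P', q2 (frz_mono' C R x0), ?_, ?_, ?_⟩
  · have h4 : 2 ^ Fm'.depth ≤ 2 ^ a := Nat.pow_le_pow_right (by norm_num) (by omega)
    have h5 : Cf.size = C.size := rfl
    omega
  · have h4 := q4 D (fun i => by
      simp only [hν]
      split_ifs with h
      · obtain ⟨b, hb⟩ := hTnot i.1 h.2.1
        rw [hb]
        simp only [opd]
        have h5 := frz_node_depth C R x0 b (fun j hj =>
          (C.gate_lt i.1 h.1 j (by rw [hb]; exact hj)).trans h.1)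
        have h6 := C.gateDepth_gate h.1
        rw [hb] at h6
        simp only [Gate.depth] at h6
        have h7 : C.gateDepth i.1 ≤ D := h.2.1.2
        exact h5.trans (by omega)
      · exact frz_node_depth C R x0 C.out C.out_lt)
    omega
  · intro w
    rw [q3 w, Bool.eq_iff_iff, hFe']
    have hout : ν (Fin.last C.size) = sub R x0 C.out := by
      simp only [hν]
      rw [if_neg]
      simp
    by_cases hall : ∀ j < C.size, tg C D j → C.val (mix R x0 w) j = C.val x0 j
    · -- no NOT gate changes
      have hoe : (sub R x0 C.out).eval w (Cf.val w) = C.eval (mix R x0 w) :=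
        frz_node_val C R x0 le_rfl w hall C.out C.out_lt le_rfl
      constructor
      · rintro ⟨i, hi⟩
        simp only [hν] at hi
        split_ifs at hi with h
        · exfalso
          obtain ⟨b, hb⟩ := hTnot i.1 h.2.1
          rw [hb] at hi
          simp only [opd] at hi
          have hbl : ∀ l, b.wires l ≠ 0 → l < i.1 := fun l hl =>
            C.gate_lt i.1 h.1 l (by rw [hb]; exact hl)
          have h6 := C.gateDepth_gate h.1
          rw [hb] at h6
          simp only [Gate.depth] at h6
          have h7 := h.2.1.2
          rw [frz_node_val C R x0 (le_of_lt h.1) w (fun j hj => hall j (by omega)) b hbl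
            (by omega)] at hi
          have h8 := hall i.1 h.1 h.2.1
          rw [h.2.2, C.val_gate h.1, hb] at h8
          simp only [Gate.eval] at h8
          rw [hi] at h8
          exact absurd h8 (by decide)
        · rw [hoe, hCmix] at hi
          exact hi
      · intro h
        refine ⟨Fin.last _, ?_⟩
        show (ν (Fin.last C.size)).eval w (Cf.val w) = true
        rw [hout, hoe, hCmix]; exact h
    · -- some NOT gate changes
      push Not at hall
      have hacc : G (fun v => w (e j0 v)) = true := by
        by_contra hc
        have hc' : G (fun v => w (e j0 v)) = false := by simpa using hc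
        have h4 := h3 (mix R x0 w) (fun i hi => hmixR w i (fun ⟨v, hv⟩ => hi v hv)) (by
          rw [← hc']; congr 1; funext v; exact hmixe w v)
        obtain ⟨j, hj, ht, hne⟩ := hall
        exact hne (rk_eq C D _ _ C.size h4 j hj ht)
      refine ⟨fun _ => hacc, fun _ => ?_⟩
      -- the first one
      have hex : ∃ j, j < C.size ∧ tg C D j ∧ C.val (mix R x0 w) j ≠ C.val x0 j := hall
      set i := Nat.find hex with hi
      obtain ⟨i1, i2, i3⟩ := Nat.find_spec hex
      rw [← hi] at i1 i2 i3
      have hbefore : ∀ j < i, tg C D j → C.val (mix R x0 w) j = C.val x0 j := by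
        intro j hj ht
        by_contra hc
        exact Nat.find_min hex hj ⟨by omega, ht, hc⟩
      obtain ⟨b, hb⟩ := hTnot i i2
      have hbl : ∀ l, b.wires l ≠ 0 → l < i := fun l hl =>
        C.gate_lt i i1 l (by rw [hb]; exact hl)
      have h6 := C.gateDepth_gate i1
      rw [hb] at h6
      simp only [Gate.depth] at h6
      have h7 := i2.2
      have e1 := frz_node_val C R x0 (le_of_lt i1) w hbefore b hbl (by omega)
      have e2 := frz_node_val C R x0 (i := i) (D := D) (le_of_lt i1) (fun _ => false)
        (by rw [hmix0]; exact fun _ _ _ => rfl) b hbl (by omega)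
      rw [hmix0] at e2
      have v1 := C.val_gate i1 (mix R x0 w)
      have v2 := C.val_gate i1 x0
      rw [hb] at v1 v2
      simp only [Gate.eval] at v1 v2
      have hmono := mono_node (frz_mono' C R x0) (x := fun _ => false) (y := w)
        (fun v hv => absurd hv (by simp)) (sub R x0 b) (fun l hl => by
          rw [sub_wires] at hl
          exact (hbl l hl).trans i1)
      have hval : C.val x0 i = true := by
        by_contra hc
        have hc' : C.val x0 i = false := by simpa using hc
        rw [hc'] at v2
        have h8 : b.eval x0 (C.val x0) = true := by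
          cases hbe : b.eval x0 (C.val x0) with
          | true => rfl
          | false => rw [hbe] at v2; exact absurd v2 (by decide)
        have h9 := hmono (by rw [e2]; exact h8)
        rw [e1] at h9
        rw [h9] at v1
        exact i3 (by rw [v1, hc']; rfl)
      refine ⟨⟨i, by omega⟩, ?_⟩
      have hνi : ν ⟨i, by omega⟩ = sub R x0 b := by
        simp only [hν]
        rw [if_pos ⟨i1, i2, hval⟩, hb]
        rfl
      show (ν ⟨i, by omega⟩).eval w (Cf.val w) = true
      rw [hνi, e1]
      cases hbe : b.eval (mix R x0 w) (C.val (mix R x0 w)) with
      | true => rfl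
      | false =>
        rw [hbe] at v1
        exact absurd (by rw [v1, hval]; rfl) i3

end Pool.Agent.H540R2.Lift
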