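import Mathlib
import Pool.Agent.H520R2.Raz3
import Pool.Agent.H540R2.Lift.Neg2
import Pool.Agent.H540R2.Build

/-!
# Monotone circuits of width two and the clique function
-/

set_option autoImplicit false
set_option linter.unusedSectionVars false

namespace Pool.Agent.H540R2.Lift

open Finset
open Pool.Agent.H520R2 (MProg MComp GB cliqueFn adjFn clique_mono_lower)

section dnf

variable {M : ℕ}

/-- one step of the evaluation of a DNF with two registers -/
def dstep (x : Fin M → Bool) (s : Bool × Bool) : Option (Fin M) → Bool × Bool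
  | some i => (s.1, s.2 && x i)
  | none => (s.1 || s.2, true)

/-- the first register before step `s` -/
def dpa (s : ℕ) : Node M := if s = 0 then .const false else .gate (2 * (s - 1))

/-- the second register before step `s` -/
def dpc (s : ℕ) : Node M := if s = 0 then .const false else .gate (2 * (s - 1) + 1)

/-- the new value of the first register -/
def dga (s : ℕ) : Option (Fin M) → Gate M
  | some _ => .or (dpa s) (.const false)
  | none => .or (dpa s) (dpc s)

/-- the new value of the second register -/
def dgc (s : ℕ) : Option (Fin M) → Gate M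
  | some i => .and (dpc s) (.var i)
  | none => .or (.const true) (.const true)

/-- the gates -/
def dgate (P : List (Option (Fin M))) (r : ℕ) : Gate M :=
  if r % 2 = 0 then dga (r / 2) (P.getD (r / 2) none) else dgc (r / 2) (P.getD (r / 2) none)

lemma dpa_wires {s j : ℕ} (h : (dpa s : Node M).wires j ≠ 0) : 0 < s ∧ j = 2 * (s - 1) := by
  unfold dpa at h
  split_ifs at h with h0
  · simp [Node.wires] at h
  · simp only [Node.wires, ne_eq, ite_eq_right_iff, one_ne_zero, imp_false, not_not] at h
    exact ⟨by omega, h.symm⟩

lemma dpc_wires {s j : ℕ} (h : (dpc s : Node M).wires j ≠ 0) : 0 < s ∧ j = 2 * (s - 1) + 1 := by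
  unfold dpc at h
  split_ifs at h with h0
  · simp [Node.wires] at h
  · simp only [Node.wires, ne_eq, ite_eq_right_iff, one_ne_zero, imp_false, not_not] at h
    exact ⟨by omega, h.symm⟩

lemma dgate_wires {P : List (Option (Fin M))} {r j : ℕ} (h : (dgate P r).wires j ≠ 0) :
    j / 2 + 1 = r / 2 := by
  have key : 0 < r / 2 ∧ (j = 2 * (r / 2 - 1) ∨ j = 2 * (r / 2 - 1) + 1) := by
    unfold dgate at h
    split_ifs at h with h0
    · cases hP : P.getD (r / 2) none with
      | none =>
        rw [hP] at h
        simp only [dga, Gate.wires] at h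
        by_cases h1 : (dpa (r / 2) : Node M).wires j ≠ 0
        · exact ⟨(dpa_wires h1).1, Or.inl (dpa_wires h1).2⟩
        · have h2 : (dpc (r / 2) : Node M).wires j ≠ 0 := by omega
          exact ⟨(dpc_wires h2).1, Or.inr (dpc_wires h2).2⟩
      | some i =>
        rw [hP] at h
        simp only [dga, Gate.wires] at h
        have h1 : (dpa (r / 2) : Node M).wires j ≠ 0 := by
          simpa [Node.wires] using h
        exact ⟨(dpa_wires h1).1, Or.inl (dpa_wires h1).2⟩
    · cases hP : P.getD (r / 2) none with
      | none =>
        rw [hP] at h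
        simp [dgc, Gate.wires, Node.wires] at h
      | some i =>
        rw [hP] at h
        simp only [dgc, Gate.wires] at h
        have h1 : (dpc (r / 2) : Node M).wires j ≠ 0 := by
          simpa [Node.wires] using h
        exact ⟨(dpc_wires h1).1, Or.inr (dpc_wires h1).2⟩
  omega

/-- the circuit -/
def dcirc (P : List (Option (Fin M))) (hP : 0 < P.length) : Circuit M where
  size := 2 * P.length
  gate := dgate P
  out := .gate (2 * (P.length - 1))
  gate_lt := fun i _ j hj => by
    have := dgate_wires hj
    omega
  out_lt := fun j hj => by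
    simp only [Node.wires, ne_eq, ite_eq_right_iff, one_ne_zero, imp_false, not_not] at hj
    omega

lemma dcirc_val (P : List (Option (Fin M))) (hP : 0 < P.length) (x : Fin M → Bool) :
    ∀ s < P.length, ((dcirc P hP).val x (2 * s), (dcirc P hP).val x (2 * s + 1)) =
      (P.take (s + 1)).foldl (dstep x) (false, false) := by
  intro s
  induction s with
  | zero =>
    intro hs
    rw [Circuit.val_gate _ (show 2 * 0 < 2 * P.length by omega),
      Circuit.val_gate _ (show 2 * 0 + 1 < 2 * P.length by omega)]
    obtain ⟨a, P', rfl⟩ : ∃ a P', P = a :: P' := by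
      cases P with
      | nil => simp at hP
      | cons a P' => exact ⟨a, P', rfl⟩
    cases a with
    | none => simp [dcirc, dgate, dga, dgc, dpa, dpc, Gate.eval, Node.eval, dstep]
    | some i => simp [dcirc, dgate, dga, dgc, dpa, dpc, Gate.eval, Node.eval, dstep]
  | succ s ih =>
    intro hs
    have h1 := ih (by omega)
    rw [List.take_add_one, List.foldl_append, ← h1]
    rw [Circuit.val_gate _ (show 2 * (s + 1) < 2 * P.length by omega),
      Circuit.val_gate _ (show 2 * (s + 1) + 1 < 2 * P.length by omega)]
    have e1 : 2 * (s + 1) / 2 = s + 1 := by omega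
    have e2 : (2 * (s + 1) + 1) / 2 = s + 1 := by omega
    have e3 : 2 * (s + 1) % 2 = 0 := by omega
    have e4 : ¬ (2 * (s + 1) + 1) % 2 = 0 := by omega
    have e5 : P[s + 1]? = some (P[s + 1]'hs) := List.getElem?_eq_getElem hs
    have e6 : P.getD (s + 1) none = P[s + 1]'hs := by
      rw [List.getD_eq_getElem?_getD, e5]; rfl
    have e7 : (dcirc P hP).gate (2 * (s + 1)) = dga (s + 1) (P[s + 1]'hs) := by
      show dgate P _ = _
      unfold dgate
      rw [if_pos e3, e1, e6]
    have e8 : (dcirc P hP).gate (2 * (s + 1) + 1) = dgc (s + 1) (P[s + 1]'hs) := by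
      show dgate P _ = _
      unfold dgate
      rw [if_neg e4, e2, e6]
    rw [e7, e8, e5]
    simp only [Option.toList_some, List.foldl_cons, List.foldl_nil]
    cases P[s + 1]'hs with
    | none => simp [dga, dgc, dpa, dpc, Gate.eval, Node.eval, dstep]
    | some i => simp [dga, dgc, dpa, dpc, Gate.eval, Node.eval, dstep]

lemma dcirc_eval (P : List (Option (Fin M))) (hP : 0 < P.length) (x : Fin M → Bool) :
    (dcirc P hP).eval x = (P.foldl (dstep x) (false, false)).1 := by
  have h := dcirc_val P hP x (P.length - 1) (by omega)
  rw [show P.length - 1 + 1 = P.length by omega, List.take_length] at h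
  rw [← h]
  rfl

lemma dcirc_mono (P : List (Option (Fin M))) (hP : 0 < P.length) : (dcirc P hP).Monotone := by
  intro i _ a h
  have h' : dgate P i = .not a := h
  unfold dgate at h'
  split_ifs at h' with h0
  · cases hPi : P.getD (i / 2) none with
    | none => rw [hPi] at h'; simp [dga] at h'
    | some i => rw [hPi] at h'; simp [dga] at h'
  · cases hPi : P.getD (i / 2) none with
    | none => rw [hPi] at h'; simp [dgc] at h'
    | some i => rw [hPi] at h'; simp [dgc] at h'

lemma dcirc_layered (P : List (Option (Fin M))) (hP : 0 < P.length) : (dcirc P hP).Layered 2 := by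
  refine ⟨P.length, fun r => r / 2 + 1, fun i hi => ?_, fun i _ j hj => ?_, ?_, fun l => ?_⟩
  · have : i < 2 * P.length := hi
    simp only
    omega
  · have := dgate_wires (P := P) hj
    simp only
    omega
  · refine ⟨2 * (P.length - 1), ?_, rfl, ?_⟩
    · show 2 * (P.length - 1) < 2 * P.length
      omega
    · simp only
      omega
  · have hsub : (range (dcirc P hP).size).filter (fun r => r / 2 + 1 = l) ⊆
        {2 * (l - 1), 2 * (l - 1) + 1} := by
      intro r hr
      have := (Finset.mem_filter.1 hr).2
      rw [Finset.mem_insert, Finset.mem_singleton]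
      omega
    exact (Finset.card_le_card hsub).trans Finset.card_le_two

/-- the instructions for a DNF -/
def dprog (T : List (List (Fin M))) : List (Option (Fin M)) :=
  none :: T.flatMap (fun t => t.map some ++ [none])

lemma foldl_term (x : Fin M → Bool) (t : List (Fin M)) (a c : Bool) :
    (t.map some ++ [none]).foldl (dstep x) (a, c) = (a || (c && t.all x), true) := by
  induction t generalizing c with
  | nil => simp [dstep]
  | cons i t ih =>
    simp only [List.map_cons, List.cons_append, List.foldl_cons, dstep, ih, List.all_cons,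
      Bool.and_assoc]

lemma foldl_terms (x : Fin M → Bool) (T : List (List (Fin M))) (a : Bool) :
    (T.flatMap (fun t => t.map some ++ [none])).foldl (dstep x) (a, true) =
      (a || T.any (fun t => t.all x), true) := by
  induction T generalizing a with
  | nil => simp
  | cons t T ih =>
    rw [List.flatMap_cons, List.foldl_append, foldl_term, ih]
    simp [Bool.or_assoc]

/-- monotone DNFs have monotone circuits of width two -/
lemma dnf2 (T : List (List (Fin M))) : ∃ C : Circuit M, C.Monotone ∧ C.Layered 2 ∧
    C.size = 2 * (1 + (T.map (fun t => t.length + 1)).sum) ∧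
    ∀ x, C.eval x = T.any (fun t => t.all x) := by
  have hP : 0 < (dprog T).length := by simp [dprog]
  refine ⟨dcirc (dprog T) hP, dcirc_mono _ _, dcirc_layered _ _, ?_, fun x => ?_⟩
  · show 2 * (dprog T).length = _
    simp only [dprog, List.length_cons, List.length_flatMap, List.length_append, List.length_map,
      List.length_nil]
    ring
  · rw [dcirc_eval]
    unfold dprog
    rw [List.foldl_cons, show dstep x (false, false) none = (false, true) from rfl, foldl_terms]
    simp

end dnf

section prog

variable {N : ℕ} {X : Type}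

/-- a monotone circuit as a straight-line program -/
lemma mprog_of (C : Circuit N) (hC : C.Monotone) (B : Set (X → Bool)) (inp : X → Fin N → Bool)
    (hin : ∀ i, (fun g => inp g i) ∈ B) (hc : ∀ b : Bool, (fun _ => b) ∈ B) :
    ∀ s ≤ C.size, ∃ L, MProg B L ∧ L.length ≤ s ∧
      ∀ i < s, (fun g => C.val (inp g) i) ∈ B ∨ (fun g => C.val (inp g) i) ∈ L := by
  intro s
  induction s with
  | zero => exact fun _ => ⟨[], MProg.nil, le_rfl, fun i hi => absurd hi (Nat.not_lt_zero _)⟩
  | succ s ih =>
    intro hs
    obtain ⟨L, h1, h2, h3⟩ := ih (by omega)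
    have hnode : ∀ a : Node N, (∀ j, a.wires j ≠ 0 → j < s) →
        (fun g => a.eval (inp g) (C.val (inp g))) ∈ B ∨
          (fun g => a.eval (inp g) (C.val (inp g))) ∈ L := by
      intro a ha
      cases a with
      | var i => exact Or.inl (hin i)
      | const b => exact Or.inl (hc b)
      | gate j => exact h3 j (ha j (by simp [Node.wires]))
    have hlt := C.gate_lt s (by omega)
    have hval : ∀ g, C.val (inp g) s = (C.gate s).eval (inp g) (C.val (inp g)) := fun g =>
      Circuit.val_gate C (by omega) _
    cases hg : C.gate s with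
    | not a => exact absurd hg (hC s (by omega) a)
    | and a b =>
      rw [hg] at hlt
      simp only [hg, Gate.eval] at hval
      have ha := hnode a (fun j hj => hlt j (by simp only [Gate.wires]; omega))
      have hb := hnode b (fun j hj => hlt j (by simp only [Gate.wires]; omega))
      refine ⟨_ :: L, MProg.and h1 ha hb, by simpa using h2, fun i hi => ?_⟩
      rcases Nat.lt_or_ge i s with h | h
      · rcases h3 i h with h4 | h4
        · exact Or.inl h4
        · exact Or.inr (List.mem_cons_of_mem _ h4)
      · have : i = s := by omega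
        subst this
        refine Or.inr ?_
        rw [funext hval]
        exact List.mem_cons_self
    | or a b =>
      rw [hg] at hlt
      simp only [hg, Gate.eval] at hval
      have ha := hnode a (fun j hj => hlt j (by simp only [Gate.wires]; omega))
      have hb := hnode b (fun j hj => hlt j (by simp only [Gate.wires]; omega))
      refine ⟨_ :: L, MProg.or h1 ha hb, by simpa using h2, fun i hi => ?_⟩
      rcases Nat.lt_or_ge i s with h | h
      · rcases h3 i h with h4 | h4
        · exact Or.inl h4
        · exact Or.inr (List.mem_cons_of_mem _ h4)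
      · have : i = s := by omega
        subst this
        refine Or.inr ?_
        rw [funext hval]
        exact List.mem_cons_self

/-- the disjunction of available functions -/
lemma mprog_or {B : Set (X → Bool)} {L : List (X → Bool)} (h1 : MProg B L)
    (hfalse : (fun _ => false) ∈ B) : ∀ (F : List (X → Bool)), (∀ f ∈ F, f ∈ B ∨ f ∈ L) →
    ∃ L', MProg B L' ∧ L'.length ≤ L.length + F.length ∧ (∀ f ∈ L, f ∈ L') ∧
      ((fun g => F.any (fun f => f g)) ∈ B ∨ (fun g => F.any (fun f => f g)) ∈ L') := by
  intro F
  induction F with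
  | nil => exact fun _ => ⟨L, h1, by simp, fun f hf => hf, Or.inl (by simpa using hfalse)⟩
  | cons f F ih =>
    intro hF
    obtain ⟨L', a1, a2, a3, a4⟩ := ih (fun f' hf' => hF f' (List.mem_cons_of_mem _ hf'))
    have hf : f ∈ B ∨ f ∈ L' := by
      rcases hF f List.mem_cons_self with h | h
      · exact Or.inl h
      · exact Or.inr (a3 f h)
    refine ⟨_ :: L', MProg.or a1 hf a4, ?_, fun f' hf' => List.mem_cons_of_mem _ (a3 f' hf'),
      Or.inr ?_⟩
    · simp only [List.length_cons]; omega
    · simp only [List.any_cons]
      exact List.mem_cons_self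

end prog

section clique

/-- the graph with the arcs `x` contains a clique on `k` vertices -/
def KF {v : ℕ} (k : ℕ) (x : Fin v × Fin v → Bool) : Bool :=
  decide (∃ S : Finset (Fin v), S.card = k ∧ ∀ a ∈ S, ∀ b ∈ S, a ≠ b → x (a, b) = true)

lemma KF_false {v k : ℕ} (hk : 2 ≤ k) : KF k (fun _ : Fin v × Fin v => false) = false := by
  unfold KF
  rw [decide_eq_false_iff_not]
  rintro ⟨S, h1, h2⟩
  obtain ⟨a, ha, b, hb, hab⟩ := Finset.one_lt_card.1 (show 1 < S.card by omega)
  exact absurd (h2 a ha b hb hab) Bool.false_ne_true

open Classical in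
/-- the lower bound of Razborov for one block -/
lemma klower {N v k m' : ℕ} (hk : 4 ≤ k) (hv : 200 * k ^ 4 ≤ v) (C : Circuit N)
    (hmono : C.Monotone) (e : Fin v × Fin v → Fin N) (he : Function.Injective e)
    (ν : Fin m' → Node N) (hν : ∀ i j, (ν i).wires j ≠ 0 → j < C.size)
    (hF : ∀ x : Fin N → Bool, KF k (fun p => x (e p)) = true ↔
      ∃ i, (ν i).eval x (C.val x) = true) :
    2 ^ Nat.sqrt k ≤ C.size + m' := by
  set inp : SimpleGraph (Fin v) → Fin N → Bool := fun G i =>
    if h : ∃ p, e p = i then decide (G.Adj h.choose.1 h.choose.2) else false with hinp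
  have hin : ∀ i, (fun G => inp G i) ∈ GB (Fin v) := by
    intro i
    by_cases h : ∃ p, e p = i
    · refine Or.inr ⟨h.choose.1, h.choose.2, ?_⟩
      funext G
      simp only [hinp, dif_pos h]
      rfl
    · refine Or.inl ⟨false, ?_⟩
      funext G
      simp only [hinp, dif_neg h]
  obtain ⟨L, a1, a2, a3⟩ := mprog_of C hmono (GB (Fin v)) inp hin (fun b => Or.inl ⟨b, rfl⟩)
    C.size le_rfl
  have hnode : ∀ a : Node N, (∀ j, a.wires j ≠ 0 → j < C.size) →
      (fun g => a.eval (inp g) (C.val (inp g))) ∈ GB (Fin v) ∨
        (fun g => a.eval (inp g) (C.val (inp g))) ∈ L := by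
    intro a ha
    cases a with
    | var i => exact Or.inl (hin i)
    | const b => exact Or.inl (Or.inl ⟨b, rfl⟩)
    | gate j => exact a3 j (ha j (by simp [Node.wires]))
  obtain ⟨L', b1, b2, -, b4⟩ := mprog_or a1 (Or.inl ⟨false, rfl⟩ : (fun _ => false) ∈ GB (Fin v))
    ((List.ofFn ν).map (fun a g => a.eval (inp g) (C.val (inp g)))) (by
      intro f hf
      rw [List.mem_map] at hf
      obtain ⟨a, ha, rfl⟩ := hf
      rw [List.mem_ofFn] at ha
      obtain ⟨i, rfl⟩ := ha
      exact hnode _ (hν i))
  have hfun : (fun g => ((List.ofFn ν).map (fun (a : Node N) g => a.eval (inp g)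
      (C.val (inp g)))).any (fun f => f g)) = cliqueFn (Fin v) k := by
    funext G
    have h1 : (((List.ofFn ν).map (fun (a : Node N) g => a.eval (inp g)
        (C.val (inp g)))).any (fun f => f G)) = true ↔ ∃ i, (ν i).eval (inp G)
        (C.val (inp G)) = true := by
      rw [List.any_eq_true]
      constructor
      · rintro ⟨f, hf, h⟩
        rw [List.mem_map] at hf
        obtain ⟨a, ha, rfl⟩ := hf
        rw [List.mem_ofFn] at ha
        obtain ⟨i, rfl⟩ := ha
        exact ⟨i, h⟩
      · rintro ⟨i, h⟩
        exact ⟨_, List.mem_map.2 ⟨ν i, by rw [List.mem_ofFn]; exact ⟨i, rfl⟩, rfl⟩, h⟩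
    have h2 : (fun p => inp G (e p)) = fun p => decide (G.Adj p.1 p.2) := by
      funext p
      have h : ∃ p', e p' = e p := ⟨p, rfl⟩
      simp only [hinp, dif_pos h]
      rw [he h.choose_spec]
    rw [Bool.eq_iff_iff, h1, ← hF, h2]
    simp only [KF, cliqueFn, decide_eq_true_eq]
    rw [SimpleGraph.CliqueFree]
    push Not
    constructor
    · rintro ⟨S, s1, s2⟩
      refine ⟨S, ?_⟩
      rw [SimpleGraph.isNClique_iff]
      exact ⟨fun a ha b hb hab => s2 a ha b hb hab, s1⟩
    · rintro ⟨S, hS⟩
      rw [SimpleGraph.isNClique_iff] at hS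
      exact ⟨S, hS.2, fun a ha b hb hab => hS.1 ha hb hab⟩
  rw [hfun] at b4
  refine clique_mono_lower (W := Fin v) (k := k) (s := C.size + m') (by simpa using hv)
    ⟨L', b1, ?_, b4⟩ hk
  simp only [List.length_map, List.length_ofFn] at b2
  omega

end clique

end Pool.Agent.H540R2.Lift
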