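import Mathlib

/-!
# Blockwise dense sets and density restoration
-/

set_option autoImplicit false
set_option linter.unusedSectionVars false

namespace Pool.Agent.H540R2.Lift

open Finset

variable {U A : Type} [Fintype U] [DecidableEq U] [Fintype A] [DecidableEq A]

/-- points of `P` that agree with `β` on `J` -/
def fix (P : Finset (U → A)) (J : Finset U) (β : U → A) : Finset (U → A) :=
  P.filter (fun x => ∀ u ∈ J, x u = β u)

/-- `P` is blockwise dense off `I` -/
def Dense (b : ℕ) (P : Finset (U → A)) (I : Finset U) : Prop :=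
  P.Nonempty ∧ ∀ J : Finset U, Disjoint J I → ∀ β : U → A,
    (fix P J β).card * b ^ J.card ≤ P.card

lemma card_fix (P : Finset (U → A)) (J : Finset U) (β : U → A) :
    (fix P J β).card * Fintype.card A ^ J.card ≤ Fintype.card A ^ Fintype.card U := by
  classical
  have h : ((fix P J β) ×ˢ (univ : Finset (J → A))).card ≤ (univ : Finset (U → A)).card := by
    apply Finset.card_le_card_of_injOn
      (fun p : (U → A) × (J → A) => fun u => if h : u ∈ J then p.2 ⟨u, h⟩ else p.1 u)
    · intro _ _; simp
    · rintro ⟨x, g⟩ hx ⟨x', g'⟩ hx' h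
      simp only [coe_product, Set.mem_prod, mem_coe, fix, mem_filter] at hx hx'
      have hx1 := hx.1.2
      have hx2 := hx'.1.2
      have h' : ∀ u, (if h : u ∈ J then g ⟨u, h⟩ else x u) =
          (if h : u ∈ J then g' ⟨u, h⟩ else x' u) := fun u => congrFun h u
      refine Prod.ext ?_ ?_
      · funext u
        by_cases hu : u ∈ J
        · exact (hx1 u hu).trans (hx2 u hu).symm
        · have := h' u
          simpa [hu] using this
      · funext u
        have := h' u.1
        simpa [u.2] using this
  rw [card_product] at h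
  simpa using h

lemma fix_fix (E : Finset (U → A)) (J J' : Finset U) (β β' : U → A) (hJ : Disjoint J' J) :
    fix (fix E J β) J' β' = fix E (J ∪ J') (fun u => if u ∈ J' then β' u else β u) := by
  ext x
  simp only [fix, mem_filter, mem_union]
  constructor
  · rintro ⟨⟨h1, h2⟩, h3⟩
    refine ⟨h1, fun u hu => ?_⟩
    by_cases hu' : u ∈ J'
    · simp [hu', h3 u hu']
    · rcases hu with hu | hu
      · simp [hu', h2 u hu]
      · exact absurd hu hu'
  · rintro ⟨h1, h2⟩
    refine ⟨⟨h1, fun u hu => ?_⟩, fun u hu => ?_⟩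
    · have hu' : u ∉ J' := fun h => (Finset.disjoint_left.1 hJ h) hu
      simpa [hu'] using h2 u (Or.inl hu)
    · simpa [hu] using h2 u (Or.inr hu)

/-- **density restoration** -/
lemma restore (b : ℕ) (E : Finset (U → A)) (hE : E.Nonempty) (I₀ : Finset U) :
    ∃ (J : Finset U) (β : U → A), Disjoint J I₀ ∧
      E.card ≤ (fix E J β).card * b ^ J.card ∧ Dense b (fix E J β) (I₀ ∪ J) := by
  classical
  let S : Finset (Finset U) := univ.filter (fun J => Disjoint J I₀ ∧
    ∃ β : U → A, E.card ≤ (fix E J β).card * b ^ J.card)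
  obtain ⟨x0, hx0⟩ := hE
  have h0 : ∅ ∈ S := by
    simp only [S, mem_filter, mem_univ, true_and]
    refine ⟨disjoint_empty_left _, x0, ?_⟩
    simp [fix]
  obtain ⟨J, hJ, hmax⟩ := S.exists_max_image card ⟨∅, h0⟩
  simp only [S, mem_filter, mem_univ, true_and] at hJ
  obtain ⟨hd, β, hβ⟩ := hJ
  refine ⟨J, β, hd, hβ, ?_, ?_⟩
  · rw [← Finset.card_pos]
    have hEc : 0 < E.card := Finset.card_pos.2 ⟨x0, hx0⟩
    by_contra hc
    have : (fix E J β).card = 0 := by omega
    rw [this] at hβ
    omega
  · intro J' hJ' β'
    by_contra hc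
    push Not at hc
    have hJJ : Disjoint J' J := Finset.disjoint_of_subset_right subset_union_right hJ'
    have hJI : Disjoint J' I₀ := Finset.disjoint_of_subset_right subset_union_left hJ'
    rw [fix_fix E J J' β β' hJJ] at hc
    have hcard : (J ∪ J').card = J.card + J'.card := Finset.card_union_of_disjoint hJJ.symm
    have hmem : J ∪ J' ∈ S := by
      simp only [S, mem_filter, mem_univ, true_and]
      refine ⟨Finset.disjoint_union_left.2 ⟨hd, hJI⟩,
        fun u => if u ∈ J' then β' u else β u, ?_⟩
      · rw [hcard, pow_add]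
        calc E.card ≤ (fix E J β).card * b ^ J.card := hβ
          _ ≤ ((fix E (J ∪ J') (fun u => if u ∈ J' then β' u else β u)).card * b ^ J'.card) *
              b ^ J.card := Nat.mul_le_mul_right _ hc.le
          _ = _ := by ring
    have hle := hmax _ hmem
    rw [hcard] at hle
    have hJ0 : J' = ∅ := by
      rw [← Finset.card_eq_zero]; omega
    subst hJ0
    simp at hc

lemma restore_small {b q : ℕ} (hb : 1 ≤ b) (hA : Fintype.card A = b ^ 2) (E : Finset (U → A))
    (hE : Fintype.card A ^ Fintype.card U < E.card * b ^ (q + 1)) :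
    ∃ (J : Finset U) (β : U → A), J.card ≤ q ∧ Dense b (fix E J β) J := by
  have hne : E.Nonempty := by
    rw [← Finset.card_pos]
    by_contra hc
    have : E.card = 0 := by omega
    rw [this] at hE
    omega
  obtain ⟨J, β, -, h1, h2⟩ := restore b E hne ∅
  rw [empty_union] at h2
  refine ⟨J, β, ?_, h2⟩
  have h3 := card_fix E J β
  by_contra hc
  push Not at hc
  have hbp : 0 < b ^ J.card := pow_pos (by omega) _
  have h4 : (fix E J β).card * (b ^ J.card * b ^ J.card) ≤ Fintype.card A ^ Fintype.card U := by
    calc (fix E J β).card * (b ^ J.card * b ^ J.card)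
        = (fix E J β).card * Fintype.card A ^ J.card := by rw [hA]; ring
      _ ≤ _ := h3
  have h5 : E.card * b ^ (q + 1) ≤ E.card * b ^ J.card :=
    Nat.mul_le_mul_left _ (Nat.pow_le_pow_right hb hc)
  have h6 : E.card * b ^ J.card ≤ (fix E J β).card * (b ^ J.card * b ^ J.card) := by
    calc E.card * b ^ J.card ≤ ((fix E J β).card * b ^ J.card) * b ^ J.card :=
          Nat.mul_le_mul_right _ h1
      _ = _ := by ring
  omega

end Pool.Agent.H540R2.Lift
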