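import Mathlib

/-!
# The moment bound for spread families
-/

set_option autoImplicit false
set_option linter.unusedSectionVars false

namespace Pool.Agent.H540R2.Lift

open Finset

section zero

variable {Pos S : Type} [Fintype Pos] [DecidableEq Pos] [Fintype S] [DecidableEq S]

lemma sum_update (p : Pos) (h : (Pos → S) → ℝ) :
    ∑ y : Pos → S, ∑ s : S, h (Function.update y p s) = Fintype.card S * ∑ y, h y := by
  classical
  have e1 : ∑ y : Pos → S, ∑ s : S, h (Function.update y p s) =
      ∑ q : (Pos → S) × S, h (Function.update q.1 p q.2) := by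
    rw [Fintype.sum_prod_type]
  have hinv : Function.Involutive
      (fun q : (Pos → S) × S => (Function.update q.1 p q.2, q.1 p)) := by
    rintro ⟨y, s⟩
    simp
  have e2 : ∑ q : (Pos → S) × S, h (Function.update q.1 p q.2) =
      ∑ q : (Pos → S) × S, h q.1 :=
    Equiv.sum_comp hinv.toPerm (fun q : (Pos → S) × S => h q.1)
  rw [e1, e2, Fintype.sum_prod_type]
  simp [Finset.mul_sum]

lemma sum_eq_zero_of_update [Nonempty S] (p : Pos) (h : (Pos → S) → ℝ)
    (hz : ∀ y, ∑ s : S, h (Function.update y p s) = 0) : ∑ y, h y = 0 := by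
  have h1 := sum_update p h
  simp only [hz, Finset.sum_const_zero] at h1
  have h2 : (Fintype.card S : ℝ) ≠ 0 := by
    exact_mod_cast Fintype.card_ne_zero
  rcases mul_eq_zero.1 h1.symm with h3 | h3
  · exact absurd h3 h2
  · exact h3

end zero

section

variable {Pos S ι : Type} [Fintype Pos] [DecidableEq Pos] [Fintype S] [DecidableEq S]
  (pos : ι → Finset Pos)

/-- union of the position sets -/
def V : List ι → Finset Pos
  | [] => ∅
  | i :: l => pos i ∪ V l

/-- number of repeated positions -/
def csum : List ι → ℕ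
  | [] => 0
  | i :: l => (pos i ∩ V pos l).card + csum l

/-- number of positions with multiplicity -/
def jsum : List ι → ℕ
  | [] => 0
  | i :: l => (pos i).card + jsum l

/-- multiplicity of a position -/
def cnt (p : Pos) : List ι → ℕ
  | [] => 0
  | i :: l => (if p ∈ pos i then 1 else 0) + cnt p l

lemma jsum_eq (l : List ι) : jsum pos l = csum pos l + (V pos l).card := by
  induction l with
  | nil => simp [jsum, csum, V]
  | cons i l ih =>
    simp only [jsum, csum, V]
    have := Finset.card_union_add_card_inter (pos i) (V pos l)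
    omega

lemma cnt_pos {p : Pos} {l : List ι} (h : p ∈ V pos l) : 1 ≤ cnt pos p l := by
  induction l with
  | nil => simp [V] at h
  | cons i l ih =>
    simp only [V, mem_union] at h
    simp only [cnt]
    rcases h with h | h
    · simp [h]
    · have := ih h; omega

lemma cnt_zero {p : Pos} {l : List ι} (h : p ∉ V pos l) : cnt pos p l = 0 := by
  induction l with
  | nil => rfl
  | cons i l ih =>
    simp only [V, mem_union, not_or] at h
    simp [cnt, h.1, ih h.2]

lemma sum_cnt (l : List ι) : ∑ p, cnt pos p l = jsum pos l := by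
  induction l with
  | nil => simp [cnt, jsum]
  | cons i l ih =>
    simp only [cnt, jsum]
    rw [Finset.sum_add_distrib, ih]
    simp

lemma two_V_le {l : List ι} (h : ∀ p ∈ V pos l, cnt pos p l ≠ 1) :
    2 * (V pos l).card ≤ jsum pos l := by
  rw [← sum_cnt]
  calc 2 * (V pos l).card = ∑ p ∈ V pos l, 2 := by simp [mul_comm]
    _ ≤ ∑ p ∈ V pos l, cnt pos p l := by
        apply Finset.sum_le_sum
        intro p hp
        have h1 := cnt_pos pos hp
        have h2 := h p hp
        omega
    _ ≤ ∑ p, cnt pos p l := Finset.sum_le_sum_of_subset (Finset.subset_univ _)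

lemma length_le_jsum {l : List ι} (h : ∀ i ∈ l, (pos i).Nonempty) : l.length ≤ jsum pos l := by
  induction l with
  | nil => simp [jsum]
  | cons i l ih =>
    simp only [jsum, List.length_cons]
    have h1 := ih (fun i hi => h i (List.mem_cons_of_mem _ hi))
    have h2 : 0 < (pos i).card := Finset.card_pos.2 (h i (List.mem_cons_self))
    omega

lemma V_card_le {Q : ℕ} {l : List ι} (h : ∀ i ∈ l, (pos i).card ≤ Q) :
    (V pos l).card ≤ l.length * Q := by
  induction l with
  | nil => simp [V]
  | cons i l ih =>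
    simp only [V, List.length_cons]
    have h1 := ih (fun i hi => h i (List.mem_cons_of_mem _ hi))
    have h2 := h i (List.mem_cons_self)
    have h3 := Finset.card_union_le (pos i) (V pos l)
    calc (pos i ∪ V pos l).card ≤ (pos i).card + (V pos l).card := h3
      _ ≤ Q + l.length * Q := by omega
      _ = (l.length + 1) * Q := by ring

variable (Φ : ι → (Pos → S) → ℝ)

/-- product -/
def Ψ (y : Pos → S) : List ι → ℝ
  | [] => 1
  | i :: l => Φ i y * Ψ y l

variable {Φ}

lemma Ψ_indep {p : Pos} (hb : ∀ i, p ∉ pos i → ∀ y s, Φ i (Function.update y p s) = Φ i y)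
    {l : List ι} (h : cnt pos p l = 0) (y : Pos → S) (s : S) :
    Ψ Φ (Function.update y p s) l = Ψ Φ y l := by
  induction l with
  | nil => rfl
  | cons i l ih =>
    simp only [cnt] at h
    have hi : p ∉ pos i := by
      intro hc; simp [hc] at h
    have hl : cnt pos p l = 0 := by omega
    simp only [Ψ]
    rw [hb i hi, ih hl]

lemma Ψ_zero {p : Pos} (hb : ∀ i, p ∉ pos i → ∀ y s, Φ i (Function.update y p s) = Φ i y)
    (hc : ∀ i, p ∈ pos i → ∀ y, ∑ s, Φ i (Function.update y p s) = 0)
    {l : List ι} (h : cnt pos p l = 1) (y : Pos → S) :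
    ∑ s, Ψ Φ (Function.update y p s) l = 0 := by
  induction l with
  | nil => simp [cnt] at h
  | cons i l ih =>
    simp only [cnt] at h
    simp only [Ψ]
    by_cases hi : p ∈ pos i
    · have hl : cnt pos p l = 0 := by simp [hi] at h; exact h
      simp only [Ψ_indep pos hb hl]
      rw [← Finset.sum_mul, hc i hi, zero_mul]
    · have hl : cnt pos p l = 1 := by simpa [hi] using h
      simp only [hb i hi]
      rw [← Finset.mul_sum, ih hl, mul_zero]

lemma Ψ_abs {κ : ℝ} (hκ : 0 ≤ κ) {l : List ι} (y : Pos → S)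
    (ha : ∀ i ∈ l, |Φ i y| ≤ κ ^ (pos i).card) : |Ψ Φ y l| ≤ κ ^ jsum pos l := by
  induction l with
  | nil => simp [Ψ, jsum]
  | cons i l ih =>
    simp only [Ψ, jsum]
    rw [abs_mul, pow_add]
    exact mul_le_mul (ha i List.mem_cons_self)
      (ih (fun i hi => ha i (List.mem_cons_of_mem _ hi))) (abs_nonneg _) (by positivity)

lemma spread_sum (B : Finset ι) {b D lam : ℝ} (hb : 0 < b) (hlam : 0 ≤ lam)
    (he : ∀ T : Finset Pos, (((B.filter (fun i => T ⊆ pos i)).card : ℝ)) * b ^ T.card ≤ D)
    (W : Finset Pos) : ∑ i ∈ B, lam ^ (pos i ∩ W).card ≤ D * (1 + lam / b) ^ W.card := by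
  have h1 : ∀ i ∈ B, lam ^ (pos i ∩ W).card ≤
      ∑ T ∈ W.powerset, if T ⊆ pos i then lam ^ T.card else 0 := by
    intro i _
    have hmem : pos i ∩ W ∈ W.powerset := Finset.mem_powerset.2 Finset.inter_subset_right
    have := Finset.single_le_sum (s := W.powerset)
      (f := fun T => if T ⊆ pos i then lam ^ T.card else 0)
      (fun T _ => by split_ifs <;> positivity) hmem
    simpa using this
  calc ∑ i ∈ B, lam ^ (pos i ∩ W).card
      ≤ ∑ i ∈ B, ∑ T ∈ W.powerset, (if T ⊆ pos i then lam ^ T.card else 0) :=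
        Finset.sum_le_sum h1
    _ = ∑ T ∈ W.powerset, ∑ i ∈ B, (if T ⊆ pos i then lam ^ T.card else 0) :=
        Finset.sum_comm
    _ = ∑ T ∈ W.powerset, ((B.filter (fun i => T ⊆ pos i)).card : ℝ) * lam ^ T.card := by
        apply Finset.sum_congr rfl
        intro T _
        rw [← Finset.sum_filter, Finset.sum_const, nsmul_eq_mul]
    _ ≤ ∑ T ∈ W.powerset, D * (lam / b) ^ T.card := by
        apply Finset.sum_le_sum
        intro T _
        have hbT : 0 < b ^ T.card := by positivity
        have h2 := he T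
        rw [div_pow]
        have h3 : ((B.filter (fun i => T ⊆ pos i)).card : ℝ) ≤ D / b ^ T.card := by
          rw [le_div_iff₀ hbT]; exact h2
        calc ((B.filter (fun i => T ⊆ pos i)).card : ℝ) * lam ^ T.card
            ≤ (D / b ^ T.card) * lam ^ T.card :=
              mul_le_mul_of_nonneg_right h3 (by positivity)
          _ = D * (lam ^ T.card / b ^ T.card) := by ring
    _ = D * (1 + lam / b) ^ W.card := by
        rw [← Finset.mul_sum]
        congr 1
        have := Finset.prod_one_add (s := W) (f := fun _ => lam / b)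
        simp only [Finset.prod_const] at this
        rw [this]

/-- **The moment bound.** -/
theorem moment [Nonempty S] (B : Finset ι) {κ θ b D : ℝ} {Q r : ℕ}
    (ha : ∀ i ∈ B, ∀ y, |Φ i y| ≤ κ ^ (pos i).card)
    (hb : ∀ i p, p ∉ pos i → ∀ y s, Φ i (Function.update y p s) = Φ i y)
    (hc : ∀ i p, p ∈ pos i → ∀ y, ∑ s, Φ i (Function.update y p s) = 0)
    (hd : ∀ i ∈ B, (pos i).Nonempty) (hd' : ∀ i ∈ B, (pos i).card ≤ Q)
    (he : ∀ T : Finset Pos, (((B.filter (fun i => T ⊆ pos i)).card : ℝ)) * b ^ T.card ≤ D)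
    (hκ : 1 ≤ κ) (hθ : 1 ≤ θ) (hb0 : 0 < b) :
    ∑ y, (∑ i ∈ B, Φ i y) ^ (2 * r) ≤
      Fintype.card (Pos → S) * (θ ^ r)⁻¹ * (D * (1 + κ ^ 2 * θ / b) ^ (2 * r * Q)) ^ (2 * r) := by
  set lam : ℝ := κ ^ 2 * θ with hlam
  set C : ℝ := D * (1 + lam / b) ^ (2 * r * Q) with hC
  have hlam0 : 0 ≤ lam := by positivity
  have hD : 0 ≤ D := by
    have := he ∅
    simp only [Finset.card_empty, pow_zero, mul_one] at this
    exact le_trans (by positivity) this
  have hC0 : 0 ≤ C := by positivity
  have hθr : 0 < θ ^ r := by positivity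
  have key : ∀ t : ℕ, ∀ l : List ι, (∀ i ∈ l, i ∈ B) → l.length + t = 2 * r →
      |∑ y, Ψ Φ y l * (∑ i ∈ B, Φ i y) ^ t| ≤
        Fintype.card (Pos → S) * (θ ^ r)⁻¹ * lam ^ csum pos l * C ^ t := by
    intro t
    induction t with
    | zero =>
      intro l hl hlen
      simp only [pow_zero, mul_one]
      by_cases hex : ∃ p ∈ V pos l, cnt pos p l = 1
      · obtain ⟨p, -, hp⟩ := hex
        rw [sum_eq_zero_of_update p (fun y => Ψ Φ y l)
          (fun y => Ψ_zero pos (fun i => hb i p) (fun i => hc i p) hp y), abs_zero]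
        positivity
      · push Not at hex
        have h1 := two_V_le pos hex
        have h2 := jsum_eq pos l
        have h3 := length_le_jsum pos (fun i hi => hd i (hl i hi))
        have h4 : jsum pos l ≤ 2 * csum pos l := by omega
        have h5 : r ≤ csum pos l := by omega
        have h6 : ∀ y, |Ψ Φ y l| ≤ (θ ^ r)⁻¹ * lam ^ csum pos l := by
          intro y
          have h7 := Ψ_abs pos (by linarith) y (fun i hi => ha i (hl i hi) y)
          have h8 : κ ^ jsum pos l ≤ κ ^ (2 * csum pos l) := pow_le_pow_right₀ hκ h4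
          have h9 : θ ^ r ≤ θ ^ csum pos l := pow_le_pow_right₀ hθ h5
          have h10 : (1 : ℝ) ≤ (θ ^ r)⁻¹ * θ ^ csum pos l := by
            rw [inv_mul_eq_div, le_div_iff₀ hθr]; linarith
          calc |Ψ Φ y l| ≤ κ ^ (2 * csum pos l) := h7.trans h8
            _ = κ ^ (2 * csum pos l) * 1 := (mul_one _).symm
            _ ≤ κ ^ (2 * csum pos l) * ((θ ^ r)⁻¹ * θ ^ csum pos l) :=
                mul_le_mul_of_nonneg_left h10 (by positivity)
            _ = (θ ^ r)⁻¹ * lam ^ csum pos l := by
                rw [hlam, mul_pow, ← pow_mul]; ring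
        calc |∑ y, Ψ Φ y l| ≤ ∑ y, |Ψ Φ y l| := Finset.abs_sum_le_sum_abs _ _
          _ ≤ ∑ y : Pos → S, (θ ^ r)⁻¹ * lam ^ csum pos l := Finset.sum_le_sum fun y _ => h6 y
          _ = _ := by simp [mul_assoc]
    | succ t ih =>
      intro l hl hlen
      have h1 : ∑ y, Ψ Φ y l * (∑ i ∈ B, Φ i y) ^ (t + 1) =
          ∑ i ∈ B, ∑ y, Ψ Φ y (i :: l) * (∑ i ∈ B, Φ i y) ^ t := by
        rw [Finset.sum_comm]
        apply Finset.sum_congr rfl
        intro y _
        simp only [Ψ]
        rw [← Finset.sum_mul, ← Finset.sum_mul, pow_succ]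
        ring
      rw [h1]
      have h2 : ∀ i ∈ B, |∑ y, Ψ Φ y (i :: l) * (∑ i ∈ B, Φ i y) ^ t| ≤
          Fintype.card (Pos → S) * (θ ^ r)⁻¹ * lam ^ csum pos (i :: l) * C ^ t := by
        intro i hi
        apply ih (i :: l)
        · intro j hj
          rcases List.mem_cons.1 hj with h | h
          · rw [h]; exact hi
          · exact hl j h
        · simp only [List.length_cons]; omega
      calc |∑ i ∈ B, ∑ y, Ψ Φ y (i :: l) * (∑ i ∈ B, Φ i y) ^ t|
          ≤ ∑ i ∈ B, |∑ y, Ψ Φ y (i :: l) * (∑ i ∈ B, Φ i y) ^ t| :=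
            Finset.abs_sum_le_sum_abs _ _
        _ ≤ ∑ i ∈ B, Fintype.card (Pos → S) * (θ ^ r)⁻¹ * lam ^ csum pos (i :: l) * C ^ t :=
            Finset.sum_le_sum h2
        _ = Fintype.card (Pos → S) * (θ ^ r)⁻¹ * lam ^ csum pos l * C ^ t *
            ∑ i ∈ B, lam ^ (pos i ∩ V pos l).card := by
            rw [Finset.mul_sum]
            apply Finset.sum_congr rfl
            intro i _
            simp only [csum, pow_add]; ring
        _ ≤ Fintype.card (Pos → S) * (θ ^ r)⁻¹ * lam ^ csum pos l * C ^ t * C := by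
            apply mul_le_mul_of_nonneg_left _ (by positivity)
            refine (spread_sum pos B hb0 hlam0 he (V pos l)).trans ?_
            rw [hC]
            apply mul_le_mul_of_nonneg_left _ hD
            apply pow_le_pow_right₀
            · have : 0 ≤ lam / b := by positivity
              linarith
            · have := V_card_le pos (Q := Q) (fun i hi => hd' i (hl i hi))
              refine this.trans ?_
              exact Nat.mul_le_mul_right _ (by omega)
        _ = _ := by rw [pow_succ]; ring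
  have h := key (2 * r) [] (by simp) (by simp)
  simp only [Ψ, one_mul, csum, pow_zero, mul_one] at h
  exact (le_abs_self _).trans h

end

end Pool.Agent.H540R2.Lift
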