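import Mathlib
import Pool.Agent.H540R2.Lift.Dense
import Pool.Agent.H540R2.Lift.Moment

/-!
# Most rows of a dense set are good for a large set of columns
-/

set_option autoImplicit false
set_option linter.unusedSectionVars false

namespace Pool.Agent.H540R2.Lift

open Finset

variable {U A S : Type} [Fintype U] [DecidableEq U] [Fintype A] [DecidableEq A] [Fintype S]
  [DecidableEq S]

/-- columns of `Y` that match the pattern `γ` on `J` in row `x` -/
def pat (Y : Finset (U × A → S)) (x : U → A) (J : Finset U) (γ : U → S) :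
    Finset (U × A → S) :=
  Y.filter (fun y => ∀ u ∈ J, y (u, x u) = γ u)

/-- in row `x`, every pattern on at most `Q` free coordinates has about the right frequency -/
def GoodRow (Q : ℕ) (I : Finset U) (Y : Finset (U × A → S)) (x : U → A) : Prop :=
  ∀ J, Disjoint J I → J.card ≤ Q → ∀ γ : U → S,
    Y.card ≤ 2 * Fintype.card S ^ J.card * (pat Y x J γ).card

/-- mean zero function -/
noncomputable def phi (s0 s : S) : ℝ := (if s = s0 then (Fintype.card S : ℝ) else 0) - 1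

/-- product of mean zero functions -/
noncomputable def Phi (x : U → A) (T : Finset U) (γ : U → S) (y : U × A → S) : ℝ :=
  ∏ u ∈ T, phi (γ u) (y (u, x u))

/-- positions of a row on a set of coordinates -/
def posOf (x : U → A) (T : Finset U) : Finset (U × A) := T.image (fun u => (u, x u))

lemma mem_posOf {x : U → A} {T : Finset U} {p : U × A} :
    p ∈ posOf x T ↔ p.1 ∈ T ∧ p.2 = x p.1 := by
  simp only [posOf, mem_image]
  constructor
  · rintro ⟨u, hu, rfl⟩; exact ⟨hu, rfl⟩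
  · rintro ⟨h1, h2⟩; exact ⟨p.1, h1, by rw [← h2]⟩

lemma posOf_card (x : U → A) (T : Finset U) : (posOf x T).card = T.card := by
  apply Finset.card_image_of_injective
  intro u v h
  exact (Prod.mk.inj h).1

lemma sum_phi (s0 : S) : ∑ s, phi s0 s = 0 := by
  simp [phi, Finset.sum_sub_distrib]

lemma phi_abs [Nonempty S] (s0 s : S) : |phi s0 s| ≤ Fintype.card S := by
  have h : (1 : ℝ) ≤ Fintype.card S := by exact_mod_cast Fintype.card_pos
  unfold phi
  split_ifs
  · rw [abs_of_nonneg (by linarith)]; linarith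
  · simpa using h

lemma Phi_abs [Nonempty S] (x : U → A) (T : Finset U) (γ : U → S) (y : U × A → S) :
    |Phi x T γ y| ≤ (Fintype.card S : ℝ) ^ T.card := by
  unfold Phi
  rw [Finset.abs_prod]
  calc ∏ u ∈ T, |phi (γ u) (y (u, x u))| ≤ ∏ u ∈ T, (Fintype.card S : ℝ) :=
        Finset.prod_le_prod (fun _ _ => abs_nonneg _) (fun _ _ => phi_abs _ _)
    _ = _ := by simp

lemma Phi_indep (x : U → A) (T : Finset U) (γ : U → S) {p : U × A} (hp : p ∉ posOf x T)
    (y : U × A → S) (s : S) : Phi x T γ (Function.update y p s) = Phi x T γ y := by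
  unfold Phi
  apply Finset.prod_congr rfl
  intro u hu
  rw [Function.update_of_ne]
  rintro rfl
  exact hp (mem_posOf.2 ⟨hu, rfl⟩)

lemma Phi_zero (x : U → A) (T : Finset U) (γ : U → S) {p : U × A} (hp : p ∈ posOf x T)
    (y : U × A → S) : ∑ s, Phi x T γ (Function.update y p s) = 0 := by
  obtain ⟨h1, h2⟩ := mem_posOf.1 hp
  obtain ⟨u0, a⟩ := p
  simp only at h1 h2
  subst h2
  have h : ∀ s, Phi x T γ (Function.update y (u0, x u0) s) =
      phi (γ u0) s * ∏ u ∈ T.erase u0, phi (γ u) (y (u, x u)) := by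
    intro s
    unfold Phi
    rw [← Finset.mul_prod_erase T _ h1, Function.update_self]
    congr 1
    apply Finset.prod_congr rfl
    intro u hu
    rw [Function.update_of_ne]
    intro hc
    exact (Finset.mem_erase.1 hu).1 (Prod.mk.inj hc).1
  simp only [h]
  rw [← Finset.sum_mul, sum_phi, zero_mul]

lemma expand (x : U → A) (J : Finset U) (γ : U → S) (y : U × A → S) :
    ∑ T ∈ J.powerset, Phi x T γ y =
      if ∀ u ∈ J, y (u, x u) = γ u then (Fintype.card S : ℝ) ^ J.card else 0 := by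
  unfold Phi
  rw [← Finset.prod_one_add]
  have h : ∀ u ∈ J, 1 + phi (γ u) (y (u, x u)) =
      if y (u, x u) = γ u then (Fintype.card S : ℝ) else 0 := by
    intro u _; simp [phi]
  rw [Finset.prod_congr rfl h, Finset.prod_ite_zero]
  simp

lemma one_add_pow_le {Q n : ℕ} (hQ : 1 ≤ Q) (hn : n ≤ Q) :
    (1 + (4 * (Q : ℝ))⁻¹) ^ n ≤ 3 / 2 := by
  have hQ' : (0 : ℝ) < Q := by exact_mod_cast hQ
  have h1 : (1 + (4 * (Q : ℝ))⁻¹) ^ n ≤ Real.exp ((4 * (Q : ℝ))⁻¹) ^ n := by
    apply pow_le_pow_left₀ (by positivity)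
    have := Real.add_one_le_exp ((4 * (Q : ℝ))⁻¹)
    linarith
  have h2 : Real.exp ((4 * (Q : ℝ))⁻¹) ^ n = Real.exp (n * (4 * (Q : ℝ))⁻¹) := by
    rw [← Real.exp_nat_mul]
  have h3 : (n : ℝ) * (4 * (Q : ℝ))⁻¹ ≤ 1 / 4 := by
    rw [mul_inv, ← mul_assoc, mul_comm (n : ℝ), mul_assoc]
    have : (n : ℝ) * (Q : ℝ)⁻¹ ≤ 1 := by
      rw [← div_eq_mul_inv, div_le_one hQ']; exact_mod_cast hn
    linarith
  have h4 : Real.exp (1 / 4) ≤ 4 / 3 := by
    have h5 := Real.add_one_le_exp (-(1 / 4 : ℝ))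
    have h6 : Real.exp (1 / 4) * Real.exp (-(1 / 4)) = 1 := by
      rw [← Real.exp_add]; simp
    have h7 := Real.exp_pos (1 / 4 : ℝ)
    nlinarith
  calc (1 + (4 * (Q : ℝ))⁻¹) ^ n ≤ Real.exp (n * (4 * (Q : ℝ))⁻¹) := h1.trans_eq h2
    _ ≤ Real.exp (1 / 4) := Real.exp_le_exp.2 h3
    _ ≤ 3 / 2 := by linarith

lemma bad_exists [Nonempty S] {Q : ℕ} (hQ : 1 ≤ Q) {I : Finset U} {Y : Finset (U × A → S)}
    (hY : Y.Nonempty) {x : U → A} (hx : ¬ GoodRow Q I Y x) :
    ∃ (T : Finset U) (γ : U → S), T.Nonempty ∧ Disjoint T I ∧ T.card ≤ Q ∧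
      (Y.card : ℝ) ≤ (4 * (Q : ℝ)) ^ T.card * |∑ y ∈ Y, Phi x T γ y| := by
  unfold GoodRow at hx
  push Not at hx
  obtain ⟨J, hJ, hJQ, γ, hlt⟩ := hx
  by_contra hcon
  push Not at hcon
  have hQ' : (0 : ℝ) < Q := by exact_mod_cast hQ
  have hYc : (0 : ℝ) < Y.card := by exact_mod_cast Finset.card_pos.2 hY
  -- the sum over Y of the product
  have e1 : ∑ T ∈ J.powerset, ∑ y ∈ Y, Phi x T γ y =
      (Fintype.card S : ℝ) ^ J.card * (pat Y x J γ).card := by
    rw [Finset.sum_comm]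
    simp only [expand]
    rw [← Finset.sum_filter, Finset.sum_const, nsmul_eq_mul, mul_comm]
    rfl
  have e2 : 2 * ((Fintype.card S : ℝ) ^ J.card * (pat Y x J γ).card) < Y.card := by
    have : (((2 * Fintype.card S ^ J.card * (pat Y x J γ).card : ℕ)) : ℝ) < Y.card := by
      exact_mod_cast hlt
    push_cast at this
    linarith
  have e3 : ∑ T ∈ J.powerset, ∑ y ∈ Y, Phi x T γ y =
      Y.card + ∑ T ∈ J.powerset.erase ∅, ∑ y ∈ Y, Phi x T γ y := by
    rw [← Finset.add_sum_erase _ _ (Finset.empty_mem_powerset J)]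
    congr 1
    simp [Phi]
  have e4 : |∑ T ∈ J.powerset.erase ∅, ∑ y ∈ Y, Phi x T γ y| ≤
      ∑ T ∈ J.powerset.erase ∅, ((4 * (Q : ℝ))⁻¹) ^ T.card * Y.card := by
    refine (Finset.abs_sum_le_sum_abs _ _).trans (Finset.sum_le_sum fun T hT => ?_)
    obtain ⟨h1, h2⟩ := Finset.mem_erase.1 hT
    have h3 := Finset.mem_powerset.1 h2
    have h4 := hcon T γ (Finset.nonempty_iff_ne_empty.2 h1)
      (Finset.disjoint_of_subset_left h3 hJ) ((Finset.card_le_card h3).trans hJQ)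
    have h5 : 0 < (4 * (Q : ℝ)) ^ T.card := by positivity
    rw [inv_pow, inv_mul_eq_div, le_div_iff₀ h5, mul_comm]
    exact h4.le
  have e5 : ∑ T ∈ J.powerset.erase ∅, ((4 * (Q : ℝ))⁻¹) ^ T.card * (Y.card : ℝ) ≤
      1 / 2 * Y.card := by
    rw [← Finset.sum_mul]
    apply mul_le_mul_of_nonneg_right _ hYc.le
    have h1 := Finset.prod_one_add (s := J) (f := fun _ => (4 * (Q : ℝ))⁻¹)
    simp only [Finset.prod_const] at h1
    have h2 := Finset.add_sum_erase J.powerset (fun T => ((4 * (Q : ℝ))⁻¹) ^ T.card)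
      (Finset.empty_mem_powerset J)
    simp only [Finset.card_empty, pow_zero] at h2
    have h3 := one_add_pow_le hQ hJQ
    linarith
  have e6 := abs_le.1 (e4.trans e5)
  linarith [e6.1]

/-- **Most rows are good.** -/
theorem good_rows [Nonempty S] {b Q r : ℕ} (hQ : 1 ≤ Q) (hr : 1 ≤ r)
    (hb : 2048 * r * Q ^ 3 * Fintype.card S ^ 2 ≤ b)
    {P : Finset (U → A)} {I : Finset U} (hP : Dense b P I)
    {Y : Finset (U × A → S)} (hY : Fintype.card (U × A → S) ≤ Y.card * 2 ^ r) :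
    ∃ G ⊆ P, (∀ x ∈ G, GoodRow Q I Y x) ∧ P.card < 2 * G.card := by
  classical
  refine ⟨P.filter (fun x => GoodRow Q I Y x), Finset.filter_subset _ _,
    fun x hx => (Finset.mem_filter.1 hx).2, ?_⟩
  set B := P.filter (fun x => ¬ GoodRow Q I Y x) with hB
  have hsplit : (P.filter (fun x => GoodRow Q I Y x)).card + B.card = P.card :=
    Finset.card_filter_add_card_filter_not (fun x => GoodRow Q I Y x)
  by_contra hcon
  push Not at hcon
  have hPB : P.card ≤ 2 * B.card := by omega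
  have hPpos : 0 < P.card := Finset.card_pos.2 hP.1
  have hBpos : 0 < B.card := by omega
  have hΩ : 0 < Fintype.card (U × A → S) := Fintype.card_pos
  have hYpos : 0 < Y.card := by
    rcases Nat.eq_zero_or_pos Y.card with h | h
    · rw [h] at hY; omega
    · exact h
  have hYne : Y.Nonempty := Finset.card_pos.1 hYpos
  have hσ : 0 < Fintype.card S := Fintype.card_pos
  -- choice of the witnesses
  have hch : ∀ x : U → A, ∃ (T : Finset U) (γ : U → S), x ∈ B → (T.Nonempty ∧ Disjoint T I ∧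
      T.card ≤ Q ∧ (Y.card : ℝ) ≤ (4 * (Q : ℝ)) ^ T.card * |∑ y ∈ Y, Phi x T γ y|) := by
    intro x
    by_cases hx : x ∈ B
    · obtain ⟨T, γ, h⟩ := bad_exists hQ hYne (Finset.mem_filter.1 hx).2
      exact ⟨T, γ, fun _ => h⟩
    · exact ⟨∅, fun _ => Classical.arbitrary S, fun h => absurd h hx⟩
  choose T γ hT using hch
  set w : (U → A) → ℝ := fun x =>
    (4 * (Q : ℝ)) ^ (T x).card * (if 0 ≤ ∑ y ∈ Y, Phi x (T x) (γ x) y then 1 else -1) with hw
  set Φ : (U → A) → (U × A → S) → ℝ := fun x y => w x * Phi x (T x) (γ x) y with hΦ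
  set pos : (U → A) → Finset (U × A) := fun x => posOf x (T x) with hpos
  set κ : ℝ := 4 * Q * Fintype.card S with hκ
  have hQ1 : (1 : ℝ) ≤ Q := by exact_mod_cast hQ
  have hσ1 : (1 : ℝ) ≤ Fintype.card S := by exact_mod_cast hσ
  have hκ1 : 1 ≤ κ := by nlinarith
  have hb0 : (0 : ℝ) < b := by
    have h : 0 < 2048 * r * Q ^ 3 * Fintype.card S ^ 2 := by positivity
    exact_mod_cast lt_of_lt_of_le h hb
  have hspread : ∀ R : Finset (U × A),
      (((B.filter (fun i => R ⊆ pos i)).card : ℝ)) * (b : ℝ) ^ R.card ≤ (P.card : ℝ) := by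
    intro R
    rcases (B.filter (fun i => R ⊆ pos i)).eq_empty_or_nonempty with h | ⟨x0, hx0⟩
    · rw [h]; simp
    · obtain ⟨h1, h2⟩ := Finset.mem_filter.1 hx0
      have hcard : (R.image Prod.fst).card = R.card := by
        apply Finset.card_image_of_injOn
        intro p hp q hq hpq
        have hp' := (mem_posOf.1 (h2 hp)).2
        have hq' := (mem_posOf.1 (h2 hq)).2
        refine Prod.ext hpq ?_
        rw [hp', hq', hpq]
      have hdisj : Disjoint (R.image Prod.fst) I := by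
        apply Finset.disjoint_of_subset_left _ (hT x0 h1).2.1
        intro u hu
        obtain ⟨p, hp, rfl⟩ := Finset.mem_image.1 hu
        exact (mem_posOf.1 (h2 hp)).1
      have hsub : B.filter (fun i => R ⊆ pos i) ⊆ fix P (R.image Prod.fst) x0 := by
        intro x hx
        obtain ⟨h3, h4⟩ := Finset.mem_filter.1 hx
        refine Finset.mem_filter.2 ⟨(Finset.mem_filter.1 h3).1, fun u hu => ?_⟩
        obtain ⟨p, hp, rfl⟩ := Finset.mem_image.1 hu
        rw [← (mem_posOf.1 (h4 hp)).2, ← (mem_posOf.1 (h2 hp)).2]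
      have h5 := hP.2 _ hdisj x0
      rw [hcard] at h5
      have h6 : (B.filter (fun i => R ⊆ pos i)).card * b ^ R.card ≤ P.card :=
        (Nat.mul_le_mul_right _ (Finset.card_le_card hsub)).trans h5
      exact_mod_cast h6
  have hm := moment (S := S) pos (Φ := Φ) B (κ := κ) (θ := 32) (b := b) (D := P.card) (Q := Q)
    (r := r)
    (by
      intro x hx y
      simp only [hΦ, hpos, posOf_card, hκ]
      rw [abs_mul, mul_pow]
      apply mul_le_mul _ (Phi_abs _ _ _ _) (abs_nonneg _) (by positivity)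
      simp only [hw]
      rw [abs_mul, abs_of_nonneg (by positivity : (0:ℝ) ≤ (4 * (Q : ℝ)) ^ (T x).card)]
      split_ifs <;> simp)
    (by
      intro x p hp y s
      simp only [hΦ]
      rw [Phi_indep _ _ _ hp])
    (by
      intro x p hp y
      simp only [hΦ]
      rw [← Finset.mul_sum, Phi_zero _ _ _ hp, mul_zero])
    (by
      intro x hx
      simp only [hpos]
      rw [← Finset.card_pos, posOf_card]
      exact Finset.card_pos.2 (hT x hx).1)
    (by
      intro x hx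
      simp only [hpos, posOf_card]
      exact (hT x hx).2.2.1)
    hspread hκ1 (by norm_num) hb0
  -- lower bound
  have hlow : (B.card : ℝ) * Y.card ≤ ∑ y ∈ Y, ∑ x ∈ B, Φ x y := by
    rw [Finset.sum_comm]
    calc (B.card : ℝ) * Y.card = ∑ x ∈ B, (Y.card : ℝ) := by simp
      _ ≤ ∑ x ∈ B, ∑ y ∈ Y, Φ x y := by
          apply Finset.sum_le_sum
          intro x hx
          simp only [hΦ]
          rw [← Finset.mul_sum]
          have h := (hT x hx).2.2.2
          simp only [hw]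
          split_ifs with h0
          · rw [abs_of_nonneg h0] at h; linarith
          · rw [abs_of_neg (not_le.1 h0)] at h; linarith
  have hYr : (0 : ℝ) < Y.card := by exact_mod_cast hYpos
  have hBr : (0 : ℝ) < B.card := by exact_mod_cast hBpos
  -- Jensen
  have hJ : (∑ y ∈ Y, ∑ x ∈ B, Φ x y) ^ (2 * r) ≤
      (Y.card : ℝ) ^ (2 * r) / Y.card * ∑ y ∈ Y, (∑ x ∈ B, Φ x y) ^ (2 * r) := by
    have h := Real.pow_arith_mean_le_arith_mean_pow_of_even Y (fun _ => ((Y.card : ℝ))⁻¹)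
      (fun y => ∑ x ∈ B, Φ x y) (fun _ _ => by positivity)
      (by simp [hYr.ne']) (n := 2 * r) (even_two_mul r)
    rw [← Finset.mul_sum, ← Finset.mul_sum, mul_pow] at h
    have h2 : (0 : ℝ) < (Y.card : ℝ) ^ (2 * r) := by positivity
    have h3 := mul_le_mul_of_nonneg_left h h2.le
    rw [inv_pow, mul_inv_cancel_left₀ h2.ne'] at h3
    calc (∑ y ∈ Y, ∑ x ∈ B, Φ x y) ^ (2 * r) ≤ _ := h3
      _ = _ := by rw [div_eq_mul_inv, mul_assoc]
  have hsum : ∑ y ∈ Y, (∑ x ∈ B, Φ x y) ^ (2 * r) ≤ ∑ y, (∑ x ∈ B, Φ x y) ^ (2 * r) :=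
    Finset.sum_le_sum_of_subset_of_nonneg (Finset.subset_univ _)
      (fun y _ _ => (even_two_mul r).pow_nonneg _)
  have hcomb : ((B.card : ℝ) * Y.card) ^ (2 * r) ≤ (Y.card : ℝ) ^ (2 * r) / Y.card *
      (Fintype.card (U × A → S) * ((32 : ℝ) ^ r)⁻¹ *
        ((P.card : ℝ) * (1 + κ ^ 2 * 32 / b) ^ (2 * r * Q)) ^ (2 * r)) := by
    calc ((B.card : ℝ) * Y.card) ^ (2 * r) ≤ (∑ y ∈ Y, ∑ x ∈ B, Φ x y) ^ (2 * r) :=
          pow_le_pow_left₀ (by positivity) hlow _
      _ ≤ _ := hJ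
      _ ≤ _ := mul_le_mul_of_nonneg_left (hsum.trans hm) (by positivity)
  -- the exponential factor
  have hexp : ((1 + κ ^ 2 * 32 / b) ^ (2 * r * Q)) ^ (2 * r) ≤ Real.exp 1 ^ r := by
    have h1 : (1 + κ ^ 2 * 32 / b) ≤ Real.exp (κ ^ 2 * 32 / b) := by
      have := Real.add_one_le_exp (κ ^ 2 * 32 / b); linarith
    have h2 : ((1 + κ ^ 2 * 32 / b) ^ (2 * r * Q)) ^ (2 * r) ≤
        (Real.exp (κ ^ 2 * 32 / b) ^ (2 * r * Q)) ^ (2 * r) :=
      pow_le_pow_left₀ (by positivity) (pow_le_pow_left₀ (by positivity) h1 _) _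
    have h3 : (Real.exp (κ ^ 2 * 32 / b) ^ (2 * r * Q)) ^ (2 * r) =
        Real.exp ((2 * r * Q * (2 * r) : ℕ) * (κ ^ 2 * 32 / b)) := by
      rw [← pow_mul, ← Real.exp_nat_mul]
    have h4 : ((2 * r * Q * (2 * r) : ℕ) : ℝ) * (κ ^ 2 * 32 / b) ≤ r := by
      have h5 : ((2048 * r * Q ^ 3 * Fintype.card S ^ 2 : ℕ) : ℝ) ≤ b := by exact_mod_cast hb
      push_cast at h5 ⊢
      rw [← mul_div_assoc, div_le_iff₀ hb0]
      have hr0 : (0 : ℝ) ≤ r := by positivity
      have h6 : 2 * (r : ℝ) * Q * (2 * r) * (κ ^ 2 * 32) =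
          (r : ℝ) * (2048 * (r : ℝ) * (Q : ℝ) ^ 3 * (Fintype.card S : ℝ) ^ 2) := by
        rw [hκ]; ring
      rw [h6]
      exact mul_le_mul_of_nonneg_left h5 hr0
    calc _ ≤ _ := h2
      _ = _ := h3
      _ ≤ Real.exp r := Real.exp_le_exp.2 h4
      _ = Real.exp 1 ^ r := by rw [← Real.exp_nat_mul, mul_one]
  have hPr : (P.card : ℝ) ≤ 2 * B.card := by exact_mod_cast hPB
  have hPr0 : (0 : ℝ) ≤ P.card := by positivity
  have hΩr : (Fintype.card (U × A → S) : ℝ) ≤ Y.card * 2 ^ r := by exact_mod_cast hY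
  -- final contradiction
  have hfin : ((B.card : ℝ) * Y.card) ^ (2 * r) ≤
      ((B.card : ℝ) * Y.card) ^ (2 * r) * (Real.exp 1 / 4) ^ r := by
    refine hcomb.trans ?_
    have h1 : ((P.card : ℝ) * (1 + κ ^ 2 * 32 / b) ^ (2 * r * Q)) ^ (2 * r) ≤
        (2 * (B.card : ℝ)) ^ (2 * r) * Real.exp 1 ^ r := by
      rw [mul_pow]
      exact mul_le_mul (pow_le_pow_left₀ hPr0 hPr _) hexp (by positivity) (by positivity)
    have h2 : (Fintype.card (U × A → S) : ℝ) * ((32 : ℝ) ^ r)⁻¹ *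
        ((P.card : ℝ) * (1 + κ ^ 2 * 32 / b) ^ (2 * r * Q)) ^ (2 * r) ≤
        ((Y.card : ℝ) * 2 ^ r) * ((32 : ℝ) ^ r)⁻¹ *
          ((2 * (B.card : ℝ)) ^ (2 * r) * Real.exp 1 ^ r) :=
      mul_le_mul (mul_le_mul_of_nonneg_right hΩr (by positivity)) h1 (by positivity)
        (by positivity)
    refine (mul_le_mul_of_nonneg_left h2 (by positivity)).trans_eq ?_
    have h3 : (2 * (B.card : ℝ)) ^ (2 * r) = (B.card : ℝ) ^ (2 * r) * 4 ^ r := by
      rw [mul_pow, pow_mul 2 2 r]; norm_num; ring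
    have h4 : (32 : ℝ) ^ r = 2 ^ r * 4 ^ r * 4 ^ r := by
      rw [← mul_pow, ← mul_pow]; norm_num
    rw [h3, h4, div_pow, mul_pow]
    field_simp
  have hpos' : 0 < ((B.card : ℝ) * Y.card) ^ (2 * r) := by positivity
  have h1 : (1 : ℝ) ≤ (Real.exp 1 / 4) ^ r := by
    by_contra hc
    push Not at hc
    nlinarith
  have h2 : Real.exp 1 / 4 < 1 := by
    have := Real.exp_one_lt_d9
    linarith
  have h3 : (Real.exp 1 / 4) ^ r < 1 := pow_lt_one₀ (by positivity) h2 (by omega)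
  linarith

end Pool.Agent.H540R2.Lift
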