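import Mathlib
import Pool.Agent.H540R2.Lift.Rows

/-!
# Error sets
-/

set_option autoImplicit false
set_option linter.unusedSectionVars false

namespace Pool.Agent.H540R2.Lift

open Finset Classical

variable {U A S : Type} [Fintype U] [DecidableEq U] [Fintype A] [DecidableEq A] [Fintype S]
  [DecidableEq S]

/-- `x` lies in a dense part of `E` with at most `q` fixed coordinates -/
def HasPart (q b : ℕ) (E : Finset (U → A)) (x : U → A) (I : Finset U) (P : Finset (U → A)) :
    Prop :=
  P ⊆ E ∧ I.card ≤ q ∧ x ∈ P ∧ (∀ x' ∈ P, ∀ u ∈ I, x' u = x u) ∧ Dense b P I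

/-- rows without a part -/
noncomputable def badX (q b : ℕ) (E : Finset (U → A)) : Finset (U → A) :=
  E.filter (fun x => ¬ ∃ I P, HasPart q b E x I P)

lemma badX_card {q b : ℕ} (hb : 1 ≤ b) (hA : Fintype.card A = b ^ 2) (E : Finset (U → A)) :
    (badX q b E).card * b ^ (q + 1) ≤ Fintype.card A ^ Fintype.card U := by
  by_contra hc
  push Not at hc
  obtain ⟨J, β, h1, h2⟩ := restore_small hb hA (badX q b E) hc
  obtain ⟨x, hx⟩ := h2.1
  have hx' : x ∈ badX q b E := (Finset.mem_filter.1 hx).1
  have h3 := (Finset.mem_filter.1 hx').2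
  apply h3
  refine ⟨J, fix (badX q b E) J β, ?_, h1, hx, ?_, h2⟩
  · exact (Finset.filter_subset _ _).trans (Finset.filter_subset _ _)
  · intro x' hx' u hu
    rw [(Finset.mem_filter.1 hx').2 u hu, (Finset.mem_filter.1 hx).2 u hu]

/-- large sets of columns -/
def Large (r : ℕ) (Y : Finset (U × A → S)) : Prop :=
  Fintype.card (U × A → S) ≤ Y.card * 2 ^ r

/-- the columns that agree with `y` in row `x` on `I` -/
def agree (E : Finset (U × A → S)) (I : Finset U) (x : U → A) (y : U × A → S) :
    Finset (U × A → S) :=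
  E.filter (fun y' => ∀ u ∈ I, y' (u, x u) = y (u, x u))

/-- columns which have a rare pattern -/
noncomputable def badY (q r : ℕ) (E : Finset (U × A → S)) : Finset (U × A → S) :=
  E.filter (fun y => ∃ (I : Finset U) (x : U → A), I.card ≤ q ∧ ¬ Large r (agree E I x y))

lemma badY_card {q r : ℕ} (E : Finset (U × A → S)) :
    (badY q r E).card * 2 ^ r ≤
      (Fintype.card (U × A × S) + 1) ^ q * Fintype.card (U × A → S) := by
  let Lb := Fin q → Option (U × A × S)
  let EL : Lb → Finset (U × A → S) := fun l =>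
    E.filter (fun y => ∀ t u a s, l t = some (u, a, s) → y (u, a) = s)
  have hcov : badY q r E ⊆ (univ.filter (fun l : Lb => ¬ Large r (EL l))).biUnion EL := by
    intro y hy
    obtain ⟨hyE, I, x, hI, hL⟩ := Finset.mem_filter.1 hy
    -- enumerate `I`
    let e := I.equivFin
    let l : Lb := fun t => if h : t.1 < I.card then
      some ((e.symm ⟨t.1, h⟩).1, x (e.symm ⟨t.1, h⟩).1, y ((e.symm ⟨t.1, h⟩).1,
        x (e.symm ⟨t.1, h⟩).1)) else none
    have hEL : EL l = agree E I x y := by
      ext y'
      simp only [EL, agree, mem_filter]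
      constructor
      · rintro ⟨h1, h2⟩
        refine ⟨h1, fun u hu => ?_⟩
        have h3 : (e ⟨u, hu⟩).1 < q := lt_of_lt_of_le (e ⟨u, hu⟩).2 hI
        apply h2 ⟨(e ⟨u, hu⟩).1, h3⟩ u (x u) (y (u, x u))
        simp [l]
      · rintro ⟨h1, h2⟩
        refine ⟨h1, fun t u a s hl => ?_⟩
        simp only [l] at hl
        split_ifs at hl with h
        simp only [Option.some.injEq, Prod.mk.injEq] at hl
        obtain ⟨hu, ha, hs⟩ := hl
        subst hu
        subst ha
        subst hs
        exact h2 _ (e.symm ⟨t.1, h⟩).2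
    refine Finset.mem_biUnion.2 ⟨l, Finset.mem_filter.2 ⟨Finset.mem_univ _, ?_⟩, ?_⟩
    · rw [hEL]; exact hL
    · rw [hEL]
      exact Finset.mem_filter.2 ⟨hyE, fun _ _ => rfl⟩
  have h1 : (badY q r E).card ≤
      ∑ l ∈ univ.filter (fun l : Lb => ¬ Large r (EL l)), (EL l).card :=
    (Finset.card_le_card hcov).trans Finset.card_biUnion_le
  calc (badY q r E).card * 2 ^ r
      ≤ (∑ l ∈ univ.filter (fun l : Lb => ¬ Large r (EL l)), (EL l).card) * 2 ^ r :=
        Nat.mul_le_mul_right _ h1
    _ = ∑ l ∈ univ.filter (fun l : Lb => ¬ Large r (EL l)), (EL l).card * 2 ^ r :=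
        Finset.sum_mul _ _ _
    _ ≤ ∑ l ∈ univ.filter (fun l : Lb => ¬ Large r (EL l)), Fintype.card (U × A → S) := by
        apply Finset.sum_le_sum
        intro l hl
        have := (Finset.mem_filter.1 hl).2
        unfold Large at this
        omega
    _ ≤ ∑ l : Lb, Fintype.card (U × A → S) :=
        Finset.sum_le_sum_of_subset (Finset.filter_subset _ _)
    _ = _ := by
        rw [Finset.sum_const, smul_eq_mul, Finset.card_univ, Fintype.card_fun, Fintype.card_option,
          Fintype.card_fin]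

end Pool.Agent.H540R2.Lift
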