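import Mathlib
import Pool.Agent.H540R2.Lift.Err
import Pool.Agent.H540R2.Build
import Pool.Agent.H540R2.Lift.Defs

/-!
# The simulation of a monotone circuit
-/

set_option autoImplicit false
set_option linter.unusedSectionVars false

namespace Pool.Agent.H540R2.Lift

open Finset Classical

variable {U A S : Type} [Fintype U] [DecidableEq U] [Fintype A] [DecidableEq A] [Fintype S]
  [DecidableEq S]

/-- a strategy for answering queries with memory less than `k` -/
structure Strat (U S : Type) [DecidableEq U] (k : ℕ)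
    (Valid : Finset U → (U → S) → ℕ → Prop) : Prop where
  congr : ∀ I z z' L, (∀ u ∈ I, z u = z' u) → Valid I z L → Valid I z' L
  mono : ∀ I I' z L, I' ⊆ I → Valid I z L → Valid I' z L
  anti : ∀ I z L L', L' ≤ L → Valid I z L → Valid I z L'
  ext : ∀ I z L u, Valid I z L → u ∉ I → I.card < k →
    ∃ s, Valid (insert u I) (Function.update z u s) (L - 1)

lemma Strat.many {k : ℕ} {Valid : Finset U → (U → S) → ℕ → Prop} (h : Strat U S k Valid)
    (I : Finset U) (z : U → S) (L : ℕ) (hV : Valid I z L) (J : Finset U) :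
    Disjoint J I → I.card + J.card ≤ k → ∃ γ : U → S, (∀ u ∈ I, γ u = z u) ∧
      Valid (I ∪ J) γ (L - J.card) := by
  induction J using Finset.induction_on with
  | empty => intro _ _; exact ⟨z, fun _ _ => rfl, by simpa using hV⟩
  | insert u J hu ih =>
    intro hd hc
    rw [Finset.card_insert_of_notMem hu] at hc
    obtain ⟨hd1, hd2⟩ := Finset.disjoint_insert_left.1 hd
    obtain ⟨γ, h1, h2⟩ := ih hd2 (by omega)
    have huIJ : u ∉ I ∪ J := by
      simp only [mem_union, not_or]; exact ⟨hd1, hu⟩
    obtain ⟨s, hs⟩ := h.ext _ _ _ u h2 huIJ (by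
      have := Finset.card_union_le I J
      omega)
    refine ⟨Function.update γ u s, fun v hv => ?_, ?_⟩
    · rw [Function.update_of_ne, h1 v hv]
      rintro rfl
      exact hd1 hv
    · rw [Finset.card_insert_of_notMem hu, Finset.union_insert]
      have e : L - (J.card + 1) = L - J.card - 1 := by omega
      rw [e]
      exact hs

/-- **The step.** -/
lemma step [Nonempty S] {k b Q r q : ℕ} {Valid : Finset U → (U → S) → ℕ → Prop}
    (h : Strat U S k Valid)
    (hQ : 1 ≤ Q) (hr : 1 ≤ r) (hb : 2048 * r * Q ^ 3 * Fintype.card S ^ 2 ≤ b)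
    (hk : q + Q ≤ k)
    {P : Finset (U → A)} {I : Finset U} (hP : Dense b P I) (hI : I.card ≤ q)
    {Y : Finset (U × A → S)} (hY : Large r Y) {z : U → S} {L : ℕ}
    (hz : ∀ x ∈ P, ∀ y ∈ Y, ∀ u ∈ I, y (u, x u) = z u) (hV : Valid I z L)
    (Jf : (U → A) → Finset U) (hJf : ∀ x ∈ P, (Jf x).card ≤ Q) :
    ∃ x ∈ P, ∃ y ∈ Y, Valid (Jf x) (fun u => y (u, x u)) (L - Q) := by
  obtain ⟨G, hGP, hG, hcard⟩ := good_rows hQ hr hb hP hY
  have hGpos : 0 < G.card := by omega
  obtain ⟨x, hx⟩ := Finset.card_pos.1 hGpos
  refine ⟨x, hGP hx, ?_⟩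
  set J := Jf x \ I with hJ
  have hJd : Disjoint J I := Finset.sdiff_disjoint
  have hJc : J.card ≤ Q := (Finset.card_le_card Finset.sdiff_subset).trans (hJf x (hGP hx))
  obtain ⟨γ, h1, h2⟩ := h.many I z L hV J hJd (by omega)
  have h3 := hG x hx J hJd hJc γ
  have hYpos : 0 < Y.card := by
    unfold Large at hY
    rcases Nat.eq_zero_or_pos Y.card with h0 | h0
    · rw [h0] at hY
      have : 0 < Fintype.card (U × A → S) := Fintype.card_pos
      omega
    · exact h0
  have h4 : 0 < (pat Y x J γ).card := by
    rcases Nat.eq_zero_or_pos (pat Y x J γ).card with h0 | h0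
    · rw [h0] at h3; omega
    · exact h0
  obtain ⟨y, hy⟩ := Finset.card_pos.1 h4
  obtain ⟨hyY, hyJ⟩ := Finset.mem_filter.1 hy
  refine ⟨y, hyY, ?_⟩
  have h5 : Valid (I ∪ J) (fun u => y (u, x u)) (L - J.card) := by
    apply h.congr _ _ _ _ _ h2
    intro u hu
    rcases Finset.mem_union.1 hu with hu | hu
    · rw [h1 u hu, hz x (hGP hx) y hyY u hu]
    · exact (hyJ u hu).symm
  have h6 := h.anti _ _ _ (L - Q) (by omega) h5
  apply h.mono _ _ _ _ _ h6
  intro u hu
  by_cases hui : u ∈ I
  · exact Finset.mem_union_left _ hui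
  · exact Finset.mem_union_right _ (Finset.mem_sdiff.2 ⟨hu, hui⟩)

/-- a circuit without NOT gates -/
abbrev Mono {M : ℕ} (C : Circuit M) : Prop := C.Monotone

section sim

variable {M : ℕ} (C : Circuit M) (inX : (U → A) → Fin M → Bool)
  (inY : (U × A → S) → Fin M → Bool) (q b r : ℕ)

/-- rows accepted by gate `g` -/
noncomputable def XS (g : ℕ) : Finset (U → A) := univ.filter (fun x => C.val (inX x) g = true)

/-- columns rejected by gate `g` -/
noncomputable def YS (g : ℕ) : Finset (U × A → S) :=
  univ.filter (fun y => C.val (inY y) g = false)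

/-- cumulative error rows -/
noncomputable def CX : ℕ → Finset (U → A)
  | 0 => ∅
  | g + 1 => CX g ∪ badX q b (XS C inX g \ CX g)

/-- cumulative error columns -/
noncomputable def CY : ℕ → Finset (U × A → S)
  | 0 => ∅
  | g + 1 => CY g ∪ badY q r (YS C inY g \ CY g)

lemma CX_card (hb : 1 ≤ b) (hA : Fintype.card A = b ^ 2) (g : ℕ) :
    (CX C inX q b g).card * b ^ (q + 1) ≤ g * Fintype.card A ^ Fintype.card U := by
  induction g with
  | zero => simp [CX]
  | succ g ih =>
    have h1 := Finset.card_union_le (CX C inX q b g) (badX q b (XS C inX g \ CX C inX q b g))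
    have h2 := badX_card (q := q) hb hA (XS C inX g \ CX C inX q b g)
    calc (CX C inX q b (g + 1)).card * b ^ (q + 1)
        ≤ ((CX C inX q b g).card + (badX q b (XS C inX g \ CX C inX q b g)).card) *
            b ^ (q + 1) := Nat.mul_le_mul_right _ h1
      _ = (CX C inX q b g).card * b ^ (q + 1) +
            (badX q b (XS C inX g \ CX C inX q b g)).card * b ^ (q + 1) := by ring
      _ ≤ g * Fintype.card A ^ Fintype.card U + Fintype.card A ^ Fintype.card U :=
          Nat.add_le_add ih h2
      _ = _ := by ring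

lemma CY_card (g : ℕ) : (CY (A := A) C inY q r g).card * 2 ^ r ≤
    g * ((Fintype.card (U × A × S) + 1) ^ q * Fintype.card (U × A → S)) := by
  induction g with
  | zero => simp [CY]
  | succ g ih =>
    have h1 := Finset.card_union_le (CY (A := A) C inY q r g)
      (badY q r (YS C inY g \ CY C inY q r g))
    have h2 := badY_card (q := q) (r := r) (YS C inY g \ CY (A := A) C inY q r g)
    calc (CY (A := A) C inY q r (g + 1)).card * 2 ^ r
        ≤ ((CY (A := A) C inY q r g).card + (badY q r (YS C inY g \ CY C inY q r g)).card) *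
            2 ^ r := Nat.mul_le_mul_right _ h1
      _ = (CY (A := A) C inY q r g).card * 2 ^ r +
            (badY q r (YS C inY g \ CY (A := A) C inY q r g)).card * 2 ^ r := by ring
      _ ≤ _ := Nat.add_le_add ih h2
      _ = _ := by ring

lemma CX_mono {g h : ℕ} (hgh : g ≤ h) : CX C inX q b g ⊆ CX C inX q b h := by
  induction h, hgh using Nat.le_induction with
  | base => exact Finset.Subset.refl _
  | succ h _ ih => exact ih.trans Finset.subset_union_left

lemma CY_mono {g h : ℕ} (hgh : g ≤ h) :
    CY (A := A) C inY q r g ⊆ CY (A := A) C inY q r h := by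
  induction h, hgh using Nat.le_induction with
  | base => exact Finset.Subset.refl _
  | succ h _ ih => exact ih.trans Finset.subset_union_left

/-- chosen fixed coordinates -/
noncomputable def partI (g : ℕ) (x : U → A) : Finset U :=
  if h : ∃ I P, HasPart q b (XS C inX g \ CX C inX q b g) x I P then h.choose else ∅

/-- coordinates of a node -/
noncomputable def nodeI (Jv : Fin M → Finset U) (x : U → A) : Node M → Finset U
  | .var i => Jv i
  | .const _ => ∅
  | .gate h => partI C inX q b h x

lemma partI_card (g : ℕ) (x : U → A) : (partI C inX q b g x).card ≤ q := by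
  unfold partI
  split_ifs with h
  · exact h.choose_spec.choose_spec.2.1
  · simp

lemma nodeI_card {Jv : Fin M → Finset U} (hJv : ∀ i, (Jv i).card ≤ q) (x : U → A)
    (a : Node M) : (nodeI C inX q b Jv x a).card ≤ q := by
  cases a with
  | var i => exact hJv i
  | const _ => simp [nodeI]
  | gate h => exact partI_card C inX q b h x

variable {C inX inY q b r}

variable {k : ℕ} {Valid : Finset U → (U → S) → ℕ → Prop}

/-- the claim for a gate -/
def GateClaim (C : Circuit M) (inX : (U → A) → Fin M → Bool)
    (inY : (U × A → S) → Fin M → Bool) (q b r : ℕ)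
    (Valid : Finset U → (U → S) → ℕ → Prop) (g : ℕ) : Prop :=
  ∀ (P : Finset (U → A)) (I : Finset U) (Y : Finset (U × A → S)) (z : U → S) (L : ℕ),
    P ⊆ XS C inX g \ CX C inX q b g → Dense b P I → I.card ≤ q →
    Y ⊆ YS C inY g \ CY C inY q r g → Large r Y →
    (∀ x ∈ P, ∀ y ∈ Y, ∀ u ∈ I, y (u, x u) = z u) → Valid I z L →
    L ≤ 1 + 2 * q * C.gateDepth g

lemma node_claim (hS : Strat U S k Valid) {Jv : Fin M → Finset U}
    (hleaf : ∀ i x y I L, inX x i = true → inY y i = false → Jv i ⊆ I →
      Valid I (fun u => y (u, x u)) L → L < 2)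
    {g : ℕ} (ih : ∀ h < g, GateClaim C inX inY q b r Valid h) {a : Node M}
    (ha : ∀ j, a.wires j ≠ 0 → j < g) {x : U → A} {y : U × A → S}
    (hx : x ∉ CX C inX q b g) (hy : y ∉ CY C inY q r g)
    (hxa : a.eval (inX x) (C.val (inX x)) = true)
    (hya : a.eval (inY y) (C.val (inY y)) = false) {I : Finset U}
    (hI : nodeI C inX q b Jv x a ⊆ I) {L : ℕ} (hV : Valid I (fun u => y (u, x u)) L) :
    L ≤ 1 + 2 * q * a.depth C.gateDepth := by
  cases a with
  | var i =>
    have := hleaf i x y I L hxa hya hI hV
    omega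
  | const c =>
    simp only [Node.eval] at hxa hya
    rw [hxa] at hya
    exact absurd hya (by decide)
  | gate h =>
    have hh : h < g := ha h (by simp [Node.wires])
    have hxh : x ∈ XS C inX h \ CX C inX q b h := by
      refine Finset.mem_sdiff.2 ⟨Finset.mem_filter.2 ⟨Finset.mem_univ _, hxa⟩, ?_⟩
      exact fun hc => hx (CX_mono C inX q b hh.le hc)
    have hyh : y ∈ YS C inY h \ CY C inY q r h := by
      refine Finset.mem_sdiff.2 ⟨Finset.mem_filter.2 ⟨Finset.mem_univ _, hya⟩, ?_⟩
      exact fun hc => hy (CY_mono C inY q r hh.le hc)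
    have hpart : ∃ I P, HasPart q b (XS C inX h \ CX C inX q b h) x I P := by
      by_contra hc
      apply hx
      apply CX_mono C inX q b (show h + 1 ≤ g from hh)
      exact Finset.mem_union_right _ (Finset.mem_filter.2 ⟨hxh, hc⟩)
    have hIe : nodeI C inX q b Jv x (.gate h) = hpart.choose := by
      simp only [nodeI, partI]
      rw [dif_pos hpart]
    obtain ⟨h1, h2, h3, h4, h5⟩ := hpart.choose_spec.choose_spec
    set I' := hpart.choose with hI'
    set P' := hpart.choose_spec.choose with hP'
    rw [hIe] at hI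
    have hlarge : Large r (agree (YS C inY h \ CY C inY q r h) I' x y) := by
      by_contra hc
      apply hy
      apply CY_mono C inY q r (show h + 1 ≤ g from hh)
      exact Finset.mem_union_right _ (Finset.mem_filter.2 ⟨hyh, I', x, h2, hc⟩)
    refine ih h hh P' I' (agree (YS C inY h \ CY C inY q r h) I' x y)
      (fun u => y (u, x u)) L h1 h5 h2 (Finset.filter_subset _ _) hlarge ?_
      (hS.mono _ _ _ _ hI hV)
    intro x' hx' y' hy' u hu
    rw [h4 x' hx' u hu]
    exact (Finset.mem_filter.1 hy').2 u hu

lemma gate_claim [Nonempty S] (hS : Strat U S k Valid) (hmono : Mono C)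
    {Jv : Fin M → Finset U} (hJv : ∀ i, (Jv i).card ≤ q)
    (hleaf : ∀ i x y I L, inX x i = true → inY y i = false → Jv i ⊆ I →
      Valid I (fun u => y (u, x u)) L → L < 2)
    (hq : 1 ≤ q) (hr : 1 ≤ r) (hb : 2048 * r * (2 * q) ^ 3 * Fintype.card S ^ 2 ≤ b)
    (hk : 3 * q ≤ k) : ∀ g < C.size, GateClaim C inX inY q b r Valid g := by
  intro g
  induction g using Nat.strong_induction_on with
  | _ g ih =>
    intro hg P I Y z L hP hPd hI hY hYl hz hV
    have ih' : ∀ h < g, GateClaim C inX inY q b r Valid h := fun h hh => ih h hh (hh.trans hg)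
    have hwires := C.gate_lt g hg
    -- the coordinates of both operands
    have main : ∀ a1 a2 : Node M, (∀ j, a1.wires j ≠ 0 → j < g) → (∀ j, a2.wires j ≠ 0 → j < g) →
        (∀ x ∈ P, ∀ y ∈ Y,
          (a1.eval (inX x) (C.val (inX x)) = true ∧ a1.eval (inY y) (C.val (inY y)) = false) ∨
          (a2.eval (inX x) (C.val (inX x)) = true ∧ a2.eval (inY y) (C.val (inY y)) = false)) →
        L ≤ 1 + 2 * q * (max (a1.depth C.gateDepth) (a2.depth C.gateDepth) + 1) := by
      intro a1 a2 h1 h2 hor
      obtain ⟨x, hx, y, hy, hV'⟩ := step hS (by omega : 1 ≤ 2 * q) hr hb (by omega) hPd hI hYl hz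
        hV (fun x => nodeI C inX q b Jv x a1 ∪ nodeI C inX q b Jv x a2) (fun x _ => by
          have := Finset.card_union_le (nodeI C inX q b Jv x a1) (nodeI C inX q b Jv x a2)
          have := nodeI_card C inX q b hJv x a1
          have := nodeI_card C inX q b hJv x a2
          omega)
      have hx' := (Finset.mem_sdiff.1 (hP hx)).2
      have hy' := (Finset.mem_sdiff.1 (hY hy)).2
      rcases hor x hx y hy with ⟨e1, e2⟩ | ⟨e1, e2⟩
      · have h3 := node_claim hS hleaf ih' h1 hx' hy' e1 e2 Finset.subset_union_left hV'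
        have h4 : a1.depth C.gateDepth ≤ max (a1.depth C.gateDepth) (a2.depth C.gateDepth) :=
          le_max_left _ _
        have h5 := Nat.mul_le_mul_left (2 * q) h4
        rw [mul_add, mul_one]
        omega
      · have h3 := node_claim hS hleaf ih' h2 hx' hy' e1 e2 Finset.subset_union_right hV'
        have h4 : a2.depth C.gateDepth ≤ max (a1.depth C.gateDepth) (a2.depth C.gateDepth) :=
          le_max_right _ _
        have h5 := Nat.mul_le_mul_left (2 * q) h4
        rw [mul_add, mul_one]
        omega
    have hvX : ∀ x ∈ P, (C.gate g).eval (inX x) (C.val (inX x)) = true := by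
      intro x hx
      have := (Finset.mem_filter.1 (Finset.mem_sdiff.1 (hP hx)).1).2
      rwa [C.val_gate hg] at this
    have hvY : ∀ y ∈ Y, (C.gate g).eval (inY y) (C.val (inY y)) = false := by
      intro y hy
      have := (Finset.mem_filter.1 (Finset.mem_sdiff.1 (hY hy)).1).2
      rwa [C.val_gate hg] at this
    rw [C.gateDepth_gate hg]
    cases hgate : C.gate g with
    | not a => exact absurd hgate (hmono g hg a)
    | and a1 a2 =>
      rw [hgate] at hwires
      refine main a1 a2 (fun j hj => hwires j (by simp only [Gate.wires]; omega))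
        (fun j hj => hwires j (by simp only [Gate.wires]; omega)) ?_
      intro x hx y hy
      have h1 := hvX x hx
      have h2 := hvY y hy
      rw [hgate] at h1 h2
      simp only [Gate.eval, Bool.and_eq_true] at h1
      simp only [Gate.eval, Bool.and_eq_false_iff] at h2
      rcases h2 with h2 | h2
      · exact Or.inl ⟨h1.1, h2⟩
      · exact Or.inr ⟨h1.2, h2⟩
    | or a1 a2 =>
      rw [hgate] at hwires
      refine main a1 a2 (fun j hj => hwires j (by simp only [Gate.wires]; omega))
        (fun j hj => hwires j (by simp only [Gate.wires]; omega)) ?_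
      intro x hx y hy
      have h1 := hvX x hx
      have h2 := hvY y hy
      rw [hgate] at h1 h2
      simp only [Gate.eval, Bool.or_eq_true] at h1
      simp only [Gate.eval, Bool.or_eq_false_iff] at h2
      rcases h1 with h1 | h1
      · exact Or.inl ⟨h1, h2.1⟩
      · exact Or.inr ⟨h1, h2.2⟩

/-- **The simulation theorem.** -/
theorem sim [Nonempty S] (hS : Strat U S k Valid) (hmono : Mono C)
    {Jv : Fin M → Finset U} (hJv : ∀ i, (Jv i).card ≤ q)
    (hleaf : ∀ i x y I L, inX x i = true → inY y i = false → Jv i ⊆ I →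
      Valid I (fun u => y (u, x u)) L → L < 2)
    (hq : 1 ≤ q) (hr : 1 ≤ r) (hb : 2048 * r * (2 * q) ^ 3 * Fintype.card S ^ 2 ≤ b)
    (hk : 3 * q ≤ k) (hA : Fintype.card A = b ^ 2) (hs : C.size ≤ b ^ q)
    (hY : C.size * (Fintype.card (U × A × S) + 1) ^ q + 1 ≤ 2 ^ r)
    (h1 : ∀ x, C.eval (inX x) = true) (h0 : ∀ y : U × A → S, C.eval (inY y) = false)
    {z : U → S} {L : ℕ} (hV : Valid ∅ z L) : L ≤ 1 + 2 * q * (C.depth + 1) := by
  have hσ : 0 < Fintype.card S := Fintype.card_pos
  have hb2 : 2 ≤ b := by
    have h : 2 * 1 ≤ 2048 * r * (2 * q) ^ 3 * Fintype.card S ^ 2 := by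
      have : 0 < r * (2 * q) ^ 3 * Fintype.card S ^ 2 := by positivity
      calc 2 * 1 ≤ 2048 * (r * (2 * q) ^ 3 * Fintype.card S ^ 2) := by omega
        _ = _ := by ring
    omega
  set m := Fintype.card A with hm
  set N := Fintype.card U with hN
  have hmN : 0 < m ^ N := by rw [hA]; positivity
  -- the rows
  set P0 : Finset (U → A) := univ \ CX C inX q b C.size with hP0
  have hcX := CX_card C inX q b (by omega) hA C.size
  have hcX' : (CX C inX q b C.size).card * b ≤ m ^ N := by
    have h2 : (CX C inX q b C.size).card * b * b ^ q ≤ m ^ N * b ^ q := by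
      calc (CX C inX q b C.size).card * b * b ^ q
          = (CX C inX q b C.size).card * b ^ (q + 1) := by rw [pow_succ]; ring
        _ ≤ C.size * m ^ N := hcX
        _ ≤ b ^ q * m ^ N := Nat.mul_le_mul_right _ hs
        _ = _ := by ring
    exact Nat.le_of_mul_le_mul_right h2 (by positivity)
  have hP0c : P0.card + (CX C inX q b C.size).card = m ^ N := by
    have := Finset.card_sdiff_add_card_eq_card (Finset.subset_univ (CX C inX q b C.size))
    rw [Finset.card_univ, Fintype.card_fun] at this
    exact this
  have hP0b : m ^ N ≤ P0.card * b := by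
    have h2 : m ^ N * 2 ≤ m ^ N * b := Nat.mul_le_mul_left _ hb2
    have h3 : P0.card * b + (CX C inX q b C.size).card * b = m ^ N * b := by
      rw [← Nat.add_mul, hP0c]
    omega
  have hP0d : Dense b P0 ∅ := by
    refine ⟨?_, ?_⟩
    · rw [← Finset.card_pos]
      rcases Nat.eq_zero_or_pos P0.card with h | h
      · rw [h] at hP0b; omega
      · exact h
    · intro J _ β
      rcases Nat.eq_zero_or_pos J.card with hJ | hJ
      · have : J = ∅ := Finset.card_eq_zero.1 hJ
        subst this
        simp [fix]
      · have h2 := card_fix P0 J β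
        have h3 : (fix P0 J β).card * b ^ J.card * b ^ J.card ≤ P0.card * b ^ J.card := by
          calc (fix P0 J β).card * b ^ J.card * b ^ J.card
              = (fix P0 J β).card * m ^ J.card := by rw [hA]; ring
            _ ≤ m ^ N := h2
            _ ≤ P0.card * b := hP0b
            _ ≤ P0.card * b ^ J.card := by
                apply Nat.mul_le_mul_left
                calc b = b ^ 1 := (pow_one b).symm
                  _ ≤ b ^ J.card := Nat.pow_le_pow_right (by omega) hJ
        exact Nat.le_of_mul_le_mul_right h3 (by positivity)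
  -- the columns
  set Y0 : Finset (U × A → S) := univ \ CY C inY q r C.size with hY0
  have hcY := CY_card (A := A) C inY q r C.size
  have hY0c : Y0.card + (CY (A := A) C inY q r C.size).card = Fintype.card (U × A → S) := by
    have := Finset.card_sdiff_add_card_eq_card
      (Finset.subset_univ (CY (A := A) C inY q r C.size))
    rw [Finset.card_univ] at this
    exact this
  have hY0l : Large r Y0 := by
    unfold Large
    have h2 : (CY (A := A) C inY q r C.size).card * 2 ^ r + Fintype.card (U × A → S) ≤
        Fintype.card (U × A → S) * 2 ^ r := by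
      calc (CY (A := A) C inY q r C.size).card * 2 ^ r + Fintype.card (U × A → S)
          ≤ C.size * ((Fintype.card (U × A × S) + 1) ^ q * Fintype.card (U × A → S)) +
            Fintype.card (U × A → S) := Nat.add_le_add_right hcY _
        _ = (C.size * (Fintype.card (U × A × S) + 1) ^ q + 1) *
            Fintype.card (U × A → S) := by ring
        _ ≤ 2 ^ r * Fintype.card (U × A → S) := Nat.mul_le_mul_right _ hY
        _ = _ := by ring
    have h3 : Y0.card * 2 ^ r + (CY (A := A) C inY q r C.size).card * 2 ^ r =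
        Fintype.card (U × A → S) * 2 ^ r := by
      rw [← Nat.add_mul, hY0c]
    omega
  obtain ⟨x, hx, y, hy, hV'⟩ := step (q := 0) hS (by omega : 1 ≤ 2 * q) hr hb (by omega) hP0d
    (by simp) hY0l (z := z) (L := L) (by simp) hV
    (fun x => nodeI C inX q b Jv x C.out) (fun x _ => by
      have := nodeI_card C inX q b hJv x C.out
      omega)
  have hx' := (Finset.mem_sdiff.1 hx).2
  have hy' := (Finset.mem_sdiff.1 hy).2
  have hcl := gate_claim (C := C) (inX := inX) (inY := inY) (b := b) (r := r) hS hmono hJv hleaf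
    hq hr hb hk
  have h3 := node_claim (g := C.size) hS hleaf hcl C.out_lt hx' hy' (h1 x) (h0 y)
    (Finset.Subset.refl _) hV'
  have h4 : C.out.depth C.gateDepth = C.depth := rfl
  rw [h4] at h3
  rw [mul_add, mul_one]
  omega

end sim

end Pool.Agent.H540R2.Lift
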