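import Mathlib
import Pool.Agent.H540R2.Lift.Sim

/-!
# The pointer problem: strategy against small memory
-/

set_option autoImplicit false
set_option linter.unusedSectionVars false

namespace Pool.Agent.H540R2.Lift

open Finset

variable {n k : ℕ}

/-- The invariant. Coordinates are pairs (layer, vertex); the value `none` means true and
`some i` means false because of vertex `i` of the layer below. All false values lie in layers
`≥ L - 1`, no false vertex of the memory `I` points to a true vertex of `I`, and the sink (vertex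
`0` of the top layer) is not true. -/
def Val (n k : ℕ) (I : Finset (Fin n × Fin k)) (z : Fin n × Fin k → Option (Fin k)) (L : ℕ) :
    Prop :=
  L ≤ n + 1 ∧
  (∀ u ∈ I, ∀ i, z u = some i → L ≤ u.1.1 + 1 ∧
    ∀ v ∈ I, v.1.1 + 1 = u.1.1 → v.2 = i → z v ≠ none) ∧
  (∀ u ∈ I, u.1.1 + 1 = n → u.2.1 = 0 → z u ≠ none)

lemma strat (n k : ℕ) : Strat (Fin n × Fin k) (Option (Fin k)) k (Val n k) where
  congr I z z' L h := by
    rintro ⟨h0, h1, h2⟩
    refine ⟨h0, fun u hu i hi => ?_, fun u hu h3 h4 => ?_⟩
    · rw [← h u hu] at hi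
      obtain ⟨h3, h4⟩ := h1 u hu i hi
      refine ⟨h3, fun v hv h5 h6 => ?_⟩
      rw [← h v hv]
      exact h4 v hv h5 h6
    · rw [← h u hu]; exact h2 u hu h3 h4
  mono I I' z L h := by
    rintro ⟨h0, h1, h2⟩
    refine ⟨h0, fun u hu i hi => ?_, fun u hu => h2 u (h hu)⟩
    obtain ⟨h3, h4⟩ := h1 u (h hu) i hi
    exact ⟨h3, fun v hv => h4 v (h hv)⟩
  anti I z L L' h := by
    rintro ⟨h0, h1, h2⟩
    refine ⟨by omega, fun u hu i hi => ?_, h2⟩
    obtain ⟨h3, h4⟩ := h1 u hu i hi
    exact ⟨by omega, h4⟩
  ext I z L u := by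
    rintro ⟨h0, h1, h2⟩ huI hcard
    by_cases hp : (∃ v ∈ I, v.1.1 = u.1.1 + 1 ∧ z v = some u.2) ∨ (u.1.1 + 1 = n ∧ u.2.1 = 0)
    · -- answer false, with a pointer outside the memory
      obtain ⟨i, hi⟩ : ∃ i : Fin k, ∀ v ∈ I, v.2 ≠ i := by
        by_contra hc
        push Not at hc
        have : (univ : Finset (Fin k)) ⊆ I.image Prod.snd := by
          intro i _
          obtain ⟨v, hv, rfl⟩ := hc i
          exact Finset.mem_image.2 ⟨v, hv, rfl⟩
        have h3 := (Finset.card_le_card this).trans Finset.card_image_le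
        rw [Finset.card_univ, Fintype.card_fin] at h3
        omega
      have hL : L ≤ u.1.1 + 2 := by
        rcases hp with ⟨v, hv, h3, h4⟩ | ⟨h3, -⟩
        · have := (h1 v hv _ h4).1; omega
        · omega
      refine ⟨some i, by omega, ?_, ?_⟩
      · intro w hw j hj
        by_cases hwu : w = u
        · subst hwu
          rw [Function.update_self] at hj
          obtain rfl : i = j := by simpa using hj
          refine ⟨by omega, fun v hv h5 h6 => ?_⟩
          rcases Finset.mem_insert.1 hv with h7 | h7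
          · subst h7; omega
          · exact absurd h6 (hi v h7)
        · rw [Function.update_of_ne hwu] at hj
          have hwI := (Finset.mem_insert.1 hw).resolve_left hwu
          obtain ⟨h3, h4⟩ := h1 w hwI j hj
          refine ⟨by omega, fun v hv h5 h6 => ?_⟩
          by_cases hvu : v = u
          · subst hvu; rw [Function.update_self]; simp
          · rw [Function.update_of_ne hvu]
            exact h4 v ((Finset.mem_insert.1 hv).resolve_left hvu) h5 h6
      · intro w hw h5 h6
        by_cases hwu : w = u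
        · subst hwu; rw [Function.update_self]; simp
        · rw [Function.update_of_ne hwu]
          exact h2 w ((Finset.mem_insert.1 hw).resolve_left hwu) h5 h6
    · push Not at hp
      obtain ⟨hp1, hp2⟩ := hp
      refine ⟨none, by omega, ?_, ?_⟩
      · intro w hw j hj
        by_cases hwu : w = u
        · subst hwu; rw [Function.update_self] at hj; simp at hj
        · rw [Function.update_of_ne hwu] at hj
          have hwI := (Finset.mem_insert.1 hw).resolve_left hwu
          obtain ⟨h3, h4⟩ := h1 w hwI j hj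
          refine ⟨by omega, fun v hv h5 h6 => ?_⟩
          by_cases hvu : v = u
          · subst hvu
            exact absurd (by rw [hj, h6]) (hp1 w hwI h5.symm)
          · rw [Function.update_of_ne hvu]
            exact h4 v ((Finset.mem_insert.1 hv).resolve_left hvu) h5 h6
      · intro w hw h5 h6
        by_cases hwu : w = u
        · subst hwu; exact absurd h6 (hp2 h5)
        · rw [Function.update_of_ne hwu]
          exact h2 w ((Finset.mem_insert.1 hw).resolve_left hwu) h5 h6

/-! ### the function -/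

/-- Variables: `src j c`, `edge ℓ j i a c` (from label `a` of vertex `i` in layer `ℓ` to label `c`
of vertex `j` in layer `ℓ + 1`), `snk a`. -/
inductive Var (n k m : ℕ) where
  | src (j : Fin k) (c : Fin m) : Var n k m
  | edge (l : Fin n) (j i : Fin k) (a c : Fin m) : Var n k m
  | snk (a : Fin m) : Var n k m
  deriving DecidableEq

/-- The layers of the function: label `c` of vertex `j` in layer `ℓ + 1` is on when for every
vertex `i` of layer `ℓ` some label `a` of `i` is on and `edge ℓ j i a c` is `1`. -/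
def lay {n k m : ℕ} (t : Var n k m → Bool) : ℕ → Fin k → Fin m → Bool
  | 0 => fun j c => t (.src j c)
  | l + 1 => fun j c => decide (∃ h : l < n, ∀ i, ∃ a, t (.edge ⟨l, h⟩ j i a c) = true ∧
      lay t l i a = true)

/-- The function: some label of vertex `0` in the top layer `n - 1` is on together with
its sink variable. -/
def F {n k m : ℕ} [NeZero k] (t : Var n k m → Bool) : Bool :=
  decide (∃ a, t (.snk a) = true ∧ lay t (n - 1) 0 a = true)

variable {m : ℕ}

/-- Alice's input -/
def inA (x : Fin n × Fin k → Fin m) : Var n k m → Bool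
  | .src j c => decide (∃ h : 0 < n, x (⟨0, h⟩, j) = c)
  | .edge l j i a c => decide (∃ h : l.1 + 1 < n, x (l, i) = a ∧ x (⟨l.1 + 1, h⟩, j) = c)
  | .snk a => decide (∃ h : n - 1 < n, ∃ h' : 0 < k, x (⟨n - 1, h⟩, ⟨0, h'⟩) = a)

/-- Bob's input -/
def inB (y : (Fin n × Fin k) × Fin m → Option (Fin k)) : Var n k m → Bool
  | .src j c => decide (∃ h : 0 < n, y ((⟨0, h⟩, j), c) = none)
  | .edge l j i a c => decide (∀ h : l.1 + 1 < n, ¬ (y ((⟨l.1 + 1, h⟩, j), c) = some i ∧
      y ((l, i), a) = none))
  | .snk a => decide (∀ (h : n - 1 < n) (h' : 0 < k), y ((⟨n - 1, h⟩, ⟨0, h'⟩), a) ≠ none)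

lemma lay_A (x : Fin n × Fin k → Fin m) : ∀ l (h : l < n) (j : Fin k),
    lay (inA x) l j (x (⟨l, h⟩, j)) = true := by
  intro l
  induction l with
  | zero => intro h j; simp [lay, inA, h]
  | succ l ih =>
    intro h j
    simp only [lay, decide_eq_true_eq]
    refine ⟨by omega, fun i => ⟨x (⟨l, by omega⟩, i), ?_, ih (by omega) i⟩⟩
    simp [inA, h]

lemma F_A [NeZero k] (hn : 0 < n) (x : Fin n × Fin k → Fin m) : F (inA x) = true := by
  simp only [F, decide_eq_true_eq]
  refine ⟨x (⟨n - 1, by omega⟩, 0), ?_, lay_A x (n - 1) (by omega) 0⟩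
  simp only [inA, decide_eq_true_eq]
  exact ⟨by omega, Nat.pos_of_ne_zero (NeZero.ne k), rfl⟩

lemma lay_B (y : (Fin n × Fin k) × Fin m → Option (Fin k)) : ∀ l (h : l < n) (j : Fin k)
    (c : Fin m), lay (inB y) l j c = true → y ((⟨l, h⟩, j), c) = none := by
  intro l
  induction l with
  | zero =>
    intro h j c hl
    simp only [lay, inB, decide_eq_true_eq] at hl
    obtain ⟨_, h2⟩ := hl
    exact h2
  | succ l ih =>
    intro h j c hl
    simp only [lay, decide_eq_true_eq] at hl
    obtain ⟨hl', h2⟩ := hl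
    cases hy : y ((⟨l + 1, h⟩, j), c) with
    | none => rfl
    | some i =>
      exfalso
      obtain ⟨a, h3, h4⟩ := h2 i
      simp only [inB, decide_eq_true_eq] at h3
      exact h3 h ⟨hy, ih hl' i a h4⟩

lemma F_B [NeZero k] (hn : 0 < n) (y : (Fin n × Fin k) × Fin m → Option (Fin k)) :
    F (inB y) = false := by
  simp only [F, decide_eq_false_iff_not]
  rintro ⟨a, h1, h2⟩
  simp only [inB, decide_eq_true_eq] at h1
  exact h1 (by omega) (Nat.pos_of_ne_zero (NeZero.ne k)) (lay_B y (n - 1) (by omega) 0 a h2)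

/-- coordinates of a variable -/
def Jv : Var n k m → Finset (Fin n × Fin k)
  | .src j _ => univ.filter (fun u => u.1.1 = 0 ∧ u.2 = j)
  | .edge l j i _ _ => univ.filter (fun u => u = (l, i) ∨ (u.1.1 = l.1 + 1 ∧ u.2 = j))
  | .snk _ => univ.filter (fun u => u.1.1 = n - 1 ∧ u.2.1 = 0)

lemma leaf (v : Var n k m) (x : Fin n × Fin k → Fin m)
    (y : (Fin n × Fin k) × Fin m → Option (Fin k)) (I : Finset (Fin n × Fin k)) (L : ℕ)
    (hx : inA x v = true) (hy : inB y v = false) (hI : Jv v ⊆ I)
    (hV : Val n k I (fun u => y (u, x u)) L) : L < 2 := by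
  obtain ⟨h0, h1, h2⟩ := hV
  cases v with
  | src j c =>
    simp only [inA, decide_eq_true_eq] at hx
    simp only [inB, decide_eq_false_iff_not, not_exists] at hy
    obtain ⟨hn, hxc⟩ := hx
    have hy' := hy hn
    have hmem : ((⟨0, hn⟩, j) : Fin n × Fin k) ∈ I := hI (by simp [Jv])
    obtain ⟨i, hi⟩ := Option.ne_none_iff_exists'.1 hy'
    have := (h1 _ hmem i (by rw [← hi, ← hxc])).1
    simp only at this
    omega
  | edge l j i a c =>
    exfalso
    simp only [inA, decide_eq_true_eq] at hx
    simp only [inB, decide_eq_false_iff_not, not_forall, not_not] at hy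
    obtain ⟨hn, hx1, hx2⟩ := hx
    obtain ⟨_, hy1, hy2⟩ := hy
    have hmem1 : ((l, i) : Fin n × Fin k) ∈ I := hI (by simp [Jv])
    have hmem2 : ((⟨l.1 + 1, hn⟩, j) : Fin n × Fin k) ∈ I := hI (by simp [Jv])
    have h3 := (h1 _ hmem2 i (by rw [← hy1, ← hx2])).2 _ hmem1 rfl rfl
    apply h3
    rw [← hx1] at hy2
    exact hy2
  | snk a =>
    exfalso
    simp only [inA, decide_eq_true_eq] at hx
    simp only [inB, decide_eq_false_iff_not, not_forall, not_not] at hy
    obtain ⟨hn, hk, hx1⟩ := hx
    obtain ⟨_, _, hy1⟩ := hy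
    have hmem : ((⟨n - 1, hn⟩, ⟨0, hk⟩) : Fin n × Fin k) ∈ I := hI (by simp [Jv])
    apply h2 _ hmem
    · show n - 1 + 1 = n; omega
    · rfl
    · show y ((⟨n - 1, hn⟩, ⟨0, hk⟩), x (⟨n - 1, hn⟩, ⟨0, hk⟩)) = none
      rw [hx1]; exact hy1

lemma Jv_card (v : Var n k m) : (Jv v).card ≤ 2 := by
  cases v with
  | src j c =>
    have : (Jv (.src j c : Var n k m)).card ≤ 1 := by
      rw [Finset.card_le_one]
      intro u hu v hv
      simp only [Jv, mem_filter, mem_univ, true_and] at hu hv
      exact Prod.ext (Fin.ext (by rw [hu.1, hv.1])) (by rw [hu.2, hv.2])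
    omega
  | edge l j i a c =>
    have h1 : Jv (.edge l j i a c : Var n k m) ⊆
        {(l, i)} ∪ univ.filter (fun u : Fin n × Fin k => u.1.1 = l.1 + 1 ∧ u.2 = j) := by
      intro u hu
      simp only [Jv, mem_filter, mem_univ, true_and] at hu
      simp only [mem_union, mem_singleton, mem_filter, mem_univ, true_and]
      exact hu
    have h2 : (univ.filter (fun u : Fin n × Fin k => u.1.1 = l.1 + 1 ∧ u.2 = j)).card ≤ 1 := by
      rw [Finset.card_le_one]
      intro u hu v hv
      simp only [mem_filter, mem_univ, true_and] at hu hv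
      exact Prod.ext (Fin.ext (by rw [hu.1, hv.1])) (by rw [hu.2, hv.2])
    have h3 := (Finset.card_le_card h1).trans (Finset.card_union_le _ _)
    rw [Finset.card_singleton] at h3
    omega
  | snk a =>
    have : (Jv (.snk a : Var n k m)).card ≤ 1 := by
      rw [Finset.card_le_one]
      intro u hu v hv
      simp only [Jv, mem_filter, mem_univ, true_and] at hu hv
      exact Prod.ext (Fin.ext (by rw [hu.1, hv.1])) (Fin.ext (by rw [hu.2, hv.2]))
    omega

end Pool.Agent.H540R2.Lift
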