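import Mathlib
import Pool.Agent.H540R2.Lift.Prog
import Pool.Agent.H540R2.Lift.Delayer

/-!
# A narrow layered circuit for the function `F`
-/

set_option autoImplicit false
set_option linter.unusedSectionVars false

namespace Pool.Agent.H540R2.Lift

variable {n k m M : ℕ}

/-- registers -/
abbrev Reg (k m : ℕ) := Fin 4 × Fin k × Fin m

/-- copy -/
def cp (r : Reg k m) : LGate (Reg k m) M := .and (.reg r) (.const true)

lemma cp_eval (x : Fin M → Bool) (v : Reg k m → Bool) (r : Reg k m) :
    (cp r : LGate (Reg k m) M).eval x v = v r := by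
  simp [cp, LGate.eval, LNode.eval]

/-- load the sources -/
def sSrc (vs : Fin k → Fin m → Fin M) : Step (Reg k m) M := fun r =>
  if r.1 = 0 then .and (.var (vs r.2.1 r.2.2)) (.const true) else cp r

/-- initialise -/
def sInit : Step (Reg k m) M := fun r =>
  if r.1 = 1 then .and (.const true) (.const true)
  else if r.1 = 2 then .and (.const false) (.const false) else cp r

/-- multiply by register `(0, i, a)` -/
def sTmp (vi : Fin k → Fin m → Fin M) (i : Fin k) (a : Fin m) : Step (Reg k m) M := fun r =>
  if r.1 = 3 then .and (.var (vi r.2.1 r.2.2)) (.reg (0, i, a)) else cp r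

/-- accumulate the OR -/
def sOr : Step (Reg k m) M := fun r =>
  if r.1 = 2 then .or (.reg r) (.reg (3, r.2.1, r.2.2)) else cp r

/-- accumulate the AND -/
def sAcc : Step (Reg k m) M := fun r =>
  if r.1 = 1 then .and (.reg r) (.reg (2, r.2.1, r.2.2))
  else if r.1 = 2 then .and (.const false) (.const false) else cp r

/-- move -/
def sMove : Step (Reg k m) M := fun r =>
  if r.1 = 0 then .and (.reg (1, r.2.1, r.2.2)) (.const true) else cp r

/-- inner loop -/
def inner (vi : Fin m → Fin k → Fin m → Fin M) (i : Fin k) (as : List (Fin m)) :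
    List (Step (Reg k m) M) := as.flatMap (fun a => [sTmp (vi a) i a, sOr])

lemma run_inner (x : Fin M → Bool) (vi : Fin m → Fin k → Fin m → Fin M) (i : Fin k)
    (as : List (Fin m)) : ∀ v : Reg k m → Bool,
      (∀ j c, run x (inner vi i as) v (0, j, c) = v (0, j, c)) ∧
      (∀ j c, run x (inner vi i as) v (1, j, c) = v (1, j, c)) ∧
      (∀ j c, run x (inner vi i as) v (2, j, c) = (v (2, j, c) ||
        decide (∃ a ∈ as, x (vi a j c) = true ∧ v (0, i, a) = true))) := by
  induction as with
  | nil => intro v; simp [inner, run]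
  | cons a as ih =>
    intro v
    have h : inner vi i (a :: as) = sTmp (vi a) i a :: sOr :: inner vi i as := by
      simp [inner]
    rw [h]
    simp only [run]
    set v2 : Reg k m → Bool := fun r => (sOr r : LGate (Reg k m) M).eval x
      (fun r => (sTmp (vi a) i a r).eval x v) with hv2
    have e0 : ∀ j c, v2 (0, j, c) = v (0, j, c) := by
      intro j c; simp [hv2, sOr, sTmp, cp_eval]
    have e1 : ∀ j c, v2 (1, j, c) = v (1, j, c) := by
      intro j c; simp [hv2, sOr, sTmp, cp_eval]
    have e2 : ∀ j c, v2 (2, j, c) = (v (2, j, c) || (x (vi a j c) && v (0, i, a))) := by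
      intro j c
      have h2 : (sTmp (vi a) i a (2, j, c) : LGate (Reg k m) M).eval x v = v (2, j, c) := by
        simp [sTmp, cp_eval]
      have h3 : (sTmp (vi a) i a (3, j, c) : LGate (Reg k m) M).eval x v =
          (x (vi a j c) && v (0, i, a)) := by
        simp [sTmp, LGate.eval, LNode.eval]
      have h4 : v2 (2, j, c) = ((sTmp (vi a) i a (2, j, c) : LGate (Reg k m) M).eval x v ||
          (sTmp (vi a) i a (3, j, c) : LGate (Reg k m) M).eval x v) := rfl
      rw [h4, h2, h3]
    obtain ⟨h0, h1, h2⟩ := ih v2
    refine ⟨fun j c => ?_, fun j c => ?_, fun j c => ?_⟩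
    · rw [h0, e0]
    · rw [h1, e1]
    · rw [h2, e2]
      simp only [e0]
      rw [Bool.eq_iff_iff]
      simp only [Bool.or_eq_true, Bool.and_eq_true, decide_eq_true_eq, List.mem_cons,
        exists_eq_or_imp]
      tauto

/-- middle loop -/
def middle (vi : Fin k → Fin m → Fin k → Fin m → Fin M) (is : List (Fin k)) :
    List (Step (Reg k m) M) := is.flatMap (fun i => inner (vi i) i (List.finRange m) ++ [sAcc])

lemma run_middle (x : Fin M → Bool) (vi : Fin k → Fin m → Fin k → Fin m → Fin M)
    (is : List (Fin k)) : ∀ v : Reg k m → Bool, (∀ j c, v (2, j, c) = false) →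
      (∀ j c, run x (middle vi is) v (0, j, c) = v (0, j, c)) ∧
      (∀ j c, run x (middle vi is) v (1, j, c) = (v (1, j, c) &&
        decide (∀ i ∈ is, ∃ a, x (vi i a j c) = true ∧ v (0, i, a) = true))) ∧
      (∀ j c, run x (middle vi is) v (2, j, c) = false) := by
  induction is with
  | nil => intro v hv; simpa [middle, run] using hv
  | cons i is ih =>
    intro v hv
    have h : middle vi (i :: is) = inner (vi i) i (List.finRange m) ++ ([sAcc] ++
        middle vi is) := by
      simp [middle]
    rw [h, run_append, run_append]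
    obtain ⟨a0, a1, a2⟩ := run_inner x (vi i) i (List.finRange m) v
    set v1 := run x (inner (vi i) i (List.finRange m)) v with hv1
    set v2 := run x [(sAcc : Step (Reg k m) M)] v1 with hv2
    have e0 : ∀ j c, v2 (0, j, c) = v (0, j, c) := by
      intro j c; rw [← a0 j c]; simp [hv2, run, sAcc, cp_eval]
    have e1 : ∀ j c, v2 (1, j, c) = (v (1, j, c) && decide (∃ a, x (vi i a j c) = true ∧
        v (0, i, a) = true)) := by
      intro j c
      have : v2 (1, j, c) = (v1 (1, j, c) && v1 (2, j, c)) := by
        simp [hv2, run, sAcc, LGate.eval, LNode.eval]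
      rw [this, a1, a2, hv]
      simp
    have e2 : ∀ j c, v2 (2, j, c) = false := by
      intro j c; simp [hv2, run, sAcc, LGate.eval, LNode.eval]
    obtain ⟨h0, h1, h2⟩ := ih v2 e2
    refine ⟨fun j c => ?_, fun j c => ?_, fun j c => ?_⟩
    · rw [h0, e0]
    · rw [h1, e1]
      simp only [e0]
      rw [Bool.eq_iff_iff]
      simp only [Bool.and_eq_true, decide_eq_true_eq, List.mem_cons, forall_eq_or_imp]
      tauto
    · exact h2 j c

/-- one layer of the function -/
def trans (vi : Fin k → Fin m → Fin k → Fin m → Fin M) : List (Step (Reg k m) M) :=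
  [sInit] ++ (middle vi (List.finRange k) ++ [sMove])

lemma run_trans (x : Fin M → Bool) (vi : Fin k → Fin m → Fin k → Fin m → Fin M)
    (v : Reg k m → Bool) (j : Fin k) (c : Fin m) :
    run x (trans vi) v (0, j, c) =
      decide (∀ i, ∃ a, x (vi i a j c) = true ∧ v (0, i, a) = true) := by
  unfold trans
  rw [run_append, run_append]
  set v1 := run x [(sInit : Step (Reg k m) M)] v with hv1
  have e0 : ∀ j c, v1 (0, j, c) = v (0, j, c) := by
    intro j c; simp [hv1, run, sInit, cp_eval]
  have e1 : ∀ j c, v1 (1, j, c) = true := by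
    intro j c; simp [hv1, run, sInit, LGate.eval, LNode.eval]
  have e2 : ∀ j c, v1 (2, j, c) = false := by
    intro j c; simp [hv1, run, sInit, LGate.eval, LNode.eval]
  obtain ⟨-, h1, -⟩ := run_middle x vi (List.finRange k) v1 e2
  set v2 := run x (middle vi (List.finRange k)) v1 with hv2
  have h3 : run x [(sMove : Step (Reg k m) M)] v2 (0, j, c) = v2 (1, j, c) := by
    simp [run, sMove, LGate.eval, LNode.eval]
  rw [h3, h1, e1]
  simp only [e0]
  simp

lemma length_trans (vi : Fin k → Fin m → Fin k → Fin m → Fin M) :
    (trans vi).length = k * (2 * m + 1) + 2 := by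
  simp only [trans, middle, inner, List.length_append, List.length_flatMap, List.length_cons,
    List.length_nil]
  simp
  ring

variable (e : Var n k m → Fin M)

/-- the variables of the transition to layer `l + 1` -/
def viE (l : Fin n) (i : Fin k) (a : Fin m) (j : Fin k) (c : Fin m) : Fin M :=
  e (.edge l j i a c)

/-- the layers up to `t` -/
def progL : (t : ℕ) → t < n → List (Step (Reg k m) M)
  | 0, _ => [sSrc (fun j c => e (.src j c))]
  | t + 1, h => progL t (by omega) ++ trans (viE e ⟨t, by omega⟩)

lemma run_progL (x : Fin M → Bool) : ∀ (t : ℕ) (h : t < n) (j : Fin k) (c : Fin m),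
    run x (progL e t h) (fun _ => false) (0, j, c) = lay (fun v => x (e v)) t j c := by
  intro t
  induction t with
  | zero =>
    intro h j c
    simp [progL, run, sSrc, LGate.eval, LNode.eval, lay]
  | succ t ih =>
    intro h j c
    simp only [progL]
    rw [run_append, run_trans]
    simp only [ih]
    refine decide_eq_decide.2 ⟨?_, ?_⟩
    · intro h2
      exact ⟨by omega, h2⟩
    · rintro ⟨_, h2⟩
      exact h2

lemma length_progL : ∀ (t : ℕ) (h : t < n),
    (progL e t h).length = t * (k * (2 * m + 1) + 2) + 1 := by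
  intro t
  induction t with
  | zero => intro h; simp [progL]
  | succ t ih =>
    intro h
    simp only [progL, List.length_append, ih, length_trans]
    ring

/-- the whole program -/
def prog [NeZero k] (hn : 0 < n) : List (Step (Reg k m) M) :=
  progL e (n - 1) (by omega) ++ ([sInit] ++ inner (fun a _ _ => e (.snk a)) 0 (List.finRange m))

lemma run_prog [NeZero k] [NeZero m] (hn : 0 < n) (x : Fin M → Bool) :
    run x (prog e hn) (fun _ => false) (2, 0, 0) = F (fun v => x (e v)) := by
  unfold prog
  rw [run_append, run_append]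
  set v0 := run x (progL e (n - 1) (by omega)) (fun _ => false) with hv0
  have h0 : ∀ j c, v0 (0, j, c) = lay (fun v => x (e v)) (n - 1) j c :=
    fun j c => run_progL e x (n - 1) (by omega) j c
  set v1 := run x [(sInit : Step (Reg k m) M)] v0 with hv1
  have e0 : ∀ j c, v1 (0, j, c) = v0 (0, j, c) := by
    intro j c; simp [hv1, run, sInit, cp_eval]
  have e2 : ∀ j c, v1 (2, j, c) = false := by
    intro j c; simp [hv1, run, sInit, LGate.eval, LNode.eval]
  rw [(run_inner x _ 0 (List.finRange m) v1).2.2, e2]
  simp only [e0, h0]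
  simp [F]

/-- **The narrow layered circuit.** -/
theorem exists_layered [NeZero k] [NeZero m] (hn : 0 < n) (e : Var n k m → Fin M) :
    ∃ C : Circuit M, Mono C ∧ C.Layered (4 * (k * m)) ∧
      C.size ≤ (n * (k * (2 * m + 1) + 2) + 2 * m + 2) * (4 * (k * m)) ∧
      ∀ x, C.eval x = F (fun v => x (e v)) := by
  have hk : 0 < k := Nat.pos_of_ne_zero (NeZero.ne k)
  have hm : 0 < m := Nat.pos_of_ne_zero (NeZero.ne m)
  have hcard : Fintype.card (Reg k m) = 4 * (k * m) := by simp
  let eq : Reg k m ≃ Fin (4 * (k * m)) := Fintype.equivFinOfCardEq hcard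
  have hW : 0 < 4 * (k * m) := by positivity
  have hl : prog e hn ≠ [] := by
    intro h
    have := congrArg List.length h
    simp [prog] at this
  refine ⟨progCircuit eq hW (prog e hn) (2, 0, 0) hl, progCircuit_mono _ _ _ _ _,
    progCircuit_layered _ _ _ _ _, ?_, fun x => ?_⟩
  · show (prog e hn).length * (4 * (k * m)) ≤ _
    apply Nat.mul_le_mul_right
    simp only [prog, List.length_append, length_progL, inner, List.length_flatMap,
      List.length_cons, List.length_nil]
    simp
    have h1 : (n - 1) * (k * (2 * m + 1) + 2) ≤ n * (k * (2 * m + 1) + 2) :=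
      Nat.mul_le_mul_right _ (Nat.sub_le _ _)
    omega
  · rw [progCircuit_eval, run_prog]

end Pool.Agent.H540R2.Lift
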