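import Mathlib
import Pool.Agent.H540R2.Lift.Delayer

/-!
# Lower bound for monotone circuits computing `F`
-/

set_option autoImplicit false

namespace Pool.Agent.H540R2.Lift

open Finset Classical

variable {n k m M : ℕ}

/-- transport of an assignment -/
noncomputable def ext (e : Var n k m → Fin M) (t : Var n k m → Bool) (d : Bool) (i : Fin M) :
    Bool := if h : ∃ v, e v = i then t h.choose else d

lemma ext_e {e : Var n k m → Fin M} (he : Function.Injective e) (t : Var n k m → Bool) (d : Bool)
    (v : Var n k m) : ext e t d (e v) = t v := by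
  have h : ∃ v', e v' = e v := ⟨v, rfl⟩
  unfold ext
  rw [dif_pos h, he h.choose_spec]

theorem lower {b q r : ℕ} [NeZero k] (hn : 0 < n) (e : Var n k (b ^ 2) → Fin M)
    (he : Function.Injective e) (C : Circuit M) (hmono : Mono C)
    (hC : ∀ w, C.eval w = F (fun v => w (e v))) (hq : 2 ≤ q) (hr : 1 ≤ r)
    (hb : 2048 * r * (2 * q) ^ 3 * (k + 1) ^ 2 ≤ b) (hk : 3 * q ≤ k) (hs : C.size ≤ b ^ q)
    (hY : C.size * (n * k * (b ^ 2 * (k + 1)) + 1) ^ q + 1 ≤ 2 ^ r) :
    n + 1 ≤ 1 + 2 * q * (C.depth + 1) := by
  have hS : Fintype.card (Option (Fin k)) = k + 1 := by simp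
  refine sim (U := Fin n × Fin k) (A := Fin (b ^ 2)) (S := Option (Fin k)) (q := q) (b := b)
    (r := r) (inX := fun x => ext e (inA x) false) (inY := fun y => ext e (inB y) true)
    (Jv := fun i => if h : ∃ v, e v = i then Jv h.choose else ∅) (z := fun _ => none)
    (strat n k) hmono ?_ ?_ (by omega) hr ?_ hk ?_ hs ?_ ?_ ?_ ?_
  · intro i
    split_ifs with h
    · exact (Jv_card _).trans hq
    · simp
  · intro i x y I L hx hy hI hV
    simp only [ext] at hx hy
    by_cases h : ∃ v, e v = i
    · rw [dif_pos h] at hx hy hI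
      exact leaf h.choose x y I L hx hy hI hV
    · rw [dif_neg h] at hx
      exact absurd hx (by decide)
  · rw [hS]; exact hb
  · simp
  · have : Fintype.card ((Fin n × Fin k) × Fin (b ^ 2) × Option (Fin k)) =
        n * k * (b ^ 2 * (k + 1)) := by simp
    rw [this]; exact hY
  · intro x
    rw [hC]
    have : (fun v => ext e (inA x) false (e v)) = inA x := funext fun v => ext_e he _ _ v
    rw [this]
    exact F_A hn x
  · intro y
    rw [hC]
    have : (fun v => ext e (inB y) true (e v)) = inB y := funext fun v => ext_e he _ _ v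
    rw [this]
    exact F_B hn y
  · exact ⟨le_rfl, by simp, by simp⟩

end Pool.Agent.H540R2.Lift
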