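import Mathlib
import Pool.Agent.H540R2.Lift.Lower
import Pool.Agent.H540R2.Lift.FProg

/-!
# The family of functions
-/

set_option autoImplicit false

namespace Pool.Agent.H540R2.Lift

open Finset

/-! ### number of variables -/

/-- variables as a sum type -/
def varEquiv (n k m : ℕ) : Var n k m ≃
    (Fin k × Fin m) ⊕ (Fin n × Fin k × Fin k × Fin m × Fin m) ⊕ Fin m where
  toFun
    | .src j c => .inl (j, c)
    | .edge l j i a c => .inr (.inl (l, j, i, a, c))
    | .snk a => .inr (.inr a)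
  invFun
    | .inl (j, c) => .src j c
    | .inr (.inl (l, j, i, a, c)) => .edge l j i a c
    | .inr (.inr a) => .snk a
  left_inv v := by cases v <;> rfl
  right_inv v := by rcases v with _ | _ | _ <;> rfl

/-- number of variables -/
def nv (n k m : ℕ) : ℕ := k * m + (n * (k * (k * (m * m))) + m)

lemma exists_embed {n k m M : ℕ} (h : nv n k m ≤ M) :
    ∃ e : Var n k m → Fin M, Function.Injective e := by
  have : Fintype.card ((Fin k × Fin m) ⊕ (Fin n × Fin k × Fin k × Fin m × Fin m) ⊕ Fin m) ≤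
      Fintype.card (Fin M) := by
    simp only [Fintype.card_sum, Fintype.card_prod, Fintype.card_fin]
    exact h
  obtain ⟨e⟩ := Function.Embedding.nonempty_of_card_le this
  exact ⟨fun v => e (varEquiv n k m v), fun v w hvw => (varEquiv n k m).injective (e.injective hvw)⟩

/-! ### numerical facts -/

lemma poly_le_exp (K d : ℕ) : ∃ L0 : ℕ, ∀ L ≥ L0, K * (L + 1) ^ d ≤ 2 ^ L := by
  have h := (isLittleO_pow_const_const_pow_of_one_lt (R := ℝ) d (show (1 : ℝ) < 2 by norm_num))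
  have hK : (0 : ℝ) < 1 / (2 * K + 1) := by positivity
  obtain ⟨N, hN⟩ := Filter.eventually_atTop.1 (h.bound hK)
  refine ⟨N, fun L hL => ?_⟩
  have h1 := hN (L + 1) (by omega)
  rw [Real.norm_of_nonneg (by positivity), Real.norm_of_nonneg (by positivity)] at h1
  have h2 : ((L + 1 : ℕ) : ℝ) ^ d * (2 * K + 1) ≤ 2 ^ (L + 1) := by
    have h3 : (0 : ℝ) < 2 * K + 1 := by positivity
    calc ((L + 1 : ℕ) : ℝ) ^ d * (2 * K + 1) ≤ (1 / (2 * K + 1) * 2 ^ (L + 1)) * (2 * K + 1) :=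
          mul_le_mul_of_nonneg_right h1 h3.le
      _ = 2 ^ (L + 1) := by field_simp
  have h4 : (((L + 1) ^ d * (2 * K + 1) : ℕ) : ℝ) ≤ ((2 ^ (L + 1) : ℕ) : ℝ) := by
    push_cast at h2 ⊢; exact h2
  have h5 : (L + 1) ^ d * (2 * K + 1) ≤ 2 ^ (L + 1) := by exact_mod_cast h4
  have h6 : 2 * (K * (L + 1) ^ d) ≤ 2 * 2 ^ L := by
    calc 2 * (K * (L + 1) ^ d) ≤ (L + 1) ^ d * (2 * K + 1) := by
          rw [mul_add]; nlinarith [Nat.zero_le ((L + 1) ^ d)]
      _ ≤ 2 ^ (L + 1) := h5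
      _ = 2 * 2 ^ L := by ring
  omega

lemma poly_bound (K d x : ℕ) (hd : 1 ≤ d) : K * x ^ d ≤ x ^ (K + d) + (K + d) := by
  rcases Nat.eq_zero_or_pos x with h | h
  · subst h; simp [Nat.pos_iff_ne_zero.1 hd]
  · rcases Nat.lt_or_ge x 2 with h2 | h2
    · have : x = 1 := by omega
      subst this; simp; omega
    · rw [pow_add]
      have h3 : K ≤ x ^ K := by
        calc K ≤ 2 ^ K := Nat.lt_two_pow_self.le
          _ ≤ x ^ K := Nat.pow_le_pow_left h2 K
      have := Nat.mul_le_mul_right (x ^ d) h3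
      omega

section params

variable (a L : ℕ)

/-- the memory parameter -/
def pq : ℕ := L ^ a

/-- vertices per layer -/
def pk : ℕ := 3 * L ^ a

/-- half of the gadget size -/
def pb : ℕ := 2 ^ 21 * L ^ (6 * a + 1)

/-- labels -/
def pm : ℕ := pb a L ^ 2

/-- number of variables -/
def pV : ℕ := nv (2 ^ L) (pk a L) (pm a L)

variable {a L}

lemma pkm_eq : pk a L * pm a L = 3 * 2 ^ 42 * L ^ (13 * a + 2) := by
  simp only [pk, pm, pb]
  rw [mul_pow, ← pow_mul, ← pow_mul]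
  have : L ^ (13 * a + 2) = L ^ a * L ^ ((6 * a + 1) * 2) := by
    rw [← pow_add]; congr 1; ring
  rw [this]; ring

lemma pk_pos (hL : 1 ≤ L) : 1 ≤ pk a L := by
  have : 1 ≤ L ^ a := Nat.one_le_pow _ _ hL
  simp only [pk]; omega

lemma pm_pos (hL : 1 ≤ L) : 1 ≤ pm a L := by
  have : 1 ≤ L ^ (6 * a + 1) := Nat.one_le_pow _ _ hL
  have h2 : 1 ≤ pb a L := by simp only [pb]; omega
  exact Nat.one_le_pow _ _ h2

lemma pV_ge (hL : 1 ≤ L) : 2 ^ L * (pk a L * pm a L) ^ 2 ≤ pV a L := by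
  simp only [pV, nv]
  have : 2 ^ L * (pk a L * (pk a L * (pm a L * pm a L))) = 2 ^ L * (pk a L * pm a L) ^ 2 := by
    ring
  omega

lemma two_pow_le_pV (hL : 1 ≤ L) : 2 ^ L ≤ pV a L := by
  refine le_trans ?_ (pV_ge hL)
  have h1 := pk_pos (a := a) hL
  have h2 := pm_pos (a := a) hL
  have : 1 ≤ (pk a L * pm a L) ^ 2 := Nat.one_le_pow _ _ (Nat.mul_pos h1 h2)
  calc 2 ^ L = 2 ^ L * 1 := (mul_one _).symm
    _ ≤ _ := Nat.mul_le_mul_left _ this

lemma pV_le (hL : 1 ≤ L) : pV a L ≤ 3 * 2 ^ L * (pk a L * pm a L) ^ 2 := by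
  have h1 := pk_pos (a := a) hL
  have h2 := pm_pos (a := a) hL
  have h3 : 1 ≤ 2 ^ L := Nat.one_le_two_pow
  simp only [pV, nv]
  set k := pk a L
  set m := pm a L
  set n := 2 ^ L
  have e1 : k * m ≤ n * (k * m) ^ 2 := by
    have : 1 ≤ k * m := Nat.mul_pos h1 h2
    calc k * m = 1 * (k * m) * 1 := by ring
      _ ≤ n * (k * m) * (k * m) := Nat.mul_le_mul (Nat.mul_le_mul_right _ h3) this
      _ = _ := by ring
  have e2 : m ≤ k * m := Nat.le_mul_of_pos_left m h1
  have e3 : n * (k * (k * (m * m))) = n * (k * m) ^ 2 := by ring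
  calc k * m + (n * (k * (k * (m * m))) + m)
      ≤ n * (k * m) ^ 2 + (n * (k * m) ^ 2 + n * (k * m) ^ 2) := by omega
    _ = _ := by ring

end params

end Pool.Agent.H540R2.Lift
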