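import Mathlib
import Pool.Agent.H540R2.Lift.Family

/-!
# The lower bound with concrete parameters
-/

set_option autoImplicit false

namespace Pool.Agent.H540R2.Lift

open Finset

theorem core_lower (a : ℕ) (ha : 1 ≤ a) : ∃ L0 : ℕ, 2 ≤ L0 ∧ ∀ L ≥ L0, ∀ (M : ℕ)
    [NeZero (pk a L)] (e : Var (2 ^ L) (pk a L) (pm a L) → Fin M), Function.Injective e →
    ∀ C : Circuit M, Mono C → (∀ w, C.eval w = F (fun v => w (e v))) →
      C.size ≤ 2 ^ (L ^ a) → 2 ^ L ≤ 2 * L ^ a * (C.depth + 1) := by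
  obtain ⟨L1, hL1⟩ := poly_le_exp (2 ^ 21) (6 * a + 1)
  refine ⟨max L1 2, le_max_right _ _, fun L hL M _ e he C hmono hC hs => ?_⟩
  have hL2 : 2 ≤ L := le_trans (le_max_right _ _) hL
  have hLL : L1 ≤ L := le_trans (le_max_left _ _) hL
  set q := L ^ a with hq
  have hq2 : 2 ≤ q := by
    calc 2 ≤ L := hL2
      _ = L ^ 1 := (pow_one L).symm
      _ ≤ L ^ a := Nat.pow_le_pow_right (by omega) ha
  have hbq : pb a L = 2 ^ 21 * L * q ^ 6 := by
    simp only [pb, hq]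
    rw [← pow_mul, mul_assoc, pow_succ]
    ring
  have hb2L : pb a L ≤ 2 ^ L := by
    refine le_trans ?_ (hL1 L hLL)
    simp only [pb]
    exact Nat.mul_le_mul_left _ (Nat.pow_le_pow_left (by omega) _)
  have hq6 : q ≤ q ^ 6 := Nat.le_self_pow (by norm_num) q
  have hb4q : 4 * q ≤ pb a L := by
    rw [hbq]
    calc 4 * q ≤ (2 ^ 21 * L) * q ^ 6 := Nat.mul_le_mul (by omega) hq6
      _ = _ := by ring
  have hpk : pk a L = 3 * q := rfl
  have h := lower (b := pb a L) (q := q) (r := 8 * L * q) (by positivity : 0 < 2 ^ L) e he C hmono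
    hC hq2 (by
      calc 1 ≤ 8 * 2 * 2 := by norm_num
        _ ≤ 8 * L * q := Nat.mul_le_mul (Nat.mul_le_mul_left _ hL2) hq2) ?_ (by rw [hpk])
    ?_ ?_
  · have e1 : 1 + 2 * q * (C.depth + 1) = 2 * q * (C.depth + 1) + 1 := by ring
    omega
  · rw [hpk, hbq]
    have h1 : (3 * q + 1) ^ 2 ≤ 16 * q ^ 2 := by
      calc (3 * q + 1) ^ 2 ≤ (4 * q) ^ 2 := Nat.pow_le_pow_left (by omega) 2
        _ = _ := by ring
    calc 2048 * (8 * L * q) * (2 * q) ^ 3 * (3 * q + 1) ^ 2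
        ≤ 2048 * (8 * L * q) * (2 * q) ^ 3 * (16 * q ^ 2) := Nat.mul_le_mul_left _ h1
      _ = 2 ^ 21 * L * q ^ 6 := by ring
  · refine hs.trans (Nat.pow_le_pow_left ?_ q)
    omega
  · have hin : 2 ^ L * pk a L * (pb a L ^ 2 * (pk a L + 1)) + 1 ≤ 2 ^ (5 * L) := by
      rw [hpk]
      have h1 : 3 * q * (3 * q + 1) + 1 ≤ (4 * q) ^ 2 := by nlinarith
      have h2 : (4 * q) ^ 2 ≤ pb a L ^ 2 := Nat.pow_le_pow_left hb4q 2
      have h3 : 1 ≤ 2 ^ L * pb a L ^ 2 := by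
        have : 1 ≤ pb a L := by omega
        exact Nat.mul_pos (by positivity) (Nat.one_le_pow _ _ this)
      calc 2 ^ L * (3 * q) * (pb a L ^ 2 * (3 * q + 1)) + 1
          ≤ 2 ^ L * (3 * q) * (pb a L ^ 2 * (3 * q + 1)) + 2 ^ L * pb a L ^ 2 :=
            Nat.add_le_add_left h3 _
        _ = 2 ^ L * pb a L ^ 2 * (3 * q * (3 * q + 1) + 1) := by ring
        _ ≤ 2 ^ L * pb a L ^ 2 * pb a L ^ 2 := Nat.mul_le_mul_left _ (h1.trans h2)
        _ = 2 ^ L * pb a L ^ 4 := by ring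
        _ ≤ 2 ^ L * (2 ^ L) ^ 4 := Nat.mul_le_mul_left _ (Nat.pow_le_pow_left hb2L 4)
        _ = 2 ^ (5 * L) := by rw [← pow_mul, ← pow_add]; congr 1; ring
    have h1 : (2 ^ L * pk a L * (pb a L ^ 2 * (pk a L + 1)) + 1) ^ q ≤ 2 ^ (5 * L * q) := by
      rw [pow_mul]; exact Nat.pow_le_pow_left hin q
    have h2 : C.size * (2 ^ L * pk a L * (pb a L ^ 2 * (pk a L + 1)) + 1) ^ q ≤
        2 ^ (q + 5 * L * q) := by
      rw [pow_add]; exact Nat.mul_le_mul hs h1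
    have h3 : 1 ≤ 2 ^ (q + 5 * L * q) := Nat.one_le_two_pow
    calc C.size * (2 ^ L * pk a L * (pb a L ^ 2 * (pk a L + 1)) + 1) ^ q + 1
        ≤ 2 ^ (q + 5 * L * q) + 2 ^ (q + 5 * L * q) := Nat.add_le_add h2 h3
      _ = 2 ^ (q + 5 * L * q + 1) := by rw [pow_succ]; ring
      _ ≤ 2 ^ (8 * L * q) := by
          apply Nat.pow_le_pow_right (by norm_num)
          nlinarith

end Pool.Agent.H540R2.Lift
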