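import Mathlib
import Pool.Agent.H540R2.Lift.Core

/-!
# Monotone SC is not contained in monotone NC
-/

set_option autoImplicit false

namespace Pool.Agent.H540R2.Lift

open Finset

lemma poly_bound' (K d x : ℕ) (hx : 2 ≤ x) : K * x ^ d ≤ x ^ (K + d) := by
  rw [pow_add]
  have h3 : K ≤ x ^ K := by
    calc K ≤ 2 ^ K := Nat.lt_two_pow_self.le
      _ ≤ x ^ K := Nat.pow_le_pow_left hx K
  exact Nat.mul_le_mul_right (x ^ d) h3

/-- the circuit computing a constant -/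
lemma const_circuit (M : ℕ) : ∃ C : Circuit M, Mono C ∧ C.Layered 1 ∧ C.size = 1 ∧
    ∀ x, C.eval x = false := by
  refine ⟨{ size := 1, gate := fun _ => .and (.const false) (.const false), out := .gate 0,
            gate_lt := ?_, out_lt := ?_ }, ?_, ?_, rfl, ?_⟩
  · intro i _ j hj
    exact absurd rfl hj
  · intro j hj
    simp only [Node.wires] at hj
    split_ifs at hj with h
    · omega
    · exact absurd rfl hj
  · intro i _ a; simp
  · refine ⟨1, fun _ => 1, fun i _ => ⟨le_rfl, le_rfl⟩, fun i _ j hj => absurd rfl hj,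
      ⟨0, Nat.one_pos, rfl, rfl⟩, fun l => ?_⟩
    exact (Finset.card_le_card (Finset.filter_subset _ _)).trans (by simp)
  · intro x
    show Node.eval x _ (.gate 0) = false
    simp only [Node.eval]
    rw [Circuit.val]
    simp [Gate.eval, Node.eval]

/-- choice of the parameter `L` -/
lemma exists_L (a L0 M : ℕ) (hL0 : 1 ≤ L0) (hM : pV a L0 ≤ M) :
    ∃ L, L0 ≤ L ∧ pV a L ≤ M ∧ M < pV a (L + 1) := by
  set L := Nat.findGreatest (fun L => pV a L ≤ M) M with hL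
  have h0 : L0 ≤ M := by
    have := two_pow_le_pV (a := a) hL0
    have := Nat.lt_two_pow_self (n := L0)
    omega
  have h1 : L0 ≤ L := Nat.le_findGreatest h0 hM
  have h2 : pV a L ≤ M := Nat.findGreatest_spec (P := fun L => pV a L ≤ M) h0 hM
  refine ⟨L, h1, h2, ?_⟩
  by_contra hc
  push Not at hc
  have h3 : L + 1 ≤ M := by
    have := two_pow_le_pV (a := a) (L := L) (by omega)
    have := Nat.lt_two_pow_self (n := L)
    omega
  exact Nat.findGreatest_is_greatest (P := fun L => pV a L ≤ M) (Nat.lt_succ_self L) h3 hc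

/-- the arithmetic of the upper bound -/
lemma arith_upper {a L M : ℕ} (hL : 1 ≤ L) (hV : pV a L ≤ M) :
    (2 ^ L * (pk a L * (2 * pm a L + 1) + 2) + 2 * pm a L + 2) * (4 * (pk a L * pm a L)) ≤
      36 * M := by
  have e1 := pk_pos (a := a) hL
  have e2 := pm_pos (a := a) hL
  have e3 : 1 ≤ 2 ^ L := Nat.one_le_two_pow
  have e4 : 2 ^ L * (pk a L * pm a L) ^ 2 ≤ M := (pV_ge hL).trans hV
  generalize pk a L = k at *
  generalize pm a L = m at *
  generalize 2 ^ L = n at *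
  have f1 : 1 ≤ k * m := Nat.mul_pos e1 e2
  have f2 : k ≤ k * m := Nat.le_mul_of_pos_right k e2
  have f3 : m ≤ k * m := Nat.le_mul_of_pos_left m e1
  have f4 : k * (2 * m + 1) + 2 ≤ 5 * (k * m) := by
    have : k * (2 * m + 1) = 2 * (k * m) + k := by ring
    omega
  have f5 : 2 * m + 2 ≤ n * (4 * (k * m)) := by
    calc 2 * m + 2 ≤ 4 * (k * m) := by omega
      _ = 1 * (4 * (k * m)) := (one_mul _).symm
      _ ≤ _ := Nat.mul_le_mul_right _ e3
  have f6 : n * (k * (2 * m + 1) + 2) ≤ n * (5 * (k * m)) := Nat.mul_le_mul_left _ f4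
  calc (n * (k * (2 * m + 1) + 2) + 2 * m + 2) * (4 * (k * m))
      ≤ (n * (5 * (k * m)) + n * (4 * (k * m))) * (4 * (k * m)) :=
        Nat.mul_le_mul_right _ (by omega)
    _ = 36 * (n * (k * m) ^ 2) := by ring
    _ ≤ 36 * M := Nat.mul_le_mul_left _ e4

/-- the number of variables for `L + 1` -/
lemma pV_succ_le (a L : ℕ) :
    pV a (L + 1) ≤ 54 * 2 ^ 84 * (L + 1) ^ (26 * a + 4) * 2 ^ L := by
  have h1 := pV_le (a := a) (L := L + 1) (by omega)
  rw [pkm_eq] at h1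
  refine h1.trans_eq ?_
  have e1 : (L + 1) ^ (26 * a + 4) = ((L + 1) ^ (13 * a + 2)) ^ 2 := by
    rw [← pow_mul]; congr 1; ring
  rw [e1, pow_succ 2 L]
  ring

lemma arith_lower {a L M K d l : ℕ} (ha : 1 ≤ a) (hL1 : 1 ≤ L)
    (hVup : M ≤ K * (L + 1) ^ (26 * a + 4) * 2 ^ L)
    (hLl : L ≤ l) (hlow : 2 ^ L ≤ 2 * L ^ a * (d + 1)) (h3 : 2 * (L + 1) ^ a ≤ 2 ^ L) :
    M ≤ 4 * K * 2 ^ (27 * a + 4) * l ^ (27 * a + 4) * d := by
  have hdep : 1 ≤ d := by
    by_contra hc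
    have h0 : d = 0 := by omega
    rw [h0] at hlow
    have h4 : L ^ a < (L + 1) ^ a := Nat.pow_lt_pow_left (Nat.lt_succ_self L) (by omega)
    omega
  have h5 : 2 ^ L ≤ 4 * L ^ a * d := by
    refine hlow.trans ?_
    calc 2 * L ^ a * (d + 1) ≤ 2 * L ^ a * (2 * d) := Nat.mul_le_mul_left _ (by omega)
      _ = _ := by ring
  have h6 : M ≤ 4 * K * (L + 1) ^ (27 * a + 4) * d := by
    refine hVup.trans ?_
    calc K * (L + 1) ^ (26 * a + 4) * 2 ^ L
        ≤ K * (L + 1) ^ (26 * a + 4) * (4 * L ^ a * d) := Nat.mul_le_mul_left _ h5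
      _ ≤ K * (L + 1) ^ (26 * a + 4) * (4 * (L + 1) ^ a * d) := by
          apply Nat.mul_le_mul_left
          apply Nat.mul_le_mul_right
          exact Nat.mul_le_mul_left _ (Nat.pow_le_pow_left (by omega) _)
      _ = 4 * K * ((L + 1) ^ (26 * a + 4) * (L + 1) ^ a) * d := by ring
      _ = _ := by rw [← pow_add]; congr 3; ring
  have h7 : (L + 1) ^ (27 * a + 4) ≤ 2 ^ (27 * a + 4) * l ^ (27 * a + 4) := by
    rw [← mul_pow]
    exact Nat.pow_le_pow_left (by omega) _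
  refine h6.trans (Nat.mul_le_mul_right _ ?_)
  calc 4 * K * (L + 1) ^ (27 * a + 4)
      ≤ 4 * K * (2 ^ (27 * a + 4) * l ^ (27 * a + 4)) := Nat.mul_le_mul_left _ h7
    _ = _ := by ring

/-- one input length -/
theorem exists_fn (A : ℕ) : ∃ c n0 : ℕ, ∀ M : ℕ, ∃ f : (Fin M → Bool) → Bool,
    (∃ C : Circuit M, Mono C ∧ (∀ x, C.eval x = f x) ∧ C.size ≤ M ^ c + c ∧
      C.Layered ((Nat.log 2 M) ^ c + c)) ∧
    (n0 ≤ M → ∀ C : Circuit M, Mono C → (∀ x, C.eval x = f x) →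
      C.size ≤ 2 ^ (Nat.log 2 M) ^ A → M ≤ (Nat.log 2 M) ^ c * C.depth) := by
  obtain ⟨a, ha⟩ : ∃ a, a = A + 1 := ⟨_, rfl⟩
  obtain ⟨L1, hL1, hcore⟩ := core_lower a (by omega)
  obtain ⟨K, hK⟩ : ∃ K, K = 54 * 2 ^ 84 := ⟨_, rfl⟩
  obtain ⟨L2, hL2⟩ := poly_le_exp K (26 * a + 4)
  obtain ⟨L3, hL3⟩ := poly_le_exp 2 a
  obtain ⟨L0, hL0⟩ : ∃ L0, L0 = max (max L1 L2) (max L3 (2 ^ A)) := ⟨_, rfl⟩
  have hL01 : L1 ≤ L0 := by rw [hL0]; exact (le_max_left _ _).trans (le_max_left _ _)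
  have hL02 : L2 ≤ L0 := by rw [hL0]; exact (le_max_right _ _).trans (le_max_left _ _)
  have hL03 : L3 ≤ L0 := by rw [hL0]; exact (le_max_left _ _).trans (le_max_right _ _)
  have hL04 : 2 ^ A ≤ L0 := by rw [hL0]; exact (le_max_right _ _).trans (le_max_right _ _)
  clear hL0
  obtain ⟨K1, hK1⟩ : ∃ K1, K1 = 12 * 2 ^ 42 := ⟨_, rfl⟩
  obtain ⟨K2, hK2⟩ : ∃ K2, K2 = 4 * K * 2 ^ (27 * a + 4) := ⟨_, rfl⟩
  obtain ⟨c, hc⟩ : ∃ c, c = max (max (K1 + (13 * a + 2)) (K2 + (27 * a + 4))) 37 := ⟨_, rfl⟩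
  have hc1 : K1 + (13 * a + 2) ≤ c := by
    rw [hc]; exact (le_max_left _ _).trans (le_max_left _ _)
  have hc2 : K2 + (27 * a + 4) ≤ c := by
    rw [hc]; exact (le_max_right _ _).trans (le_max_left _ _)
  have hc36 : 37 ≤ c := by rw [hc]; exact le_max_right _ _
  clear hc
  refine ⟨c, pV a L0, fun M => ?_⟩
  by_cases hM : pV a L0 ≤ M
  · obtain ⟨L, hLL0, hVL, hVL1⟩ := exists_L a L0 M (by omega) hM
    have hL1' : 1 ≤ L := by omega
    have _i1 : NeZero (pk a L) := ⟨by have := pk_pos (a := a) hL1'; omega⟩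
    have _i2 : NeZero (pm a L) := ⟨by have := pm_pos (a := a) hL1'; omega⟩
    obtain ⟨e, he⟩ := exists_embed hVL
    have h2L : 2 ^ L ≤ M := (two_pow_le_pV hL1').trans hVL
    have hM2 : 2 ≤ M := by
      calc 2 = 2 ^ 1 := rfl
        _ ≤ 2 ^ L := Nat.pow_le_pow_right (by norm_num) hL1'
        _ ≤ M := h2L
    have hLlog : L ≤ Nat.log 2 M := Nat.le_log_of_pow_le (by norm_num) h2L
    have hlog2 : 2 ≤ Nat.log 2 M := by omega
    refine ⟨fun x => F (fun v => x (e v)), ?_, fun _ C hmono hC hs => ?_⟩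
    · obtain ⟨C, h1, h2, h3, h4⟩ := exists_layered (n := 2 ^ L) (by positivity) e
      refine ⟨C, h1, h4, ?_, ?_⟩
      · refine (h3.trans (arith_upper hL1' hVL)).trans ?_
        have h6 := poly_bound' 36 1 M hM2
        rw [pow_one] at h6
        exact (h6.trans (Nat.pow_le_pow_right (by omega) hc36)).trans (Nat.le_add_right _ _)
      · obtain ⟨d, lay, g1, g2, g3, g4⟩ := h2
        refine ⟨d, lay, g1, g2, g3, fun l => (g4 l).trans ?_⟩
        rw [pkm_eq]
        have h6 : 4 * (3 * 2 ^ 42 * L ^ (13 * a + 2)) ≤ K1 * (Nat.log 2 M) ^ (13 * a + 2) := by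
          rw [hK1]
          calc 4 * (3 * 2 ^ 42 * L ^ (13 * a + 2)) = 12 * 2 ^ 42 * L ^ (13 * a + 2) := by ring
            _ ≤ _ := Nat.mul_le_mul_left _ (Nat.pow_le_pow_left hLlog _)
        refine h6.trans ((poly_bound' K1 (13 * a + 2) _ hlog2).trans ?_)
        exact (Nat.pow_le_pow_right (by omega) hc1).trans (Nat.le_add_right _ _)
    · have hVup : M ≤ K * (L + 1) ^ (26 * a + 4) * 2 ^ L := by
        rw [hK]; exact hVL1.le.trans (pV_succ_le a L)
      have h22L : M ≤ 2 ^ (2 * L) := by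
        refine hVup.trans ?_
        calc K * (L + 1) ^ (26 * a + 4) * 2 ^ L ≤ 2 ^ L * 2 ^ L :=
              Nat.mul_le_mul_right _ (hL2 L (by omega))
          _ = 2 ^ (2 * L) := by rw [← pow_add]; congr 1; ring
      have hlogL : Nat.log 2 M ≤ 2 * L := by
        calc Nat.log 2 M ≤ Nat.log 2 (2 ^ (2 * L)) := Nat.log_mono_right h22L
          _ = 2 * L := Nat.log_pow (by norm_num) _
      have hexp : (Nat.log 2 M) ^ A ≤ L ^ a := by
        calc (Nat.log 2 M) ^ A ≤ (2 * L) ^ A := Nat.pow_le_pow_left hlogL A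
          _ = 2 ^ A * L ^ A := mul_pow _ _ _
          _ ≤ L * L ^ A := Nat.mul_le_mul_right _ (by omega)
          _ = L ^ a := by rw [ha, pow_succ]; ring
      have hs' : C.size ≤ 2 ^ (L ^ a) := hs.trans (Nat.pow_le_pow_right (by norm_num) hexp)
      have hlow := hcore L (by omega) M e he C hmono hC hs'
      have h8 := arith_lower (by omega : 1 ≤ a) hL1' hVup hLlog hlow (hL3 L (by omega))
      rw [← hK2] at h8
      refine h8.trans (Nat.mul_le_mul_right _ ?_)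
      exact (poly_bound' _ _ _ hlog2).trans (Nat.pow_le_pow_right (by omega) hc2)
  · obtain ⟨C, h1, h2, h3, h4⟩ := const_circuit M
    refine ⟨fun _ => false, ⟨C, h1, h4, by omega, ?_⟩, fun h => absurd h hM⟩
    obtain ⟨d, lay, g1, g2, g3, g4⟩ := h2
    exact ⟨d, lay, g1, g2, g3, fun l => (g4 l).trans (by omega)⟩

end Pool.Agent.H540R2.Lift
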