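import Mathlib
import Pool.Agent.H540R2.Lift.Lower
import Pool.Agent.H540R2.Lift.FProg
import Pool.Agent.H540R2.Lift.MFm
import Pool.Agent.H540R2.Lift.Final1

/-!
# The tradeoff with two parameters
-/

set_option autoImplicit false

namespace Pool.Agent.H540R2.Lift

/-- half gadget size -/
def gb (q L : ℕ) : ℕ := 2 ^ 21 * L * q ^ 6

lemma core_param {q L M : ℕ} (hq : 2 ≤ q) (hL : 1 ≤ L) (hb : gb q L ≤ 2 ^ L) [NeZero (3 * q)]
    (e : Var (2 ^ L) (3 * q) (gb q L ^ 2) → Fin M) (he : Function.Injective e)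
    (C : Circuit M) (hmono : C.Monotone) (hC : ∀ w, C.eval w = F (fun v => w (e v)))
    (hs : C.size ≤ 2 ^ q) : 2 ^ L ≤ 2 * q * (C.depth + 1) := by
  have hbq : gb q L = 2 ^ 21 * L * q ^ 6 := rfl
  have hq6 : q ≤ q ^ 6 := Nat.le_self_pow (by norm_num) q
  have hb4q : 4 * q ≤ gb q L := by
    rw [hbq]
    calc 4 * q ≤ (2 ^ 21 * L) * q ^ 6 := Nat.mul_le_mul (by omega) hq6
      _ = _ := by ring
  have h := lower (b := gb q L) (q := q) (r := 8 * L * q) (by positivity : 0 < 2 ^ L) e he C hmono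
    hC hq (by
      calc 1 ≤ 8 * 1 * 2 := by norm_num
        _ ≤ 8 * L * q := Nat.mul_le_mul (Nat.mul_le_mul_left _ hL) hq) ?_ le_rfl
    ?_ ?_
  · have e1 : 1 + 2 * q * (C.depth + 1) = 2 * q * (C.depth + 1) + 1 := by ring
    omega
  · rw [hbq]
    have h1 : (3 * q + 1) ^ 2 ≤ 16 * q ^ 2 := by
      calc (3 * q + 1) ^ 2 ≤ (4 * q) ^ 2 := Nat.pow_le_pow_left (by omega) 2
        _ = _ := by ring
    calc 2048 * (8 * L * q) * (2 * q) ^ 3 * (3 * q + 1) ^ 2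
        ≤ 2048 * (8 * L * q) * (2 * q) ^ 3 * (16 * q ^ 2) := Nat.mul_le_mul_left _ h1
      _ = 2 ^ 21 * L * q ^ 6 := by ring
  · refine hs.trans (Nat.pow_le_pow_left ?_ q)
    omega
  · have hin : 2 ^ L * (3 * q) * (gb q L ^ 2 * (3 * q + 1)) + 1 ≤ 2 ^ (5 * L) := by
      have h1 : 3 * q * (3 * q + 1) + 1 ≤ (4 * q) ^ 2 := by nlinarith
      have h2 : (4 * q) ^ 2 ≤ gb q L ^ 2 := Nat.pow_le_pow_left hb4q 2
      have h3 : 1 ≤ 2 ^ L * gb q L ^ 2 := by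
        have : 1 ≤ gb q L := by omega
        exact Nat.mul_pos (by positivity) (Nat.one_le_pow _ _ this)
      calc 2 ^ L * (3 * q) * (gb q L ^ 2 * (3 * q + 1)) + 1
          ≤ 2 ^ L * (3 * q) * (gb q L ^ 2 * (3 * q + 1)) + 2 ^ L * gb q L ^ 2 :=
            Nat.add_le_add_left h3 _
        _ = 2 ^ L * gb q L ^ 2 * (3 * q * (3 * q + 1) + 1) := by ring
        _ ≤ 2 ^ L * gb q L ^ 2 * gb q L ^ 2 := Nat.mul_le_mul_left _ (h1.trans h2)
        _ = 2 ^ L * gb q L ^ 4 := by ring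
        _ ≤ 2 ^ L * (2 ^ L) ^ 4 := Nat.mul_le_mul_left _ (Nat.pow_le_pow_left hb 4)
        _ = 2 ^ (5 * L) := by rw [← pow_mul, ← pow_add]; congr 1; ring
    have h1 : (2 ^ L * (3 * q) * (gb q L ^ 2 * (3 * q + 1)) + 1) ^ q ≤ 2 ^ (5 * L * q) := by
      rw [pow_mul]; exact Nat.pow_le_pow_left hin q
    have h2 : C.size * (2 ^ L * (3 * q) * (gb q L ^ 2 * (3 * q + 1)) + 1) ^ q ≤
        2 ^ (q + 5 * L * q) := by
      rw [pow_add]; exact Nat.mul_le_mul hs h1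
    have h3 : 1 ≤ 2 ^ (q + 5 * L * q) := Nat.one_le_two_pow
    calc C.size * (2 ^ L * (3 * q) * (gb q L ^ 2 * (3 * q + 1)) + 1) ^ q + 1
        ≤ 2 ^ (q + 5 * L * q) + 2 ^ (q + 5 * L * q) := Nat.add_le_add h2 h3
      _ = 2 ^ (q + 5 * L * q + 1) := by rw [pow_succ]; ring
      _ ≤ 2 ^ (8 * L * q) := by
          apply Nat.pow_le_pow_right (by norm_num)
          nlinarith

/-- number of steps of the program -/
def stp (n k m : ℕ) : ℕ := n * (k * (2 * m + 1) + 2) + 2 * m + 2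

lemma length_prog {n k m M : ℕ} [NeZero k] (e : Var n k m → Fin M) (hn : 0 < n) :
    (prog e hn).length ≤ stp n k m := by
  simp only [prog, List.length_append, length_progL, inner, List.length_flatMap,
    List.length_cons, List.length_nil, stp]
  simp
  have h1 : (n - 1) * (k * (2 * m + 1) + 2) ≤ n * (k * (2 * m + 1) + 2) :=
    Nat.mul_le_mul_right _ (Nat.sub_le _ _)
  omega

lemma exists_shallow {n k m M : ℕ} [NeZero k] [NeZero m] (hn : 0 < n) (e : Var n k m → Fin M)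
    {t : ℕ} (ht : stp n k m ≤ 2 ^ t) :
    ∃ C : Circuit M, C.Monotone ∧ C.depth ≤ t * (2 * (4 * (k * m)) + 2) + 1 ∧
      ∀ x, C.eval x = F (fun v => x (e v)) := by
  have h := mdp_run (R := Reg k m) (n := M) (W := 4 * (k * m)) (by simp) t (prog e hn)
    ((length_prog e hn).trans ht) (fun _ => false) (2, 0, 0)
  obtain ⟨C, h1, h2, -, h4⟩ := h.toCircuit
  exact ⟨C, h1, h2, fun x => by rw [h4 x, run_prog]⟩

/-- the size of the circuit -/
def sz (q L : ℕ) : ℕ :=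
  stp (2 ^ L) (3 * q) (gb q L ^ 2) * (4 * (3 * q * gb q L ^ 2))

lemma gb_pos {q L : ℕ} (hq : 1 ≤ q) (hL : 1 ≤ L) : 1 ≤ gb q L := by
  unfold gb
  have : 1 ≤ q ^ 6 := Nat.one_le_pow _ _ hq
  exact Nat.mul_pos (Nat.mul_pos (by norm_num) hL) this

lemma sz_le {q L : ℕ} (hq : 1 ≤ q) (hL : 1 ≤ L) :
    sz q L ≤ 324 * 2 ^ 84 * 2 ^ L * L ^ 4 * q ^ 26 := by
  have e1 : 1 ≤ 3 * q := by omega
  have e2 : 1 ≤ gb q L ^ 2 := Nat.one_le_pow _ _ (gb_pos hq hL)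
  have e3 : 1 ≤ 2 ^ L := Nat.one_le_two_pow
  have key : ∀ n k m : ℕ, 1 ≤ n → 1 ≤ k → 1 ≤ m →
      stp n k m * (4 * (k * m)) ≤ 36 * (n * (k * m) ^ 2) := by
    intro n k m e3 e1 e2
    have f1 : 1 ≤ k * m := Nat.mul_pos e1 e2
    have f2 : k ≤ k * m := Nat.le_mul_of_pos_right k e2
    have f3 : m ≤ k * m := Nat.le_mul_of_pos_left m e1
    have f4 : k * (2 * m + 1) + 2 ≤ 5 * (k * m) := by
      have : k * (2 * m + 1) = 2 * (k * m) + k := by ring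
      omega
    have f5 : 2 * m + 2 ≤ n * (4 * (k * m)) := by
      calc 2 * m + 2 ≤ 4 * (k * m) := by omega
        _ = 1 * (4 * (k * m)) := (one_mul _).symm
        _ ≤ _ := Nat.mul_le_mul_right _ e3
    have f6 : n * (k * (2 * m + 1) + 2) ≤ n * (5 * (k * m)) := Nat.mul_le_mul_left _ f4
    calc stp n k m * (4 * (k * m))
        ≤ (n * (5 * (k * m)) + n * (4 * (k * m))) * (4 * (k * m)) :=
          Nat.mul_le_mul_right _ (by unfold stp; omega)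
      _ = 36 * (n * (k * m) ^ 2) := by ring
  refine (key (2 ^ L) (3 * q) (gb q L ^ 2) e3 e1 e2).trans_eq ?_
  unfold gb
  ring

lemma two_pow_le_sz {q L : ℕ} (hq : 1 ≤ q) (hL : 1 ≤ L) : 2 ^ L ≤ sz q L := by
  have e2 : 1 ≤ gb q L ^ 2 := Nat.one_le_pow _ _ (gb_pos hq hL)
  unfold sz stp
  have h1 : 1 ≤ 4 * (3 * q * gb q L ^ 2) := by
    have : 0 < 3 * q * gb q L ^ 2 := by positivity
    omega
  calc 2 ^ L = 2 ^ L * 1 := (mul_one _).symm
    _ ≤ 2 ^ L * (3 * q * (2 * gb q L ^ 2 + 1) + 2) := Nat.mul_le_mul_left _ (by omega)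
    _ ≤ 2 ^ L * (3 * q * (2 * gb q L ^ 2 + 1) + 2) + 2 * gb q L ^ 2 + 2 := by omega
    _ = (2 ^ L * (3 * q * (2 * gb q L ^ 2 + 1) + 2) + 2 * gb q L ^ 2 + 2) * 1 :=
        (mul_one _).symm
    _ ≤ _ := Nat.mul_le_mul_left _ h1

lemma exists_L' {q L0 S : ℕ} (hq : 1 ≤ q) (hL0 : 1 ≤ L0) (hS : sz q L0 ≤ S) :
    ∃ L, L0 ≤ L ∧ sz q L ≤ S ∧ S < sz q (L + 1) := by
  set L := Nat.findGreatest (fun L => sz q L ≤ S) S with hL
  have h0 : L0 ≤ S := by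
    have := two_pow_le_sz hq hL0
    have := Nat.lt_two_pow_self (n := L0)
    omega
  have h1 : L0 ≤ L := Nat.le_findGreatest h0 hS
  have h2 : sz q L ≤ S := Nat.findGreatest_spec (P := fun L => sz q L ≤ S) h0 hS
  refine ⟨L, h1, h2, ?_⟩
  by_contra hc
  push Not at hc
  have h3 : L + 1 ≤ S := by
    have := two_pow_le_sz (L := L) hq (by omega)
    have := Nat.lt_two_pow_self (n := L)
    omega
  exact Nat.findGreatest_is_greatest (P := fun L => sz q L ≤ S) (Nat.lt_succ_self L) h3 hc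

/-- threshold for `L` -/
lemma exists_L0 {q : ℕ} (hq : 2 ≤ q) : ∃ L0 : ℕ, 1 ≤ L0 ∧ (∀ L ≥ L0, gb q L ≤ 2 ^ L) ∧
    sz q L0 ≤ 2 ^ 183 * q ^ 42 := by
  set l := Nat.clog 2 q with hl
  have hl1 : 1 ≤ l := Nat.clog_pos (by norm_num) hq
  have hql : q ≤ 2 ^ l := Nat.le_pow_clog (by norm_num) q
  have hlq : 2 ^ l ≤ 2 * q := by
    have h1 : 2 ^ (l - 1) < q := Nat.pow_pred_clog_lt_self (by norm_num) hq
    have h2 : 2 ^ l = 2 * 2 ^ (l - 1) := by
      rw [← pow_succ']; congr 1; omega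
    omega
  have hlq' : l ≤ q := by
    have h1 : l < 2 ^ l := Nat.lt_two_pow_self
    by_contra hc
    push Not at hc
    have h2 : 2 ^ (q + 1) ≤ 2 ^ l := Nat.pow_le_pow_right (by norm_num) hc
    have h3 : q < 2 ^ q := Nat.lt_two_pow_self
    rw [pow_succ] at h2
    omega
  set L0 := 12 * l + 50 with hL0
  have hbase : gb q L0 ≤ 2 ^ L0 := by
    unfold gb
    have h1 : q ^ 6 ≤ 2 ^ (6 * l) := by
      calc q ^ 6 ≤ (2 ^ l) ^ 6 := Nat.pow_le_pow_left hql 6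
        _ = 2 ^ (6 * l) := by rw [← pow_mul]; congr 1; ring
    have h2 : L0 ≤ 2 ^ (6 * l + 29) := by
      have h3 : 6 * l + 29 < 2 ^ (6 * l + 29) := Nat.lt_two_pow_self
      have h4 : 2 * (6 * l + 28) + 2 ≤ 2 ^ (6 * l + 29) := by
        have h5 : 6 * l + 28 < 2 ^ (6 * l + 28) := Nat.lt_two_pow_self
        rw [show 6 * l + 29 = 6 * l + 28 + 1 by ring, pow_succ]
        omega
      omega
    calc 2 ^ 21 * L0 * q ^ 6 ≤ 2 ^ 21 * 2 ^ (6 * l + 29) * 2 ^ (6 * l) :=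
          Nat.mul_le_mul (Nat.mul_le_mul_left _ h2) h1
      _ = 2 ^ L0 := by rw [← pow_add, ← pow_add]; congr 1; omega
  refine ⟨L0, by omega, ?_, ?_⟩
  · intro L hL
    induction L, hL using Nat.le_induction with
    | base => exact hbase
    | succ L hL ih =>
      unfold gb at ih ⊢
      calc 2 ^ 21 * (L + 1) * q ^ 6 ≤ 2 ^ 21 * (2 * L) * q ^ 6 :=
            Nat.mul_le_mul_right _ (Nat.mul_le_mul_left _ (by omega))
        _ = 2 * (2 ^ 21 * L * q ^ 6) := by ring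
        _ ≤ 2 * 2 ^ L := Nat.mul_le_mul_left _ ih
        _ = 2 ^ (L + 1) := by rw [pow_succ]; ring
  · refine (sz_le (by omega) (by omega)).trans ?_
    have h1 : 2 ^ L0 ≤ 2 ^ 62 * q ^ 12 := by
      calc 2 ^ L0 = 2 ^ 50 * (2 ^ l) ^ 12 := by
            rw [← pow_mul, ← pow_add]; congr 1; omega
        _ ≤ 2 ^ 50 * (2 * q) ^ 12 := Nat.mul_le_mul_left _ (Nat.pow_le_pow_left hlq 12)
        _ = _ := by ring
    have h2 : L0 ^ 4 ≤ 2 ^ 24 * q ^ 4 := by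
      calc L0 ^ 4 ≤ (64 * q) ^ 4 := Nat.pow_le_pow_left (by omega) 4
        _ = _ := by ring
    calc 324 * 2 ^ 84 * 2 ^ L0 * L0 ^ 4 * q ^ 26
        ≤ 324 * 2 ^ 84 * (2 ^ 62 * q ^ 12) * (2 ^ 24 * q ^ 4) * q ^ 26 :=
          Nat.mul_le_mul_right _ (Nat.mul_le_mul (Nat.mul_le_mul_left _ h1) h2)
      _ = 324 * 2 ^ 170 * q ^ 42 := by ring
      _ ≤ 2 ^ 183 * q ^ 42 := Nat.mul_le_mul_right _ (by norm_num)

end Pool.Agent.H540R2.Lift
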