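import Mathlib
import Pool.Agent.H540R2.Lift.Param
import Pool.Agent.H540R2.Lift.Neg

/-!
# The OR of many disjoint copies
-/

set_option autoImplicit false
set_option linter.unusedSectionVars false

namespace Pool.Agent.H540R2.Lift

/-! ### programs with an accumulator -/

section acc

variable {R : Type} {n : ℕ}

/-- lift an operand -/
def upN : LNode R n → LNode (Option R) n
  | .reg r => .reg (some r)
  | .var i => .var i
  | .const b => .const b

/-- lift a gate -/
def upG : LGate R n → LGate (Option R) n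
  | .and a b => .and (upN a) (upN b)
  | .or a b => .or (upN a) (upN b)

/-- a lifted step keeps the accumulator -/
def upS (s : Step R n) : Step (Option R) n
  | none => .or (.reg none) (.reg none)
  | some r => upG (s r)

/-- accumulate and reset -/
def accS (ro : R) : Step (Option R) n
  | none => .or (.reg none) (.reg (some ro))
  | some _ => .and (.const false) (.const false)

lemma upN_eval (x : Fin n → Bool) (v : Option R → Bool) (a : LNode R n) :
    (upN a).eval x v = a.eval x (fun r => v (some r)) := by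
  cases a <;> rfl

lemma upG_eval (x : Fin n → Bool) (v : Option R → Bool) (g : LGate R n) :
    (upG g).eval x v = g.eval x (fun r => v (some r)) := by
  cases g <;> simp [upG, LGate.eval, upN_eval]

lemma run_up (x : Fin n → Bool) (l : List (Step R n)) : ∀ v : Option R → Bool,
    run x (l.map upS) v none = v none ∧
    ∀ r, run x (l.map upS) v (some r) = run x l (fun r => v (some r)) r := by
  induction l with
  | nil => intro v; exact ⟨rfl, fun _ => rfl⟩
  | cons s l ih =>
    intro v
    simp only [List.map_cons, run]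
    obtain ⟨h1, h2⟩ := ih (fun r => (upS s r : LGate (Option R) n).eval x v)
    refine ⟨?_, fun r => ?_⟩
    · rw [h1]; simp [upS, LGate.eval, LNode.eval]
    · rw [h2 r]
      congr 1
      funext r'
      exact upG_eval x v (s r')

/-- run the programs one after the other and accumulate the OR of the outputs -/
def seqP (ro : R) (ps : List (List (Step R n))) : List (Step (Option R) n) :=
  ps.flatMap (fun l => l.map upS ++ [accS ro])

lemma run_seq (x : Fin n → Bool) (ro : R) (ps : List (List (Step R n))) :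
    ∀ v : Option R → Bool, (∀ r, v (some r) = false) →
      run x (seqP ro ps) v none = (v none || ps.any (fun l => run x l (fun _ => false) ro)) := by
  induction ps with
  | nil => intro v _; simp [seqP, run]
  | cons l ps ih =>
    intro v hv
    have h : seqP ro (l :: ps) = (l.map upS ++ [accS ro]) ++ seqP ro ps := by
      simp [seqP]
    rw [h, run_append, run_append]
    obtain ⟨h1, h2⟩ := run_up x l v
    set v1 := run x (l.map upS) v with hv1
    set v2 := run x [(accS ro : Step (Option R) n)] v1 with hv2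
    have e1 : v2 none = (v none || run x l (fun _ => false) ro) := by
      have : v2 none = (v1 none || v1 (some ro)) := rfl
      rw [this, h1, h2 ro]
      congr 2
      funext r
      exact hv r
    have e2 : ∀ r, v2 (some r) = false := fun r => rfl
    rw [ih v2 e2, e1, List.any_cons, Bool.or_assoc]

lemma length_seqP (ro : R) (ps : List (List (Step R n))) :
    (seqP ro ps).length = (ps.map (fun l => l.length + 1)).sum := by
  induction ps with
  | nil => rfl
  | cons l ps ih =>
    have h : seqP ro (l :: ps) = (l.map upS ++ [accS ro]) ++ seqP ro ps := by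
      simp [seqP]
    rw [h, List.length_append, ih]
    simp

end acc

/-! ### the function -/

/-- variables: `2 ^ t` copies of the variables of `F` with `2 ^ (L - t)` layers, for `t ≤ L` -/
abbrev MV (L k m : ℕ) := Σ t : Fin (L + 1), Fin (2 ^ t.1) × Var (2 ^ (L - t.1)) k m

/-- the OR of all copies -/
def MF {L k m M : ℕ} [NeZero k] (e : MV L k m → Fin M) (x : Fin M → Bool) : Bool :=
  decide (∃ (t : Fin (L + 1)) (j : Fin (2 ^ t.1)), F (fun v => x (e ⟨t, j, v⟩)) = true)

lemma F_false {n k m : ℕ} [NeZero k] : F (fun _ : Var n k m => false) = false := by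
  simp [F]

variable {L k m M : ℕ}

/-- the programs of the copies -/
def progs [NeZero k] (e : MV L k m → Fin M) : List (List (Step (Reg k m) M)) :=
  (List.finRange (L + 1)).flatMap (fun t => (List.finRange (2 ^ t.1)).map (fun j =>
    prog (fun v => e ⟨t, j, v⟩) (Nat.two_pow_pos _)))

lemma mem_progs [NeZero k] (e : MV L k m → Fin M) (t : Fin (L + 1)) (j : Fin (2 ^ t.1)) :
    prog (fun v => e ⟨t, j, v⟩) (Nat.two_pow_pos _) ∈ progs e := by
  simp only [progs, List.mem_flatMap, List.mem_map]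
  exact ⟨t, List.mem_finRange _, j, List.mem_finRange _, rfl⟩

lemma sum_flatMap_le {α β : Type} (f : α → List β) (g : β → ℕ) (B : ℕ) (l : List α)
    (h : ∀ t ∈ l, ((f t).map g).sum ≤ B) : ((l.flatMap f).map g).sum ≤ l.length * B := by
  induction l with
  | nil => simp
  | cons a l ih =>
    rw [List.flatMap_cons, List.map_append, List.sum_append, List.length_cons]
    have h1 := h a (by simp)
    have h2 := ih (fun t ht => h t (by simp [ht]))
    calc _ ≤ B + l.length * B := Nat.add_le_add h1 h2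
      _ = _ := by ring

lemma run_progs [NeZero k] [NeZero m] (e : MV L k m → Fin M) (x : Fin M → Bool) :
    run x (seqP (2, 0, 0) (progs e)) (fun _ => false) none = MF e x := by
  rw [run_seq x (2, 0, 0) (progs e) (fun _ => false) (fun _ => rfl), Bool.false_or]
  rw [Bool.eq_iff_iff, List.any_eq_true, MF, decide_eq_true_iff]
  constructor
  · rintro ⟨l, hl, h⟩
    simp only [progs, List.mem_flatMap, List.mem_map] at hl
    obtain ⟨t, -, j, -, rfl⟩ := hl
    refine ⟨t, j, ?_⟩
    rw [run_prog] at h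
    exact h
  · rintro ⟨t, j, h⟩
    refine ⟨prog (fun v => e ⟨t, j, v⟩) (Nat.two_pow_pos _), mem_progs e t j, ?_⟩
    rw [run_prog]
    exact h

lemma length_progs [NeZero k] [NeZero m] (e : MV L k m → Fin M) :
    (seqP (2, 0, 0) (progs e)).length ≤ (L + 1) * (2 ^ L * (10 * (k * m))) := by
  have hk : 1 ≤ k := Nat.pos_of_ne_zero (NeZero.ne k)
  have hm : 1 ≤ m := Nat.pos_of_ne_zero (NeZero.ne m)
  rw [length_seqP]
  have key := sum_flatMap_le (fun t : Fin (L + 1) => (List.finRange (2 ^ t.1)).map (fun j =>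
    prog (fun v => e ⟨t, j, v⟩) (Nat.two_pow_pos _))) (fun l => l.length + 1)
    (2 ^ L * (10 * (k * m))) (List.finRange (L + 1)) (fun t _ => by
    have h1 : ∀ y ∈ ((List.finRange (2 ^ t.1)).map (fun j =>
        prog (fun v => e ⟨t, j, v⟩) (Nat.two_pow_pos (L - t.1)))).map (fun l => l.length + 1),
        y ≤ stp (2 ^ (L - t.1)) k m + 1 := by
      intro y hy
      rw [List.mem_map] at hy
      obtain ⟨l, hl, rfl⟩ := hy
      rw [List.mem_map] at hl
      obtain ⟨j, -, rfl⟩ := hl
      have := length_prog (fun v => e ⟨t, j, v⟩) (Nat.two_pow_pos (L - t.1))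
      omega
    have h2 := List.sum_le_card_nsmul _ _ h1
    rw [List.length_map, List.length_map, List.length_finRange, smul_eq_mul] at h2
    refine h2.trans ?_
    have h3 : 2 ^ t.1 * 2 ^ (L - t.1) = 2 ^ L := by
      rw [← pow_add]; congr 1; have := t.2; omega
    have h4 : 2 ^ t.1 ≤ 2 ^ L := Nat.pow_le_pow_right (by norm_num) (by have := t.2; omega)
    have f1 : 1 ≤ k * m := Nat.mul_pos hk hm
    have f2 : k ≤ k * m := Nat.le_mul_of_pos_right k hm
    have f3 : m ≤ k * m := Nat.le_mul_of_pos_left m hk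
    calc 2 ^ t.1 * (stp (2 ^ (L - t.1)) k m + 1)
        = 2 ^ t.1 * 2 ^ (L - t.1) * (k * (2 * m + 1) + 2) + 2 ^ t.1 * (2 * m + 3) := by
          unfold stp; ring
      _ ≤ 2 ^ L * (k * (2 * m + 1) + 2) + 2 ^ L * (2 * m + 3) := by
          rw [h3]; exact Nat.add_le_add_left (Nat.mul_le_mul_right _ h4) _
      _ = 2 ^ L * (2 * (k * m) + k + 2 * m + 5) := by ring
      _ ≤ 2 ^ L * (10 * (k * m)) := Nat.mul_le_mul_left _ (by omega))
  rw [List.length_finRange] at key
  exact key

/-- the narrow circuit -/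
theorem multi_layered [NeZero k] [NeZero m] (e : MV L k m → Fin M) :
    ∃ C : Circuit M, C.Monotone ∧ C.Layered (4 * (k * m) + 1) ∧
      C.size ≤ (L + 1) * 2 ^ L * (50 * (k * m) ^ 2) ∧ ∀ x, C.eval x = MF e x := by
  have hk : 0 < k := Nat.pos_of_ne_zero (NeZero.ne k)
  have hm : 0 < m := Nat.pos_of_ne_zero (NeZero.ne m)
  have hcard : Fintype.card (Option (Reg k m)) = 4 * (k * m) + 1 := by simp
  let eq : Option (Reg k m) ≃ Fin (4 * (k * m) + 1) := Fintype.equivFinOfCardEq hcard
  have hW : 0 < 4 * (k * m) + 1 := by positivity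
  have hl : seqP (2, 0, 0) (progs e) ≠ [] := by
    intro h
    have h1 := mem_progs e ⟨0, by omega⟩ ⟨0, Nat.two_pow_pos _⟩
    obtain ⟨p, ps, hp⟩ : ∃ p ps, progs e = p :: ps :=
      List.exists_cons_of_ne_nil (List.ne_nil_of_mem h1)
    rw [hp] at h
    simp [seqP] at h
  refine ⟨progCircuit eq hW _ none hl, progCircuit_mono _ _ _ _ _,
    progCircuit_layered _ _ _ _ _, ?_, fun x => ?_⟩
  · show (seqP (2, 0, 0) (progs e)).length * (4 * (k * m) + 1) ≤ _
    have f1 : 1 ≤ k * m := Nat.mul_pos hk hm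
    calc (seqP (2, 0, 0) (progs e)).length * (4 * (k * m) + 1)
        ≤ (L + 1) * (2 ^ L * (10 * (k * m))) * (5 * (k * m)) :=
          Nat.mul_le_mul (length_progs e) (by omega)
      _ = _ := by ring
  · rw [progCircuit_eval, run_progs]

/-- the shallow circuit -/
lemma multi_shallow [NeZero k] [NeZero m] (e : MV L k m → Fin M)
    {t : ℕ} (ht : (L + 1) * (2 ^ L * (10 * (k * m))) ≤ 2 ^ t) :
    ∃ C : Circuit M, C.Monotone ∧ C.depth ≤ t * (2 * (4 * (k * m) + 1) + 2) + 1 ∧
      ∀ x, C.eval x = MF e x := by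
  have h := mdp_run (R := Option (Reg k m)) (n := M) (W := 4 * (k * m) + 1) (by simp) t
    (seqP (2, 0, 0) (progs e)) ((length_progs e).trans ht) (fun _ => false) none
  obtain ⟨C, h1, h2, -, h4⟩ := h.toCircuit
  exact ⟨C, h1, h2, fun x => by rw [h4 x, run_progs]⟩

/-! ### the lower bound -/

lemma core_param' {n q L M : ℕ} (hq : 2 ≤ q) (hL : 1 ≤ L) (hb : gb q L ≤ 2 ^ L) (hn0 : 0 < n)
    (hn : n ≤ 2 ^ L) [NeZero (3 * q)]
    (e : Var n (3 * q) (gb q L ^ 2) → Fin M) (he : Function.Injective e)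
    (C : Circuit M) (hmono : C.Monotone) (hC : ∀ w, C.eval w = F (fun v => w (e v)))
    (hs : C.size ≤ 2 ^ q) : n ≤ 2 * q * (C.depth + 1) := by
  have hbq : gb q L = 2 ^ 21 * L * q ^ 6 := rfl
  have hq6 : q ≤ q ^ 6 := Nat.le_self_pow (by norm_num) q
  have hb4q : 4 * q ≤ gb q L := by
    rw [hbq]
    calc 4 * q ≤ (2 ^ 21 * L) * q ^ 6 := Nat.mul_le_mul (by omega) hq6
      _ = _ := by ring
  have h := lower (b := gb q L) (q := q) (r := 8 * L * q) hn0 e he C hmono
    hC hq (by
      calc 1 ≤ 8 * 1 * 2 := by norm_num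
        _ ≤ 8 * L * q := Nat.mul_le_mul (Nat.mul_le_mul_left _ hL) hq) ?_ le_rfl
    ?_ ?_
  · have e1 : 1 + 2 * q * (C.depth + 1) = 2 * q * (C.depth + 1) + 1 := by ring
    omega
  · rw [hbq]
    have h1 : (3 * q + 1) ^ 2 ≤ 16 * q ^ 2 := by
      calc (3 * q + 1) ^ 2 ≤ (4 * q) ^ 2 := Nat.pow_le_pow_left (by omega) 2
        _ = _ := by ring
    calc 2048 * (8 * L * q) * (2 * q) ^ 3 * (3 * q + 1) ^ 2
        ≤ 2048 * (8 * L * q) * (2 * q) ^ 3 * (16 * q ^ 2) := Nat.mul_le_mul_left _ h1
      _ = 2 ^ 21 * L * q ^ 6 := by ring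
  · refine hs.trans (Nat.pow_le_pow_left ?_ q)
    omega
  · have hin : n * (3 * q) * (gb q L ^ 2 * (3 * q + 1)) + 1 ≤ 2 ^ (5 * L) := by
      have h1 : 3 * q * (3 * q + 1) + 1 ≤ (4 * q) ^ 2 := by nlinarith
      have h2 : (4 * q) ^ 2 ≤ gb q L ^ 2 := Nat.pow_le_pow_left hb4q 2
      have h3 : 1 ≤ 2 ^ L * gb q L ^ 2 := by
        have : 1 ≤ gb q L := by omega
        exact Nat.mul_pos (by positivity) (Nat.one_le_pow _ _ this)
      calc n * (3 * q) * (gb q L ^ 2 * (3 * q + 1)) + 1
          ≤ 2 ^ L * (3 * q) * (gb q L ^ 2 * (3 * q + 1)) + 2 ^ L * gb q L ^ 2 :=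
            Nat.add_le_add (Nat.mul_le_mul_right _ (Nat.mul_le_mul_right _ hn)) h3
        _ = 2 ^ L * gb q L ^ 2 * (3 * q * (3 * q + 1) + 1) := by ring
        _ ≤ 2 ^ L * gb q L ^ 2 * gb q L ^ 2 := Nat.mul_le_mul_left _ (h1.trans h2)
        _ = 2 ^ L * gb q L ^ 4 := by ring
        _ ≤ 2 ^ L * (2 ^ L) ^ 4 := Nat.mul_le_mul_left _ (Nat.pow_le_pow_left hb 4)
        _ = 2 ^ (5 * L) := by rw [← pow_mul, ← pow_add]; congr 1; ring
    have h1 : (n * (3 * q) * (gb q L ^ 2 * (3 * q + 1)) + 1) ^ q ≤ 2 ^ (5 * L * q) := by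
      rw [pow_mul]; exact Nat.pow_le_pow_left hin q
    have h2 : C.size * (n * (3 * q) * (gb q L ^ 2 * (3 * q + 1)) + 1) ^ q ≤
        2 ^ (q + 5 * L * q) := by
      rw [pow_add]; exact Nat.mul_le_mul hs h1
    have h3 : 1 ≤ 2 ^ (q + 5 * L * q) := Nat.one_le_two_pow
    calc C.size * (n * (3 * q) * (gb q L ^ 2 * (3 * q + 1)) + 1) ^ q + 1
        ≤ 2 ^ (q + 5 * L * q) + 2 ^ (q + 5 * L * q) := Nat.add_le_add h2 h3
      _ = 2 ^ (q + 5 * L * q + 1) := by rw [pow_succ]; ring
      _ ≤ 2 ^ (8 * L * q) := by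
          apply Nat.pow_le_pow_right (by norm_num)
          nlinarith

/-- lower bound at one level -/
lemma level_lower {q : ℕ} (hq : 2 ≤ q) (hL : 1 ≤ L) (hb : gb q L ≤ 2 ^ L) [NeZero (3 * q)]
    (e : MV L (3 * q) (gb q L ^ 2) → Fin M) (he : Function.Injective e)
    (C : Circuit M) (hC : ∀ x, C.eval x = MF e x) (hs : C.size ≤ 2 ^ (q - 2))
    (t : ℕ) (ht : t ≤ L) (hn : C.nots ≤ t) : 2 ^ (L - t) ≤ 2 * q * (C.depth + q) := by
  have hs1 : C.size + 1 ≤ 2 ^ (q - 1) := by
    have h1 : 2 ^ (q - 1) = 2 * 2 ^ (q - 2) := by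
      rw [← pow_succ']; congr 1; omega
    have h2 : 1 ≤ 2 ^ (q - 2) := Nat.one_le_two_pow
    omega
  obtain ⟨j, C', h1, h2, h3, h4⟩ := freeze C (m := 2 ^ t)
    (fun (j : Fin (2 ^ t)) (v : Var (2 ^ (L - t)) (3 * q) (gb q L ^ 2)) =>
      e ⟨⟨t, by omega⟩, j, v⟩)
    (fun j j' v v' h => by
      have := he h
      simp only [Sigma.mk.injEq, heq_eq_eq, Prod.mk.injEq, true_and] at this
      exact this) F F_false
    (fun x hx => by
      rw [hC, MF, Bool.eq_iff_iff, decide_eq_true_iff, decide_eq_true_iff]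
      constructor
      · rintro ⟨t', j', h⟩
        by_cases htt : t' = ⟨t, by omega⟩
        · subst htt
          exact ⟨j', h⟩
        · exfalso
          have hz : (fun v => x (e ⟨t', j', v⟩)) = fun _ => false := by
            funext v
            apply hx
            intro j'' v'' hv
            have := congrArg Sigma.fst (he hv)
            exact htt this.symm
          rw [hz, F_false] at h
          exact absurd h (by decide)
      · rintro ⟨j', h⟩
        exact ⟨⟨t, by omega⟩, j', h⟩)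
    (Nat.pow_le_pow_right (by norm_num) hn) hs1
  have h5 : C'.size ≤ 2 ^ q := by
    have e1 : 2 ^ q = 4 * 2 ^ (q - 2) := by
      have : q = q - 2 + 2 := by omega
      conv_lhs => rw [this]
      rw [pow_add]; ring
    have e2 : 2 ^ (q - 1) = 2 * 2 ^ (q - 2) := by
      rw [← pow_succ']; congr 1; omega
    omega
  have h6 := core_param' hq hL hb (Nat.two_pow_pos (L - t))
    (Nat.pow_le_pow_right (by norm_num) (Nat.sub_le _ _))
    (fun v => e ⟨⟨t, by omega⟩, j, v⟩) (fun v v' h => by
      have := he h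
      simp only [Sigma.mk.injEq, heq_eq_eq, Prod.mk.injEq, true_and] at this
      exact this) C' h1 h4 h5
  refine h6.trans (Nat.mul_le_mul_left _ ?_)
  omega

lemma gateDepth_pos' {n : ℕ} (C : Circuit n) (i : ℕ) : 1 ≤ C.gateDepth i := by
  rw [Circuit.gateDepth]
  cases C.gate i <;> simp [Gate.depth]

/-- a circuit of depth `0` needs no gates -/
lemma depth_zero {n : ℕ} (C : Circuit n) (h : C.depth = 0) : ∃ C' : Circuit n, C'.size = 0 ∧
    C'.depth = 0 ∧ ∀ x, C'.eval x = C.eval x := by
  have hout : ∀ j, C.out.wires j = 0 := by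
    intro j
    have h1 : C.out.depth C.gateDepth = 0 := h
    cases ho : C.out with
    | gate i =>
      rw [ho] at h1
      have := gateDepth_pos' C i
      simp only [Node.depth] at h1
      omega
    | const b => rfl
    | var i => rfl
  refine ⟨{ size := 0, gate := C.gate, out := C.out, gate_lt := ?_, out_lt := ?_ }, rfl, ?_, ?_⟩
  · intro i hi; omega
  · intro j hj; exact absurd (hout j) hj
  · have h1 : C.out.depth C.gateDepth = 0 := h
    refine Eq.trans ?_ h1
    exact Node.depth_congr fun j hj => absurd (hout j) hj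
  · intro x
    show C.out.eval x _ = C.out.eval x _
    apply Node.eval_congr
    intro j hj; exact absurd (hout j) hj

/-- **The lower bound**: NOT gates against depth. -/
theorem multi_lower {q : ℕ} (hq : 2 ≤ q) (hL : 1 ≤ L) (hb : gb q L ≤ 2 ^ L) [NeZero (3 * q)]
    (e : MV L (3 * q) (gb q L ^ 2) → Fin M) (he : Function.Injective e)
    (C : Circuit M) (hC : ∀ x, C.eval x = MF e x) (hs : C.size ≤ 2 ^ (q - 2)) :
    2 ^ L ≤ 4 * q ^ 2 * (2 ^ C.nots * C.depth) := by
  have hdep : 1 ≤ C.depth := by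
    by_contra hc
    obtain ⟨C', h1, h2, h3⟩ := depth_zero C (by omega)
    have h4 : C'.nots = 0 := by
      unfold Circuit.nots
      rw [h1]; rfl
    have h5 := level_lower hq hL hb e he C' (fun x => by rw [h3, hC]) (by rw [h1]; positivity) 0
      (Nat.zero_le _) (by omega)
    rw [h2] at h5
    have h6 : 2 ^ 21 * q ^ 2 ≤ gb q L := by
      unfold gb
      calc 2 ^ 21 * q ^ 2 = 2 ^ 21 * 1 * q ^ 2 := by ring
        _ ≤ 2 ^ 21 * L * q ^ 6 := Nat.mul_le_mul (Nat.mul_le_mul_left _ hL)
          (Nat.pow_le_pow_right (by omega) (by norm_num))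
    have h7 : 0 < q ^ 2 := by positivity
    simp only [Nat.sub_zero, Nat.zero_add] at h5
    have h8 : 2 * q * q = 2 * q ^ 2 := by ring
    omega
  have hq2 : 1 ≤ 4 * q ^ 2 := by
    have : 0 < q ^ 2 := by positivity
    omega
  rcases Nat.lt_or_ge L C.nots with h | h
  · calc 2 ^ L ≤ 2 ^ C.nots := Nat.pow_le_pow_right (by norm_num) h.le
      _ = 1 * (2 ^ C.nots * 1) := by ring
      _ ≤ _ := Nat.mul_le_mul hq2 (Nat.mul_le_mul_left _ hdep)
  · have h1 := level_lower hq hL hb e he C hC hs C.nots h le_rfl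
    have h2 : 2 ^ L = 2 ^ C.nots * 2 ^ (L - C.nots) := by
      rw [← pow_add]; congr 1; omega
    rw [h2]
    calc 2 ^ C.nots * 2 ^ (L - C.nots) ≤ 2 ^ C.nots * (2 * q * (C.depth + q)) :=
          Nat.mul_le_mul_left _ h1
      _ ≤ 2 ^ C.nots * (2 * q * (2 * q * C.depth)) := by
          apply Nat.mul_le_mul_left
          apply Nat.mul_le_mul_left
          nlinarith
      _ = _ := by ring

end Pool.Agent.H540R2.Lift
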