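import Mathlib
import Pool.Agent.H540R2.Lift.Defs
import Pool.Agent.H540R2.Build

/-!
# The OR of circuits
-/

set_option autoImplicit false
set_option linter.unusedSectionVars false

namespace Pool.Agent.H540R2.Lift

variable {M : ℕ}

/-- shift the gate numbers -/
def shN (o : ℕ) : Node M → Node M
  | .var i => .var i
  | .const b => .const b
  | .gate j => .gate (o + j)

/-- shift the gate numbers -/
def shG (o : ℕ) : Gate M → Gate M
  | .and a b => .and (shN o a) (shN o b)
  | .or a b => .or (shN o a) (shN o b)
  | .not a => .not (shN o a)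

lemma shN_wires (o : ℕ) (a : Node M) (j : ℕ) (h : (shN o a).wires j ≠ 0) :
    ∃ j', j = o + j' ∧ a.wires j' ≠ 0 := by
  cases a with
  | var i => exact absurd rfl h
  | const b => exact absurd rfl h
  | gate i =>
    simp only [shN, Node.wires] at h
    split_ifs at h with h1
    · exact ⟨i, h1.symm, by simp [Node.wires]⟩
    · exact absurd rfl h

lemma shG_wires (o : ℕ) (g : Gate M) (j : ℕ) (h : (shG o g).wires j ≠ 0) :
    ∃ j', j = o + j' ∧ g.wires j' ≠ 0 := by
  cases g with
  | and a b =>
    simp only [shG, Gate.wires] at h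
    by_cases ha : (shN o a).wires j = 0
    · obtain ⟨j', h1, h2⟩ := shN_wires o b j (by omega)
      exact ⟨j', h1, by simp only [Gate.wires]; omega⟩
    · obtain ⟨j', h1, h2⟩ := shN_wires o a j ha
      exact ⟨j', h1, by simp only [Gate.wires]; omega⟩
  | or a b =>
    simp only [shG, Gate.wires] at h
    by_cases ha : (shN o a).wires j = 0
    · obtain ⟨j', h1, h2⟩ := shN_wires o b j (by omega)
      exact ⟨j', h1, by simp only [Gate.wires]; omega⟩
    · obtain ⟨j', h1, h2⟩ := shN_wires o a j ha
      exact ⟨j', h1, by simp only [Gate.wires]; omega⟩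
  | not a =>
    simp only [shG, Gate.wires] at h
    obtain ⟨j', h1, h2⟩ := shN_wires o a j h
    exact ⟨j', h1, h2⟩

lemma shN_eval (o : ℕ) (a : Node M) (x : Fin M → Bool) (v : ℕ → Bool) :
    (shN o a).eval x v = a.eval x (fun j => v (o + j)) := by
  cases a <;> rfl

lemma shN_depth (o : ℕ) (a : Node M) (d : ℕ → ℕ) :
    (shN o a).depth d = a.depth (fun j => d (o + j)) := by
  cases a <;> rfl

lemma shG_eval (o : ℕ) (g : Gate M) (x : Fin M → Bool) (v : ℕ → Bool) :
    (shG o g).eval x v = g.eval x (fun j => v (o + j)) := by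
  cases g <;> simp [shG, Gate.eval, shN_eval]

lemma shG_depth (o : ℕ) (g : Gate M) (d : ℕ → ℕ) :
    (shG o g).depth d = g.depth (fun j => d (o + j)) := by
  cases g <;> simp [shG, Gate.depth, shN_depth]

/-- gates of the OR -/
def orGate (C1 C2 : Circuit M) (i : ℕ) : Gate M :=
  if i < C1.size then C1.gate i
  else if i < C1.size + C2.size then shG C1.size (C2.gate (i - C1.size))
  else .or C1.out (shN C1.size C2.out)

/-- the OR of two circuits -/
def orC (C1 C2 : Circuit M) : Circuit M where
  size := C1.size + C2.size + 1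
  gate := orGate C1 C2
  out := .gate (C1.size + C2.size)
  gate_lt i hi j hj := by
    unfold orGate at hj
    split_ifs at hj with h1 h2
    · exact C1.gate_lt i h1 j hj
    · obtain ⟨j', e1, e2⟩ := shG_wires _ _ _ hj
      have := C2.gate_lt (i - C1.size) (by omega) j' e2
      omega
    · simp only [Gate.wires] at hj
      by_cases ha : C1.out.wires j = 0
      · obtain ⟨j', e1, e2⟩ := shN_wires C1.size C2.out j (by omega)
        have := C2.out_lt j' e2
        omega
      · have := C1.out_lt j ha
        omega
  out_lt j hj := by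
    simp only [Node.wires] at hj
    split_ifs at hj with h
    · omega
    · exact absurd rfl hj

lemma orC_val1 (C1 C2 : Circuit M) (x : Fin M → Bool) :
    ∀ i < C1.size, (orC C1 C2).val x i = C1.val x i := by
  intro i
  induction i using Nat.strong_induction_on with
  | _ i ih =>
    intro hi
    have hs : i < (orC C1 C2).size := by show i < C1.size + C2.size + 1; omega
    rw [(orC C1 C2).val_gate hs, C1.val_gate hi]
    have hg : (orC C1 C2).gate i = C1.gate i := if_pos hi
    rw [hg]
    apply Gate.eval_congr
    intro j hj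
    have := C1.gate_lt i hi j hj
    exact ih j this (this.trans hi)

lemma orC_val2 (C1 C2 : Circuit M) (x : Fin M → Bool) :
    ∀ i < C2.size, (orC C1 C2).val x (C1.size + i) = C2.val x i := by
  intro i
  induction i using Nat.strong_induction_on with
  | _ i ih =>
    intro hi
    have hs : C1.size + i < (orC C1 C2).size := by
      show C1.size + i < C1.size + C2.size + 1; omega
    rw [(orC C1 C2).val_gate hs, C2.val_gate hi]
    have hg : (orC C1 C2).gate (C1.size + i) = shG C1.size (C2.gate i) := by
      show orGate C1 C2 (C1.size + i) = _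
      unfold orGate
      rw [if_neg (by omega), if_pos (by omega), Nat.add_sub_cancel_left]
    rw [hg, shG_eval]
    apply Gate.eval_congr
    intro j hj
    have := C2.gate_lt i hi j hj
    exact ih j this (this.trans hi)

lemma orC_depth1 (C1 C2 : Circuit M) :
    ∀ i < C1.size, (orC C1 C2).gateDepth i = C1.gateDepth i := by
  intro i
  induction i using Nat.strong_induction_on with
  | _ i ih =>
    intro hi
    have hs : i < (orC C1 C2).size := by show i < C1.size + C2.size + 1; omega
    rw [(orC C1 C2).gateDepth_gate hs, C1.gateDepth_gate hi]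
    have hg : (orC C1 C2).gate i = C1.gate i := if_pos hi
    rw [hg]
    apply Gate.depth_congr
    intro j hj
    have := C1.gate_lt i hi j hj
    exact ih j this (this.trans hi)

lemma orC_depth2 (C1 C2 : Circuit M) :
    ∀ i < C2.size, (orC C1 C2).gateDepth (C1.size + i) = C2.gateDepth i := by
  intro i
  induction i using Nat.strong_induction_on with
  | _ i ih =>
    intro hi
    have hs : C1.size + i < (orC C1 C2).size := by
      show C1.size + i < C1.size + C2.size + 1; omega
    rw [(orC C1 C2).gateDepth_gate hs, C2.gateDepth_gate hi]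
    have hg : (orC C1 C2).gate (C1.size + i) = shG C1.size (C2.gate i) := by
      show orGate C1 C2 (C1.size + i) = _
      unfold orGate
      rw [if_neg (by omega), if_pos (by omega), Nat.add_sub_cancel_left]
    rw [hg, shG_depth]
    apply Gate.depth_congr
    intro j hj
    have := C2.gate_lt i hi j hj
    exact ih j this (this.trans hi)

lemma orC_eval (C1 C2 : Circuit M) (x : Fin M → Bool) :
    (orC C1 C2).eval x = (C1.eval x || C2.eval x) := by
  show (orC C1 C2).val x (C1.size + C2.size) = _
  have hs : C1.size + C2.size < (orC C1 C2).size := Nat.lt_succ_self _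
  rw [(orC C1 C2).val_gate hs]
  have hg : (orC C1 C2).gate (C1.size + C2.size) = .or C1.out (shN C1.size C2.out) := by
    show orGate C1 C2 _ = _
    unfold orGate
    rw [if_neg (by omega), if_neg (by omega)]
  rw [hg]
  simp only [Gate.eval, shN_eval]
  congr 1
  · exact Node.eval_congr fun j hj => orC_val1 C1 C2 x j (C1.out_lt j hj)
  · exact Node.eval_congr fun j hj => orC_val2 C1 C2 x j (C2.out_lt j hj)

lemma orC_depth (C1 C2 : Circuit M) : (orC C1 C2).depth = max C1.depth C2.depth + 1 := by
  show (orC C1 C2).gateDepth (C1.size + C2.size) = _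
  have hs : C1.size + C2.size < (orC C1 C2).size := Nat.lt_succ_self _
  rw [(orC C1 C2).gateDepth_gate hs]
  have hg : (orC C1 C2).gate (C1.size + C2.size) = .or C1.out (shN C1.size C2.out) := by
    show orGate C1 C2 _ = _
    unfold orGate
    rw [if_neg (by omega), if_neg (by omega)]
  rw [hg]
  simp only [Gate.depth, shN_depth]
  congr 2
  · exact Node.depth_congr fun j hj => orC_depth1 C1 C2 j (C1.out_lt j hj)
  · exact Node.depth_congr fun j hj => orC_depth2 C1 C2 j (C2.out_lt j hj)

lemma orC_mono {C1 C2 : Circuit M} (h1 : C1.Monotone) (h2 : C2.Monotone) :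
    (orC C1 C2).Monotone := by
  intro i hi a
  have hi' : i < C1.size + C2.size + 1 := hi
  show orGate C1 C2 i ≠ _
  unfold orGate
  split_ifs with h3 h4
  · exact h1 i h3 a
  · intro h
    have h5 := h2 (i - C1.size) (by omega)
    cases hg : C2.gate (i - C1.size) with
    | and a b => rw [hg] at h; simp [shG] at h
    | or a b => rw [hg] at h; simp [shG] at h
    | not a => exact h5 a hg
  · simp

/-- the OR of a list of circuits -/
lemma orList {D s : ℕ} : ∀ (t : ℕ) (l : List (Circuit M)), l ≠ [] → l.length ≤ 2 ^ t →
    (∀ C ∈ l, C.Monotone ∧ C.depth ≤ D ∧ C.size ≤ s) →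
    ∃ C : Circuit M, C.Monotone ∧ C.depth ≤ D + t ∧ C.size + 1 ≤ l.length * (s + 1) ∧
      ∀ x, C.eval x = l.any (fun C => C.eval x) := by
  intro t
  induction t with
  | zero =>
    intro l hne hl h
    match l, hne, hl, h with
    | [C], _, _, h =>
      obtain ⟨h1, h2, h3⟩ := h C (by simp)
      exact ⟨C, h1, h2, by simpa using h3, fun x => by simp⟩
    | _ :: _ :: _, _, hl, _ => simp at hl
  | succ t ih =>
    intro l hne hl h
    by_cases hsm : l.length ≤ 2 ^ t
    · obtain ⟨C, h1, h2, h3, h4⟩ := ih l hne hsm h
      exact ⟨C, h1, by omega, h3, h4⟩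
    · push Not at hsm
      have hlen1 : (l.take (2 ^ t)).length = 2 ^ t := by
        rw [List.length_take]; omega
      have hlen2 : (l.drop (2 ^ t)).length = l.length - 2 ^ t := List.length_drop
      have hp : 0 < 2 ^ t := Nat.two_pow_pos t
      rw [pow_succ] at hl
      obtain ⟨C1, a1, a2, a3, a4⟩ := ih (l.take (2 ^ t))
        (by intro h0; rw [h0] at hlen1; simp at hlen1; omega) (by omega)
        (fun C hC => h C (List.mem_of_mem_take hC))
      obtain ⟨C2, b1, b2, b3, b4⟩ := ih (l.drop (2 ^ t))
        (by intro h0; rw [h0] at hlen2; simp at hlen2; omega) (by omega)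
        (fun C hC => h C (List.mem_of_mem_drop hC))
      refine ⟨orC C1 C2, orC_mono a1 b1, ?_, ?_, ?_⟩
      · rw [orC_depth]; omega
      · show C1.size + C2.size + 1 + 1 ≤ _
        rw [hlen1] at a3
        rw [hlen2] at b3
        have e : l.length * (s + 1) = 2 ^ t * (s + 1) + (l.length - 2 ^ t) * (s + 1) := by
          rw [← Nat.add_mul]; congr 1; omega
        omega
      · intro x
        rw [orC_eval, a4, b4, ← List.any_append, List.take_append_drop]

/-- the constant false without gates -/
def falseC : Circuit M where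
  size := 0
  gate := fun _ => .and (.const false) (.const false)
  out := .const false
  gate_lt := by intro i hi; omega
  out_lt := by intro j hj; exact absurd rfl hj

/-- the OR over a finite type -/
lemma orFin {ι : Type} [Fintype ι] {D s t : ℕ} (f : ι → (Fin M → Bool) → Bool)
    (hf : ∀ i, ∃ C : Circuit M, C.Monotone ∧ C.depth ≤ D ∧ C.size ≤ s ∧ ∀ x, C.eval x = f i x)
    (ht : Fintype.card ι ≤ 2 ^ t) :
    ∃ C : Circuit M, C.Monotone ∧ C.depth ≤ D + t ∧ C.size ≤ Fintype.card ι * (s + 1) ∧
      ∀ x, C.eval x = decide (∃ i, f i x = true) := by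
  choose C h1 h2 h3 h4 using hf
  rcases isEmpty_or_nonempty ι with he | he
  · refine ⟨falseC, ?_, Nat.zero_le _, Nat.zero_le _, fun x => ?_⟩
    · intro i hi; exact absurd hi (Nat.not_lt_zero _)
    · show false = _
      simp
  · set l := (Finset.univ : Finset ι).toList.map C with hl
    have hlen : l.length = Fintype.card ι := by simp [hl]
    obtain ⟨C', a1, a2, a3, a4⟩ := orList (D := D) (s := s) t l (by
      intro h0
      rw [h0] at hlen
      have := Fintype.card_pos (α := ι)
      simp at hlen
      omega) (by omega) (by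
      intro C0 hC0
      rw [hl, List.mem_map] at hC0
      obtain ⟨i, -, rfl⟩ := hC0
      exact ⟨h1 i, h2 i, h3 i⟩)
    refine ⟨C', a1, a2, by rw [hlen] at a3; omega, fun x => ?_⟩
    rw [a4 x, Bool.eq_iff_iff, List.any_eq_true, decide_eq_true_iff]
    constructor
    · rintro ⟨C0, hC0, h⟩
      rw [hl, List.mem_map] at hC0
      obtain ⟨i, -, rfl⟩ := hC0
      exact ⟨i, by rw [← h4]; exact h⟩
    · rintro ⟨i, h⟩
      refine ⟨C i, ?_, by rw [h4]; exact h⟩
      rw [hl, List.mem_map]
      exact ⟨i, by simp, rfl⟩

end Pool.Agent.H540R2.Lift
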