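import Mathlib
import Pool.Agent.H540R2.Lift.Prog
import Pool.Agent.H540R2.Lift.Delayer

/-!
# A shallow small circuit for the function `F`
-/

set_option autoImplicit false
set_option linter.unusedSectionVars false

namespace Pool.Agent.H540R2.Lift

variable {n k m M : ℕ}

/-! ### depth of the circuit of a program -/

section depth

variable {R : Type} [Fintype R] [DecidableEq R] {W : ℕ} (e : R ≃ Fin W)

lemma conv_depth_le {n : ℕ} (g : LGate R n) (o : Option ℕ) (d : ℕ → ℕ) (D : ℕ)
    (h : ∀ a : LNode R n, (a.conv e o).depth d ≤ D) : (g.conv e o).depth d ≤ D + 1 := by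
  cases g with
  | and a b =>
    simp only [LGate.conv, Gate.depth]
    have := h a
    have := h b
    omega
  | or a b =>
    simp only [LGate.conv, Gate.depth]
    have := h a
    have := h b
    omega

lemma progCircuit_gateDepth {n : ℕ} (hW : 0 < W) (l : List (Step R n)) (ro : R) (hl : l ≠ []) :
    ∀ t < l.length, ∀ r : R, (progCircuit e hW l ro hl).gateDepth (t * W + (e r).1) ≤ t + 1 := by
  intro t
  induction t with
  | zero =>
    intro ht r
    have hsz : 0 * W + (e r).1 < (progCircuit e hW l ro hl).size := by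
      show 0 * W + (e r).1 < l.length * W
      have := (e r).2
      calc 0 * W + (e r).1 < 1 * W := by omega
        _ ≤ l.length * W := Nat.mul_le_mul_right _ ht
    rw [Circuit.gateDepth_gate _ hsz]
    have hdiv : (0 * W + (e r).1) / W = 0 := by
      rw [Nat.zero_mul, Nat.zero_add]; exact Nat.div_eq_of_lt (e r).2
    have hmod : (0 * W + (e r).1) % W = (e r).1 := by
      rw [Nat.zero_mul, Nat.zero_add]; exact Nat.mod_eq_of_lt (e r).2
    have hg : (progCircuit e hW l ro hl).gate (0 * W + (e r).1) = (l[0] r).conv e none := by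
      simp only [progCircuit, hdiv, hmod]
      rw [List.getElem?_eq_getElem ht]
      simp
    rw [hg]
    apply conv_depth_le
    intro a
    cases a <;> simp [LNode.conv, Node.depth]
  | succ t ih =>
    intro ht r
    have hsz : (t + 1) * W + (e r).1 < (progCircuit e hW l ro hl).size := by
      show (t + 1) * W + (e r).1 < l.length * W
      have := (e r).2
      calc (t + 1) * W + (e r).1 < (t + 1) * W + W := by omega
        _ = (t + 1 + 1) * W := by ring
        _ ≤ l.length * W := Nat.mul_le_mul_right _ ht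
    rw [Circuit.gateDepth_gate _ hsz]
    have hdiv : ((t + 1) * W + (e r).1) / W = t + 1 := by
      rw [Nat.mul_comm, Nat.mul_add_div hW, Nat.div_eq_of_lt (e r).2, Nat.add_zero]
    have hmod : ((t + 1) * W + (e r).1) % W = (e r).1 := by
      rw [Nat.mul_comm, Nat.mul_add_mod]; exact Nat.mod_eq_of_lt (e r).2
    have hg : (progCircuit e hW l ro hl).gate ((t + 1) * W + (e r).1) =
        (l[t + 1] r).conv e (some (t * W)) := by
      simp only [progCircuit, hdiv, hmod]
      rw [List.getElem?_eq_getElem ht]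
      simp
    rw [hg]
    apply conv_depth_le
    intro a
    cases a with
    | reg r' => exact ih (by omega) r'
    | var i => exact Nat.zero_le _
    | const b => exact Nat.zero_le _

lemma progCircuit_depth {n : ℕ} (hW : 0 < W) (l : List (Step R n)) (ro : R) (hl : l ≠ []) :
    (progCircuit e hW l ro hl).depth ≤ l.length := by
  have h2 : 0 < l.length := List.length_pos_of_ne_nil hl
  have h := progCircuit_gateDepth e hW l ro hl (l.length - 1) (by omega) ro
  rw [show l.length - 1 + 1 = l.length by omega] at h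
  exact h

end depth

/-! ### cyclic shifts -/

/-- cyclic shift -/
def sh {m : ℕ} [NeZero m] (a : Fin m) (d : ℕ) : Fin m :=
  ⟨(a.1 + d) % m, Nat.mod_lt _ (NeZero.pos m)⟩

lemma sh_sh [NeZero m] (a : Fin m) (d e : ℕ) : sh (sh a d) e = sh a (d + e) := by
  apply Fin.ext
  show ((a.1 + d) % m + e) % m = (a.1 + (d + e)) % m
  rw [Nat.mod_add_mod, Nat.add_assoc]

lemma sh_surj [NeZero m] (a b : Fin m) : ∃ d < m, sh a d = b := by
  refine ⟨(b.1 + (m - a.1)) % m, Nat.mod_lt _ (NeZero.pos m), ?_⟩
  apply Fin.ext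
  show (a.1 + (b.1 + (m - a.1)) % m) % m = b.1
  rw [Nat.add_mod_mod]
  have h1 : a.1 + (b.1 + (m - a.1)) = b.1 + m := by have := a.2; omega
  rw [h1, Nat.add_mod_right]
  exact Nat.mod_eq_of_lt b.2

lemma ex_sh [NeZero m] {D : ℕ} (hD : m ≤ D) (a : Fin m) (p : Fin m → Prop) :
    (∃ d < D, p (sh a d)) ↔ ∃ b, p b := by
  constructor
  · rintro ⟨d, -, h⟩; exact ⟨_, h⟩
  · rintro ⟨b, h⟩
    obtain ⟨d, hd, rfl⟩ := sh_surj a b
    exact ⟨d, by omega, h⟩

lemma all_sh [NeZero m] {D : ℕ} (hD : m ≤ D) (a : Fin m) (p : Fin m → Prop) :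
    (∀ d < D, p (sh a d)) ↔ ∀ b, p b := by
  constructor
  · intro h b
    obtain ⟨d, hd, rfl⟩ := sh_surj a b
    exact h d (by omega)
  · intro h d _; exact h _

/-! ### the parallel program -/

/-- registers -/
abbrev PReg (k m : ℕ) := (Fin k × Fin m) ⊕ (Fin k × Fin k × Fin m × Fin m)

/-- copy -/
def keep (r : PReg k m) : LGate (PReg k m) M := .and (.reg r) (.const true)

lemma keep_eval (x : Fin M → Bool) (v : PReg k m → Bool) (r : PReg k m) :
    (keep r : LGate (PReg k m) M).eval x v = v r := by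
  simp [keep, LGate.eval, LNode.eval]

/-- load the sources -/
def pSrc (vs : Fin k → Fin m → Fin M) : Step (PReg k m) M
  | .inl (j, c) => .and (.var (vs j c)) (.const true)
  | .inr r => keep (.inr r)

/-- multiply -/
def pMul (ve : Fin k → Fin k → Fin m → Fin m → Fin M) : Step (PReg k m) M
  | .inl r => keep (.inl r)
  | .inr (j, i, a, c) => .and (.var (ve j i a c)) (.reg (.inl (i, a)))

/-- one step of the OR over labels -/
def pOr [NeZero m] (d : ℕ) : Step (PReg k m) M
  | .inl r => keep (.inl r)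
  | .inr (j, i, a, c) => .or (.reg (.inr (j, i, a, c))) (.reg (.inr (j, i, sh a d, c)))

/-- one step of the AND over vertices -/
def pAnd [NeZero k] (d : ℕ) : Step (PReg k m) M
  | .inl r => keep (.inl r)
  | .inr (j, i, a, c) => .and (.reg (.inr (j, i, a, c))) (.reg (.inr (j, sh i d, a, c)))

/-- move -/
def pMove [NeZero k] [NeZero m] : Step (PReg k m) M
  | .inl (j, c) => .and (.reg (.inr (j, 0, 0, c))) (.const true)
  | .inr r => keep (.inr r)

/-- multiply by the sink variables -/
def pSnk [NeZero k] (vk : Fin m → Fin M) : Step (PReg k m) M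
  | .inl r => keep (.inl r)
  | .inr (_, _, a, _) => .and (.var (vk a)) (.reg (.inl (0, a)))

/-- OR over labels -/
def orP [NeZero m] (t : ℕ) : List (Step (PReg k m) M) := (List.range t).map (fun s => pOr (2 ^ s))

/-- AND over vertices -/
def andP [NeZero k] (t : ℕ) : List (Step (PReg k m) M) :=
  (List.range t).map (fun s => pAnd (2 ^ s))

lemma run_orP [NeZero m] (x : Fin M → Bool) (v : PReg k m → Bool) (t : ℕ) :
    (∀ r, run x (orP t) v (.inl r) = v (.inl r)) ∧
    ∀ j i a c, run x (orP t) v (.inr (j, i, a, c)) =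
      decide (∃ d < 2 ^ t, v (.inr (j, i, sh a d, c)) = true) := by
  induction t with
  | zero =>
    refine ⟨fun r => rfl, fun j i a c => ?_⟩
    have h0 : sh a 0 = a := Fin.ext (Nat.mod_eq_of_lt a.2)
    rw [Bool.eq_iff_iff, decide_eq_true_iff]
    show v (.inr (j, i, a, c)) = true ↔ _
    constructor
    · intro h; exact ⟨0, by simp, by rw [h0]; exact h⟩
    · rintro ⟨d, hd, h⟩
      have : d = 0 := by simpa using hd
      subst this
      rw [h0] at h; exact h
  | succ t ih =>
    obtain ⟨h1, h2⟩ := ih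
    have hsplit : (orP (t + 1) : List (Step (PReg k m) M)) = orP t ++ [pOr (2 ^ t)] := by
      simp [orP, List.range_succ]
    rw [hsplit, run_append]
    set v1 := run x (orP t) v with hv1
    refine ⟨fun r => ?_, fun j i a c => ?_⟩
    · show (keep (.inl r) : LGate (PReg k m) M).eval x v1 = _
      rw [keep_eval, h1]
    · show (v1 (.inr (j, i, a, c)) || v1 (.inr (j, i, sh a (2 ^ t), c))) = _
      rw [h2, h2, Bool.eq_iff_iff]
      simp only [Bool.or_eq_true, decide_eq_true_eq, sh_sh]
      constructor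
      · rintro (⟨d, hd, h⟩ | ⟨d, hd, h⟩)
        · exact ⟨d, by rw [pow_succ]; omega, h⟩
        · exact ⟨2 ^ t + d, by rw [pow_succ]; omega, h⟩
      · rintro ⟨d, hd, h⟩
        rw [pow_succ] at hd
        rcases Nat.lt_or_ge d (2 ^ t) with h3 | h3
        · exact Or.inl ⟨d, h3, h⟩
        · refine Or.inr ⟨d - 2 ^ t, by omega, ?_⟩
          rw [show 2 ^ t + (d - 2 ^ t) = d by omega]; exact h

lemma run_andP [NeZero k] (x : Fin M → Bool) (v : PReg k m → Bool) (t : ℕ) :
    (∀ r, run x (andP t) v (.inl r) = v (.inl r)) ∧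
    ∀ j i a c, run x (andP t) v (.inr (j, i, a, c)) =
      decide (∀ d < 2 ^ t, v (.inr (j, sh i d, a, c)) = true) := by
  induction t with
  | zero =>
    refine ⟨fun r => rfl, fun j i a c => ?_⟩
    have h0 : sh i 0 = i := Fin.ext (Nat.mod_eq_of_lt i.2)
    rw [Bool.eq_iff_iff, decide_eq_true_iff]
    show v (.inr (j, i, a, c)) = true ↔ _
    constructor
    · intro h d hd
      have : d = 0 := by simpa using hd
      subst this
      rw [h0]; exact h
    · intro h
      have := h 0 (by simp)
      rw [h0] at this; exact this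
  | succ t ih =>
    obtain ⟨h1, h2⟩ := ih
    have hsplit : (andP (t + 1) : List (Step (PReg k m) M)) = andP t ++ [pAnd (2 ^ t)] := by
      simp [andP, List.range_succ]
    rw [hsplit, run_append]
    set v1 := run x (andP t) v with hv1
    refine ⟨fun r => ?_, fun j i a c => ?_⟩
    · show (keep (.inl r) : LGate (PReg k m) M).eval x v1 = _
      rw [keep_eval, h1]
    · show (v1 (.inr (j, i, a, c)) && v1 (.inr (j, sh i (2 ^ t), a, c))) = _
      rw [h2, h2, Bool.eq_iff_iff]
      simp only [Bool.and_eq_true, decide_eq_true_eq, sh_sh]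
      constructor
      · rintro ⟨h3, h4⟩ d hd
        rw [pow_succ] at hd
        rcases Nat.lt_or_ge d (2 ^ t) with h5 | h5
        · exact h3 d h5
        · have := h4 (d - 2 ^ t) (by omega)
          rw [show 2 ^ t + (d - 2 ^ t) = d by omega] at this; exact this
      · intro h
        exact ⟨fun d hd => h d (by rw [pow_succ]; omega),
          fun d hd => h (2 ^ t + d) (by rw [pow_succ]; omega)⟩

variable (e : Var n k m → Fin M)

/-- one layer -/
def pLayer [NeZero k] [NeZero m] (μ κ : ℕ) (l : Fin n) : List (Step (PReg k m) M) :=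
  [pMul (fun j i a c => e (.edge l j i a c))] ++ orP μ ++ andP κ ++ [pMove]

lemma run_pLayer [NeZero k] [NeZero m] {μ κ : ℕ} (hμ : m ≤ 2 ^ μ) (hκ : k ≤ 2 ^ κ) (l : Fin n)
    (x : Fin M → Bool) (v : PReg k m → Bool) (j : Fin k) (c : Fin m) :
    run x (pLayer e μ κ l) v (.inl (j, c)) =
      decide (∀ i, ∃ a, x (e (.edge l j i a c)) = true ∧ v (.inl (i, a)) = true) := by
  unfold pLayer
  rw [run_append, run_append, run_append]
  set v1 := run x [(pMul (fun j i a c => e (.edge l j i a c)) : Step (PReg k m) M)] v with hv1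
  obtain ⟨-, h1⟩ := run_orP x v1 μ
  set v2 := run x (orP μ) v1 with hv2
  obtain ⟨-, h2⟩ := run_andP x v2 κ
  set v3 := run x (andP κ) v2 with hv3
  have e1 : ∀ j i a c, v1 (.inr (j, i, a, c)) = (x (e (.edge l j i a c)) && v (.inl (i, a))) :=
    fun j i a c => rfl
  have e4 : run x [(pMove : Step (PReg k m) M)] v3 (.inl (j, c)) =
      (v3 (.inr (j, 0, 0, c)) && true) := rfl
  rw [e4, Bool.and_true, h2, Bool.eq_iff_iff]
  simp only [decide_eq_true_eq, h1, e1, Bool.and_eq_true]
  rw [all_sh hκ 0 (fun i => ∃ d < 2 ^ μ, x (e (.edge l j i (sh 0 d) c)) = true ∧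
    v (.inl (i, sh 0 d)) = true)]
  refine forall_congr' fun i => ?_
  exact ex_sh hμ 0 (fun a => x (e (.edge l j i a c)) = true ∧ v (.inl (i, a)) = true)

/-- the layers up to `t` -/
def pL [NeZero k] [NeZero m] (μ κ : ℕ) : (t : ℕ) → t < n → List (Step (PReg k m) M)
  | 0, _ => [pSrc (fun j c => e (.src j c))]
  | t + 1, h => pL μ κ t (by omega) ++ pLayer e μ κ ⟨t, by omega⟩

lemma run_pL [NeZero k] [NeZero m] {μ κ : ℕ} (hμ : m ≤ 2 ^ μ) (hκ : k ≤ 2 ^ κ)
    (x : Fin M → Bool) : ∀ (t : ℕ) (h : t < n) (j : Fin k) (c : Fin m),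
    run x (pL e μ κ t h) (fun _ => false) (.inl (j, c)) = lay (fun v => x (e v)) t j c := by
  intro t
  induction t with
  | zero =>
    intro h j c
    show (x (e (.src j c)) && true) = x (e (.src j c))
    rw [Bool.and_true]
  | succ t ih =>
    intro h j c
    simp only [pL]
    rw [run_append, run_pLayer e hμ hκ, Bool.eq_iff_iff]
    simp only [decide_eq_true_eq, lay]
    constructor
    · intro h1
      refine ⟨by omega, fun i => ?_⟩
      obtain ⟨a, h2, h3⟩ := h1 i
      rw [ih (by omega)] at h3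
      exact ⟨a, h2, h3⟩
    · rintro ⟨_, h1⟩ i
      obtain ⟨a, h2, h3⟩ := h1 i
      refine ⟨a, h2, ?_⟩
      rw [ih (by omega)]
      exact h3

lemma length_pL [NeZero k] [NeZero m] (μ κ : ℕ) : ∀ (t : ℕ) (h : t < n),
    (pL e μ κ t h).length = t * (μ + κ + 2) + 1 := by
  intro t
  induction t with
  | zero => intro h; simp [pL]
  | succ t ih =>
    intro h
    simp only [pL, List.length_append, ih, pLayer, orP, andP, List.length_map, List.length_range,
      List.length_cons, List.length_nil]
    ring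

/-- the whole program -/
def pProg [NeZero k] [NeZero m] (μ κ : ℕ) (hn : 0 < n) : List (Step (PReg k m) M) :=
  pL e μ κ (n - 1) (by omega) ++ ([pSnk (fun a => e (.snk a))] ++ orP μ)

lemma run_pProg [NeZero k] [NeZero m] {μ κ : ℕ} (hμ : m ≤ 2 ^ μ) (hκ : k ≤ 2 ^ κ) (hn : 0 < n)
    (x : Fin M → Bool) :
    run x (pProg e μ κ hn) (fun _ => false) (.inr (0, 0, 0, 0)) = F (fun v => x (e v)) := by
  unfold pProg
  rw [run_append, run_append]
  set v0 := run x (pL e μ κ (n - 1) (by omega)) (fun _ => false) with hv0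
  have h0 : ∀ j c, v0 (.inl (j, c)) = lay (fun v => x (e v)) (n - 1) j c :=
    fun j c => run_pL e hμ hκ x (n - 1) (by omega) j c
  set v1 := run x [(pSnk (fun a => e (.snk a)) : Step (PReg k m) M)] v0 with hv1
  have e1 : ∀ j i a c, v1 (.inr (j, i, a, c)) = (x (e (.snk a)) && v0 (.inl (0, a))) :=
    fun j i a c => rfl
  rw [(run_orP x v1 μ).2, Bool.eq_iff_iff]
  simp only [decide_eq_true_eq, e1, h0, Bool.and_eq_true, F]
  exact ex_sh hμ 0 (fun a => x (e (.snk a)) = true ∧ lay (fun v => x (e v)) (n - 1) 0 a = true)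

/-- **The shallow small circuit.** -/
theorem exists_nc [NeZero k] [NeZero m] {μ κ : ℕ} (hμ : m ≤ 2 ^ μ) (hκ : k ≤ 2 ^ κ)
    (hn : 0 < n) : ∃ C : Circuit M, C.Monotone ∧
      C.size ≤ (n * (μ + κ + 2) + μ + 2) * (k * m + k * (k * (m * m))) ∧
      C.depth ≤ n * (μ + κ + 2) + μ + 2 ∧
      ∀ x, C.eval x = F (fun v => x (e v)) := by
  have hk : 0 < k := Nat.pos_of_ne_zero (NeZero.ne k)
  have hm : 0 < m := Nat.pos_of_ne_zero (NeZero.ne m)
  have hcard : Fintype.card (PReg k m) = k * m + k * (k * (m * m)) := by simp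
  let eq : PReg k m ≃ Fin (k * m + k * (k * (m * m))) := Fintype.equivFinOfCardEq hcard
  have hW : 0 < k * m + k * (k * (m * m)) := by positivity
  have hlen : (pProg e μ κ hn).length ≤ n * (μ + κ + 2) + μ + 2 := by
    simp only [pProg, List.length_append, length_pL, orP, List.length_map, List.length_range,
      List.length_cons, List.length_nil]
    have h1 : (n - 1) * (μ + κ + 2) ≤ n * (μ + κ + 2) := Nat.mul_le_mul_right _ (Nat.sub_le _ _)
    omega
  have hl : pProg e μ κ hn ≠ [] := by
    intro h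
    have := congrArg List.length h
    simp [pProg] at this
  refine ⟨progCircuit eq hW (pProg e μ κ hn) (.inr (0, 0, 0, 0)) hl,
    progCircuit_mono _ _ _ _ _, ?_, (progCircuit_depth _ _ _ _ _).trans hlen, fun x => ?_⟩
  · show (pProg e μ κ hn).length * (k * m + k * (k * (m * m))) ≤ _
    exact Nat.mul_le_mul_right _ hlen
  · rw [progCircuit_eval, run_pProg e hμ hκ hn]

end Pool.Agent.H540R2.Lift
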