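import Mathlib
import Pool.Agent.H540R2.Lift.Neg
import Pool.Agent.H540R2.Lift.Delayer

/-!
# Narrow circuits: simulation by binary search over the layers
-/

set_option autoImplicit false
set_option linter.unusedSectionVars false

namespace Pool.Agent.H540R2.Lift

open Finset Classical

variable {U A S : Type} [Fintype U] [DecidableEq U] [Fintype A] [DecidableEq A] [Fintype S]
  [DecidableEq S]

/-- strategies answering a whole set of queries at a time -/
structure BStrat (U S : Type) [DecidableEq U] (k : ℕ)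
    (Valid : Finset U → (U → S) → ℕ → Prop) : Prop where
  congr : ∀ I z z' L, (∀ u ∈ I, z u = z' u) → Valid I z L → Valid I z' L
  mono : ∀ I I' z L, I' ⊆ I → Valid I z L → Valid I' z L
  batch : ∀ I z L J, Valid I z L → Disjoint J I → I.card + J.card < k →
    ∃ γ : U → S, (∀ u ∈ I, γ u = z u) ∧ Valid (I ∪ J) γ (L - 1)

/-- the pointer problem has a batch strategy: one layer per batch -/
lemma bstrat (n k : ℕ) : BStrat (Fin n × Fin k) (Option (Fin k)) k (Val n k) where
  congr := (strat n k).congr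
  mono := (strat n k).mono
  batch I z L J := by
    rintro ⟨h0, h1, h2⟩ hJI hcard
    obtain ⟨i, hi⟩ : ∃ i : Fin k, ∀ v ∈ I ∪ J, v.2 ≠ i := by
      by_contra hc
      push Not at hc
      have : (univ : Finset (Fin k)) ⊆ (I ∪ J).image Prod.snd := by
        intro i _
        obtain ⟨v, hv, rfl⟩ := hc i
        exact Finset.mem_image.2 ⟨v, hv, rfl⟩
      have h3 := (Finset.card_le_card this).trans Finset.card_image_le
      rw [Finset.card_univ, Fintype.card_fin] at h3
      have h4 := Finset.card_union_le I J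
      omega
    let hp : Fin n × Fin k → Prop := fun u =>
      (∃ v ∈ I, v.1.1 = u.1.1 + 1 ∧ z v = some u.2) ∨ (u.1.1 + 1 = n ∧ u.2.1 = 0)
    have hJnI : ∀ u ∈ J, u ∉ I := fun u hu hu' => Finset.disjoint_left.1 hJI hu hu'
    obtain ⟨γ, hγ⟩ : ∃ γ : Fin n × Fin k → Option (Fin k),
        γ = fun u => if u ∈ J then (if hp u then some i else none) else z u := ⟨_, rfl⟩
    have gp : ∀ u ∈ J, hp u → γ u = some i := fun u hu h => by
      rw [hγ]; simp only [if_pos hu, if_pos h]
    have gn : ∀ u ∈ J, ¬ hp u → γ u = none := fun u hu h => by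
      rw [hγ]; simp only [if_pos hu, if_neg h]
    have gz : ∀ u, u ∉ J → γ u = z u := fun u hu => by
      rw [hγ]; simp only [if_neg hu]
    refine ⟨γ, fun u hu => gz u (fun h => hJnI u h hu), by omega, ?_, ?_⟩
    · intro u hu j hj
      by_cases huJ : u ∈ J
      · by_cases hpu : hp u
        · rw [gp u huJ hpu] at hj
          obtain rfl : i = j := by simpa using hj
          refine ⟨?_, fun v hv _ h6 => absurd h6 (hi v hv)⟩
          rcases hpu with ⟨v, hv, h3, h4⟩ | ⟨h3, -⟩
          · have := (h1 v hv _ h4).1; omega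
          · omega
        · rw [gn u huJ hpu] at hj; simp at hj
      · rw [gz u huJ] at hj
        have huI : u ∈ I := (Finset.mem_union.1 hu).resolve_right huJ
        obtain ⟨h3, h4⟩ := h1 u huI j hj
        refine ⟨by omega, fun v hv h5 h6 => ?_⟩
        by_cases hvJ : v ∈ J
        · have hpv : hp v := Or.inl ⟨u, huI, h5.symm, by rw [hj, h6]⟩
          rw [gp v hvJ hpv]; simp
        · rw [gz v hvJ]
          exact h4 v ((Finset.mem_union.1 hv).resolve_right hvJ) h5 h6
    · intro u hu h5 h6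
      by_cases huJ : u ∈ J
      · have hpu : hp u := Or.inr ⟨h5, h6⟩
        rw [gp u huJ hpu]; simp
      · rw [gz u huJ]
        exact h2 u ((Finset.mem_union.1 hu).resolve_right huJ) h5 h6

/-- pigeonhole -/
lemma popular {α β : Type*} [DecidableEq β] (G : Finset α) (hG : G.Nonempty) (T : Finset β)
    (f : α → β) (hf : ∀ x ∈ G, f x ∈ T) :
    ∃ b ∈ T, G.card ≤ T.card * (G.filter (fun x => f x = b)).card := by
  by_contra hc
  push Not at hc
  have hT : T.Nonempty := by
    obtain ⟨x, hx⟩ := hG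
    exact ⟨f x, hf x hx⟩
  have h1 : G.card = ∑ b ∈ T, (G.filter (fun x => f x = b)).card :=
    Finset.card_eq_sum_card_fiberwise hf
  have h2 : T.card * G.card < T.card * G.card := by
    calc T.card * G.card = ∑ b ∈ T, T.card * (G.filter (fun x => f x = b)).card := by
          rw [h1, Finset.mul_sum]
      _ < ∑ _b ∈ T, G.card := Finset.sum_lt_sum_of_nonempty hT hc
      _ = T.card * G.card := by simp
  exact lt_irrefl _ h2

section wsim

variable {M : ℕ} {C : Circuit M} {inX : (U → A) → Fin M → Bool}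
  {inY : (U × A → S) → Fin M → Bool} {k b Q s w : ℕ}
  {Valid : Finset U → (U → S) → ℕ → Prop} {Jv : Fin M → Finset U}

/-- one batch of queries in a good row -/
lemma bstep [Nonempty S] (h : BStrat U S k Valid) {r : ℕ} (hQ : 1 ≤ Q) (hr : 1 ≤ r)
    (hb : 2048 * r * Q ^ 3 * Fintype.card S ^ 2 ≤ b)
    {P : Finset (U → A)} {I : Finset U} (hP : Dense b P I)
    {Y : Finset (U × A → S)} (hY : Large r Y) {z : U → S} {L : ℕ}
    (hz : ∀ x ∈ P, ∀ y ∈ Y, ∀ u ∈ I, y (u, x u) = z u) (hV : Valid I z L)
    (J0 : Finset U) (hJ0 : J0.card ≤ Q) (hk : I.card + Q < k) :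
    ∃ x ∈ P, ∃ y ∈ Y, Valid (I ∪ J0) (fun u => y (u, x u)) (L - 1) := by
  obtain ⟨G, hGP, hG, hcard⟩ := good_rows hQ hr hb hP hY
  have hGpos : 0 < G.card := by omega
  obtain ⟨x, hx⟩ := Finset.card_pos.1 hGpos
  refine ⟨x, hGP hx, ?_⟩
  set J := J0 \ I with hJ
  have hJd : Disjoint J I := Finset.sdiff_disjoint
  have hJc : J.card ≤ Q := (Finset.card_le_card Finset.sdiff_subset).trans hJ0
  obtain ⟨γ, h1, h2⟩ := h.batch I z L J hV hJd (by omega)
  have h3 := hG x hx J hJd hJc γ
  have hYpos : 0 < Y.card := by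
    unfold Large at hY
    rcases Nat.eq_zero_or_pos Y.card with h0 | h0
    · rw [h0] at hY
      have : 0 < Fintype.card (U × A → S) := Fintype.card_pos
      omega
    · exact h0
  have h4 : 0 < (pat Y x J γ).card := by
    rcases Nat.eq_zero_or_pos (pat Y x J γ).card with h0 | h0
    · rw [h0] at h3; omega
    · exact h0
  obtain ⟨y, hy⟩ := Finset.card_pos.1 h4
  obtain ⟨hyY, hyJ⟩ := Finset.mem_filter.1 hy
  refine ⟨y, hyY, ?_⟩
  have e : I ∪ J0 = I ∪ J := by rw [hJ]; simp
  rw [e]
  apply h.congr _ _ _ _ _ h2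
  intro u hu
  rcases Finset.mem_union.1 hu with hu | hu
  · rw [h1 u hu, hz x (hGP hx) y hyY u hu]
  · exact (hyJ u hu).symm

/-- the search state -/
structure State (C : Circuit M) (inX : (U → A) → Fin M → Bool)
    (inY : (U × A → S) → Fin M → Bool) (b : ℕ) (Valid : Finset U → (U → S) → ℕ → Prop)
    (lay : ℕ → ℕ) (c r L lo hi : ℕ) (P : Finset (U → A)) (I : Finset U)
    (Y : Finset (U × A → S)) (z : U → S) (g : ℕ) : Prop where
  dense : Dense b P I
  pot : Fintype.card A ^ Fintype.card U * b ^ I.card ≤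
    2 ^ c * (P.card * Fintype.card A ^ I.card)
  eqI : ∀ x ∈ P, ∀ x' ∈ P, ∀ u ∈ I, x u = x' u
  large : Large r Y
  hz : ∀ x ∈ P, ∀ y ∈ Y, ∀ u ∈ I, y (u, x u) = z u
  valid : Valid I z L
  hg : g < C.size
  layg : lay g = hi
  hgX : ∀ x ∈ P, C.val (inX x) g = true
  hgY : ∀ y ∈ Y, C.val (inY y) g = false
  low : ∀ j < C.size, lay j = lo → ∀ x ∈ P, ∀ y ∈ Y, C.val (inX x) j = true →
    C.val (inY y) j = true

lemma pot_card {b c : ℕ} (hb : 2 ≤ b) (hA : Fintype.card A = b ^ 2) {P : Finset (U → A)}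
    {I : Finset U} (hne : P.Nonempty) (heq : ∀ x ∈ P, ∀ x' ∈ P, ∀ u ∈ I, x u = x' u)
    (hpot : Fintype.card A ^ Fintype.card U * b ^ I.card ≤
      2 ^ c * (P.card * Fintype.card A ^ I.card)) : I.card ≤ c := by
  obtain ⟨x0, hx0⟩ := hne
  have h1 : P ⊆ fix P I x0 := fun x hx => Finset.mem_filter.2 ⟨hx, fun u hu => heq x hx x0 hx0 u hu⟩
  have h2 := card_fix P I x0
  have h3 : P.card * Fintype.card A ^ I.card ≤ Fintype.card A ^ Fintype.card U :=
    (Nat.mul_le_mul_right _ (Finset.card_le_card h1)).trans h2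
  have hpos : 0 < Fintype.card A ^ Fintype.card U := by
    rw [hA]; positivity
  have h4 : b ^ I.card * Fintype.card A ^ Fintype.card U ≤
      2 ^ c * Fintype.card A ^ Fintype.card U := by
    rw [mul_comm]
    exact hpot.trans (Nat.mul_le_mul_left _ h3)
  have h5 : b ^ I.card ≤ 2 ^ c := Nat.le_of_mul_le_mul_right h4 hpos
  have h6 : 2 ^ I.card ≤ 2 ^ c := (Nat.pow_le_pow_left hb _).trans h5
  exact (Nat.pow_le_pow_iff_right (by norm_num)).1 h6

/-- the last step -/
lemma last_step [Nonempty S] (hS : BStrat U S k Valid) (hmono : C.Monotone) {lay : ℕ → ℕ}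
    (hwire : ∀ i < C.size, ∀ j, (C.gate i).wires j ≠ 0 → lay j + 1 = lay i)
    (hJv : ∀ i, (Jv i).card ≤ 2)
    (hleaf : ∀ i x y I L, inX x i = true → inY y i = false → Jv i ⊆ I →
      Valid I (fun u => y (u, x u)) L → L < 2)
    {c r L lo : ℕ} (hQ : 4 ≤ Q) (hr : 1 ≤ r)
    (hb : 2048 * r * Q ^ 3 * Fintype.card S ^ 2 ≤ b) (hb2 : 2 ≤ b)
    (hA : Fintype.card A = b ^ 2) (hk : c + Q < k)
    {P : Finset (U → A)} {I : Finset U} {Y : Finset (U × A → S)} {z : U → S} {g : ℕ}
    (h : State C inX inY b Valid lay c r L lo (lo + 1) P I Y z g) : L ≤ 2 := by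
  have hI := pot_card hb2 hA h.dense.1 h.eqI h.pot
  have hwires := C.gate_lt g h.hg
  have main : ∀ a1 a2 : Node M, (∀ j, a1.wires j ≠ 0 → lay j = lo ∧ j < C.size) →
      (∀ j, a2.wires j ≠ 0 → lay j = lo ∧ j < C.size) →
      (∀ x ∈ P, ∀ y ∈ Y,
        (a1.eval (inX x) (C.val (inX x)) = true ∧ a1.eval (inY y) (C.val (inY y)) = false) ∨
        (a2.eval (inX x) (C.val (inX x)) = true ∧ a2.eval (inY y) (C.val (inY y)) = false)) →
      L ≤ 2 := by
    intro a1 a2 h1 h2 hor
    let Jn : Node M → Finset U := fun a => match a with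
      | .var i => Jv i
      | .const _ => ∅
      | .gate _ => ∅
    have hJn : ∀ a, (Jn a).card ≤ 2 := by
      intro a
      cases a with
      | var i => exact hJv i
      | const _ => simp [Jn]
      | gate _ => simp [Jn]
    obtain ⟨x, hx, y, hy, hV⟩ := bstep hS (by omega) hr hb h.dense h.large h.hz h.valid
      (Jn a1 ∪ Jn a2) (by
        have := Finset.card_union_le (Jn a1) (Jn a2)
        have := hJn a1
        have := hJn a2
        omega) (by omega)
    have hnode : ∀ a : Node M, (∀ j, a.wires j ≠ 0 → lay j = lo ∧ j < C.size) →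
        Jn a ⊆ I ∪ (Jn a1 ∪ Jn a2) → a.eval (inX x) (C.val (inX x)) = true →
        a.eval (inY y) (C.val (inY y)) = false → L ≤ 2 := by
      intro a ha haJ e1 e2
      cases a with
      | var i =>
        have := hleaf i x y _ _ e1 e2 haJ hV
        omega
      | const c =>
        simp only [Node.eval] at e1 e2
        rw [e1] at e2
        exact absurd e2 (by decide)
      | gate j =>
        obtain ⟨g1, g2⟩ := ha j (by simp [Node.wires])
        have := h.low j g2 g1 x hx y hy e1
        simp only [Node.eval] at e2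
        rw [this] at e2
        exact absurd e2 (by decide)
    rcases hor x hx y hy with ⟨e1, e2⟩ | ⟨e1, e2⟩
    · exact hnode a1 h1 (Finset.subset_union_left.trans Finset.subset_union_right) e1 e2
    · exact hnode a2 h2 (Finset.subset_union_right.trans Finset.subset_union_right) e1 e2
  have hvX : ∀ x ∈ P, (C.gate g).eval (inX x) (C.val (inX x)) = true := by
    intro x hx
    rw [← C.val_gate h.hg]
    exact h.hgX x hx
  have hvY : ∀ y ∈ Y, (C.gate g).eval (inY y) (C.val (inY y)) = false := by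
    intro y hy
    rw [← C.val_gate h.hg]
    exact h.hgY y hy
  have hw : ∀ j, (C.gate g).wires j ≠ 0 → lay j = lo ∧ j < C.size := by
    intro j hj
    have h1 := hwire g h.hg j hj
    have h2 := hwires j hj
    have h3 := h.layg
    have h4 := h.hg
    exact ⟨by omega, by omega⟩
  cases hgate : C.gate g with
  | not a => exact absurd hgate (hmono g h.hg a)
  | and a1 a2 =>
    rw [hgate] at hw
    refine main a1 a2 (fun j hj => hw j (by simp only [Gate.wires]; omega))
      (fun j hj => hw j (by simp only [Gate.wires]; omega)) ?_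
    intro x hx y hy
    have h1 := hvX x hx
    have h2 := hvY y hy
    rw [hgate] at h1 h2
    simp only [Gate.eval, Bool.and_eq_true] at h1
    simp only [Gate.eval, Bool.and_eq_false_iff] at h2
    rcases h2 with h2 | h2
    · exact Or.inl ⟨h1.1, h2⟩
    · exact Or.inr ⟨h1.2, h2⟩
  | or a1 a2 =>
    rw [hgate] at hw
    refine main a1 a2 (fun j hj => hw j (by simp only [Gate.wires]; omega))
      (fun j hj => hw j (by simp only [Gate.wires]; omega)) ?_
    intro x hx y hy
    have h1 := hvX x hx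
    have h2 := hvY y hy
    rw [hgate] at h1 h2
    simp only [Gate.eval, Bool.or_eq_true] at h1
    simp only [Gate.eval, Bool.or_eq_false_iff] at h2
    rcases h1 with h1 | h1
    · exact Or.inl ⟨h1, h2.1⟩
    · exact Or.inr ⟨h1, h2.2⟩

/-- restriction of the rows to a popular part, restoration, and a batch of queries -/
lemma narrow [Nonempty S] (hS : BStrat U S k Valid)
    {c r L v : ℕ} (hQ : 1 ≤ Q) (hr : 1 ≤ r) (hs : Fintype.card S ≤ 2 ^ s)
    (hb : 2048 * r * Q ^ 3 * Fintype.card S ^ 2 ≤ b) (hb2 : 2 ≤ b)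
    (hA : Fintype.card A = b ^ 2) (hcQ : c + (v + 1) ≤ Q) (hk : c + Q < k)
    {P : Finset (U → A)} {I : Finset U} {Y : Finset (U × A → S)} {z : U → S}
    (hP : Dense b P I)
    (hpot : Fintype.card A ^ Fintype.card U * b ^ I.card ≤
      2 ^ c * (P.card * Fintype.card A ^ I.card))
    (heq : ∀ x ∈ P, ∀ x' ∈ P, ∀ u ∈ I, x u = x' u) (hY : Large r Y)
    (hz : ∀ x ∈ P, ∀ y ∈ Y, ∀ u ∈ I, y (u, x u) = z u) (hV : Valid I z L)
    {β : Type} [DecidableEq β] (T : Finset β) (hT : T.card ≤ 2 ^ v) (f : (U → A) → β)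
    (hf : ∀ x ∈ P, f x ∈ T) :
    ∃ (P' : Finset (U → A)) (I' : Finset U) (Y' : Finset (U × A → S)) (γ : U → S) (t : β),
      P' ⊆ P ∧ Y' ⊆ Y ∧ Dense b P' I' ∧
      Fintype.card A ^ Fintype.card U * b ^ I'.card ≤
        2 ^ (c + (v + 1)) * (P'.card * Fintype.card A ^ I'.card) ∧
      (∀ x ∈ P', ∀ x' ∈ P', ∀ u ∈ I', x u = x' u) ∧ Large (r + (1 + Q * s)) Y' ∧
      (∀ x ∈ P', ∀ y ∈ Y', ∀ u ∈ I', y (u, x u) = γ u) ∧ Valid I' γ (L - 1) ∧
      ∀ x ∈ P', f x = t := by
  obtain ⟨G, hGP, hG, hGc⟩ := good_rows hQ hr hb hP hY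
  have hGpos : 0 < G.card := by omega
  obtain ⟨t, ht, htc⟩ := popular G (Finset.card_pos.1 hGpos) T f (fun x hx => hf x (hGP hx))
  set P1 := G.filter (fun x => f x = t) with hP1
  have hP1c : P.card ≤ 2 ^ (v + 1) * P1.card := by
    have h1 : G.card ≤ 2 ^ v * P1.card := htc.trans (Nat.mul_le_mul_right _ hT)
    rw [pow_succ]
    have h2 : 2 ^ v * 2 * P1.card = 2 * (2 ^ v * P1.card) := by ring
    omega
  have hP1ne : P1.Nonempty := by
    rw [← Finset.card_pos]
    rcases Nat.eq_zero_or_pos P1.card with h0 | h0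
    · rw [h0] at htc; omega
    · exact h0
  obtain ⟨J, β', hJI, hJ1, hJ2⟩ := restore b P1 hP1ne I
  set P' := fix P1 J β' with hP'
  have hP'1 : P' ⊆ P1 := Finset.filter_subset _ _
  have hP'P : P' ⊆ P := (hP'1.trans (Finset.filter_subset _ _)).trans hGP
  have hIJ : (I ∪ J).card = I.card + J.card := Finset.card_union_of_disjoint hJI.symm
  have hpot' : Fintype.card A ^ Fintype.card U * b ^ (I ∪ J).card ≤
      2 ^ (c + (v + 1)) * (P'.card * Fintype.card A ^ (I ∪ J).card) := by
    rw [hIJ, pow_add, pow_add, pow_add]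
    calc Fintype.card A ^ Fintype.card U * (b ^ I.card * b ^ J.card)
        = (Fintype.card A ^ Fintype.card U * b ^ I.card) * b ^ J.card := by ring
      _ ≤ (2 ^ c * (P.card * Fintype.card A ^ I.card)) * b ^ J.card :=
          Nat.mul_le_mul_right _ hpot
      _ ≤ (2 ^ c * ((2 ^ (v + 1) * (P'.card * b ^ J.card)) * Fintype.card A ^ I.card)) *
            b ^ J.card := by
          apply Nat.mul_le_mul_right
          apply Nat.mul_le_mul_left
          apply Nat.mul_le_mul_right
          exact hP1c.trans (Nat.mul_le_mul_left _ hJ1)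
      _ = 2 ^ c * 2 ^ (v + 1) * (P'.card * (Fintype.card A ^ I.card * (b ^ 2) ^ J.card)) := by
          ring
      _ = _ := by rw [← hA]; ring
  have heq' : ∀ x ∈ P', ∀ x' ∈ P', ∀ u ∈ I ∪ J, x u = x' u := by
    intro x hx x' hx' u hu
    rcases Finset.mem_union.1 hu with hu | hu
    · exact heq x (hP'P hx) x' (hP'P hx') u hu
    · rw [(Finset.mem_filter.1 hx).2 u hu, (Finset.mem_filter.1 hx').2 u hu]
  have hcard' := pot_card hb2 hA hJ2.1 heq' hpot'
  have hJQ : J.card ≤ Q := by rw [hIJ] at hcard'; omega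
  have hIc := pot_card hb2 hA hP.1 heq hpot
  obtain ⟨γ, h1, h2⟩ := hS.batch I z L J hV hJI (by omega)
  obtain ⟨x0, hx0⟩ := hJ2.1
  have hx0G : x0 ∈ G := (Finset.mem_filter.1 (hP'1 hx0)).1
  have h3 := hG x0 hx0G J hJI hJQ γ
  refine ⟨P', I ∪ J, pat Y x0 J γ, γ, t, hP'P, Finset.filter_subset _ _, hJ2, hpot', heq', ?_,
    ?_, h2, ?_⟩
  · unfold Large at hY ⊢
    have h4 : Fintype.card S ^ J.card ≤ 2 ^ (Q * s) := by
      calc Fintype.card S ^ J.card ≤ (2 ^ s) ^ J.card := Nat.pow_le_pow_left hs _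
        _ = 2 ^ (s * J.card) := by rw [pow_mul]
        _ ≤ 2 ^ (Q * s) := by
            apply Nat.pow_le_pow_right (by norm_num)
            rw [mul_comm]
            exact Nat.mul_le_mul_right _ hJQ
    calc Fintype.card (U × A → S) ≤ Y.card * 2 ^ r := hY
      _ ≤ (2 * Fintype.card S ^ J.card * (pat Y x0 J γ).card) * 2 ^ r :=
          Nat.mul_le_mul_right _ h3
      _ ≤ (2 * 2 ^ (Q * s) * (pat Y x0 J γ).card) * 2 ^ r := by
          apply Nat.mul_le_mul_right
          apply Nat.mul_le_mul_right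
          exact Nat.mul_le_mul_left _ h4
      _ = (pat Y x0 J γ).card * 2 ^ (r + (1 + Q * s)) := by
          rw [pow_add, pow_add]; ring
  · intro x hx y hy u hu
    obtain ⟨hyY, hyJ⟩ := Finset.mem_filter.1 hy
    rcases Finset.mem_union.1 hu with hu | hu
    · rw [h1 u hu]; exact hz x (hP'P hx) y hyY u hu
    · rw [← hyJ u hu, heq' x hx x0 hx0 u (Finset.mem_union_right _ hu)]
  · intro x hx
    exact (Finset.mem_filter.1 (hP'1 hx)).2

/-- the rounds of the binary search -/
lemma rounds [Nonempty S] (hS : BStrat U S k Valid) (hmono : C.Monotone) {lay : ℕ → ℕ}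
    (hwire : ∀ i < C.size, ∀ j, (C.gate i).wires j ≠ 0 → lay j + 1 = lay i)
    (hw : ∀ l, ((range C.size).filter (fun i => lay i = l)).card ≤ w)
    (hJv : ∀ i, (Jv i).card ≤ 2)
    (hleaf : ∀ i x y I L, inX x i = true → inY y i = false → Jv i ⊆ I →
      Valid I (fun u => y (u, x u)) L → L < 2)
    {rm : ℕ} (hQ : 4 ≤ Q) (hs : Fintype.card S ≤ 2 ^ s)
    (hb : 2048 * rm * Q ^ 3 * Fintype.card S ^ 2 ≤ b) (hb2 : 2 ≤ b)
    (hA : Fintype.card A = b ^ 2) (hk : 2 * Q < k) :
    ∀ (t c r L lo hi : ℕ) (P : Finset (U → A)) (I : Finset U) (Y : Finset (U × A → S))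
      (z : U → S) (g : ℕ), State C inX inY b Valid lay c r L lo hi P I Y z g →
      lo < hi → hi ≤ lo + 2 ^ t → 1 ≤ r → c + t * (w + 1) ≤ Q →
      r + t * (w + 1 + Q * s) ≤ rm → L ≤ t + 2 := by
  intro t
  induction t with
  | zero =>
    intro c r L lo hi P I Y z g h h1 h2 h3 h4 h5
    have : hi = lo + 1 := by
      rw [pow_zero] at h2; omega
    subst this
    have hb' : 2048 * r * Q ^ 3 * Fintype.card S ^ 2 ≤ b := by
      refine le_trans ?_ hb
      apply Nat.mul_le_mul_right
      apply Nat.mul_le_mul_right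
      exact Nat.mul_le_mul_left _ (by omega)
    exact last_step hS hmono hwire hJv hleaf hQ h3 hb' hb2 hA (by omega) h
  | succ t ih =>
    intro c r L lo hi P I Y z g h h1 h2 h3 h4 h5
    have e4 : (t + 1) * (w + 1) = t * (w + 1) + (w + 1) := by ring
    have e5 : (t + 1) * (w + 1 + Q * s) = t * (w + 1 + Q * s) + (w + 1 + Q * s) := by ring
    rw [e4] at h4
    rw [e5] at h5
    by_cases hsmall : hi ≤ lo + 2 ^ t
    · have := ih c r L lo hi P I Y z g h h1 hsmall h3 (by omega) (by omega)
      omega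
    · push Not at hsmall
      rw [pow_succ] at h2
      obtain ⟨mid, hmid⟩ : ∃ mid, mid = lo + 2 ^ t := ⟨_, rfl⟩
      have hb' : 2048 * r * Q ^ 3 * Fintype.card S ^ 2 ≤ b := by
        refine le_trans ?_ hb
        apply Nat.mul_le_mul_right
        apply Nat.mul_le_mul_right
        exact Nat.mul_le_mul_left _ (by omega)
      set W := (range C.size).filter (fun i => lay i = mid) with hW
      have hWc : W.powerset.card ≤ 2 ^ w := by
        rw [Finset.card_powerset]
        exact Nat.pow_le_pow_right (by norm_num) (hw mid)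
      obtain ⟨P', I', Y', γ, T0, g1, g2, g3, g4, g5, g6, g7, g8, g9⟩ := narrow (v := w) hS
        (by omega : 1 ≤ Q) h3 hs hb' hb2 hA (by omega) (by omega) h.dense h.pot h.eqI h.large h.hz
        h.valid W.powerset hWc (fun x => W.filter (fun j => C.val (inX x) j = true))
        (fun x _ => Finset.mem_powerset.2 (Finset.filter_subset _ _))
      have hY'pos : Y'.Nonempty := by
        rw [← Finset.card_pos]
        unfold Large at g6
        rcases Nat.eq_zero_or_pos Y'.card with h0 | h0
        · rw [h0] at g6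
          have : 0 < Fintype.card (U × A → S) := Fintype.card_pos
          omega
        · exact h0
      obtain ⟨T1, hT1, hT1c⟩ := popular Y' hY'pos W.powerset
        (fun y => W.filter (fun j => C.val (inY y) j = true))
        (fun y _ => Finset.mem_powerset.2 (Finset.filter_subset _ _))
      set Y2 := Y'.filter (fun y => W.filter (fun j => C.val (inY y) j = true) = T1) with hY2
      have hY2Y' : Y2 ⊆ Y' := Finset.filter_subset _ _
      have hlarge : Large (r + (w + 1 + Q * s)) Y2 := by
        unfold Large at g6 ⊢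
        calc Fintype.card (U × A → S) ≤ Y'.card * 2 ^ (r + (1 + Q * s)) := g6
          _ ≤ (2 ^ w * Y2.card) * 2 ^ (r + (1 + Q * s)) :=
              Nat.mul_le_mul_right _ (hT1c.trans (Nat.mul_le_mul_right _ hWc))
          _ = Y2.card * 2 ^ (r + (w + 1 + Q * s)) := by
              rw [show r + (w + 1 + Q * s) = w + (r + (1 + Q * s)) by ring, pow_add 2 w]; ring
      by_cases hsub : T0 ⊆ T1
      · -- the new lower boundary
        have hst : State C inX inY b Valid lay (c + (w + 1)) (r + (w + 1 + Q * s)) (L - 1) mid hi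
            P' I' Y2 γ g := by
          refine ⟨g3, g4, g5, hlarge, fun x hx y hy => g7 x hx y (hY2Y' hy), g8, h.hg, h.layg,
            fun x hx => h.hgX x (g1 hx), fun y hy => h.hgY y (g2 (hY2Y' hy)), ?_⟩
          intro j hj hlj x hx y hy hv
          have hjW : j ∈ W := Finset.mem_filter.2 ⟨Finset.mem_range.2 hj, hlj⟩
          have h6 : j ∈ T0 := by
            rw [← g9 x hx]; exact Finset.mem_filter.2 ⟨hjW, hv⟩
          have h7 := hsub h6
          rw [← (Finset.mem_filter.1 hy).2] at h7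
          exact (Finset.mem_filter.1 h7).2
        have := ih _ _ _ _ _ _ _ _ _ _ hst (by omega) (by omega) (by omega) (by omega)
          (by omega)
        omega
      · -- the new gate
        obtain ⟨j, hj0, hj1⟩ := Finset.not_subset.1 hsub
        obtain ⟨x0, hx0⟩ := g3.1
        have hjW : j ∈ W := by
          have := hj0
          rw [← g9 x0 hx0] at this
          exact (Finset.mem_filter.1 this).1
        obtain ⟨hjs, hjl⟩ := Finset.mem_filter.1 hjW
        rw [Finset.mem_range] at hjs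
        have hst : State C inX inY b Valid lay (c + (w + 1)) (r + (w + 1 + Q * s)) (L - 1) lo mid
            P' I' Y2 γ j := by
          refine ⟨g3, g4, g5, hlarge, fun x hx y hy => g7 x hx y (hY2Y' hy), g8, hjs, hjl,
            ?_, ?_, ?_⟩
          · intro x hx
            have := hj0
            rw [← g9 x hx] at this
            exact (Finset.mem_filter.1 this).2
          · intro y hy
            have h6 := (Finset.mem_filter.1 hy).2
            by_contra hc
            apply hj1
            rw [← h6]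
            exact Finset.mem_filter.2 ⟨hjW, by simpa using hc⟩
          · intro j' hj' hlj x hx y hy hv
            exact h.low j' hj' hlj x (g1 hx) y (g2 (hY2Y' hy)) hv
        have h2t : 0 < 2 ^ t := Nat.two_pow_pos t
        have := ih _ _ _ _ _ _ _ _ _ _ hst (by omega) (by omega) (by omega) (by omega)
          (by omega)
        omega

end wsim

end Pool.Agent.H540R2.Lift
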