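import Mathlib
import Pool.Agent.H540R2.Lift.WSim
import Pool.Agent.H540R2.Lift.Neg2
import Pool.Agent.H540R2.Lift.Lower

/-!
# Lower bound for narrow monotone circuits
-/

set_option autoImplicit false
set_option linter.unusedSectionVars false

namespace Pool.Agent.H540R2.Lift

open Finset Classical

lemma exists_lo {sz : ℕ} {lay : ℕ → ℕ} (h1 : ∀ i < sz, 1 ≤ lay i) {g : ℕ} (hg : g < sz) :
    ∃ lo, lo < lay g ∧ (∀ i < sz, lay i ≠ lo) ∧ lay g ≤ lo + sz := by
  set E := (range (lay g)).filter (fun l => ∀ i < sz, lay i ≠ l) with hE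
  have h0 : 0 ∈ E := by
    refine Finset.mem_filter.2 ⟨Finset.mem_range.2 (h1 g hg), fun i hi => ?_⟩
    have := h1 i hi
    omega
  obtain ⟨lo, hlo, hmax⟩ := E.exists_max_image id ⟨0, h0⟩
  obtain ⟨h2, h3⟩ := Finset.mem_filter.1 hlo
  rw [Finset.mem_range] at h2
  refine ⟨lo, h2, h3, ?_⟩
  have hsub : Finset.Ioc lo (lay g) ⊆ (range sz).image lay := by
    intro l hl
    rw [Finset.mem_Ioc] at hl
    rw [Finset.mem_image]
    by_contra hc
    push Not at hc
    rcases Nat.lt_or_ge l (lay g) with h4 | h4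
    · have : l ∈ E := Finset.mem_filter.2 ⟨Finset.mem_range.2 h4, fun i hi =>
        hc i (Finset.mem_range.2 hi)⟩
      have := hmax l this
      simp only [id] at this
      omega
    · exact hc g (Finset.mem_range.2 hg) (by omega)
  have h4 := (Finset.card_le_card hsub).trans Finset.card_image_le
  rw [Nat.card_Ioc, Finset.card_range] at h4
  omega

variable {U A S : Type} [Fintype U] [DecidableEq U] [Fintype A] [DecidableEq A] [Fintype S]
  [DecidableEq S]

theorem wsim [Nonempty S] [Nonempty (U → A)] {M : ℕ} {C : Circuit M}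
    {inX : (U → A) → Fin M → Bool}
    {inY : (U × A → S) → Fin M → Bool} {k b Q s w v R rm m' : ℕ}
    {Valid : Finset U → (U → S) → ℕ → Prop} {Jv : Fin M → Finset U}
    (hS : BStrat U S k Valid) (hmono : C.Monotone) {lay : ℕ → ℕ}
    (hlay : ∀ i < C.size, 1 ≤ lay i)
    (hwire : ∀ i < C.size, ∀ j, (C.gate i).wires j ≠ 0 → lay j + 1 = lay i)
    (hw : ∀ l, ((range C.size).filter (fun i => lay i = l)).card ≤ w)
    (hJv : ∀ i, (Jv i).card ≤ 2)
    (hleaf : ∀ i x y I L, inX x i = true → inY y i = false → Jv i ⊆ I →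
      Valid I (fun u => y (u, x u)) L → L < 2)
    (ν : Fin m' → Node M) (hν : ∀ i j, (ν i).wires j ≠ 0 → j < C.size)
    (hm' : m' ≤ 2 ^ v) (hR : C.size ≤ 2 ^ R)
    (hQ4 : 4 ≤ Q) (hQ : v + 1 + R * (w + 1) ≤ Q) (hs : Fintype.card S ≤ 2 ^ s)
    (hrm : 2 + Q * s + R * (w + 1 + Q * s) ≤ rm)
    (hb : 2048 * rm * Q ^ 3 * Fintype.card S ^ 2 ≤ b)
    (hA : Fintype.card A = b ^ 2) (hk : 2 * Q < k)
    (h1 : ∀ x, ∃ i, (ν i).eval (inX x) (C.val (inX x)) = true)
    (h0 : ∀ (y : U × A → S) i, (ν i).eval (inY y) (C.val (inY y)) = false)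
    {z : U → S} {L : ℕ} (hV : Valid ∅ z L) : L ≤ R + 3 := by
  have hσ : 0 < Fintype.card S := Fintype.card_pos
  have hb2 : 2 ≤ b := by
    have h : 2 * 1 ≤ 2048 * rm * Q ^ 3 * Fintype.card S ^ 2 := by
      have hrm1 : 0 < rm := by omega
      have : 0 < rm * Q ^ 3 * Fintype.card S ^ 2 := by positivity
      calc 2 * 1 ≤ 2048 * (rm * Q ^ 3 * Fintype.card S ^ 2) := by omega
        _ = _ := by ring
    omega
  have hmono_b : ∀ r, r ≤ rm → 2048 * r * Q ^ 3 * Fintype.card S ^ 2 ≤ b := fun r hr => by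
    refine le_trans ?_ hb
    apply Nat.mul_le_mul_right
    apply Nat.mul_le_mul_right
    exact Nat.mul_le_mul_left _ hr
  choose f hf using h1
  have hbpos : 0 < b := by omega
  have hd : Dense b (univ : Finset (U → A)) ∅ := by
    refine ⟨Finset.univ_nonempty, fun J _ β => ?_⟩
    have h2 := card_fix (univ : Finset (U → A)) J β
    rw [Finset.card_univ, Fintype.card_fun]
    refine le_trans ?_ h2
    apply Nat.mul_le_mul_left
    apply Nat.pow_le_pow_left
    rw [hA]
    exact Nat.le_self_pow (by norm_num) b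
  obtain ⟨P', I', Y', γ, i0, g1, g2, g3, g4, g5, g6, g7, g8, g9⟩ := narrow (Q := Q) (s := s)
    (v := v) (c := 0) (r := 1) (b := b) (P := univ) (I := ∅) (Y := univ) (z := z) (L := L)
    hS (by omega) le_rfl hs (hmono_b 1 (by omega)) hb2 hA (by omega) (by omega) hd
    (by rw [Finset.card_univ, Fintype.card_fun]; simp) (by simp)
    (by unfold Large; rw [Finset.card_univ]; omega) (by simp) hV
    (univ : Finset (Fin m')) (by simpa using hm') f (fun x _ => Finset.mem_univ _)
  have hX : ∀ x ∈ P', (ν i0).eval (inX x) (C.val (inX x)) = true := fun x hx => by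
    rw [← g9 x hx]; exact hf x
  have hY : ∀ y ∈ Y', (ν i0).eval (inY y) (C.val (inY y)) = false := fun y _ => h0 y i0
  have hIc := pot_card hb2 hA g3.1 g5 g4
  cases hn : ν i0 with
  | var i =>
    rw [hn] at hX hY
    obtain ⟨x, hx, y, hy, hV'⟩ := bstep hS (by omega) (by omega) (hmono_b _ (by omega)) g3 g6 g7
      g8 (Jv i) ((hJv i).trans (by omega)) (by omega)
    have := hleaf i x y _ _ (hX x hx) (hY y hy) Finset.subset_union_right hV'
    omega
  | const c =>
    rw [hn] at hX hY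
    obtain ⟨x, hx, y, hy, -⟩ := bstep hS (by omega) (by omega) (hmono_b _ (by omega)) g3 g6 g7
      g8 ∅ (by simp) (by omega)
    have e1 := hX x hx
    have e2 := hY y hy
    simp only [Node.eval] at e1 e2
    rw [e1] at e2
    exact absurd e2 (by decide)
  | gate g =>
    have hg : g < C.size := hν i0 g (by rw [hn]; simp [Node.wires])
    rw [hn] at hX hY
    obtain ⟨lo, l1, l2, l3⟩ := exists_lo hlay hg
    have hst : State C inX inY b Valid lay (0 + (v + 1)) (1 + (1 + Q * s)) (L - 1) lo (lay g)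
        P' I' Y' γ g :=
      ⟨g3, g4, g5, g6, g7, g8, hg, rfl, hX, hY, fun j hj hlj => absurd hlj (l2 j hj)⟩
    have := rounds hS hmono hwire hw hJv hleaf (rm := rm) hQ4 hs hb hb2 hA hk R _ _ _ _ _ _ _ _ _
      _ hst l1 (by omega) (by omega) (by omega) (by omega)
    omega

variable {n k M : ℕ}

/-- the lower bound for the pointer function -/
theorem wlower {b Q s w v R rm m' : ℕ} [NeZero k] (hn : 0 < n) (e : Var n k (b ^ 2) → Fin M)
    (he : Function.Injective e) (C : Circuit M) (hmono : C.Monotone) {lay : ℕ → ℕ}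
    (hlay : ∀ i < C.size, 1 ≤ lay i)
    (hwire : ∀ i < C.size, ∀ j, (C.gate i).wires j ≠ 0 → lay j + 1 = lay i)
    (hw : ∀ l, ((range C.size).filter (fun i => lay i = l)).card ≤ w)
    (ν : Fin m' → Node M) (hν : ∀ i j, (ν i).wires j ≠ 0 → j < C.size)
    (hF : ∀ x : Fin M → Bool, F (fun v => x (e v)) = true ↔
      ∃ i, (ν i).eval x (C.val x) = true)
    (hm' : m' ≤ 2 ^ v) (hR : C.size ≤ 2 ^ R)
    (hQ4 : 4 ≤ Q) (hQ : v + 1 + R * (w + 1) ≤ Q) (hs : k + 1 ≤ 2 ^ s)
    (hrm : 2 + Q * s + R * (w + 1 + Q * s) ≤ rm)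
    (hb : 2048 * rm * Q ^ 3 * (k + 1) ^ 2 ≤ b) (hk : 2 * Q < k) : n ≤ R + 2 := by
  have hS : Fintype.card (Option (Fin k)) = k + 1 := by simp
  have hbpos : 0 < b := by
    rcases Nat.eq_zero_or_pos b with h | h
    · rw [h] at hb
      have hrm1 : 0 < rm := by omega
      have : 0 < 2048 * rm * Q ^ 3 * (k + 1) ^ 2 := by positivity
      omega
    · exact h
  have _ : NeZero (b ^ 2) := ⟨by positivity⟩
  have hne : Nonempty (Fin n × Fin k → Fin (b ^ 2)) := ⟨fun _ => 0⟩
  have hext1 : ∀ x : Fin n × Fin k → Fin (b ^ 2),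
      (fun v => ext e (inA x) false (e v)) = inA x := fun x => funext fun v => ext_e he _ _ v
  have hext2 : ∀ y : (Fin n × Fin k) × Fin (b ^ 2) → Option (Fin k),
      (fun v => ext e (inB y) true (e v)) = inB y := fun y => funext fun v => ext_e he _ _ v
  have h := wsim (U := Fin n × Fin k) (A := Fin (b ^ 2)) (S := Option (Fin k)) (Q := Q) (b := b)
    (C := C) (inX := fun x => ext e (inA x) false) (inY := fun y => ext e (inB y) true)
    (Jv := fun i => if h : ∃ v, e v = i then Jv h.choose else ∅) (z := fun _ => none)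
    (L := n + 1) (bstrat n k) hmono hlay hwire hw ?_ ?_ ν hν hm' hR hQ4 hQ (by rw [hS]; exact hs)
    hrm (by rw [hS]; exact hb) (by simp) hk ?_ ?_ ?_
  · omega
  · intro i
    split_ifs with h
    · exact Jv_card _
    · simp
  · intro i x y I L hx hy hI hV
    simp only [ext] at hx hy
    by_cases h : ∃ v, e v = i
    · rw [dif_pos h] at hx hy hI
      exact leaf h.choose x y I L hx hy hI hV
    · rw [dif_neg h] at hx
      exact absurd hx (by decide)
  · intro x
    refine (hF _).1 ?_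
    rw [hext1]
    exact F_A hn x
  · intro y i
    by_contra hc
    have h2 := (hF (ext e (inB y) true)).2 ⟨i, by simpa using hc⟩
    rw [hext2, F_B hn y] at h2
    exact absurd h2 (by decide)
  · exact ⟨le_rfl, by simp, by simp⟩

end Pool.Agent.H540R2.Lift
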