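import Mathlib
import Pool.Agent.H540R2.Lift.WLower
import Pool.Agent.H540R2.Lift.PProg
import Pool.Agent.H540R2.Lift.OrC
import Pool.Agent.H540R2.Lift.Multi

/-!
# Monotone NC against narrow circuits with few NOT gates
-/

set_option autoImplicit false
set_option linter.unusedSectionVars false

namespace Pool.Agent.H540R2.Lift

open Finset

/-- the basic parameter for `R` rounds and width `2 ^ i` -/
def wZ (R i : ℕ) : ℕ := (R + 4) * (2 ^ i + 2)

/-- half gadget size -/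
def wb (R i : ℕ) : ℕ := 2 ^ 15 * wZ R i ^ 8

/-- bound for the number of variables of a copy -/
def wB (R i : ℕ) : ℕ := 2 ^ 65 * wZ R i ^ 35

/-- number of copies -/
def wc (M R i : ℕ) : ℕ := M / ((Nat.log 2 M + 1) * wB R i)

/-- variables -/
abbrev WV (M R : ℕ) := Σ i : Fin (Nat.log 2 M + 1),
  Fin (wc M R i.1) × Var (R + 3) (3 * wZ R i.1) (wb R i.1 ^ 2)

lemma wZ_ge (R i : ℕ) : 12 ≤ wZ R i := by
  unfold wZ
  have : 1 ≤ 2 ^ i := Nat.one_le_two_pow
  calc 12 = 4 * 3 := rfl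
    _ ≤ _ := Nat.mul_le_mul (by omega) (by omega)

instance (R i : ℕ) : NeZero (3 * wZ R i) := ⟨by have := wZ_ge R i; omega⟩

instance (R i : ℕ) : NeZero (wb R i ^ 2) := ⟨by
  have := wZ_ge R i
  unfold wb
  have : 0 < wZ R i := by omega
  positivity⟩

/-- the function -/
def WF {M R : ℕ} (e : WV M R → Fin M) (x : Fin M → Bool) : Bool :=
  decide (∃ (i : Fin (Nat.log 2 M + 1)) (j : Fin (wc M R i.1)),
    F (fun v => x (e ⟨i, j, v⟩)) = true)

lemma wkm (R i : ℕ) : 3 * wZ R i * wb R i ^ 2 = 3 * 2 ^ 30 * wZ R i ^ 17 := by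
  unfold wb; ring

lemma wR_le (R i : ℕ) : R + 3 ≤ wZ R i := by
  unfold wZ
  have : 1 ≤ 2 ^ i := Nat.one_le_two_pow
  calc R + 3 ≤ (R + 4) * 1 := by omega
    _ ≤ _ := Nat.mul_le_mul_left _ (by omega)

/-- number of variables of a copy -/
lemma wnv_le (R i : ℕ) : nv (R + 3) (3 * wZ R i) (wb R i ^ 2) ≤ wB R i := by
  have hZ := wZ_ge R i
  have hR := wR_le R i
  have hkm := wkm R i
  have e1 : 1 ≤ 3 * wZ R i := by omega
  have e2 : 1 ≤ wb R i ^ 2 := Nat.pos_of_ne_zero (NeZero.ne _)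
  set k := 3 * wZ R i
  set m := wb R i ^ 2
  have f1 : 1 ≤ k * m := Nat.mul_pos e1 e2
  have f2 : m ≤ k * m := Nat.le_mul_of_pos_left m e1
  have f3 : k * m ≤ (R + 3) * (k * m) ^ 2 := by
    calc k * m = 1 * (k * m) * 1 := by ring
      _ ≤ (R + 3) * (k * m) * (k * m) := Nat.mul_le_mul (Nat.mul_le_mul_right _ (by omega)) f1
      _ = _ := by ring
  have f4 : (R + 3) * (k * (k * (m * m))) = (R + 3) * (k * m) ^ 2 := by ring
  calc nv (R + 3) k m = k * m + ((R + 3) * (k * (k * (m * m))) + m) := rfl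
    _ ≤ (R + 3) * (k * m) ^ 2 + ((R + 3) * (k * m) ^ 2 + (R + 3) * (k * m) ^ 2) := by omega
    _ = 3 * (R + 3) * (k * m) ^ 2 := by ring
    _ = 3 * (R + 3) * (3 * 2 ^ 30 * wZ R i ^ 17) ^ 2 := by rw [hkm]
    _ ≤ 3 * wZ R i * (3 * 2 ^ 30 * wZ R i ^ 17) ^ 2 :=
        Nat.mul_le_mul_right _ (Nat.mul_le_mul_left _ hR)
    _ = 27 * 2 ^ 60 * wZ R i ^ 35 := by ring
    _ ≤ 2 ^ 65 * wZ R i ^ 35 := Nat.mul_le_mul_right _ (by norm_num)

lemma exists_embedW (M R : ℕ) : ∃ e : WV M R → Fin M, Function.Injective e := by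
  have hcard : Fintype.card (Σ i : Fin (Nat.log 2 M + 1), Fin (wc M R i.1) ×
      ((Fin (3 * wZ R i.1) × Fin (wb R i.1 ^ 2)) ⊕
      (Fin (R + 3) × Fin (3 * wZ R i.1) × Fin (3 * wZ R i.1) × Fin (wb R i.1 ^ 2) ×
        Fin (wb R i.1 ^ 2)) ⊕ Fin (wb R i.1 ^ 2))) ≤ Fintype.card (Fin M) := by
    rw [Fintype.card_sigma, Fintype.card_fin]
    have h1 : ∀ i ∈ (Finset.univ : Finset (Fin (Nat.log 2 M + 1))),
        (Nat.log 2 M + 1) * Fintype.card (Fin (wc M R i.1) ×
      ((Fin (3 * wZ R i.1) × Fin (wb R i.1 ^ 2)) ⊕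
      (Fin (R + 3) × Fin (3 * wZ R i.1) × Fin (3 * wZ R i.1) × Fin (wb R i.1 ^ 2) ×
        Fin (wb R i.1 ^ 2)) ⊕ Fin (wb R i.1 ^ 2))) ≤ M := by
      intro i _
      have h2 : Fintype.card (Fin (wc M R i.1) ×
          ((Fin (3 * wZ R i.1) × Fin (wb R i.1 ^ 2)) ⊕
          (Fin (R + 3) × Fin (3 * wZ R i.1) × Fin (3 * wZ R i.1) × Fin (wb R i.1 ^ 2) ×
            Fin (wb R i.1 ^ 2)) ⊕ Fin (wb R i.1 ^ 2))) =
          wc M R i.1 * nv (R + 3) (3 * wZ R i.1) (wb R i.1 ^ 2) := by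
        simp only [Fintype.card_prod, Fintype.card_sum, Fintype.card_fin]
        rfl
      rw [h2]
      calc (Nat.log 2 M + 1) * (wc M R i.1 * nv (R + 3) (3 * wZ R i.1) (wb R i.1 ^ 2))
          ≤ (Nat.log 2 M + 1) * (wc M R i.1 * wB R i.1) :=
            Nat.mul_le_mul_left _ (Nat.mul_le_mul_left _ (wnv_le R i.1))
        _ = wc M R i.1 * ((Nat.log 2 M + 1) * wB R i.1) := by ring
        _ ≤ M := Nat.div_mul_le_self _ _
    have h3 := Finset.sum_le_sum h1
    rw [← Finset.mul_sum] at h3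
    simp only [Finset.sum_const, Finset.card_univ, Fintype.card_fin, smul_eq_mul] at h3
    exact Nat.le_of_mul_le_mul_left h3 (Nat.succ_pos _)
  obtain ⟨e⟩ := Function.Embedding.nonempty_of_card_le hcard
  refine ⟨fun v => e ⟨v.1, v.2.1, varEquiv _ _ _ v.2.2⟩, fun v w hvw => ?_⟩
  have h1 := e.injective hvw
  obtain ⟨t, j, v⟩ := v
  obtain ⟨t', j', v'⟩ := w
  simp only [Sigma.mk.injEq] at h1
  obtain ⟨rfl, h2⟩ := h1
  simp only [heq_eq_eq, Prod.mk.injEq, EmbeddingLike.apply_eq_iff_eq] at h2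
  obtain ⟨rfl, rfl⟩ := h2
  rfl

/-- the monotone circuit -/
lemma wupper {M R : ℕ} (e : WV M R → Fin M) :
    ∃ C : Circuit M, C.Monotone ∧
      C.depth ≤ (R + 3) * (2 * Nat.log 2 M + 4) + 2 * Nat.log 2 M + 4 ∧
      C.size ≤ M * (((R + 3) * (2 * Nat.log 2 M + 4) + Nat.log 2 M + 3) * (2 * M) + 1) ∧
      ∀ x, C.eval x = WF e x := by
  obtain ⟨L, hL⟩ : ∃ L, L = Nat.log 2 M := ⟨_, rfl⟩
  have hML : M < 2 ^ (L + 1) := by rw [hL]; exact Nat.lt_pow_succ_log_self (by norm_num) M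
  have hcard : Fintype.card (Σ i : Fin (Nat.log 2 M + 1), Fin (wc M R i.1)) ≤ M := by
    rw [Fintype.card_sigma]
    have h1 : ∀ i ∈ (Finset.univ : Finset (Fin (Nat.log 2 M + 1))),
        (Nat.log 2 M + 1) * Fintype.card (Fin (wc M R i.1)) ≤ M := by
      intro i _
      rw [Fintype.card_fin]
      have hB : 1 ≤ wB R i.1 := by
        unfold wB
        have : 0 < wZ R i.1 := by have := wZ_ge R i.1; omega
        exact Nat.mul_pos (by norm_num) (Nat.pow_pos this)
      calc (Nat.log 2 M + 1) * wc M R i.1 = wc M R i.1 * ((Nat.log 2 M + 1) * 1) := by ring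
        _ ≤ wc M R i.1 * ((Nat.log 2 M + 1) * wB R i.1) :=
            Nat.mul_le_mul_left _ (Nat.mul_le_mul_left _ hB)
        _ ≤ M := Nat.div_mul_le_self _ _
    have h3 := Finset.sum_le_sum h1
    rw [← Finset.mul_sum] at h3
    simp only [Finset.sum_const, Finset.card_univ, Fintype.card_fin, smul_eq_mul] at h3
    exact Nat.le_of_mul_le_mul_left (by simpa using h3) (Nat.succ_pos (Nat.log 2 M))
  have hone : ∀ ij : (Σ i : Fin (Nat.log 2 M + 1), Fin (wc M R i.1)),
      ∃ C : Circuit M, C.Monotone ∧ C.depth ≤ (R + 3) * (2 * L + 4) + L + 3 ∧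
        C.size ≤ ((R + 3) * (2 * L + 4) + L + 3) * (2 * M) ∧
        ∀ x, C.eval x = F (fun v => x (e ⟨ij.1, ij.2, v⟩)) := by
    rintro ⟨i, j⟩
    have hB : wB R i.1 ≤ M := by
      have h1 : 1 ≤ wc M R i.1 := by have := j.2; omega
      calc wB R i.1 = 1 * (1 * wB R i.1) := by ring
        _ ≤ wc M R i.1 * ((Nat.log 2 M + 1) * wB R i.1) :=
            Nat.mul_le_mul h1 (Nat.mul_le_mul_right _ (by omega))
        _ ≤ M := Nat.div_mul_le_self _ _
    have hZ := wZ_ge R i.1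
    have hZ1 : 0 < wZ R i.1 := by omega
    have e1 : 1 ≤ 3 * wZ R i.1 := by omega
    have e2 : 1 ≤ wb R i.1 ^ 2 := Nat.pos_of_ne_zero (NeZero.ne _)
    have hkm2 : 3 * wZ R i.1 * wb R i.1 ^ 2 + 3 * wZ R i.1 * (3 * wZ R i.1 * (wb R i.1 ^ 2 *
        wb R i.1 ^ 2)) ≤ 2 * M := by
      have h2 : 3 * wZ R i.1 * (3 * wZ R i.1 * (wb R i.1 ^ 2 * wb R i.1 ^ 2)) =
          (3 * wZ R i.1 * wb R i.1 ^ 2) ^ 2 := by ring
      have h3 : (3 * wZ R i.1 * wb R i.1 ^ 2) ^ 2 ≤ wB R i.1 := by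
        rw [wkm]
        unfold wB
        calc (3 * 2 ^ 30 * wZ R i.1 ^ 17) ^ 2 = 9 * 2 ^ 60 * wZ R i.1 ^ 34 := by ring
          _ ≤ 2 ^ 65 * wZ R i.1 ^ 35 := Nat.mul_le_mul (by norm_num)
              (Nat.pow_le_pow_right hZ1 (by norm_num))
      have h4 : 1 ≤ 3 * wZ R i.1 * wb R i.1 ^ 2 := Nat.mul_pos e1 e2
      have h5 : 3 * wZ R i.1 * wb R i.1 ^ 2 ≤ (3 * wZ R i.1 * wb R i.1 ^ 2) ^ 2 := by nlinarith
      rw [h2]
      omega
    have hk2 : 3 * wZ R i.1 ≤ 2 ^ (L + 1) := by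
      have h3 : 3 * wZ R i.1 ≤ wB R i.1 := by
        unfold wB
        calc 3 * wZ R i.1 = 3 * wZ R i.1 ^ 1 := by rw [pow_one]
          _ ≤ 2 ^ 65 * wZ R i.1 ^ 35 := Nat.mul_le_mul (by norm_num)
              (Nat.pow_le_pow_right hZ1 (by norm_num))
      omega
    have hm2 : wb R i.1 ^ 2 ≤ 2 ^ (L + 1) := by
      have h3 : wb R i.1 ^ 2 ≤ wB R i.1 := by
        unfold wB wb
        calc (2 ^ 15 * wZ R i.1 ^ 8) ^ 2 = 2 ^ 30 * wZ R i.1 ^ 16 := by ring
          _ ≤ 2 ^ 65 * wZ R i.1 ^ 35 := Nat.mul_le_mul (by norm_num)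
              (Nat.pow_le_pow_right hZ1 (by norm_num))
      omega
    obtain ⟨C, c1, c2, c3, c4⟩ := exists_nc (fun v => e ⟨i, j, v⟩) hm2 hk2
      (show 0 < R + 3 by omega)
    have hlen : (R + 3) * (L + 1 + (L + 1) + 2) + (L + 1) + 2 = (R + 3) * (2 * L + 4) + L + 3 := by
      ring
    rw [hlen] at c2 c3
    exact ⟨C, c1, c3, c2.trans (Nat.mul_le_mul_left _ hkm2), c4⟩
  obtain ⟨C, c1, c2, c3, c4⟩ := orFin (D := (R + 3) * (2 * L + 4) + L + 3)
    (s := ((R + 3) * (2 * L + 4) + L + 3) * (2 * M)) (t := L + 1)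
    (fun (ij : (Σ i : Fin (Nat.log 2 M + 1), Fin (wc M R i.1))) x =>
      F (fun v => x (e ⟨ij.1, ij.2, v⟩))) hone (by omega)
  refine ⟨C, c1, ?_, ?_, fun x => ?_⟩
  · rw [← hL]; omega
  · rw [← hL]; exact c3.trans (Nat.mul_le_mul_right _ hcard)
  · rw [c4 x, WF, Bool.eq_iff_iff, decide_eq_true_iff, decide_eq_true_iff]
    constructor
    · rintro ⟨⟨i, j⟩, h⟩; exact ⟨i, j, h⟩
    · rintro ⟨i, j, h⟩; exact ⟨⟨i, j⟩, h⟩

/-- the lower bound -/
lemma wlow {M R : ℕ} (e : WV M R → Fin M) (he : Function.Injective e) (C : Circuit M)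
    (hC : ∀ x, C.eval x = WF e x) (hs : C.size ≤ 2 ^ R) {w : ℕ} (hw : C.Layered w) :
    M ≤ 2 ^ C.nots * ((Nat.log 2 M + 1) * (2 ^ 125 * ((R + 4) * (w + 1)) ^ 35)) := by
  obtain ⟨L, hL⟩ : ∃ L, L = Nat.log 2 M := ⟨_, rfl⟩
  have hML : M < 2 ^ (L + 1) := by rw [hL]; exact Nat.lt_pow_succ_log_self (by norm_num) M
  obtain ⟨d, lay, g1, g2, g3, g4⟩ := hw
  obtain ⟨i, hi⟩ : ∃ i, i = Nat.clog 2 w := ⟨_, rfl⟩
  have hwi : w ≤ 2 ^ i := by rw [hi]; exact Nat.le_pow_clog (by norm_num) w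
  have hiw : 2 ^ i ≤ 2 * w + 1 := by
    rcases Nat.lt_or_ge 1 w with h | h
    · have h1 : 2 ^ (i - 1) < w := by rw [hi]; exact Nat.pow_pred_clog_lt_self (by norm_num) h
      have h2 : 1 ≤ i := by rw [hi]; exact Nat.clog_pos (by norm_num) h
      have h3 : 2 ^ i = 2 * 2 ^ (i - 1) := by rw [← pow_succ']; congr 1; omega
      omega
    · have : i = 0 := by rw [hi]; exact Nat.clog_of_right_le_one h 2
      rw [this]; omega
  have hpos : 1 ≤ 2 ^ C.nots := Nat.one_le_two_pow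
  by_cases hiL : i ≤ L
  · by_cases hcop : 2 ^ C.nots ≤ wc M R i
    · exfalso
      have hi' : i < Nat.log 2 M + 1 := by omega
      obtain ⟨j, C', ν, a1, a2, a3, a4, a5⟩ := freeze_core C (m := wc M R i)
        (fun (j : Fin (wc M R i)) (v : Var (R + 3) (3 * wZ R i) (wb R i ^ 2)) =>
          e ⟨⟨i, hi'⟩, j, v⟩)
        (fun j j' v v' h => by
          have := he h
          simp only [Sigma.mk.injEq, heq_eq_eq, Prod.mk.injEq, true_and] at this
          exact this) F F_false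
        (fun x hx => by
          rw [hC, WF, Bool.eq_iff_iff, decide_eq_true_iff, decide_eq_true_iff]
          constructor
          · rintro ⟨t', j', h⟩
            by_cases htt : t' = ⟨i, hi'⟩
            · subst htt
              exact ⟨j', h⟩
            · exfalso
              have hz : (fun v => x (e ⟨t', j', v⟩)) = fun _ => false := by
                funext v
                apply hx
                intro j'' v'' hv
                have := congrArg Sigma.fst (he hv)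
                exact htt this.symm
              rw [hz, F_false] at h
              exact absurd h (by decide)
          · rintro ⟨j', h⟩
            exact ⟨⟨i, hi'⟩, j', h⟩)
        hcop
      have hZ := wZ_ge R i
      have hRZ : 2 * (R + 4) ≤ wZ R i := by
        unfold wZ
        rw [mul_comm]
        have : 1 ≤ 2 ^ i := Nat.one_le_two_pow
        exact Nat.mul_le_mul_left _ (by omega)
      have hwZ : R + 1 + 1 + R * (2 ^ i + 1) ≤ wZ R i := by
        unfold wZ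
        have : (R + 4) * (2 ^ i + 2) = R * (2 ^ i + 1) + R + 4 * 2 ^ i + 8 := by ring
        omega
      have hRw : R * (2 ^ i + 1) ≤ wZ R i := by omega
      have h := wlower (M := M) (n := R + 3) (k := 3 * wZ R i) (b := wb R i) (Q := wZ R i)
        (s := wZ R i) (w := 2 ^ i) (v := R + 1) (R := R) (rm := wZ R i ^ 3)
        (m' := C.size + 1) (by omega) (fun v => e ⟨⟨i, hi'⟩, j, v⟩) (fun v v' h => by
          have := he h
          simp only [Sigma.mk.injEq, heq_eq_eq, Prod.mk.injEq, true_and] at this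
          exact this) C' a1 (lay := lay) (by rw [a2]; exact fun l hl => (g1 l hl).1)
        (by
          rw [a2]
          intro l hl j' hj'
          exact g2 l hl j' (a3 l hl j' hj'))
        (by rw [a2]; exact fun l => (g4 l).trans hwi) ν a4 a5
        (by
          have h1 : 2 ^ (R + 1) = 2 * 2 ^ R := by rw [pow_succ]; ring
          have h2 : 1 ≤ 2 ^ R := Nat.one_le_two_pow
          omega) (by rw [a2]; exact hs) (by omega) hwZ
        (by
          have h1 : 3 * wZ R i + 1 ≤ 2 ^ wZ R i := by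
            have : ∀ Z, 4 ≤ Z → 3 * Z + 1 ≤ 2 ^ Z := by
              intro Z hZ
              induction Z, hZ using Nat.le_induction with
              | base => norm_num
              | succ Z _ ih => rw [pow_succ]; omega
            exact this _ (by omega)
          exact h1)
        (by
          obtain ⟨Z, hZe⟩ : ∃ Z, Z = wZ R i := ⟨_, rfl⟩
          rw [← hZe] at hZ hRZ hRw ⊢
          have e1 : R * (2 ^ i + 1 + Z * Z) = R * (2 ^ i + 1) + R * (Z * Z) := by ring
          rw [e1]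
          have e2 : 2 * (R * (Z * Z)) ≤ Z ^ 3 := by
            calc 2 * (R * (Z * Z)) = (2 * R) * (Z * Z) := by ring
              _ ≤ Z * (Z * Z) := Nat.mul_le_mul_right _ (by omega)
              _ = _ := by ring
          have e3 : 12 * (Z * Z) ≤ Z ^ 3 := by
            calc 12 * (Z * Z) ≤ Z * (Z * Z) := Nat.mul_le_mul_right _ hZ
              _ = _ := by ring
          have e4 : 12 * Z ≤ Z * Z := Nat.mul_le_mul_right _ hZ
          omega)
        (by
          have e1 : (3 * wZ R i + 1) ^ 2 ≤ 16 * wZ R i ^ 2 := by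
            calc (3 * wZ R i + 1) ^ 2 ≤ (4 * wZ R i) ^ 2 := Nat.pow_le_pow_left (by omega) 2
              _ = _ := by ring
          calc 2048 * wZ R i ^ 3 * wZ R i ^ 3 * (3 * wZ R i + 1) ^ 2
              ≤ 2048 * wZ R i ^ 3 * wZ R i ^ 3 * (16 * wZ R i ^ 2) := Nat.mul_le_mul_left _ e1
            _ = wb R i := by unfold wb; ring)
        (by omega)
      omega
    · push Not at hcop
      have hB : 0 < (Nat.log 2 M + 1) * wB R i := by
        unfold wB
        have : 0 < wZ R i := by have := wZ_ge R i; omega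
        positivity
      have h1 : M < (wc M R i + 1) * ((Nat.log 2 M + 1) * wB R i) := by
        have := Nat.lt_div_mul_add (a := M) hB
        calc M < M / ((Nat.log 2 M + 1) * wB R i) * ((Nat.log 2 M + 1) * wB R i) +
              (Nat.log 2 M + 1) * wB R i := this
          _ = _ := by unfold wc; ring
      calc M ≤ (wc M R i + 1) * ((Nat.log 2 M + 1) * wB R i) := h1.le
        _ ≤ 2 ^ C.nots * ((Nat.log 2 M + 1) * wB R i) := Nat.mul_le_mul_right _ hcop
        _ ≤ _ := by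
            apply Nat.mul_le_mul_left
            apply Nat.mul_le_mul_left
            unfold wB wZ
            have h2 : (R + 4) * (2 ^ i + 2) ≤ 3 * ((R + 4) * (w + 1)) := by
              calc (R + 4) * (2 ^ i + 2) ≤ (R + 4) * (3 * (w + 1)) :=
                    Nat.mul_le_mul_left _ (by omega)
                _ = _ := by ring
            generalize (R + 4) * (w + 1) = Y at h2 ⊢
            calc 2 ^ 65 * ((R + 4) * (2 ^ i + 2)) ^ 35
                ≤ 2 ^ 65 * (3 * Y) ^ 35 :=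
                  Nat.mul_le_mul_left _ (Nat.pow_le_pow_left h2 35)
              _ = 2 ^ 65 * 3 ^ 35 * Y ^ 35 := by rw [mul_pow, mul_assoc]
              _ ≤ 2 ^ 125 * Y ^ 35 := Nat.mul_le_mul_right _ (by norm_num)
  · push Not at hiL
    have h1 : 2 ^ (L + 1) ≤ 2 ^ i := Nat.pow_le_pow_right (by norm_num) hiL
    have h2 : M ≤ 2 * (w + 1) := by omega
    have h3 : w + 1 ≤ ((R + 4) * (w + 1)) ^ 35 := by
      calc w + 1 ≤ (R + 4) * (w + 1) := Nat.le_mul_of_pos_left _ (by omega)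
        _ ≤ _ := Nat.le_self_pow (by norm_num) _
    generalize ((R + 4) * (w + 1)) ^ 35 = Y at h3 ⊢
    calc M ≤ 2 * (w + 1) := h2
      _ ≤ 2 ^ 125 * Y := Nat.mul_le_mul (by norm_num) h3
      _ = 1 * (1 * (2 ^ 125 * Y)) := by rw [one_mul, one_mul]
      _ ≤ _ := Nat.mul_le_mul hpos (Nat.mul_le_mul_right _ (by omega))

end Pool.Agent.H540R2.Lift
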