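import Mathlib
import Pool.Agent.H540R2.Lift.WFinal

/-!
# The family with a bounded number of scales
-/

set_option autoImplicit false
set_option linter.unusedSectionVars false

namespace Pool.Agent.H540R2.Lift

open Finset

/-- number of copies -/
def gc (M R J i : ℕ) : ℕ := M / (J * wB R i)

/-- variables -/
abbrev GV (M R J : ℕ) := Σ i : Fin J,
  Fin (gc M R J i.1) × Var (R + 3) (3 * wZ R i.1) (wb R i.1 ^ 2)

/-- the function -/
def GF {M R J : ℕ} (e : GV M R J → Fin M) (x : Fin M → Bool) : Bool :=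
  decide (∃ (i : Fin J) (j : Fin (gc M R J i.1)),
    F (fun v => x (e ⟨i, j, v⟩)) = true)

lemma wB_pos (R i : ℕ) : 1 ≤ wB R i := by
  unfold wB
  have : 0 < wZ R i := by have := wZ_ge R i; omega
  exact Nat.mul_pos (by norm_num) (Nat.pow_pos this)

lemma exists_embedG (M R J : ℕ) (hJ : 0 < J) : ∃ e : GV M R J → Fin M, Function.Injective e := by
  have hcard : Fintype.card (Σ i : Fin J, Fin (gc M R J i.1) ×
      ((Fin (3 * wZ R i.1) × Fin (wb R i.1 ^ 2)) ⊕
      (Fin (R + 3) × Fin (3 * wZ R i.1) × Fin (3 * wZ R i.1) × Fin (wb R i.1 ^ 2) ×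
        Fin (wb R i.1 ^ 2)) ⊕ Fin (wb R i.1 ^ 2))) ≤ Fintype.card (Fin M) := by
    rw [Fintype.card_sigma, Fintype.card_fin]
    have h1 : ∀ i ∈ (Finset.univ : Finset (Fin J)),
        J * Fintype.card (Fin (gc M R J i.1) ×
      ((Fin (3 * wZ R i.1) × Fin (wb R i.1 ^ 2)) ⊕
      (Fin (R + 3) × Fin (3 * wZ R i.1) × Fin (3 * wZ R i.1) × Fin (wb R i.1 ^ 2) ×
        Fin (wb R i.1 ^ 2)) ⊕ Fin (wb R i.1 ^ 2))) ≤ M := by
      intro i _
      have h2 : Fintype.card (Fin (gc M R J i.1) ×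
          ((Fin (3 * wZ R i.1) × Fin (wb R i.1 ^ 2)) ⊕
          (Fin (R + 3) × Fin (3 * wZ R i.1) × Fin (3 * wZ R i.1) × Fin (wb R i.1 ^ 2) ×
            Fin (wb R i.1 ^ 2)) ⊕ Fin (wb R i.1 ^ 2))) =
          gc M R J i.1 * nv (R + 3) (3 * wZ R i.1) (wb R i.1 ^ 2) := by
        simp only [Fintype.card_prod, Fintype.card_sum, Fintype.card_fin]
        rfl
      rw [h2]
      calc J * (gc M R J i.1 * nv (R + 3) (3 * wZ R i.1) (wb R i.1 ^ 2))
          ≤ J * (gc M R J i.1 * wB R i.1) :=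
            Nat.mul_le_mul_left _ (Nat.mul_le_mul_left _ (wnv_le R i.1))
        _ = gc M R J i.1 * (J * wB R i.1) := by ring
        _ ≤ M := Nat.div_mul_le_self _ _
    have h3 := Finset.sum_le_sum h1
    rw [← Finset.mul_sum] at h3
    simp only [Finset.sum_const, Finset.card_univ, Fintype.card_fin, smul_eq_mul] at h3
    exact Nat.le_of_mul_le_mul_left h3 hJ
  obtain ⟨e⟩ := Function.Embedding.nonempty_of_card_le hcard
  refine ⟨fun v => e ⟨v.1, v.2.1, varEquiv _ _ _ v.2.2⟩, fun v w hvw => ?_⟩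
  have h1 := e.injective hvw
  obtain ⟨t, j, v⟩ := v
  obtain ⟨t', j', v'⟩ := w
  simp only [Sigma.mk.injEq] at h1
  obtain ⟨rfl, h2⟩ := h1
  simp only [heq_eq_eq, Prod.mk.injEq, EmbeddingLike.apply_eq_iff_eq] at h2
  obtain ⟨rfl, rfl⟩ := h2
  rfl

/-- the monotone circuit -/
lemma gupper {M R J T : ℕ} (hJ : 0 < J) (hT : ∀ i < J, wZ R i ≤ 2 ^ T) (e : GV M R J → Fin M) :
    ∃ C : Circuit M, C.Monotone ∧
      C.depth ≤ (R + 3) * (17 * T + 34) + 16 * T + 32 + (Nat.log 2 M + 1) ∧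
      C.size ≤ M * (((R + 3) * (17 * T + 34) + 16 * T + 32) * (2 * M) + 1) ∧
      ∀ x, C.eval x = GF e x := by
  obtain ⟨L, hL⟩ : ∃ L, L = Nat.log 2 M := ⟨_, rfl⟩
  have hML : M < 2 ^ (L + 1) := by rw [hL]; exact Nat.lt_pow_succ_log_self (by norm_num) M
  have hcard : Fintype.card (Σ i : Fin J, Fin (gc M R J i.1)) ≤ M := by
    rw [Fintype.card_sigma]
    have h1 : ∀ i ∈ (Finset.univ : Finset (Fin J)),
        J * Fintype.card (Fin (gc M R J i.1)) ≤ M := by
      intro i _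
      rw [Fintype.card_fin]
      calc J * gc M R J i.1 = gc M R J i.1 * (J * 1) := by ring
        _ ≤ gc M R J i.1 * (J * wB R i.1) :=
            Nat.mul_le_mul_left _ (Nat.mul_le_mul_left _ (wB_pos R i.1))
        _ ≤ M := Nat.div_mul_le_self _ _
    have h3 := Finset.sum_le_sum h1
    rw [← Finset.mul_sum] at h3
    simp only [Finset.sum_const, Finset.card_univ, Fintype.card_fin, smul_eq_mul] at h3
    exact Nat.le_of_mul_le_mul_left (by simpa using h3) hJ
  have hone : ∀ ij : (Σ i : Fin J, Fin (gc M R J i.1)),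
      ∃ C : Circuit M, C.Monotone ∧ C.depth ≤ (R + 3) * (17 * T + 34) + 16 * T + 32 ∧
        C.size ≤ ((R + 3) * (17 * T + 34) + 16 * T + 32) * (2 * M) ∧
        ∀ x, C.eval x = F (fun v => x (e ⟨ij.1, ij.2, v⟩)) := by
    rintro ⟨i, j⟩
    have hB : wB R i.1 ≤ M := by
      have h1 : 1 ≤ gc M R J i.1 := by have := j.2; omega
      calc wB R i.1 = 1 * (1 * wB R i.1) := by ring
        _ ≤ gc M R J i.1 * (J * wB R i.1) :=
            Nat.mul_le_mul h1 (Nat.mul_le_mul_right _ hJ)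
        _ ≤ M := Nat.div_mul_le_self _ _
    have hZ := wZ_ge R i.1
    have hZ1 : 0 < wZ R i.1 := by omega
    have e1 : 1 ≤ 3 * wZ R i.1 := by omega
    have e2 : 1 ≤ wb R i.1 ^ 2 := Nat.pos_of_ne_zero (NeZero.ne _)
    have hkm2 : 3 * wZ R i.1 * wb R i.1 ^ 2 + 3 * wZ R i.1 * (3 * wZ R i.1 * (wb R i.1 ^ 2 *
        wb R i.1 ^ 2)) ≤ 2 * M := by
      have h2 : 3 * wZ R i.1 * (3 * wZ R i.1 * (wb R i.1 ^ 2 * wb R i.1 ^ 2)) =
          (3 * wZ R i.1 * wb R i.1 ^ 2) ^ 2 := by ring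
      have h3 : (3 * wZ R i.1 * wb R i.1 ^ 2) ^ 2 ≤ wB R i.1 := by
        rw [wkm]
        unfold wB
        calc (3 * 2 ^ 30 * wZ R i.1 ^ 17) ^ 2 = 9 * 2 ^ 60 * wZ R i.1 ^ 34 := by ring
          _ ≤ 2 ^ 65 * wZ R i.1 ^ 35 := Nat.mul_le_mul (by norm_num)
              (Nat.pow_le_pow_right hZ1 (by norm_num))
      have h4 : 1 ≤ 3 * wZ R i.1 * wb R i.1 ^ 2 := Nat.mul_pos e1 e2
      have h5 : 3 * wZ R i.1 * wb R i.1 ^ 2 ≤ (3 * wZ R i.1 * wb R i.1 ^ 2) ^ 2 := by nlinarith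
      rw [h2]
      omega
    have hk2 : 3 * wZ R i.1 ≤ 2 ^ (T + 2) := by
      rw [pow_add]
      have := hT i.1 i.2
      omega
    have hm2 : wb R i.1 ^ 2 ≤ 2 ^ (30 + 16 * T) := by
      unfold wb
      calc (2 ^ 15 * wZ R i.1 ^ 8) ^ 2 = 2 ^ 30 * wZ R i.1 ^ 16 := by ring
        _ ≤ 2 ^ 30 * (2 ^ T) ^ 16 := Nat.mul_le_mul_left _ (Nat.pow_le_pow_left (hT i.1 i.2) _)
        _ = 2 ^ (30 + 16 * T) := by rw [← pow_mul, ← pow_add]; congr 1; ring
    obtain ⟨C, c1, c2, c3, c4⟩ := exists_nc (fun v => e ⟨i, j, v⟩) hm2 hk2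
      (show 0 < R + 3 by omega)
    have hlen : (R + 3) * (30 + 16 * T + (T + 2) + 2) + (30 + 16 * T) + 2 =
        (R + 3) * (17 * T + 34) + 16 * T + 32 := by
      ring
    rw [hlen] at c2 c3
    exact ⟨C, c1, c3, c2.trans (Nat.mul_le_mul_left _ hkm2), c4⟩
  obtain ⟨C, c1, c2, c3, c4⟩ := orFin (D := (R + 3) * (17 * T + 34) + 16 * T + 32)
    (s := ((R + 3) * (17 * T + 34) + 16 * T + 32) * (2 * M)) (t := L + 1)
    (fun (ij : (Σ i : Fin J, Fin (gc M R J i.1))) x =>
      F (fun v => x (e ⟨ij.1, ij.2, v⟩))) hone (by omega)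
  refine ⟨C, c1, ?_, ?_, fun x => ?_⟩
  · rw [← hL]; omega
  · exact c3.trans (Nat.mul_le_mul_right _ hcard)
  · rw [c4 x, GF, Bool.eq_iff_iff, decide_eq_true_iff, decide_eq_true_iff]
    constructor
    · rintro ⟨⟨i, j⟩, h⟩; exact ⟨i, j, h⟩
    · rintro ⟨i, j, h⟩; exact ⟨⟨i, j⟩, h⟩

/-- the lower bound -/
lemma glow {M R J : ℕ} (e : GV M R J → Fin M) (he : Function.Injective e) (C : Circuit M)
    (hC : ∀ x, C.eval x = GF e x) (hs : C.size ≤ 2 ^ R) {w : ℕ} (hw : C.Layered w)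
    (hiJ : Nat.clog 2 w < J) :
    M ≤ 2 ^ C.nots * (J * (2 ^ 125 * ((R + 4) * (w + 1)) ^ 35)) := by
  obtain ⟨d, lay, g1, g2, g3, g4⟩ := hw
  obtain ⟨i, hi⟩ : ∃ i, i = Nat.clog 2 w := ⟨_, rfl⟩
  have hwi : w ≤ 2 ^ i := by rw [hi]; exact Nat.le_pow_clog (by norm_num) w
  have hiw : 2 ^ i ≤ 2 * w + 1 := by
    rcases Nat.lt_or_ge 1 w with h | h
    · have h1 : 2 ^ (i - 1) < w := by rw [hi]; exact Nat.pow_pred_clog_lt_self (by norm_num) h
      have h2 : 1 ≤ i := by rw [hi]; exact Nat.clog_pos (by norm_num) h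
      have h3 : 2 ^ i = 2 * 2 ^ (i - 1) := by rw [← pow_succ']; congr 1; omega
      omega
    · have : i = 0 := by rw [hi]; exact Nat.clog_of_right_le_one h 2
      rw [this]; omega
  have hpos : 1 ≤ 2 ^ C.nots := Nat.one_le_two_pow
  have hi' : i < J := by rw [hi]; exact hiJ
  by_cases hcop : 2 ^ C.nots ≤ gc M R J i
  · exfalso
    obtain ⟨j, C', ν, a1, a2, a3, a4, a5⟩ := freeze_core C (m := gc M R J i)
      (fun (j : Fin (gc M R J i)) (v : Var (R + 3) (3 * wZ R i) (wb R i ^ 2)) =>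
        e ⟨⟨i, hi'⟩, j, v⟩)
      (fun j j' v v' h => by
        have := he h
        simp only [Sigma.mk.injEq, heq_eq_eq, Prod.mk.injEq, true_and] at this
        exact this) F F_false
      (fun x hx => by
        rw [hC, GF, Bool.eq_iff_iff, decide_eq_true_iff, decide_eq_true_iff]
        constructor
        · rintro ⟨t', j', h⟩
          by_cases htt : t' = ⟨i, hi'⟩
          · subst htt
            exact ⟨j', h⟩
          · exfalso
            have hz : (fun v => x (e ⟨t', j', v⟩)) = fun _ => false := by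
              funext v
              apply hx
              intro j'' v'' hv
              have := congrArg Sigma.fst (he hv)
              exact htt this.symm
            rw [hz, F_false] at h
            exact absurd h (by decide)
        · rintro ⟨j', h⟩
          exact ⟨⟨i, hi'⟩, j', h⟩)
      hcop
    have hZ := wZ_ge R i
    have hRZ : 2 * (R + 4) ≤ wZ R i := by
      unfold wZ
      rw [mul_comm]
      have : 1 ≤ 2 ^ i := Nat.one_le_two_pow
      exact Nat.mul_le_mul_left _ (by omega)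
    have hwZ : R + 1 + 1 + R * (2 ^ i + 1) ≤ wZ R i := by
      unfold wZ
      have : (R + 4) * (2 ^ i + 2) = R * (2 ^ i + 1) + R + 4 * 2 ^ i + 8 := by ring
      omega
    have hRw : R * (2 ^ i + 1) ≤ wZ R i := by omega
    have h := wlower (M := M) (n := R + 3) (k := 3 * wZ R i) (b := wb R i) (Q := wZ R i)
      (s := wZ R i) (w := 2 ^ i) (v := R + 1) (R := R) (rm := wZ R i ^ 3)
      (m' := C.size + 1) (by omega) (fun v => e ⟨⟨i, hi'⟩, j, v⟩) (fun v v' h => by
        have := he h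
        simp only [Sigma.mk.injEq, heq_eq_eq, Prod.mk.injEq, true_and] at this
        exact this) C' a1 (lay := lay) (by rw [a2]; exact fun l hl => (g1 l hl).1)
      (by
        rw [a2]
        intro l hl j' hj'
        exact g2 l hl j' (a3 l hl j' hj'))
      (by rw [a2]; exact fun l => (g4 l).trans hwi) ν a4 a5
      (by
        have h1 : 2 ^ (R + 1) = 2 * 2 ^ R := by rw [pow_succ]; ring
        have h2 : 1 ≤ 2 ^ R := Nat.one_le_two_pow
        omega) (by rw [a2]; exact hs) (by omega) hwZ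
      (by
        have h1 : 3 * wZ R i + 1 ≤ 2 ^ wZ R i := by
          have : ∀ Z, 4 ≤ Z → 3 * Z + 1 ≤ 2 ^ Z := by
            intro Z hZ
            induction Z, hZ using Nat.le_induction with
            | base => norm_num
            | succ Z _ ih => rw [pow_succ]; omega
          exact this _ (by omega)
        exact h1)
      (by
        obtain ⟨Z, hZe⟩ : ∃ Z, Z = wZ R i := ⟨_, rfl⟩
        rw [← hZe] at hZ hRZ hRw ⊢
        have e1 : R * (2 ^ i + 1 + Z * Z) = R * (2 ^ i + 1) + R * (Z * Z) := by ring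
        rw [e1]
        have e2 : 2 * (R * (Z * Z)) ≤ Z ^ 3 := by
          calc 2 * (R * (Z * Z)) = (2 * R) * (Z * Z) := by ring
            _ ≤ Z * (Z * Z) := Nat.mul_le_mul_right _ (by omega)
            _ = _ := by ring
        have e3 : 12 * (Z * Z) ≤ Z ^ 3 := by
          calc 12 * (Z * Z) ≤ Z * (Z * Z) := Nat.mul_le_mul_right _ hZ
            _ = _ := by ring
        have e4 : 12 * Z ≤ Z * Z := Nat.mul_le_mul_right _ hZ
        omega)
      (by
        have e1 : (3 * wZ R i + 1) ^ 2 ≤ 16 * wZ R i ^ 2 := by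
          calc (3 * wZ R i + 1) ^ 2 ≤ (4 * wZ R i) ^ 2 := Nat.pow_le_pow_left (by omega) 2
            _ = _ := by ring
        calc 2048 * wZ R i ^ 3 * wZ R i ^ 3 * (3 * wZ R i + 1) ^ 2
            ≤ 2048 * wZ R i ^ 3 * wZ R i ^ 3 * (16 * wZ R i ^ 2) := Nat.mul_le_mul_left _ e1
          _ = wb R i := by unfold wb; ring)
      (by omega)
    omega
  · push Not at hcop
    have hB : 0 < J * wB R i := Nat.mul_pos (by omega) (wB_pos R i)
    have h1 : M < (gc M R J i + 1) * (J * wB R i) := by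
      have := Nat.lt_div_mul_add (a := M) hB
      calc M < M / (J * wB R i) * (J * wB R i) + (J * wB R i) := this
        _ = _ := by unfold gc; ring
    calc M ≤ (gc M R J i + 1) * (J * wB R i) := h1.le
      _ ≤ 2 ^ C.nots * (J * wB R i) := Nat.mul_le_mul_right _ hcop
      _ ≤ _ := by
          apply Nat.mul_le_mul_left
          apply Nat.mul_le_mul_left
          unfold wB wZ
          have h2 : (R + 4) * (2 ^ i + 2) ≤ 3 * ((R + 4) * (w + 1)) := by
            calc (R + 4) * (2 ^ i + 2) ≤ (R + 4) * (3 * (w + 1)) :=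
                  Nat.mul_le_mul_left _ (by omega)
              _ = _ := by ring
          generalize (R + 4) * (w + 1) = Y at h2 ⊢
          calc 2 ^ 65 * ((R + 4) * (2 ^ i + 2)) ^ 35
              ≤ 2 ^ 65 * (3 * Y) ^ 35 :=
                Nat.mul_le_mul_left _ (Nat.pow_le_pow_left h2 35)
            _ = 2 ^ 65 * 3 ^ 35 * Y ^ 35 := by rw [mul_pow, mul_assoc]
            _ ≤ 2 ^ 125 * Y ^ 35 := Nat.mul_le_mul_right _ (by norm_num)

end Pool.Agent.H540R2.Lift
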