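import Mathlib
import Pool.Agent.H540R2.Lift.WFinal

/-!
# Monotone NC against narrow circuits with few NOT gates: the theorem
-/

set_option autoImplicit false

namespace Pool.Agent.H540R2.Lift

lemma wmain_size (A M : ℕ) :
    M * ((((Nat.log 2 M) ^ A + 3) * (2 * Nat.log 2 M + 4) + Nat.log 2 M + 3) * (2 * M) + 1) ≤
      M ^ (A + 40) + (A + 40) := by
  obtain ⟨L, hL⟩ : ∃ L, L = Nat.log 2 M := ⟨_, rfl⟩
  rw [← hL]
  rcases Nat.lt_or_ge M 2 with h | h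
  · have hL0 : L = 0 := by rw [hL]; exact Nat.log_of_lt h
    have hA : L ^ A ≤ 1 := by
      rw [hL0]
      rcases Nat.eq_zero_or_pos A with h' | h'
      · rw [h']; norm_num
      · rw [Nat.zero_pow h']; norm_num
    obtain ⟨R, hR⟩ : ∃ R, R = L ^ A := ⟨_, rfl⟩
    rw [← hR] at hA ⊢
    rw [hL0]
    obtain ⟨Z, hZ⟩ : ∃ Z, Z = M ^ (A + 40) := ⟨_, rfl⟩
    rw [← hZ]
    have hMM : M = 0 ∨ M = 1 := by omega
    clear hR hZ hL
    rcases hMM with rfl | rfl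
    · omega
    · omega
  · have hLM : L ≤ M := by rw [hL]; exact Nat.log_le_self 2 M
    have hL1 : 1 ≤ L := by rw [hL]; exact Nat.log_pos (by norm_num) h
    have h1 : 1 ≤ L ^ A := Nat.one_le_pow _ _ hL1
    have h2 : L ^ A + 3 ≤ 4 * L ^ A := by omega
    have h3 : ((L ^ A + 3) * (2 * L + 4) + L + 3) ≤ 28 * M ^ (A + 1) := by
      calc (L ^ A + 3) * (2 * L + 4) + L + 3 ≤ 4 * L ^ A * (6 * L) + 4 * (1 * L) := by
            have := Nat.mul_le_mul h2 (show 2 * L + 4 ≤ 6 * L by omega)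
            omega
        _ ≤ 4 * L ^ A * (6 * L) + 4 * (L ^ A * L) :=
            Nat.add_le_add_left (Nat.mul_le_mul_left _ (Nat.mul_le_mul_right _ h1)) _
        _ = 28 * L ^ (A + 1) := by rw [pow_succ]; ring
        _ ≤ 28 * M ^ (A + 1) := Nat.mul_le_mul_left _ (Nat.pow_le_pow_left hLM _)
    have h4 : 1 ≤ M ^ (A + 2) := Nat.one_le_pow _ _ (by omega)
    calc M * ((((L ^ A + 3) * (2 * L + 4) + L + 3) * (2 * M) + 1))
        ≤ M * (28 * M ^ (A + 1) * (2 * M) + 1) :=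
          Nat.mul_le_mul_left _ (Nat.add_le_add_right (Nat.mul_le_mul_right _ h3) _)
      _ = M * (56 * M ^ (A + 2) + 1) := by rw [pow_succ M (A + 1)]; ring
      _ ≤ M * (57 * M ^ (A + 2)) := Nat.mul_le_mul_left _ (by omega)
      _ = 57 * M ^ (A + 3) := by rw [pow_succ M (A + 2)]; ring
      _ ≤ 2 ^ 6 * M ^ (A + 3) := Nat.mul_le_mul_right _ (by norm_num)
      _ ≤ M ^ 6 * M ^ (A + 3) := Nat.mul_le_mul_right _ (Nat.pow_le_pow_left h _)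
      _ = M ^ (A + 9) := by rw [← pow_add]; congr 1; ring
      _ ≤ M ^ (A + 40) := Nat.pow_le_pow_right (by omega) (by omega)
      _ ≤ _ := Nat.le_add_right _ _

lemma wmain_depth (A M : ℕ) :
    ((Nat.log 2 M) ^ A + 3) * (2 * Nat.log 2 M + 4) + 2 * Nat.log 2 M + 4 ≤
      (Nat.log 2 M) ^ (A + 40) + (A + 40) := by
  obtain ⟨L, hL⟩ : ∃ L, L = Nat.log 2 M := ⟨_, rfl⟩
  rw [← hL]
  clear hL
  rcases Nat.lt_or_ge L 2 with h | h
  · have hA : L ^ A ≤ 1 := by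
      have := Nat.pow_le_pow_left (show L ≤ 1 by omega) A
      rwa [one_pow] at this
    obtain ⟨R, hR⟩ : ∃ R, R = L ^ A := ⟨_, rfl⟩
    rw [← hR] at hA ⊢
    obtain ⟨Z, hZ⟩ : ∃ Z, Z = L ^ (A + 40) := ⟨_, rfl⟩
    rw [← hZ]
    have hLL : L = 0 ∨ L = 1 := by omega
    clear hR hZ
    rcases hLL with rfl | rfl
    · omega
    · omega
  · have h1 : 1 ≤ L ^ A := Nat.one_le_pow _ _ (by omega)
    have h2 : L ^ A + 3 ≤ 4 * L ^ A := by omega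
    calc (L ^ A + 3) * (2 * L + 4) + 2 * L + 4 ≤ 4 * L ^ A * (4 * L) + 4 * (1 * L) := by
          have := Nat.mul_le_mul h2 (show 2 * L + 4 ≤ 4 * L by omega)
          omega
      _ ≤ 4 * L ^ A * (4 * L) + 4 * (L ^ A * L) :=
          Nat.add_le_add_left (Nat.mul_le_mul_left _ (Nat.mul_le_mul_right _ h1)) _
      _ = 20 * L ^ (A + 1) := by rw [pow_succ]; ring
      _ ≤ 2 ^ 5 * L ^ (A + 1) := Nat.mul_le_mul_right _ (by norm_num)
      _ ≤ L ^ 5 * L ^ (A + 1) := Nat.mul_le_mul_right _ (Nat.pow_le_pow_left h _)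
      _ = L ^ (A + 6) := by rw [← pow_add]; congr 1; ring
      _ ≤ L ^ (A + 40) := Nat.pow_le_pow_right (by omega) (by omega)
      _ ≤ _ := Nat.le_add_right _ _

lemma wmain_low (A L w : ℕ) (hL : 2 ≤ L) (hw : 1 ≤ w) :
    (L + 1) * (2 ^ 125 * ((L ^ A + 4) * (w + 1)) ^ 35) ≤ (w * L) ^ (35 * A + 301) := by
  have h1 : 1 ≤ L ^ A := Nat.one_le_pow _ _ (by omega)
  have h2 : (L ^ A + 4) * (w + 1) ≤ 16 * (w * L ^ A) := by
    calc (L ^ A + 4) * (w + 1) ≤ 5 * L ^ A * (2 * w) := Nat.mul_le_mul (by omega) (by omega)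
      _ = 10 * (w * L ^ A) := by ring
      _ ≤ _ := Nat.mul_le_mul_right _ (by norm_num)
  have hwL : 2 ≤ w * L := by
    calc 2 = 1 * 2 := rfl
      _ ≤ w * L := Nat.mul_le_mul hw hL
  have h5 : ((L ^ A + 4) * (w + 1)) ^ 35 ≤ 2 ^ 140 * (w * L ^ A) ^ 35 := by
    calc ((L ^ A + 4) * (w + 1)) ^ 35 ≤ (16 * (w * L ^ A)) ^ 35 := Nat.pow_le_pow_left h2 _
      _ = 16 ^ 35 * (w * L ^ A) ^ 35 := mul_pow _ _ _
      _ = 2 ^ 140 * (w * L ^ A) ^ 35 := by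
        congr 1
  have h6 : (w * L ^ A) ^ 35 ≤ w ^ (35 * A + 35) * L ^ (35 * A) := by
    rw [mul_pow, ← pow_mul, mul_comm A 35]
    exact Nat.mul_le_mul_right _ (Nat.pow_le_pow_right hw (by omega))
  have h7 : (L + 1) ≤ 2 * L := by omega
  obtain ⟨X, hX⟩ : ∃ X, X = (w * L ^ A) ^ 35 := ⟨_, rfl⟩
  rw [← hX] at h5 h6
  obtain ⟨Y, hY⟩ : ∃ Y, Y = ((L ^ A + 4) * (w + 1)) ^ 35 := ⟨_, rfl⟩
  rw [← hY] at h5 ⊢
  have h8 : w ^ (35 * A + 35) * L ^ (35 * A) * L ≤ (w * L) ^ (35 * A + 35) := by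
    rw [mul_pow, mul_assoc, ← pow_succ]
    exact Nat.mul_le_mul_left _ (Nat.pow_le_pow_right (by omega) (by omega))
  have e266 : 2 * 2 ^ 125 * 2 ^ 140 ≤ 2 ^ 133 * 2 ^ 133 := by norm_num
  have e267 : 2 ^ 133 * 2 ^ 133 ≤ (w * L) ^ 133 * (w * L) ^ 133 :=
    Nat.mul_le_mul (Nat.pow_le_pow_left hwL _) (Nat.pow_le_pow_left hwL _)
  calc (L + 1) * (2 ^ 125 * Y) ≤ (2 * L) * (2 ^ 125 * (2 ^ 140 * X)) :=
        Nat.mul_le_mul h7 (Nat.mul_le_mul_left _ h5)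
    _ = (2 * 2 ^ 125 * 2 ^ 140) * (X * L) := by ac_rfl
    _ ≤ (2 ^ 133 * 2 ^ 133) * (X * L) := Nat.mul_le_mul_right _ e266
    _ ≤ ((w * L) ^ 133 * (w * L) ^ 133) * (w ^ (35 * A + 35) * L ^ (35 * A) * L) :=
        Nat.mul_le_mul e267 (Nat.mul_le_mul_right _ h6)
    _ ≤ ((w * L) ^ 133 * (w * L) ^ 133) * (w * L) ^ (35 * A + 35) :=
        Nat.mul_le_mul_left _ h8
    _ = (w * L) ^ (133 + 133 + (35 * A + 35)) := by rw [← pow_add, ← pow_add]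
    _ ≤ (w * L) ^ (35 * A + 301) := Nat.pow_le_pow_right (by omega) (by omega)

/-- a layered circuit has a gate -/
lemma layered_pos {n : ℕ} {C : Circuit n} {w : ℕ} (h : C.Layered w) : 1 ≤ w := by
  obtain ⟨d, lay, _, _, ⟨o, ho, _, _⟩, g4⟩ := h
  refine le_trans (Finset.card_pos.mpr ⟨o, ?_⟩) (g4 (lay o))
  rw [Finset.mem_filter, Finset.mem_range]
  exact ⟨ho, rfl⟩

/-- **Monotone NC against narrow circuits with few NOT gates.** -/
theorem monoNC_neg (A : ℕ) : ∃ f : (n : ℕ) → (Fin n → Bool) → Bool, MonoNC f ∧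
    ∃ c n₀ : ℕ, ∀ n ≥ n₀, ∀ (C : Circuit n) (w : ℕ), (∀ x, C.eval x = f n x) →
      C.size ≤ 2 ^ (Nat.log 2 n) ^ A → C.Layered w →
      n ≤ (w * Nat.log 2 n) ^ c * 2 ^ C.nots := by
  have hex : ∀ n : ℕ, ∃ f : (Fin n → Bool) → Bool,
      ∃ e : WV n ((Nat.log 2 n) ^ A) → Fin n, Function.Injective e ∧ f = WF e := by
    intro n
    obtain ⟨e, he⟩ := exists_embedW n ((Nat.log 2 n) ^ A)
    exact ⟨_, e, he, rfl⟩
  choose f e he hf using hex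
  refine ⟨f, ⟨A + 40, fun n => ?_⟩, 35 * A + 301, 4, fun n hn C w hC hs hw => ?_⟩
  · obtain ⟨C, c1, c2, c3, c4⟩ := wupper (e n)
    refine ⟨C, c1, fun x => by rw [c4 x, hf n], c3.trans (wmain_size A n),
      c2.trans (wmain_depth A n)⟩
  · have hL : 2 ≤ Nat.log 2 n := Nat.le_log_of_pow_le (by norm_num) (by omega)
    have h1 := wlow (e n) (he n) C (fun x => by rw [hC x, hf n]) hs hw
    have h2 := wmain_low A (Nat.log 2 n) w hL (layered_pos hw)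
    calc n ≤ _ := h1
      _ ≤ 2 ^ C.nots * (w * Nat.log 2 n) ^ (35 * A + 301) := Nat.mul_le_mul_left _ h2
      _ = _ := mul_comm _ _

end Pool.Agent.H540R2.Lift
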