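import Mathlib
import Pool.Agent.H540R2.Lift.GFinal
import Pool.Agent.H540R2.Lift.WMain

/-!
# A function with polynomial-size monotone circuits against all narrow circuits
-/

set_option autoImplicit false
set_option linter.unusedSectionVars false
set_option exponentiation.threshold 5000

namespace Pool.Agent.H540R2.Lift

open Finset

/-- block size at scale `i` -/
def hB (i : ℕ) : ℕ := wB (2 ^ i) i

/-- number of copies -/
def hc (M i : ℕ) : ℕ := M / ((Nat.log 2 M + 1) * hB i)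

/-- variables -/
abbrev HV (M : ℕ) := Σ i : Fin (Nat.log 2 M + 1),
  Fin (hc M i.1) × Var (2 ^ i.1 + 3) (3 * wZ (2 ^ i.1) i.1) (wb (2 ^ i.1) i.1 ^ 2)

/-- the function -/
def HF {M : ℕ} (e : HV M → Fin M) (x : Fin M → Bool) : Bool :=
  decide (∃ (i : Fin (Nat.log 2 M + 1)) (j : Fin (hc M i.1)),
    F (fun v => x (e ⟨i, j, v⟩)) = true)

lemma hB_pos (i : ℕ) : 1 ≤ hB i := wB_pos _ _

lemma exists_embedH (M : ℕ) : ∃ e : HV M → Fin M, Function.Injective e := by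
  have hcard : Fintype.card (Σ i : Fin (Nat.log 2 M + 1), Fin (hc M i.1) ×
      ((Fin (3 * wZ (2 ^ i.1) i.1) × Fin (wb (2 ^ i.1) i.1 ^ 2)) ⊕
      (Fin (2 ^ i.1 + 3) × Fin (3 * wZ (2 ^ i.1) i.1) × Fin (3 * wZ (2 ^ i.1) i.1) ×
        Fin (wb (2 ^ i.1) i.1 ^ 2) × Fin (wb (2 ^ i.1) i.1 ^ 2)) ⊕
        Fin (wb (2 ^ i.1) i.1 ^ 2))) ≤ Fintype.card (Fin M) := by
    rw [Fintype.card_sigma, Fintype.card_fin]
    have h1 : ∀ i ∈ (Finset.univ : Finset (Fin (Nat.log 2 M + 1))),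
        (Nat.log 2 M + 1) * Fintype.card (Fin (hc M i.1) ×
      ((Fin (3 * wZ (2 ^ i.1) i.1) × Fin (wb (2 ^ i.1) i.1 ^ 2)) ⊕
      (Fin (2 ^ i.1 + 3) × Fin (3 * wZ (2 ^ i.1) i.1) × Fin (3 * wZ (2 ^ i.1) i.1) ×
        Fin (wb (2 ^ i.1) i.1 ^ 2) × Fin (wb (2 ^ i.1) i.1 ^ 2)) ⊕
        Fin (wb (2 ^ i.1) i.1 ^ 2))) ≤ M := by
      intro i _
      have h2 : Fintype.card (Fin (hc M i.1) ×
          ((Fin (3 * wZ (2 ^ i.1) i.1) × Fin (wb (2 ^ i.1) i.1 ^ 2)) ⊕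
          (Fin (2 ^ i.1 + 3) × Fin (3 * wZ (2 ^ i.1) i.1) × Fin (3 * wZ (2 ^ i.1) i.1) ×
            Fin (wb (2 ^ i.1) i.1 ^ 2) × Fin (wb (2 ^ i.1) i.1 ^ 2)) ⊕
            Fin (wb (2 ^ i.1) i.1 ^ 2))) =
          hc M i.1 * nv (2 ^ i.1 + 3) (3 * wZ (2 ^ i.1) i.1) (wb (2 ^ i.1) i.1 ^ 2) := by
        simp only [Fintype.card_prod, Fintype.card_sum, Fintype.card_fin]
        rfl
      rw [h2]
      calc (Nat.log 2 M + 1) *
          (hc M i.1 * nv (2 ^ i.1 + 3) (3 * wZ (2 ^ i.1) i.1) (wb (2 ^ i.1) i.1 ^ 2))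
          ≤ (Nat.log 2 M + 1) * (hc M i.1 * hB i.1) :=
            Nat.mul_le_mul_left _ (Nat.mul_le_mul_left _ (wnv_le (2 ^ i.1) i.1))
        _ = hc M i.1 * ((Nat.log 2 M + 1) * hB i.1) := by ring
        _ ≤ M := Nat.div_mul_le_self _ _
    have h3 := Finset.sum_le_sum h1
    rw [← Finset.mul_sum] at h3
    simp only [Finset.sum_const, Finset.card_univ, Fintype.card_fin, smul_eq_mul] at h3
    exact Nat.le_of_mul_le_mul_left h3 (Nat.succ_pos _)
  obtain ⟨e⟩ := Function.Embedding.nonempty_of_card_le hcard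
  refine ⟨fun v => e ⟨v.1, v.2.1, varEquiv _ _ _ v.2.2⟩, fun v w hvw => ?_⟩
  have h1 := e.injective hvw
  obtain ⟨t, j, v⟩ := v
  obtain ⟨t', j', v'⟩ := w
  simp only [Sigma.mk.injEq] at h1
  obtain ⟨rfl, h2⟩ := h1
  simp only [heq_eq_eq, Prod.mk.injEq, EmbeddingLike.apply_eq_iff_eq] at h2
  obtain ⟨rfl, rfl⟩ := h2
  rfl

/-- the monotone circuit of polynomial size -/
lemma hupper {M : ℕ} (e : HV M → Fin M) :
    ∃ C : Circuit M, C.Monotone ∧ C.size ≤ M * ((200 * (M + 1) ^ 2) * (2 * M) + 1) ∧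
      ∀ x, C.eval x = HF e x := by
  obtain ⟨L, hL⟩ : ∃ L, L = Nat.log 2 M := ⟨_, rfl⟩
  have hML : M < 2 ^ (L + 1) := by rw [hL]; exact Nat.lt_pow_succ_log_self (by norm_num) M
  have hcard : Fintype.card (Σ i : Fin (Nat.log 2 M + 1), Fin (hc M i.1)) ≤ M := by
    rw [Fintype.card_sigma]
    have h1 : ∀ i ∈ (Finset.univ : Finset (Fin (Nat.log 2 M + 1))),
        (Nat.log 2 M + 1) * Fintype.card (Fin (hc M i.1)) ≤ M := by
      intro i _
      rw [Fintype.card_fin]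
      calc (Nat.log 2 M + 1) * hc M i.1 = hc M i.1 * ((Nat.log 2 M + 1) * 1) := by ring
        _ ≤ hc M i.1 * ((Nat.log 2 M + 1) * hB i.1) :=
            Nat.mul_le_mul_left _ (Nat.mul_le_mul_left _ (hB_pos i.1))
        _ ≤ M := Nat.div_mul_le_self _ _
    have h3 := Finset.sum_le_sum h1
    rw [← Finset.mul_sum] at h3
    exact Nat.le_of_mul_le_mul_left (by simpa using h3) (Nat.succ_pos (Nat.log 2 M))
  have hone : ∀ ij : (Σ i : Fin (Nat.log 2 M + 1), Fin (hc M i.1)),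
      ∃ C : Circuit M, C.Monotone ∧ C.depth ≤ 200 * (M + 1) ^ 2 ∧
        C.size ≤ (200 * (M + 1) ^ 2) * (2 * M) ∧
        ∀ x, C.eval x = F (fun v => x (e ⟨ij.1, ij.2, v⟩)) := by
    rintro ⟨i, j⟩
    have hB : hB i.1 ≤ M := by
      have h1 : 1 ≤ hc M i.1 := by have := j.2; omega
      calc hB i.1 = 1 * (1 * hB i.1) := by ring
        _ ≤ hc M i.1 * ((Nat.log 2 M + 1) * hB i.1) :=
            Nat.mul_le_mul h1 (Nat.mul_le_mul_right _ (Nat.succ_pos _))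
        _ ≤ M := Nat.div_mul_le_self _ _
    obtain ⟨R, hR⟩ : ∃ R, R = 2 ^ i.1 := ⟨_, rfl⟩
    unfold Lift.hB at hB
    rw [← hR] at hB
    have hZ := wZ_ge R i.1
    have hRZ := wR_le R i.1
    have hZ1 : 0 < wZ R i.1 := by omega
    have hZM : wZ R i.1 ≤ M := by
      refine le_trans ?_ hB
      unfold wB
      calc wZ R i.1 = 1 * wZ R i.1 ^ 1 := by ring
        _ ≤ 2 ^ 65 * wZ R i.1 ^ 35 := Nat.mul_le_mul (by norm_num)
            (Nat.pow_le_pow_right hZ1 (by norm_num))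
    have e1 : 1 ≤ 3 * wZ R i.1 := by omega
    have e2 : 1 ≤ wb R i.1 ^ 2 := Nat.pos_of_ne_zero (NeZero.ne _)
    have hkm2 : 3 * wZ R i.1 * wb R i.1 ^ 2 + 3 * wZ R i.1 * (3 * wZ R i.1 * (wb R i.1 ^ 2 *
        wb R i.1 ^ 2)) ≤ 2 * M := by
      have h2 : 3 * wZ R i.1 * (3 * wZ R i.1 * (wb R i.1 ^ 2 * wb R i.1 ^ 2)) =
          (3 * wZ R i.1 * wb R i.1 ^ 2) ^ 2 := by ring
      have h3 : (3 * wZ R i.1 * wb R i.1 ^ 2) ^ 2 ≤ wB R i.1 := by
        rw [wkm]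
        unfold wB
        calc (3 * 2 ^ 30 * wZ R i.1 ^ 17) ^ 2 = 9 * 2 ^ 60 * wZ R i.1 ^ 34 := by ring
          _ ≤ 2 ^ 65 * wZ R i.1 ^ 35 := Nat.mul_le_mul (by norm_num)
              (Nat.pow_le_pow_right hZ1 (by norm_num))
      have h4 : 1 ≤ 3 * wZ R i.1 * wb R i.1 ^ 2 := Nat.mul_pos e1 e2
      have h5 : 3 * wZ R i.1 * wb R i.1 ^ 2 ≤ (3 * wZ R i.1 * wb R i.1 ^ 2) ^ 2 := by nlinarith
      rw [h2]
      omega
    have hZT : wZ R i.1 ≤ 2 ^ (L + 1) := hZM.trans hML.le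
    have hk2 : 3 * wZ R i.1 ≤ 2 ^ (L + 1 + 2) := by
      rw [pow_add]
      omega
    have hm2 : wb R i.1 ^ 2 ≤ 2 ^ (30 + 16 * (L + 1)) := by
      unfold wb
      calc (2 ^ 15 * wZ R i.1 ^ 8) ^ 2 = 2 ^ 30 * wZ R i.1 ^ 16 := by ring
        _ ≤ 2 ^ 30 * (2 ^ (L + 1)) ^ 16 := Nat.mul_le_mul_left _ (Nat.pow_le_pow_left hZT _)
        _ = 2 ^ (30 + 16 * (L + 1)) := by rw [← pow_mul, ← pow_add]; congr 1; ring
    subst hR
    obtain ⟨C, c1, c2, c3, c4⟩ := exists_nc (fun v => e ⟨i, j, v⟩) hm2 hk2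
      (Nat.succ_pos _ : 0 < 2 ^ i.1 + 3)
    have hLM : L + 1 ≤ M + 1 := by
      rw [hL]
      exact Nat.add_le_add_right (Nat.log_le_self 2 M) 1
    have hlen : (2 ^ i.1 + 3) * (30 + 16 * (L + 1) + (L + 1 + 2) + 2) + (30 + 16 * (L + 1)) + 2 ≤
        200 * (M + 1) ^ 2 := by
      have f1 : 2 ^ i.1 + 3 ≤ M + 1 := by omega
      have f2 : 30 + 16 * (L + 1) + (L + 1 + 2) + 2 ≤ 51 * (M + 1) := by omega
      calc (2 ^ i.1 + 3) * (30 + 16 * (L + 1) + (L + 1 + 2) + 2) + (30 + 16 * (L + 1)) + 2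
          ≤ (M + 1) * (51 * (M + 1)) + (30 + 16 * (L + 1)) + 2 := by
            have := Nat.mul_le_mul f1 f2
            omega
        _ ≤ (M + 1) * (51 * (M + 1)) + 48 * (M + 1) := by omega
        _ ≤ 200 * (M + 1) ^ 2 := by nlinarith
    refine ⟨C, c1, c3.trans hlen, c2.trans ?_, c4⟩
    exact Nat.mul_le_mul hlen hkm2
  obtain ⟨C, c1, c2, c3, c4⟩ := orFin (D := 200 * (M + 1) ^ 2)
    (s := (200 * (M + 1) ^ 2) * (2 * M)) (t := L + 1)
    (fun (ij : (Σ i : Fin (Nat.log 2 M + 1), Fin (hc M i.1))) x =>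
      F (fun v => x (e ⟨ij.1, ij.2, v⟩))) hone (by omega)
  refine ⟨C, c1, ?_, fun x => ?_⟩
  · exact c3.trans (Nat.mul_le_mul_right _ hcard)
  · rw [c4 x, HF, Bool.eq_iff_iff, decide_eq_true_iff, decide_eq_true_iff]
    constructor
    · rintro ⟨⟨i, j⟩, h⟩; exact ⟨i, j, h⟩
    · rintro ⟨i, j, h⟩; exact ⟨⟨i, j⟩, h⟩

/-- the lower bound at scale `i` -/
lemma hlow1 {M : ℕ} (e : HV M → Fin M) (he : Function.Injective e) (C : Circuit M)
    (hC : ∀ x, C.eval x = HF e x) {w i : ℕ} (hw : C.Layered w) (hwi : w ≤ 2 ^ i)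
    (hi' : i < Nat.log 2 M + 1) (hs : C.size ≤ 2 ^ 2 ^ i) : hc M i < 2 ^ C.nots := by
  obtain ⟨d, lay, g1, g2, g3, g4⟩ := hw
  by_contra hcop
  push Not at hcop
  obtain ⟨R, hR⟩ : ∃ R, R = 2 ^ i := ⟨_, rfl⟩
  obtain ⟨j, C', ν, a1, a2, a3, a4, a5⟩ := freeze_core C (m := hc M i)
    (fun (j : Fin (hc M i)) (v : Var (2 ^ i + 3) (3 * wZ (2 ^ i) i) (wb (2 ^ i) i ^ 2)) =>
      e ⟨⟨i, hi'⟩, j, v⟩)
    (fun j j' v v' h => by
      have := he h
      simp only [Sigma.mk.injEq, heq_eq_eq, Prod.mk.injEq, true_and] at this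
      exact this) F F_false
    (fun x hx => by
      rw [hC, HF, Bool.eq_iff_iff, decide_eq_true_iff, decide_eq_true_iff]
      constructor
      · rintro ⟨t', j', h⟩
        by_cases htt : t' = ⟨i, hi'⟩
        · subst htt
          exact ⟨j', h⟩
        · exfalso
          have hz : (fun v => x (e ⟨t', j', v⟩)) = fun _ => false := by
            funext v
            apply hx
            intro j'' v'' hv
            have := congrArg Sigma.fst (he hv)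
            exact htt this.symm
          rw [hz, F_false] at h
          exact absurd h (by decide)
      · rintro ⟨j', h⟩
        exact ⟨⟨i, hi'⟩, j', h⟩)
    hcop
  have hZ := wZ_ge R i
  have hRZ : 2 * (R + 4) ≤ wZ R i := by
    unfold wZ
    rw [mul_comm]
    have : 1 ≤ 2 ^ i := Nat.one_le_two_pow
    exact Nat.mul_le_mul_left _ (by omega)
  have hwZ : R + 1 + 1 + R * (2 ^ i + 1) ≤ wZ R i := by
    unfold wZ
    have : (R + 4) * (2 ^ i + 2) = R * (2 ^ i + 1) + R + 4 * 2 ^ i + 8 := by ring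
    omega
  have hRw : R * (2 ^ i + 1) ≤ wZ R i := by omega
  rw [← hR] at hs
  have h := wlower (M := M) (n := 2 ^ i + 3) (k := 3 * wZ (2 ^ i) i) (b := wb (2 ^ i) i)
    (Q := wZ R i)
    (s := wZ R i) (w := 2 ^ i) (v := R + 1) (R := R) (rm := wZ R i ^ 3)
    (m' := C.size + 1) (by omega) (fun v => e ⟨⟨i, hi'⟩, j, v⟩) (fun v v' h => by
      have := he h
      simp only [Sigma.mk.injEq, heq_eq_eq, Prod.mk.injEq, true_and] at this
      exact this) C' a1 (lay := lay) (by rw [a2]; exact fun l hl => (g1 l hl).1)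
    (by
      rw [a2]
      intro l hl j' hj'
      exact g2 l hl j' (a3 l hl j' hj'))
    (by rw [a2]; exact fun l => (g4 l).trans hwi) ν a4 a5
    (by
      have h1 : 2 ^ (R + 1) = 2 * 2 ^ R := by rw [pow_succ]; ring
      have h2 : 1 ≤ 2 ^ R := Nat.one_le_two_pow
      omega) (by rw [a2]; exact hs) (by omega) hwZ
    (by
      rw [← hR]
      have h1 : 3 * wZ R i + 1 ≤ 2 ^ wZ R i := by
        have : ∀ Z, 4 ≤ Z → 3 * Z + 1 ≤ 2 ^ Z := by
          intro Z hZ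
          induction Z, hZ using Nat.le_induction with
          | base => norm_num
          | succ Z _ ih => rw [pow_succ]; omega
        exact this _ (by omega)
      exact h1)
    (by
      obtain ⟨Z, hZe⟩ : ∃ Z, Z = wZ R i := ⟨_, rfl⟩
      rw [← hZe] at hZ hRZ hRw ⊢
      have e1 : R * (2 ^ i + 1 + Z * Z) = R * (2 ^ i + 1) + R * (Z * Z) := by ring
      rw [e1]
      have e2 : 2 * (R * (Z * Z)) ≤ Z ^ 3 := by
        calc 2 * (R * (Z * Z)) = (2 * R) * (Z * Z) := by ring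
          _ ≤ Z * (Z * Z) := Nat.mul_le_mul_right _ (by omega)
          _ = _ := by ring
      have e3 : 12 * (Z * Z) ≤ Z ^ 3 := by
        calc 12 * (Z * Z) ≤ Z * (Z * Z) := Nat.mul_le_mul_right _ hZ
          _ = _ := by ring
      have e4 : 12 * Z ≤ Z * Z := Nat.mul_le_mul_right _ hZ
      omega)
    (by
      rw [← hR]
      have e1 : (3 * wZ R i + 1) ^ 2 ≤ 16 * wZ R i ^ 2 := by
        calc (3 * wZ R i + 1) ^ 2 ≤ (4 * wZ R i) ^ 2 := Nat.pow_le_pow_left (by omega) 2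
          _ = _ := by ring
      calc 2048 * wZ R i ^ 3 * wZ R i ^ 3 * (3 * wZ R i + 1) ^ 2
          ≤ 2048 * wZ R i ^ 3 * wZ R i ^ 3 * (16 * wZ R i ^ 2) := Nat.mul_le_mul_left _ e1
        _ = wb R i := by unfold wb; ring)
    (by rw [← hR]; omega)
  omega

/-- the lower bound -/
lemma hlow {M : ℕ} (e : HV M → Fin M) (he : Function.Injective e) (C : Circuit M)
    (hC : ∀ x, C.eval x = HF e x) {w q : ℕ} (hw : C.Layered w) (hq : 1 ≤ q)
    (hs : C.size ≤ 2 ^ q) :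
    M ≤ (q * w * (Nat.log 2 M + 1)) ^ 300 * 2 ^ C.nots := by
  have hw1 := layered_pos hw
  obtain ⟨T, hT⟩ : ∃ T, T = q * w := ⟨_, rfl⟩
  have hqT : q ≤ T := by rw [hT]; exact Nat.le_mul_of_pos_right q hw1
  have hwT : w ≤ T := by rw [hT]; exact Nat.le_mul_of_pos_left w hq
  obtain ⟨i, hi⟩ : ∃ i, i = Nat.clog 2 T := ⟨_, rfl⟩
  have hTi : T ≤ 2 ^ i := by rw [hi]; exact Nat.le_pow_clog (by norm_num) T
  have hiT : 2 ^ i ≤ 2 * T := by
    rcases Nat.lt_or_ge 1 T with h | h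
    · have h1 : 2 ^ (i - 1) < T := by rw [hi]; exact Nat.pow_pred_clog_lt_self (by norm_num) h
      have h2 : 1 ≤ i := by rw [hi]; exact Nat.clog_pos (by norm_num) h
      have h3 : 2 ^ i = 2 * 2 ^ (i - 1) := by rw [← pow_succ']; congr 1; omega
      omega
    · have : i = 0 := by rw [hi]; exact Nat.clog_of_right_le_one h 2
      rw [this]; omega
  have hpos : 1 ≤ 2 ^ C.nots := Nat.one_le_two_pow
  obtain ⟨L, hL⟩ : ∃ L, L = Nat.log 2 M := ⟨_, rfl⟩
  have hML : M < 2 ^ (L + 1) := by rw [hL]; exact Nat.lt_pow_succ_log_self (by norm_num) M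
  rw [← hT, ← hL]
  have hT1 : 1 ≤ T := by omega
  rcases Nat.eq_zero_or_pos L with hL0 | hL0
  · have : M ≤ 1 := by rw [hL0] at hML; omega
    have h1 : 1 ≤ (T * (L + 1)) ^ 300 := Nat.one_le_pow _ _ (Nat.mul_pos hT1 (Nat.succ_pos _))
    calc M ≤ 1 * 1 := this
      _ ≤ _ := Nat.mul_le_mul h1 hpos
  have hTL : 1 ≤ T * (L + 1) := Nat.mul_pos hT1 (Nat.succ_pos _)
  by_cases hi' : i < Nat.log 2 M + 1
  · have h1 := hlow1 e he C hC hw (hwT.trans hTi) hi'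
      (hs.trans (Nat.pow_le_pow_right (by norm_num) (hqT.trans hTi)))
    have hB : 0 < (Nat.log 2 M + 1) * hB i := Nat.mul_pos (Nat.succ_pos _) (hB_pos i)
    have h2 : M < (hc M i + 1) * ((Nat.log 2 M + 1) * Lift.hB i) := by
      have := Nat.lt_div_mul_add (a := M) hB
      calc M < M / ((Nat.log 2 M + 1) * Lift.hB i) * ((Nat.log 2 M + 1) * Lift.hB i) +
            ((Nat.log 2 M + 1) * Lift.hB i) := this
        _ = _ := by unfold hc; ring
    have h3 : Lift.hB i ≤ 2 ^ 241 * T ^ 70 := by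
      unfold Lift.hB wB wZ
      have f1 : 2 ^ i + 4 ≤ 6 * T := by omega
      have f2 : 2 ^ i + 2 ≤ 4 * T := by omega
      calc 2 ^ 65 * ((2 ^ i + 4) * (2 ^ i + 2)) ^ 35
          ≤ 2 ^ 65 * ((6 * T) * (4 * T)) ^ 35 :=
            Nat.mul_le_mul_left _ (Nat.pow_le_pow_left (Nat.mul_le_mul f1 f2) 35)
        _ = 2 ^ 65 * 24 ^ 35 * T ^ 70 := by ring
        _ ≤ 2 ^ 241 * T ^ 70 := Nat.mul_le_mul_right _ (by norm_num)
    calc M ≤ (hc M i + 1) * ((Nat.log 2 M + 1) * Lift.hB i) := h2.le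
      _ ≤ 2 ^ C.nots * ((Nat.log 2 M + 1) * Lift.hB i) := Nat.mul_le_mul_right _ h1
      _ ≤ 2 ^ C.nots * ((L + 1) * (2 ^ 241 * T ^ 70)) := by
          rw [← hL]
          exact Nat.mul_le_mul_left _ (Nat.mul_le_mul_left _ h3)
      _ ≤ 2 ^ C.nots * (T * (L + 1)) ^ 300 := by
          apply Nat.mul_le_mul_left
          rw [mul_pow]
          calc (L + 1) * (2 ^ 241 * T ^ 70) ≤ (L + 1) * ((L + 1) ^ 241 * T ^ 70) := by
                apply Nat.mul_le_mul_left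
                apply Nat.mul_le_mul_right
                exact Nat.pow_le_pow_left (by omega) _
            _ = T ^ 70 * (L + 1) ^ 242 := by ring
            _ ≤ T ^ 300 * (L + 1) ^ 300 :=
                Nat.mul_le_mul (Nat.pow_le_pow_right hT1 (by norm_num))
                  (Nat.pow_le_pow_right (by omega) (by norm_num))
      _ = _ := mul_comm _ _
  · have h1 : L + 1 ≤ i := by omega
    have h2 : M ≤ 2 * T := by
      calc M ≤ 2 ^ (L + 1) := hML.le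
        _ ≤ 2 ^ i := Nat.pow_le_pow_right (by norm_num) h1
        _ ≤ _ := hiT
    have h3 : 2 * T ≤ (T * (L + 1)) ^ 300 := by
      calc 2 * T ≤ T * (L + 1) := by rw [mul_comm]; exact Nat.mul_le_mul_left _ (by omega)
        _ = (T * (L + 1)) ^ 1 := (pow_one _).symm
        _ ≤ _ := Nat.pow_le_pow_right hTL (by norm_num)
    calc M ≤ (T * (L + 1)) ^ 300 * 1 := by omega
      _ ≤ _ := Nat.mul_le_mul_left _ hpos

/-- **P against narrow circuits with few NOT gates.** -/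
theorem poly_neg : ∃ f : (n : ℕ) → (Fin n → Bool) → Bool,
    (∃ c : ℕ, ∀ n, ∃ C : Circuit n, C.Monotone ∧ (∀ x, C.eval x = f n x) ∧
      C.size ≤ n ^ c + c) ∧
    ∃ c : ℕ, ∀ (n : ℕ) (C : Circuit n) (w q : ℕ), (∀ x, C.eval x = f n x) →
      C.Layered w → 1 ≤ q → C.size ≤ 2 ^ q →
      n ≤ (q * w * (Nat.log 2 n + 1)) ^ c * 2 ^ C.nots := by
  have hex : ∀ n : ℕ, ∃ f : (Fin n → Bool) → Bool,
      ∃ e : HV n → Fin n, Function.Injective e ∧ f = HF e := by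
    intro n
    obtain ⟨e, he⟩ := exists_embedH n
    exact ⟨_, e, he, rfl⟩
  choose f e he hf using hex
  refine ⟨f, ⟨4000, fun n => ?_⟩, 300, fun n C w q hC hw hq hs => ?_⟩
  · obtain ⟨C, c1, c2, c3⟩ := hupper (e n)
    refine ⟨C, c1, fun x => by rw [c3 x, hf n], c2.trans ?_⟩
    rcases Nat.eq_zero_or_pos n with h0 | h0
    · subst h0; omega
    rcases Nat.lt_or_ge n 2 with h1 | h1
    · have hn : n = 1 := by omega
      subst hn
      norm_num
    · have f1 : (n + 1) ^ 2 ≤ 4 * n ^ 2 := by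
        calc (n + 1) ^ 2 ≤ (2 * n) ^ 2 := Nat.pow_le_pow_left (by omega) 2
          _ = _ := by ring
      have f2 : 1 ≤ n ^ 3 := Nat.one_le_pow _ _ h0
      refine le_trans ?_ (Nat.le_add_right _ _)
      calc n * (200 * (n + 1) ^ 2 * (2 * n) + 1) ≤ n * (200 * (4 * n ^ 2) * (2 * n) + n ^ 3) := by
            apply Nat.mul_le_mul_left
            apply Nat.add_le_add _ f2
            exact Nat.mul_le_mul_right _ (Nat.mul_le_mul_left _ f1)
        _ = 1601 * n ^ 4 := by ring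
        _ ≤ 2 ^ 11 * n ^ 4 := Nat.mul_le_mul_right _ (by norm_num)
        _ ≤ n ^ 11 * n ^ 4 := Nat.mul_le_mul_right _ (Nat.pow_le_pow_left h1 _)
        _ = n ^ 15 := by rw [← pow_add]
        _ ≤ n ^ 4000 := Nat.pow_le_pow_right h0 (by norm_num)
  · exact hlow (e n) (he n) C (fun x => by rw [hC x, hf n]) hw hq hs

end Pool.Agent.H540R2.Lift
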