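import Mathlib
import Pool.Agent.H540R2.Lift.CliqueB
import Pool.Agent.H540R2.Lift.HFinal

/-!
# Width two and quasi-polynomial size against all circuits with few NOT gates
-/

set_option autoImplicit false
set_option linter.unusedSectionVars false

namespace Pool.Agent.H540R2.Lift

open Finset

/-- the clique size -/
def kk (A K : ℕ) : ℕ := K ^ (2 * A + 2)

/-- the number of vertices of a block -/
def kv (A K : ℕ) : ℕ := 200 * kk A K ^ 4

/-- the number of blocks -/
def km (A n : ℕ) : ℕ := n / (kv A (Nat.log 2 n + 4) * kv A (Nat.log 2 n + 4))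

/-- variables -/
abbrev KV (A n : ℕ) := Fin (km A n) × (Fin (kv A (Nat.log 2 n + 4)) × Fin (kv A (Nat.log 2 n + 4)))

/-- the function -/
def KG {A n : ℕ} (e : KV A n → Fin n) (x : Fin n → Bool) : Bool :=
  decide (∃ j : Fin (km A n), KF (kk A (Nat.log 2 n + 4)) (fun p => x (e (j, p))) = true)

lemma exists_embedK (A n : ℕ) : ∃ e : KV A n → Fin n, Function.Injective e := by
  have hcard : Fintype.card (KV A n) ≤ Fintype.card (Fin n) := by
    simp only [Fintype.card_prod, Fintype.card_fin]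
    exact Nat.div_mul_le_self _ _
  obtain ⟨e⟩ := Function.Embedding.nonempty_of_card_le hcard
  exact ⟨e, e.injective⟩

lemma kk_ge (A K : ℕ) (hK : 4 ≤ K) : 4 ≤ kk A K := by
  unfold kk
  calc 4 ≤ K ^ 1 := by rw [pow_one]; exact hK
    _ ≤ K ^ (2 * A + 2) := Nat.pow_le_pow_right (by omega) (by omega)

/-- the terms of the DNF -/
noncomputable def kterms {A n : ℕ} (e : KV A n → Fin n) : List (List (Fin n)) :=
  ((univ : Finset (Fin (km A n))) ×ˢ
    (powersetCard (kk A (Nat.log 2 n + 4)) (univ : Finset (Fin (kv A (Nat.log 2 n + 4)))))).toList.map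
    (fun jS => jS.2.offDiag.toList.map (fun p => e (jS.1, p)))

lemma kterms_any {A n : ℕ} (e : KV A n → Fin n) (x : Fin n → Bool) :
    (kterms e).any (fun t => t.all x) = KG e x := by
  rw [Bool.eq_iff_iff, List.any_eq_true]
  simp only [kterms, KG, KF, decide_eq_true_eq]
  constructor
  · rintro ⟨t, ht, hx⟩
    rw [List.mem_map] at ht
    obtain ⟨⟨j, S⟩, hS, rfl⟩ := ht
    rw [Finset.mem_toList, Finset.mem_product, Finset.mem_powersetCard] at hS
    rw [List.all_eq_true] at hx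
    refine ⟨j, S, hS.2.2, fun a ha b hb hab => ?_⟩
    exact hx _ (List.mem_map.2 ⟨(a, b), by
      rw [Finset.mem_toList, Finset.mem_offDiag]
      exact ⟨ha, hb, hab⟩, rfl⟩)
  · rintro ⟨j, S, hS, hx⟩
    refine ⟨_, List.mem_map.2 ⟨(j, S), ?_, rfl⟩, ?_⟩
    · rw [Finset.mem_toList, Finset.mem_product, Finset.mem_powersetCard]
      exact ⟨Finset.mem_univ _, Finset.subset_univ _, hS⟩
    · rw [List.all_eq_true]
      intro i hi
      rw [List.mem_map] at hi
      obtain ⟨⟨a, b⟩, hp, rfl⟩ := hi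
      rw [Finset.mem_toList, Finset.mem_offDiag] at hp
      exact hx a hp.1 b hp.2.1 hp.2.2

lemma kterms_size {A n : ℕ} (e : KV A n → Fin n) :
    ((kterms e).map (fun t => t.length + 1)).sum ≤
      n * 2 ^ kv A (Nat.log 2 n + 4) * (kv A (Nat.log 2 n + 4) * kv A (Nat.log 2 n + 4) + 1) := by
  obtain ⟨v, hv⟩ : ∃ v, v = kv A (Nat.log 2 n + 4) := ⟨_, rfl⟩
  have h1 : ∀ t ∈ (kterms e).map (fun t => t.length + 1), t ≤ v * v + 1 := by
    intro t ht
    simp only [kterms, List.map_map, List.mem_map] at ht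
    obtain ⟨⟨j, S⟩, hS, rfl⟩ := ht
    simp only [Function.comp, List.length_map, Finset.length_toList]
    apply Nat.add_le_add_right
    rw [Finset.offDiag_card]
    have : S.card ≤ v := by
      rw [hv]
      exact (Finset.card_le_univ S).trans (by simp)
    exact (Nat.sub_le _ _).trans (Nat.mul_le_mul this this)
  have h2 := List.sum_le_card_nsmul _ _ h1
  refine h2.trans ?_
  rw [smul_eq_mul, List.length_map, ← hv]
  apply Nat.mul_le_mul_right
  simp only [kterms, List.length_map, Finset.length_toList, Finset.card_product,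
    Finset.card_univ, Fintype.card_fin]
  refine Nat.mul_le_mul (Nat.div_le_self _ _) ?_
  calc (powersetCard (kk A (Nat.log 2 n + 4)) (univ : Finset (Fin (kv A (Nat.log 2 n + 4))))).card
      ≤ ((univ : Finset (Fin (kv A (Nat.log 2 n + 4)))).powerset).card :=
        Finset.card_le_card (fun S _ => Finset.mem_powerset.2 (Finset.subset_univ S))
    _ = 2 ^ v := by rw [Finset.card_powerset, Finset.card_univ, Fintype.card_fin, hv]

lemma kupper {A n : ℕ} (e : KV A n → Fin n) : ∃ C : Circuit n, C.Monotone ∧ C.Layered 2 ∧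
    C.size ≤ 2 ^ (Nat.log 2 n + 4) ^ (8 * A + 14) ∧ ∀ x, C.eval x = KG e x := by
  obtain ⟨C, c1, c2, c3, c4⟩ := dnf2 (kterms e)
  refine ⟨C, c1, c2, ?_, fun x => by rw [c4 x, kterms_any]⟩
  rw [c3]
  have hsz := kterms_size e
  obtain ⟨K, hK⟩ : ∃ K, K = Nat.log 2 n + 4 := ⟨_, rfl⟩
  obtain ⟨v, hv⟩ : ∃ v, v = kv A K := ⟨_, rfl⟩
  rw [← hK, ← hv] at hsz
  rw [← hK]
  have hn : n < 2 ^ K := by
    refine lt_of_lt_of_le (Nat.lt_pow_succ_log_self (by norm_num : 1 < 2) n)
      (Nat.pow_le_pow_right (by norm_num) (by omega))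
  have hvv : v < 2 ^ v := Nat.lt_two_pow_self
  have h2v : v * v + 1 ≤ 2 ^ (2 * v) := by
    rw [two_mul, pow_add]
    have : (v + 1) * (v + 1) ≤ 2 ^ v * 2 ^ v := Nat.mul_le_mul hvv hvv
    nlinarith
  have hK4 : 4 ≤ K := by omega
  have hexp : 3 * v + K + 2 ≤ K ^ (8 * A + 14) := by
    rw [hv]
    unfold kv kk
    have e1 : (K ^ (2 * A + 2)) ^ 4 = K ^ (8 * A + 8) := by rw [← pow_mul]; congr 1; ring
    rw [e1]
    have e2 : K ≤ K ^ (8 * A + 8) := Nat.le_self_pow (by omega) K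
    have e3 : 1 ≤ K ^ (8 * A + 8) := Nat.one_le_pow _ _ (by omega)
    have e4 : 4 ^ 6 ≤ K ^ 6 := Nat.pow_le_pow_left hK4 6
    calc 3 * (200 * K ^ (8 * A + 8)) + K + 2 ≤ 4 ^ 6 * K ^ (8 * A + 8) := by omega
      _ ≤ K ^ 6 * K ^ (8 * A + 8) := Nat.mul_le_mul_right _ e4
      _ = K ^ (8 * A + 14) := by rw [← pow_add]; congr 1; ring
  have hone : 1 ≤ 2 ^ (3 * v + K) := Nat.one_le_two_pow
  have hmain : n * 2 ^ v * (v * v + 1) ≤ 2 ^ (3 * v + K) := by
    calc n * 2 ^ v * (v * v + 1) ≤ 2 ^ K * 2 ^ v * 2 ^ (2 * v) :=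
          Nat.mul_le_mul (Nat.mul_le_mul_right _ hn.le) h2v
      _ = 2 ^ (3 * v + K) := by rw [← pow_add, ← pow_add]; congr 1; ring
  calc 2 * (1 + ((kterms e).map (fun t => t.length + 1)).sum)
      ≤ 2 * (2 ^ (3 * v + K) + 2 ^ (3 * v + K)) := by
        apply Nat.mul_le_mul_left
        exact Nat.add_le_add hone (hsz.trans hmain)
    _ = 2 ^ (3 * v + K + 2) := by rw [pow_add]; ring
    _ ≤ _ := Nat.pow_le_pow_right (by norm_num) hexp

lemma klow {A n : ℕ} (e : KV A n → Fin n) (he : Function.Injective e) (C : Circuit n)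
    (hC : ∀ x, C.eval x = KG e x) (hs : C.size ≤ 2 ^ Nat.log 2 n ^ A) :
    n ≤ (Nat.log 2 n + 4) ^ (16 * A + 24) * 2 ^ C.nots := by
  have hkk2 : 4 ≤ kk A (Nat.log 2 n + 4) := kk_ge A _ (by omega)
  have hnot : km A n < 2 ^ C.nots := by
    by_contra hcop
    push Not at hcop
    obtain ⟨j, C', ν, a1, a2, a3, a4, a5⟩ := freeze_core C (m := km A n)
      (fun (j : Fin (km A n)) (p : Fin (kv A (Nat.log 2 n + 4)) × Fin (kv A (Nat.log 2 n + 4))) =>
        e (j, p))
      (fun j j' v v' h => by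
        have := he h
        simpa [Prod.ext_iff] using this) (KF (kk A (Nat.log 2 n + 4))) (KF_false (by omega))
      (fun x _ => by rw [hC, KG])
      hcop
    have h := klower (v := kv A (Nat.log 2 n + 4)) hkk2 le_rfl C' a1 (fun p => e (j, p))
      (fun p p' h => by
        have := he h
        simpa [Prod.ext_iff] using this) ν a4 a5
    rw [a2] at h
    obtain ⟨K, hK⟩ : ∃ K, K = Nat.log 2 n + 4 := ⟨_, rfl⟩
    rw [← hK] at h hkk2
    have hK4 : 4 ≤ K := by omega
    have hsq : Nat.sqrt (kk A K) = K ^ (A + 1) := by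
      unfold kk
      have : K ^ (2 * A + 2) = K ^ (A + 1) * K ^ (A + 1) := by rw [← pow_add]; congr 1; ring
      rw [this, Nat.sqrt_eq]
    rw [hsq] at h
    have hL : Nat.log 2 n ^ A ≤ K ^ A := Nat.pow_le_pow_left (by omega) A
    have h1 : K ^ A + 2 ≤ K ^ (A + 1) := by
      have : 1 ≤ K ^ A := Nat.one_le_pow _ _ (by omega)
      calc K ^ A + 2 ≤ K ^ A * 4 := by omega
        _ ≤ K ^ A * K := Nat.mul_le_mul_left _ hK4
        _ = K ^ (A + 1) := by rw [pow_succ]
    have h2 : C.size ≤ 2 ^ K ^ A := hs.trans (Nat.pow_le_pow_right (by norm_num) hL)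
    have h3 : 2 ^ (K ^ A + 2) ≤ 2 ^ K ^ (A + 1) := Nat.pow_le_pow_right (by norm_num) h1
    have h4 : 2 ^ (K ^ A + 2) = 4 * 2 ^ K ^ A := by rw [pow_add]; ring
    have h5 : 1 ≤ 2 ^ K ^ A := Nat.one_le_two_pow
    omega
  obtain ⟨K, hK⟩ : ∃ K, K = Nat.log 2 n + 4 := ⟨_, rfl⟩
  have hK4 : 4 ≤ K := by omega
  rw [← hK]
  have hpos : 0 < kv A K * kv A K := by
    have : 0 < kk A K := by have := kk_ge A K hK4; omega
    unfold kv
    positivity
  have h1 : n < (km A n + 1) * (kv A K * kv A K) := by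
    have := Nat.lt_div_mul_add (a := n) hpos
    calc n < n / (kv A K * kv A K) * (kv A K * kv A K) + (kv A K * kv A K) := this
      _ = _ := by unfold km; rw [← hK]; ring
  have h2 : kv A K * kv A K ≤ K ^ (16 * A + 24) := by
    unfold kv kk
    have e1 : 200 * (K ^ (2 * A + 2)) ^ 4 * (200 * (K ^ (2 * A + 2)) ^ 4) =
        40000 * K ^ (16 * A + 16) := by
      rw [← pow_mul]
      have : K ^ ((2 * A + 2) * 4) * K ^ ((2 * A + 2) * 4) = K ^ (16 * A + 16) := by
        rw [← pow_add]; congr 1; ring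
      rw [← this]; ring
    rw [e1]
    have e2 : 4 ^ 8 ≤ K ^ 8 := Nat.pow_le_pow_left hK4 8
    calc 40000 * K ^ (16 * A + 16) ≤ K ^ 8 * K ^ (16 * A + 16) :=
          Nat.mul_le_mul_right _ (by omega)
      _ = K ^ (16 * A + 24) := by rw [← pow_add]; congr 1; ring
  calc n ≤ (km A n + 1) * (kv A K * kv A K) := h1.le
    _ ≤ 2 ^ C.nots * K ^ (16 * A + 24) := Nat.mul_le_mul hnot h2
    _ = _ := mul_comm _ _

/-- **Polylogarithmic space against time with few NOT gates.** -/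
theorem polylog_neg (A : ℕ) : ∃ g : (n : ℕ) → (Fin n → Bool) → Bool, ∃ c : ℕ, ∀ n,
    (∃ C : Circuit n, C.Monotone ∧ (∀ x, C.eval x = g n x) ∧ C.Layered 2 ∧
      C.size ≤ 2 ^ (Nat.log 2 n + 4) ^ c) ∧
    ∀ C : Circuit n, (∀ x, C.eval x = g n x) → C.size ≤ 2 ^ Nat.log 2 n ^ A →
      n ≤ (Nat.log 2 n + 4) ^ c * 2 ^ C.nots := by
  have hex : ∀ n : ℕ, ∃ g : (Fin n → Bool) → Bool,
      ∃ e : KV A n → Fin n, Function.Injective e ∧ g = KG e := by
    intro n
    obtain ⟨e, he⟩ := exists_embedK A n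
    exact ⟨_, e, he, rfl⟩
  choose g e he hg using hex
  refine ⟨g, 16 * A + 24, fun n => ⟨?_, fun C hC hs => ?_⟩⟩
  · obtain ⟨C, c1, c2, c3, c4⟩ := kupper (e n)
    refine ⟨C, c1, fun x => by rw [c4 x, hg n], c2, c3.trans ?_⟩
    apply Nat.pow_le_pow_right (by norm_num)
    exact Nat.pow_le_pow_right (by omega) (by omega)
  · exact klow (e n) (he n) C (fun x => by rw [hC x, hg n]) hs

end Pool.Agent.H540R2.Lift
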