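import Mathlib
import Pool.Agent.H540R2.Lift.Neg

/-!
# Freezing NOT gates, keeping the depths
-/

set_option autoImplicit false

namespace Pool.Agent.H540R2.Lift

open Finset

variable {N : ℕ}

open Classical in
theorem freeze_core3 (C : Circuit N) {V : Type} {m : ℕ} (e : Fin m → V → Fin N)
    (he : ∀ j j' v v', e j v = e j' v' → j = j' ∧ v = v') (G : (V → Bool) → Bool)
    (hG0 : G (fun _ => false) = false)
    (hC : ∀ x : Fin N → Bool, (∀ i, (∀ j v, e j v ≠ i) → x i = false) →
      C.eval x = decide (∃ j, G (fun v => x (e j v)) = true))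
    (hm : 2 ^ C.nots ≤ m) :
    ∃ (j : Fin m) (C' : Circuit N) (ν : Fin (C.size + 1) → Node N), C'.Monotone ∧
      C'.size = C.size ∧ (∃ T : Finset (Node N), T.card ≤ C.nots + 1 ∧ ∀ i, ν i ∈ T) ∧
      (∀ i, (ν i).depth C'.gateDepth ≤ C.depth) ∧
      (∀ i < C.size, ∀ j, (C'.gate i).wires j ≠ 0 → (C.gate i).wires j ≠ 0) ∧
      (∀ i j, (ν i).wires j ≠ 0 → j < C'.size) ∧
      ∀ w, G (fun v => w (e j v)) = true ↔ ∃ i, (ν i).eval w (C'.val w) = true := by
  set D := C.depth with hD
  -- the frozen copy
  have key : ∃ (j0 : Fin m) (x0 : Fin N → Bool),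
      (∀ i, (∀ j < j0, ∀ v, e j v ≠ i) → x0 i = false) ∧
      (∀ j, G (fun v => x0 (e j v)) = false) ∧
      ∀ y : Fin N → Bool, (∀ i, (∀ v, e j0 v ≠ i) → y i = x0 i) →
        G (fun v => y (e j0 v)) = false → rk C D y C.size = rk C D x0 C.size := by
    by_contra hcon
    push Not at hcon
    have hchain : ∀ t ≤ m, ∃ x : Fin N → Bool,
        (∀ i, (∀ j : Fin m, j.1 < t → ∀ v, e j v ≠ i) → x i = false) ∧
        (∀ j, G (fun v => x (e j v)) = false) ∧ t ≤ rk C D x C.size := by
      intro t
      induction t with
      | zero => exact fun _ => ⟨fun _ => false, fun _ _ => rfl, fun _ => hG0, Nat.zero_le _⟩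
      | succ t ih =>
        intro ht
        obtain ⟨x, h1, h2, h3⟩ := ih (by omega)
        obtain ⟨y, g1, g2, g3⟩ := hcon ⟨t, by omega⟩ x (fun i hi => h1 i (fun j hj v =>
          hi j (by rw [Fin.lt_def]; exact hj) v)) h2
        refine ⟨y, ?_, ?_, ?_⟩
        · intro i hi
          rw [g1 i (fun v => hi ⟨t, by omega⟩ (by simp) v)]
          exact h1 i (fun j hj v => hi j (by omega) v)
        · intro j
          by_cases hj : j = ⟨t, by omega⟩
          · rw [hj]; exact g2
          · rw [← h2 j]
            congr 1
            funext v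
            refine g1 _ (fun v' hv' => hj ?_)
            exact ((he _ _ _ _ hv').1).symm
        · have hxy : ∀ v, x v = true → y v = true := by
            intro i hi
            by_cases hr : ∃ v, e ⟨t, by omega⟩ v = i
            · obtain ⟨v, hv⟩ := hr
              have : x i = false := h1 i (fun j hj v' hv' => by
                rw [← hv] at hv'
                have := (he _ _ _ _ hv').1
                rw [this] at hj
                simp at hj)
              rw [this] at hi
              exact absurd hi (by decide)
            · push Not at hr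
              rw [g1 i hr]; exact hi
          rcases rk_mono C D hxy C.size le_rfl with h | ⟨h, -⟩
          · omega
          · exact absurd h.symm g3
    obtain ⟨x, -, -, h3⟩ := hchain m le_rfl
    have h4 := rk_lt C D x C.size
    have h5 : 2 ^ ((range C.size).filter (fun j => (C.gate j).isNot = true)).card ≤ m := hm
    omega
  obtain ⟨j0, x0, h1, h2, h3⟩ := key
  set R : Fin N → Prop := fun i => ∃ v, e j0 v = i with hR
  have hx0R : ∀ i, R i → x0 i = false := by
    rintro i ⟨v, rfl⟩
    refine h1 _ (fun j hj v' hv' => ?_)
    have := (he _ _ _ _ hv').1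
    rw [this] at hj
    exact lt_irrefl _ hj
  have hmix0 : mix R x0 (fun _ => false) = x0 := by
    funext i
    unfold mix
    split_ifs with h
    · exact (hx0R i h).symm
    · rfl
  have hmixR : ∀ w i, ¬ R i → mix R x0 w i = x0 i := fun w i hi => by
    unfold mix; rw [if_neg hi]
  have hmixe : ∀ w v, mix R x0 w (e j0 v) = w (e j0 v) := fun w v => by
    unfold mix; rw [if_pos ⟨v, rfl⟩]
  have hother : ∀ w j, j ≠ j0 → (fun v => mix R x0 w (e j v)) = fun v => x0 (e j v) := by
    intro w j hj
    funext v
    refine hmixR w _ ?_
    rintro ⟨v', hv'⟩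
    exact hj ((he _ _ _ _ hv').1).symm
  have hCmix : ∀ w, C.eval (mix R x0 w) = G (fun v => w (e j0 v)) := by
    intro w
    rw [hC]
    · rw [Bool.eq_iff_iff, decide_eq_true_iff]
      constructor
      · rintro ⟨j, hj⟩
        by_cases hjj : j = j0
        · subst hjj
          rw [← hj]; congr 1; funext v; exact (hmixe w v).symm
        · rw [hother w j hjj, h2 j] at hj
          exact absurd hj (by decide)
      · intro h
        refine ⟨j0, ?_⟩
        rw [← h]; congr 1; funext v; exact hmixe w v
    · intro i hi
      rw [hmixR w i (fun ⟨v, hv⟩ => hi j0 v hv)]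
      exact h1 i (fun j _ v => hi j v)
  set Cf := frz C R x0 with hCf
  -- the nodes
  set T : ℕ → Prop := fun i => tg C D i ∧ C.val x0 i = true with hT
  set ν : Fin (C.size + 1) → Node N := fun i =>
    if i.1 < C.size ∧ T i.1 then sub R x0 (opd (C.gate i.1)) else sub R x0 C.out with hν
  have hTnot : ∀ i, tg C D i → ∃ b, C.gate i = .not b := by
    intro i hi
    have := hi.1
    cases hg : C.gate i with
    | and a b => rw [hg] at this; exact absurd this (by simp [Gate.isNot])
    | or a b => rw [hg] at this; exact absurd this (by simp [Gate.isNot])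
    | not b => exact ⟨b, rfl⟩
  have hνw : ∀ i j, (ν i).wires j ≠ 0 → j < Cf.size := by
    intro i j hj
    simp only [hν] at hj
    split_ifs at hj with h
    · rw [sub_wires] at hj
      obtain ⟨b, hb⟩ := hTnot i.1 h.2.1
      rw [hb] at hj
      have := C.gate_lt i.1 h.1 j (by rw [hb]; exact hj)
      exact this.trans h.1
    · rw [sub_wires] at hj
      exact C.out_lt j hj
  refine ⟨j0, Cf, ν, frz_mono' C R x0, rfl, ?_, ?_, ?_, hνw, ?_⟩
  · refine ⟨insert (sub R x0 C.out) (((range C.size).filter
      (fun i => (C.gate i).isNot = true)).image (fun i => sub R x0 (opd (C.gate i)))), ?_, ?_⟩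
    · refine (Finset.card_insert_le _ _).trans (Nat.add_le_add_right ?_ 1)
      exact Finset.card_image_le
    · intro i
      simp only [hν]
      split_ifs with h
      · refine Finset.mem_insert_of_mem (Finset.mem_image.2 ⟨i.1, ?_, rfl⟩)
        exact Finset.mem_filter.2 ⟨Finset.mem_range.2 h.1, h.2.1.1⟩
      · exact Finset.mem_insert_self _ _
  · intro i
    simp only [hν]
    split_ifs with h
    · obtain ⟨b, hb⟩ := hTnot i.1 h.2.1
      rw [hb]
      simp only [opd]
      have h6 := C.gateDepth_gate h.1
      rw [hb] at h6
      simp only [Gate.depth] at h6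
      have h7 : C.gateDepth i.1 ≤ D := h.2.1.2
      have h8 : (sub R x0 b).depth Cf.gateDepth ≤ b.depth C.gateDepth :=
        frz_node_depth C R x0 b (fun l hl =>
          (C.gate_lt i.1 h.1 l (by rw [hb]; exact hl)).trans h.1)
      omega
    · exact frz_node_depth C R x0 C.out C.out_lt
  · intro i _ j hj
    change (frzGate C R x0 i).wires j ≠ 0 at hj
    unfold frzGate at hj
    cases hg : C.gate i with
    | and a b =>
      rw [hg] at hj
      simp only [Gate.wires, sub_wires] at hj ⊢
      exact hj
    | or a b =>
      rw [hg] at hj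
      simp only [Gate.wires, sub_wires] at hj ⊢
      exact hj
    | not a =>
      rw [hg] at hj
      exact absurd rfl hj
  · intro w
    refine Iff.trans Iff.rfl (Iff.symm ?_)
    have hout : ν (Fin.last C.size) = sub R x0 C.out := by
      simp only [hν]
      rw [if_neg]
      simp
    by_cases hall : ∀ j < C.size, tg C D j → C.val (mix R x0 w) j = C.val x0 j
    · -- no NOT gate changes
      have hoe : (sub R x0 C.out).eval w (Cf.val w) = C.eval (mix R x0 w) :=
        frz_node_val C R x0 le_rfl w hall C.out C.out_lt le_rfl
      constructor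
      · rintro ⟨i, hi⟩
        simp only [hν] at hi
        split_ifs at hi with h
        · exfalso
          obtain ⟨b, hb⟩ := hTnot i.1 h.2.1
          rw [hb] at hi
          simp only [opd] at hi
          have hbl : ∀ l, b.wires l ≠ 0 → l < i.1 := fun l hl =>
            C.gate_lt i.1 h.1 l (by rw [hb]; exact hl)
          have h6 := C.gateDepth_gate h.1
          rw [hb] at h6
          simp only [Gate.depth] at h6
          have h7 := h.2.1.2
          rw [frz_node_val C R x0 (le_of_lt h.1) w (fun j hj => hall j (by omega)) b hbl
            (by omega)] at hi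
          have h8 := hall i.1 h.1 h.2.1
          rw [h.2.2, C.val_gate h.1, hb] at h8
          simp only [Gate.eval] at h8
          rw [hi] at h8
          exact absurd h8 (by decide)
        · rw [hoe, hCmix] at hi
          exact hi
      · intro h
        refine ⟨Fin.last _, ?_⟩
        show (ν (Fin.last C.size)).eval w (Cf.val w) = true
        rw [hout, hoe, hCmix]; exact h
    · -- some NOT gate changes
      push Not at hall
      have hacc : G (fun v => w (e j0 v)) = true := by
        by_contra hc
        have hc' : G (fun v => w (e j0 v)) = false := by simpa using hc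
        have h4 := h3 (mix R x0 w) (fun i hi => hmixR w i (fun ⟨v, hv⟩ => hi v hv)) (by
          rw [← hc']; congr 1; funext v; exact hmixe w v)
        obtain ⟨j, hj, ht, hne⟩ := hall
        exact hne (rk_eq C D _ _ C.size h4 j hj ht)
      refine ⟨fun _ => hacc, fun _ => ?_⟩
      -- the first one
      have hex : ∃ j, j < C.size ∧ tg C D j ∧ C.val (mix R x0 w) j ≠ C.val x0 j := hall
      set i := Nat.find hex with hi
      obtain ⟨i1, i2, i3⟩ := Nat.find_spec hex
      rw [← hi] at i1 i2 i3
      have hbefore : ∀ j < i, tg C D j → C.val (mix R x0 w) j = C.val x0 j := by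
        intro j hj ht
        by_contra hc
        exact Nat.find_min hex hj ⟨by omega, ht, hc⟩
      obtain ⟨b, hb⟩ := hTnot i i2
      have hbl : ∀ l, b.wires l ≠ 0 → l < i := fun l hl =>
        C.gate_lt i i1 l (by rw [hb]; exact hl)
      have h6 := C.gateDepth_gate i1
      rw [hb] at h6
      simp only [Gate.depth] at h6
      have h7 := i2.2
      have e1 := frz_node_val C R x0 (le_of_lt i1) w hbefore b hbl (by omega)
      have e2 := frz_node_val C R x0 (i := i) (D := D) (le_of_lt i1) (fun _ => false)
        (by rw [hmix0]; exact fun _ _ _ => rfl) b hbl (by omega)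
      rw [hmix0] at e2
      have v1 := C.val_gate i1 (mix R x0 w)
      have v2 := C.val_gate i1 x0
      rw [hb] at v1 v2
      simp only [Gate.eval] at v1 v2
      have hmono := mono_node (frz_mono' C R x0) (x := fun _ => false) (y := w)
        (fun v hv => absurd hv (by simp)) (sub R x0 b) (fun l hl => by
          rw [sub_wires] at hl
          exact (hbl l hl).trans i1)
      have hval : C.val x0 i = true := by
        by_contra hc
        have hc' : C.val x0 i = false := by simpa using hc
        rw [hc'] at v2
        have h8 : b.eval x0 (C.val x0) = true := by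
          cases hbe : b.eval x0 (C.val x0) with
          | true => rfl
          | false => rw [hbe] at v2; exact absurd v2 (by decide)
        have h9 := hmono (by rw [e2]; exact h8)
        rw [e1] at h9
        rw [h9] at v1
        exact i3 (by rw [v1, hc']; rfl)
      refine ⟨⟨i, by omega⟩, ?_⟩
      have hνi : ν ⟨i, by omega⟩ = sub R x0 b := by
        simp only [hν]
        rw [if_pos ⟨i1, i2, hval⟩, hb]
        rfl
      show (ν ⟨i, by omega⟩).eval w (Cf.val w) = true
      rw [hνi, e1]
      cases hbe : b.eval (mix R x0 w) (C.val (mix R x0 w)) with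
      | true => rfl
      | false =>
        rw [hbe] at v1
        exact absurd (by rw [v1, hval]; rfl) i3

end Pool.Agent.H540R2.Lift
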