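import Mathlib
import Pool.Agent.H540R2.Lift.WSim
import Pool.Agent.H540R2.Lift.WLower

/-!
# Narrow circuits: simulation with short messages of the rows
-/

set_option autoImplicit false
set_option linter.unusedSectionVars false

namespace Pool.Agent.H540R2.Lift

open Finset Classical

variable {U A S : Type} [Fintype U] [DecidableEq U] [Fintype A] [DecidableEq A] [Fintype S]
  [DecidableEq S]

lemma pot_card' {b c β : ℕ} (hb : 2 ^ β ≤ b) (hA : Fintype.card A = b ^ 2)
    {P : Finset (U → A)} {I : Finset U} (hne : P.Nonempty)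
    (heq : ∀ x ∈ P, ∀ x' ∈ P, ∀ u ∈ I, x u = x' u)
    (hpot : Fintype.card A ^ Fintype.card U * b ^ I.card ≤
      2 ^ c * (P.card * Fintype.card A ^ I.card)) : β * I.card ≤ c := by
  obtain ⟨x0, hx0⟩ := hne
  have hb1 : 1 ≤ b := Nat.one_le_two_pow.trans hb
  have h1 : P ⊆ fix P I x0 := fun x hx => Finset.mem_filter.2 ⟨hx, fun u hu => heq x hx x0 hx0 u hu⟩
  have h2 := card_fix P I x0
  have h3 : P.card * Fintype.card A ^ I.card ≤ Fintype.card A ^ Fintype.card U :=
    (Nat.mul_le_mul_right _ (Finset.card_le_card h1)).trans h2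
  have hpos : 0 < Fintype.card A ^ Fintype.card U := by
    rw [hA]; positivity
  have h4 : b ^ I.card * Fintype.card A ^ Fintype.card U ≤
      2 ^ c * Fintype.card A ^ Fintype.card U := by
    rw [mul_comm]
    exact hpot.trans (Nat.mul_le_mul_left _ h3)
  have h5 : b ^ I.card ≤ 2 ^ c := Nat.le_of_mul_le_mul_right h4 hpos
  have h6 : 2 ^ (β * I.card) ≤ 2 ^ c := by
    rw [pow_mul]
    exact (Nat.pow_le_pow_left hb _).trans h5
  exact (Nat.pow_le_pow_iff_right (by norm_num)).1 h6

section dsim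

variable {M : ℕ} {C : Circuit M} {inX : (U → A) → Fin M → Bool}
  {inY : (U × A → S) → Fin M → Bool} {k b Q s w β L0 : ℕ}
  {Valid : Finset U → (U → S) → ℕ → Prop} {Jv : Fin M → Finset U}

/-- queries in a good row -/
lemma dstep [Nonempty S] (h : Strat U S k Valid) {r : ℕ} (hQ : 1 ≤ Q) (hr : 1 ≤ r)
    (hb : 2048 * r * Q ^ 3 * Fintype.card S ^ 2 ≤ b)
    {P : Finset (U → A)} {I : Finset U} (hP : Dense b P I)
    {Y : Finset (U × A → S)} (hY : Large r Y) {z : U → S} {L : ℕ}
    (hz : ∀ x ∈ P, ∀ y ∈ Y, ∀ u ∈ I, y (u, x u) = z u) (hV : Valid I z L)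
    (J0 : Finset U) (hJ0 : J0.card ≤ Q) (hk : I.card + Q ≤ k) :
    ∃ x ∈ P, ∃ y ∈ Y, Valid (I ∪ J0) (fun u => y (u, x u)) (L - J0.card) := by
  obtain ⟨G, hGP, hG, hcard⟩ := good_rows hQ hr hb hP hY
  have hGpos : 0 < G.card := by omega
  obtain ⟨x, hx⟩ := Finset.card_pos.1 hGpos
  refine ⟨x, hGP hx, ?_⟩
  set J := J0 \ I with hJ
  have hJd : Disjoint J I := Finset.sdiff_disjoint
  have hJ00 : J.card ≤ J0.card := Finset.card_le_card Finset.sdiff_subset
  have hJc : J.card ≤ Q := hJ00.trans hJ0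
  obtain ⟨γ, h1, h2⟩ := h.many I z L hV J hJd (by omega)
  have h3 := hG x hx J hJd hJc γ
  have hYpos : 0 < Y.card := by
    unfold Large at hY
    rcases Nat.eq_zero_or_pos Y.card with h0 | h0
    · rw [h0] at hY
      have : 0 < Fintype.card (U × A → S) := Fintype.card_pos
      omega
    · exact h0
  have h4 : 0 < (pat Y x J γ).card := by
    rcases Nat.eq_zero_or_pos (pat Y x J γ).card with h0 | h0
    · rw [h0] at h3; omega
    · exact h0
  obtain ⟨y, hy⟩ := Finset.card_pos.1 h4
  obtain ⟨hyY, hyJ⟩ := Finset.mem_filter.1 hy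
  refine ⟨y, hyY, ?_⟩
  have e : I ∪ J0 = I ∪ J := by rw [hJ]; simp
  rw [e]
  apply h.anti _ _ _ _ (show L - J0.card ≤ L - J.card by omega)
  apply h.congr _ _ _ _ _ h2
  intro u hu
  rcases Finset.mem_union.1 hu with hu | hu
  · rw [h1 u hu, hz x (hGP hx) y hyY u hu]
  · exact (hyJ u hu).symm

/-- the last step -/
lemma dlast [Nonempty S] (hS : Strat U S k Valid) (hmono : C.Monotone) {lay : ℕ → ℕ}
    (hwire : ∀ i < C.size, ∀ j, (C.gate i).wires j ≠ 0 → lay j + 1 = lay i)
    (hJv : ∀ i, (Jv i).card ≤ 2)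
    (hleaf : ∀ i x y I L, inX x i = true → inY y i = false → Jv i ⊆ I →
      Valid I (fun u => y (u, x u)) L → L = 0)
    {c r lo : ℕ} (hQ : 4 ≤ Q) (hr : 1 ≤ r)
    (hb : 2048 * r * Q ^ 3 * Fintype.card S ^ 2 ≤ b) (hβ : 2 ^ β ≤ b)
    (hA : Fintype.card A = b ^ 2) (hk : 2 * Q ≤ k) (hcQ : c < β * (Q + 1))
    {P : Finset (U → A)} {I : Finset U} {Y : Finset (U × A → S)} {z : U → S} {g : ℕ}
    (h : State C inX inY b Valid lay c r (L0 - I.card) lo (lo + 1) P I Y z g) :
    L0 ≤ I.card + 4 := by
  have hI := pot_card' hβ hA h.dense.1 h.eqI h.pot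
  have hIQ : I.card ≤ Q := by
    by_contra hc
    push Not at hc
    have : β * (Q + 1) ≤ β * I.card := Nat.mul_le_mul_left _ hc
    omega
  have hwires := C.gate_lt g h.hg
  have main : ∀ a1 a2 : Node M, (∀ j, a1.wires j ≠ 0 → lay j = lo ∧ j < C.size) →
      (∀ j, a2.wires j ≠ 0 → lay j = lo ∧ j < C.size) →
      (∀ x ∈ P, ∀ y ∈ Y,
        (a1.eval (inX x) (C.val (inX x)) = true ∧ a1.eval (inY y) (C.val (inY y)) = false) ∨
        (a2.eval (inX x) (C.val (inX x)) = true ∧ a2.eval (inY y) (C.val (inY y)) = false)) →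
      L0 ≤ I.card + 4 := by
    intro a1 a2 h1 h2 hor
    let Jn : Node M → Finset U := fun a => match a with
      | .var i => Jv i
      | .const _ => ∅
      | .gate _ => ∅
    have hJn : ∀ a, (Jn a).card ≤ 2 := by
      intro a
      cases a with
      | var i => exact hJv i
      | const _ => simp [Jn]
      | gate _ => simp [Jn]
    have hJ4 : (Jn a1 ∪ Jn a2).card ≤ 4 := by
      have := Finset.card_union_le (Jn a1) (Jn a2)
      have := hJn a1
      have := hJn a2
      omega
    obtain ⟨x, hx, y, hy, hV⟩ := dstep hS (by omega) hr hb h.dense h.large h.hz h.valid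
      (Jn a1 ∪ Jn a2) (by omega) (by omega)
    have hnode : ∀ a : Node M, (∀ j, a.wires j ≠ 0 → lay j = lo ∧ j < C.size) →
        Jn a ⊆ I ∪ (Jn a1 ∪ Jn a2) → a.eval (inX x) (C.val (inX x)) = true →
        a.eval (inY y) (C.val (inY y)) = false → L0 ≤ I.card + 4 := by
      intro a ha haJ e1 e2
      cases a with
      | var i =>
        have := hleaf i x y _ _ e1 e2 haJ hV
        omega
      | const c =>
        simp only [Node.eval] at e1 e2
        rw [e1] at e2
        exact absurd e2 (by decide)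
      | gate j =>
        obtain ⟨g1, g2⟩ := ha j (by simp [Node.wires])
        have := h.low j g2 g1 x hx y hy e1
        simp only [Node.eval] at e2
        rw [this] at e2
        exact absurd e2 (by decide)
    rcases hor x hx y hy with ⟨e1, e2⟩ | ⟨e1, e2⟩
    · exact hnode a1 h1 (Finset.subset_union_left.trans Finset.subset_union_right) e1 e2
    · exact hnode a2 h2 (Finset.subset_union_right.trans Finset.subset_union_right) e1 e2
  have hvX : ∀ x ∈ P, (C.gate g).eval (inX x) (C.val (inX x)) = true := by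
    intro x hx
    rw [← C.val_gate h.hg]
    exact h.hgX x hx
  have hvY : ∀ y ∈ Y, (C.gate g).eval (inY y) (C.val (inY y)) = false := by
    intro y hy
    rw [← C.val_gate h.hg]
    exact h.hgY y hy
  have hw : ∀ j, (C.gate g).wires j ≠ 0 → lay j = lo ∧ j < C.size := by
    intro j hj
    have h1 := hwire g h.hg j hj
    have h2 := hwires j hj
    have h3 := h.layg
    have h4 := h.hg
    exact ⟨by omega, by omega⟩
  cases hgate : C.gate g with
  | not a => exact absurd hgate (hmono g h.hg a)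
  | and a1 a2 =>
    rw [hgate] at hw
    refine main a1 a2 (fun j hj => hw j (by simp only [Gate.wires]; omega))
      (fun j hj => hw j (by simp only [Gate.wires]; omega)) ?_
    intro x hx y hy
    have h1 := hvX x hx
    have h2 := hvY y hy
    rw [hgate] at h1 h2
    simp only [Gate.eval, Bool.and_eq_true] at h1
    simp only [Gate.eval, Bool.and_eq_false_iff] at h2
    rcases h2 with h2 | h2
    · exact Or.inl ⟨h1.1, h2⟩
    · exact Or.inr ⟨h1.2, h2⟩
  | or a1 a2 =>
    rw [hgate] at hw
    refine main a1 a2 (fun j hj => hw j (by simp only [Gate.wires]; omega))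
      (fun j hj => hw j (by simp only [Gate.wires]; omega)) ?_
    intro x hx y hy
    have h1 := hvX x hx
    have h2 := hvY y hy
    rw [hgate] at h1 h2
    simp only [Gate.eval, Bool.or_eq_true] at h1
    simp only [Gate.eval, Bool.or_eq_false_iff] at h2
    rcases h1 with h1 | h1
    · exact Or.inl ⟨h1, h2.1⟩
    · exact Or.inr ⟨h1, h2.2⟩

/-- restriction of the rows to a popular part, restoration, and the queries -/
lemma dnarrow [Nonempty S] (hS : Strat U S k Valid)
    {c r v : ℕ} (hQ : 1 ≤ Q) (hr : 1 ≤ r) (hs : Fintype.card S ≤ 2 ^ s)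
    (hb : 2048 * r * Q ^ 3 * Fintype.card S ^ 2 ≤ b) (hβ : 2 ^ β ≤ b)
    (hA : Fintype.card A = b ^ 2) (hcQ : c + (v + 1) < β * (Q + 1)) (hk : 2 * Q ≤ k)
    {P : Finset (U → A)} {I : Finset U} {Y : Finset (U × A → S)} {z : U → S}
    (hP : Dense b P I)
    (hpot : Fintype.card A ^ Fintype.card U * b ^ I.card ≤
      2 ^ c * (P.card * Fintype.card A ^ I.card))
    (heq : ∀ x ∈ P, ∀ x' ∈ P, ∀ u ∈ I, x u = x' u) (hY : Large r Y)
    (hz : ∀ x ∈ P, ∀ y ∈ Y, ∀ u ∈ I, y (u, x u) = z u) (hV : Valid I z (L0 - I.card))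
    {γ' : Type} [DecidableEq γ'] (T : Finset γ') (hT : T.card ≤ 2 ^ v) (f : (U → A) → γ')
    (hf : ∀ x ∈ P, f x ∈ T) :
    ∃ (P' : Finset (U → A)) (I' : Finset U) (Y' : Finset (U × A → S)) (γ : U → S) (t : γ'),
      P' ⊆ P ∧ Y' ⊆ Y ∧ Dense b P' I' ∧
      Fintype.card A ^ Fintype.card U * b ^ I'.card ≤
        2 ^ (c + (v + 1)) * (P'.card * Fintype.card A ^ I'.card) ∧
      (∀ x ∈ P', ∀ x' ∈ P', ∀ u ∈ I', x u = x' u) ∧ Large (r + (1 + Q * s)) Y' ∧
      (∀ x ∈ P', ∀ y ∈ Y', ∀ u ∈ I', y (u, x u) = γ u) ∧ Valid I' γ (L0 - I'.card) ∧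
      ∀ x ∈ P', f x = t := by
  have hb1 : 1 ≤ b := Nat.one_le_two_pow.trans hβ
  obtain ⟨G, hGP, hG, hGc⟩ := good_rows hQ hr hb hP hY
  have hGpos : 0 < G.card := by omega
  obtain ⟨t, ht, htc⟩ := popular G (Finset.card_pos.1 hGpos) T f (fun x hx => hf x (hGP hx))
  set P1 := G.filter (fun x => f x = t) with hP1
  have hP1c : P.card ≤ 2 ^ (v + 1) * P1.card := by
    have h1 : G.card ≤ 2 ^ v * P1.card := htc.trans (Nat.mul_le_mul_right _ hT)
    rw [pow_succ]
    have h2 : 2 ^ v * 2 * P1.card = 2 * (2 ^ v * P1.card) := by ring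
    omega
  have hP1ne : P1.Nonempty := by
    rw [← Finset.card_pos]
    rcases Nat.eq_zero_or_pos P1.card with h0 | h0
    · rw [h0] at htc; omega
    · exact h0
  obtain ⟨J, β', hJI, hJ1, hJ2⟩ := restore b P1 hP1ne I
  set P' := fix P1 J β' with hP'
  have hP'1 : P' ⊆ P1 := Finset.filter_subset _ _
  have hP'P : P' ⊆ P := (hP'1.trans (Finset.filter_subset _ _)).trans hGP
  have hIJ : (I ∪ J).card = I.card + J.card := Finset.card_union_of_disjoint hJI.symm
  have hpot' : Fintype.card A ^ Fintype.card U * b ^ (I ∪ J).card ≤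
      2 ^ (c + (v + 1)) * (P'.card * Fintype.card A ^ (I ∪ J).card) := by
    rw [hIJ, pow_add, pow_add, pow_add]
    calc Fintype.card A ^ Fintype.card U * (b ^ I.card * b ^ J.card)
        = (Fintype.card A ^ Fintype.card U * b ^ I.card) * b ^ J.card := by ring
      _ ≤ (2 ^ c * (P.card * Fintype.card A ^ I.card)) * b ^ J.card :=
          Nat.mul_le_mul_right _ hpot
      _ ≤ (2 ^ c * ((2 ^ (v + 1) * (P'.card * b ^ J.card)) * Fintype.card A ^ I.card)) *
            b ^ J.card := by
          apply Nat.mul_le_mul_right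
          apply Nat.mul_le_mul_left
          apply Nat.mul_le_mul_right
          exact hP1c.trans (Nat.mul_le_mul_left _ hJ1)
      _ = 2 ^ c * 2 ^ (v + 1) * (P'.card * (Fintype.card A ^ I.card * (b ^ 2) ^ J.card)) := by
          ring
      _ = _ := by rw [← hA]; ring
  have heq' : ∀ x ∈ P', ∀ x' ∈ P', ∀ u ∈ I ∪ J, x u = x' u := by
    intro x hx x' hx' u hu
    rcases Finset.mem_union.1 hu with hu | hu
    · exact heq x (hP'P hx) x' (hP'P hx') u hu
    · rw [(Finset.mem_filter.1 hx).2 u hu, (Finset.mem_filter.1 hx').2 u hu]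
  have hcard' := pot_card' hβ hA hJ2.1 heq' hpot'
  have hIJQ : (I ∪ J).card ≤ Q := by
    by_contra hc
    push Not at hc
    have : β * (Q + 1) ≤ β * (I ∪ J).card := Nat.mul_le_mul_left _ hc
    omega
  have hJQ : J.card ≤ Q := by omega
  obtain ⟨γ, h1, h2⟩ := hS.many I z _ hV J hJI (by omega)
  obtain ⟨x0, hx0⟩ := hJ2.1
  have hx0G : x0 ∈ G := (Finset.mem_filter.1 (hP'1 hx0)).1
  have h3 := hG x0 hx0G J hJI hJQ γ
  refine ⟨P', I ∪ J, pat Y x0 J γ, γ, t, hP'P, Finset.filter_subset _ _, hJ2, hpot', heq', ?_,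
    ?_, ?_, ?_⟩
  · unfold Large at hY ⊢
    have h4 : Fintype.card S ^ J.card ≤ 2 ^ (Q * s) := by
      calc Fintype.card S ^ J.card ≤ (2 ^ s) ^ J.card := Nat.pow_le_pow_left hs _
        _ = 2 ^ (s * J.card) := by rw [pow_mul]
        _ ≤ 2 ^ (Q * s) := by
            apply Nat.pow_le_pow_right (by norm_num)
            rw [mul_comm]
            exact Nat.mul_le_mul_right _ hJQ
    calc Fintype.card (U × A → S) ≤ Y.card * 2 ^ r := hY
      _ ≤ (2 * Fintype.card S ^ J.card * (pat Y x0 J γ).card) * 2 ^ r :=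
          Nat.mul_le_mul_right _ h3
      _ ≤ (2 * 2 ^ (Q * s) * (pat Y x0 J γ).card) * 2 ^ r := by
          apply Nat.mul_le_mul_right
          apply Nat.mul_le_mul_right
          exact Nat.mul_le_mul_left _ h4
      _ = (pat Y x0 J γ).card * 2 ^ (r + (1 + Q * s)) := by
          rw [pow_add, pow_add]; ring
  · intro x hx y hy u hu
    obtain ⟨hyY, hyJ⟩ := Finset.mem_filter.1 hy
    rcases Finset.mem_union.1 hu with hu | hu
    · rw [h1 u hu]; exact hz x (hP'P hx) y hyY u hu
    · rw [← hyJ u hu, heq' x hx x0 hx0 u (Finset.mem_union_right _ hu)]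
  · rw [hIJ, ← Nat.sub_sub]; exact h2
  · intro x hx
    exact (Finset.mem_filter.1 (hP'1 hx)).2

/-- the rounds of the binary search; the columns send the values of a layer, the rows send the
name of a gate -/
lemma drounds [Nonempty S] (hS : Strat U S k Valid) (hmono : C.Monotone) {lay : ℕ → ℕ}
    (hwire : ∀ i < C.size, ∀ j, (C.gate i).wires j ≠ 0 → lay j + 1 = lay i)
    (hw : ∀ l, ((range C.size).filter (fun i => lay i = l)).card ≤ w) {v : ℕ}
    (hwv : w + 1 ≤ 2 ^ v)
    (hJv : ∀ i, (Jv i).card ≤ 2)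
    (hleaf : ∀ i x y I L, inX x i = true → inY y i = false → Jv i ⊆ I →
      Valid I (fun u => y (u, x u)) L → L = 0)
    {rm : ℕ} (hQ : 4 ≤ Q) (hs : Fintype.card S ≤ 2 ^ s)
    (hb : 2048 * rm * Q ^ 3 * Fintype.card S ^ 2 ≤ b) (hβ : 2 ^ β ≤ b)
    (hA : Fintype.card A = b ^ 2) (hk : 2 * Q ≤ k) :
    ∀ (t c r lo hi : ℕ) (P : Finset (U → A)) (I : Finset U) (Y : Finset (U × A → S))
      (z : U → S) (g : ℕ), State C inX inY b Valid lay c r (L0 - I.card) lo hi P I Y z g →
      lo < hi → hi ≤ lo + 2 ^ t → 1 ≤ r → c + t * (v + 1) < β * (Q + 1) →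
      r + t * (w + 1 + Q * s) ≤ rm → β * L0 ≤ c + t * (v + 1) + β * 4 := by
  intro t
  induction t with
  | zero =>
    intro c r lo hi P I Y z g h h1 h2 h3 h4 h5
    have : hi = lo + 1 := by
      rw [pow_zero] at h2; omega
    subst this
    have hb' : 2048 * r * Q ^ 3 * Fintype.card S ^ 2 ≤ b := by
      refine le_trans ?_ hb
      apply Nat.mul_le_mul_right
      apply Nat.mul_le_mul_right
      exact Nat.mul_le_mul_left _ (by omega)
    have h6 := dlast hS hmono hwire hJv hleaf hQ h3 hb' hβ hA hk (by omega) h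
    have h7 := pot_card' hβ hA h.dense.1 h.eqI h.pot
    calc β * L0 ≤ β * (I.card + 4) := Nat.mul_le_mul_left _ h6
      _ = β * I.card + β * 4 := by ring
      _ ≤ _ := by omega
  | succ t ih =>
    intro c r lo hi P I Y z g h h1 h2 h3 h4 h5
    have e4 : (t + 1) * (v + 1) = t * (v + 1) + (v + 1) := by ring
    have e5 : (t + 1) * (w + 1 + Q * s) = t * (w + 1 + Q * s) + (w + 1 + Q * s) := by ring
    rw [e4] at h4 ⊢
    rw [e5] at h5
    by_cases hsmall : hi ≤ lo + 2 ^ t
    · have := ih c r lo hi P I Y z g h h1 hsmall h3 (by omega) (by omega)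
      omega
    · push Not at hsmall
      rw [pow_succ] at h2
      obtain ⟨mid, hmid⟩ : ∃ mid, mid = lo + 2 ^ t := ⟨_, rfl⟩
      set W := (range C.size).filter (fun i => lay i = mid) with hW
      have hWc : W.powerset.card ≤ 2 ^ w := by
        rw [Finset.card_powerset]
        exact Nat.pow_le_pow_right (by norm_num) (hw mid)
      have hYpos : Y.Nonempty := by
        rw [← Finset.card_pos]
        have hl := h.large
        unfold Large at hl
        rcases Nat.eq_zero_or_pos Y.card with h0 | h0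
        · rw [h0] at hl
          have : 0 < Fintype.card (U × A → S) := Fintype.card_pos
          omega
        · exact h0
      obtain ⟨T1, hT1, hT1c⟩ := popular Y hYpos W.powerset
        (fun y => W.filter (fun j => C.val (inY y) j = true))
        (fun y _ => Finset.mem_powerset.2 (Finset.filter_subset _ _))
      set Y1 := Y.filter (fun y => W.filter (fun j => C.val (inY y) j = true) = T1) with hY1
      have hY1Y : Y1 ⊆ Y := Finset.filter_subset _ _
      have hlarge1 : Large (r + w) Y1 := by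
        have hl := h.large
        unfold Large at hl ⊢
        calc Fintype.card (U × A → S) ≤ Y.card * 2 ^ r := hl
          _ ≤ (2 ^ w * Y1.card) * 2 ^ r :=
              Nat.mul_le_mul_right _ (hT1c.trans (Nat.mul_le_mul_right _ hWc))
          _ = Y1.card * 2 ^ (r + w) := by
              rw [pow_add 2 r]; ring
      have hb' : 2048 * (r + w) * Q ^ 3 * Fintype.card S ^ 2 ≤ b := by
        refine le_trans ?_ hb
        apply Nat.mul_le_mul_right
        apply Nat.mul_le_mul_right
        exact Nat.mul_le_mul_left _ (by omega)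
      -- the rows name a gate outside of `T1` if there is one
      let f : (U → A) → Option ℕ := fun x =>
        if hx : ∃ j, j ∈ W ∧ j ∉ T1 ∧ C.val (inX x) j = true then some hx.choose else none
      have hTf : (insert none (W.image some) : Finset (Option ℕ)).card ≤ 2 ^ v := by
        refine (Finset.card_insert_le _ _).trans ?_
        have h6 : (W.image some).card ≤ W.card := Finset.card_image_le
        have h7 := hw mid
        rw [← hW] at h7
        omega
      obtain ⟨P', I', Y', γ, T0, g1, g2, g3, g4, g5, g6, g7, g8, g9⟩ := dnarrow (v := v) hS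
        (by omega : 1 ≤ Q) (by omega : 1 ≤ r + w) hs hb' hβ hA (by omega) hk h.dense h.pot h.eqI
        hlarge1 (fun x hx y hy => h.hz x hx y (hY1Y hy)) h.valid (insert none (W.image some)) hTf f
        (fun x _ => by
          by_cases hx : ∃ j, j ∈ W ∧ j ∉ T1 ∧ C.val (inX x) j = true
          · simp only [f, dif_pos hx]
            exact Finset.mem_insert_of_mem (Finset.mem_image_of_mem _ hx.choose_spec.1)
          · simp only [f, dif_neg hx]
            exact Finset.mem_insert_self _ _)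
      have hlarge' : Large (r + (w + 1 + Q * s)) Y' := by
        have : r + w + (1 + Q * s) = r + (w + 1 + Q * s) := by ring
        rw [← this]; exact g6
      cases hT0 : T0 with
      | none =>
        -- the new lower boundary
        have hst : State C inX inY b Valid lay (c + (v + 1)) (r + (w + 1 + Q * s))
            (L0 - I'.card) mid hi P' I' Y' γ g := by
          refine ⟨g3, g4, g5, hlarge', g7, g8, h.hg, h.layg,
            fun x hx => h.hgX x (g1 hx), fun y hy => h.hgY y (hY1Y (g2 hy)), ?_⟩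
          intro j hj hlj x hx y hy hv
          have hjW : j ∈ W := Finset.mem_filter.2 ⟨Finset.mem_range.2 hj, hlj⟩
          by_contra hc
          have hfx := g9 x hx
          rw [hT0] at hfx
          have hex : ∃ j, j ∈ W ∧ j ∉ T1 ∧ C.val (inX x) j = true := by
            refine ⟨j, hjW, fun hjT => hc ?_, hv⟩
            have h6 := (Finset.mem_filter.1 (g2 hy)).2
            rw [← h6] at hjT
            exact (Finset.mem_filter.1 hjT).2
          simp only [f, dif_pos hex] at hfx
          exact absurd hfx (by simp)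
        have := ih _ _ _ _ _ _ _ _ _ hst (by omega) (by omega) (by omega) (by omega)
          (by omega)
        omega
      | some j =>
        obtain ⟨x0, hx0⟩ := g3.1
        have hspec : ∀ x ∈ P', j ∈ W ∧ j ∉ T1 ∧ C.val (inX x) j = true := by
          intro x hx
          have hfx := g9 x hx
          rw [hT0] at hfx
          by_cases hex : ∃ j, j ∈ W ∧ j ∉ T1 ∧ C.val (inX x) j = true
          · simp only [f, dif_pos hex, Option.some.injEq] at hfx
            rw [← hfx]
            exact hex.choose_spec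
          · simp only [f, dif_neg hex] at hfx
            exact absurd hfx (by simp)
        obtain ⟨hjs, hjl⟩ := Finset.mem_filter.1 (hspec x0 hx0).1
        rw [Finset.mem_range] at hjs
        have hst : State C inX inY b Valid lay (c + (v + 1)) (r + (w + 1 + Q * s))
            (L0 - I'.card) lo mid P' I' Y' γ j := by
          refine ⟨g3, g4, g5, hlarge', g7, g8, hjs, hjl, fun x hx => (hspec x hx).2.2, ?_, ?_⟩
          · intro y hy
            have h6 := (Finset.mem_filter.1 (g2 hy)).2
            by_contra hc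
            apply (hspec x0 hx0).2.1
            rw [← h6]
            exact Finset.mem_filter.2 ⟨(hspec x0 hx0).1, by simpa using hc⟩
          · intro j' hj' hlj x hx y hy hv
            exact h.low j' hj' hlj x (g1 hx) y (hY1Y (g2 hy)) hv
        have h2t : 0 < 2 ^ t := Nat.two_pow_pos t
        have := ih _ _ _ _ _ _ _ _ _ hst (by omega) (by omega) (by omega) (by omega)
          (by omega)
        omega

end dsim

theorem dsim [Nonempty S] [Nonempty (U → A)] {M : ℕ} {C : Circuit M}
    {inX : (U → A) → Fin M → Bool}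
    {inY : (U × A → S) → Fin M → Bool} {k b Q s w v v' R rm m' β L0 : ℕ}
    {Valid : Finset U → (U → S) → ℕ → Prop} {Jv : Fin M → Finset U}
    (hS : Strat U S k Valid) (hmono : C.Monotone) {lay : ℕ → ℕ}
    (hlay : ∀ i < C.size, 1 ≤ lay i)
    (hwire : ∀ i < C.size, ∀ j, (C.gate i).wires j ≠ 0 → lay j + 1 = lay i)
    (hw : ∀ l, ((range C.size).filter (fun i => lay i = l)).card ≤ w)
    (hwv : w + 1 ≤ 2 ^ v)
    (hJv : ∀ i, (Jv i).card ≤ 2)
    (hleaf : ∀ i x y I L, inX x i = true → inY y i = false → Jv i ⊆ I →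
      Valid I (fun u => y (u, x u)) L → L = 0)
    (ν : Fin m' → Node M) (hν : ∀ i j, (ν i).wires j ≠ 0 → j < C.size)
    (hm' : m' ≤ 2 ^ v') (hR : C.size ≤ 2 ^ R)
    (hQ4 : 4 ≤ Q) (hs : Fintype.card S ≤ 2 ^ s)
    (hrm : 2 + Q * s + R * (w + 1 + Q * s) ≤ rm)
    (hb : 2048 * rm * Q ^ 3 * Fintype.card S ^ 2 ≤ b) (hβ : 2 ^ β ≤ b)
    (hA : Fintype.card A = b ^ 2) (hk : 2 * Q ≤ k) (hL0 : L0 ≤ Q + 1)
    (h1 : ∀ x, ∃ i, (ν i).eval (inX x) (C.val (inX x)) = true)
    (h0 : ∀ (y : U × A → S) i, (ν i).eval (inY y) (C.val (inY y)) = false)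
    {z : U → S} (hV : Valid ∅ z L0) : β * L0 ≤ v' + 1 + R * (v + 1) + β * 4 := by
  by_cases hcQ : v' + 1 + R * (v + 1) < β * (Q + 1)
  swap
  · push Not at hcQ
    have := Nat.mul_le_mul_left β hL0
    omega
  have hb1 : 1 ≤ b := Nat.one_le_two_pow.trans hβ
  have hmono_b : ∀ r, r ≤ rm → 2048 * r * Q ^ 3 * Fintype.card S ^ 2 ≤ b := fun r hr => by
    refine le_trans ?_ hb
    apply Nat.mul_le_mul_right
    apply Nat.mul_le_mul_right
    exact Nat.mul_le_mul_left _ hr
  choose f hf using h1
  have hd : Dense b (univ : Finset (U → A)) ∅ := by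
    refine ⟨Finset.univ_nonempty, fun J _ β => ?_⟩
    have h2 := card_fix (univ : Finset (U → A)) J β
    rw [Finset.card_univ, Fintype.card_fun]
    refine le_trans ?_ h2
    apply Nat.mul_le_mul_left
    apply Nat.pow_le_pow_left
    rw [hA]
    exact Nat.le_self_pow (by norm_num) b
  obtain ⟨P', I', Y', γ, i0, g1, g2, g3, g4, g5, g6, g7, g8, g9⟩ := dnarrow (Q := Q) (s := s)
    (v := v') (c := 0) (r := 1) (b := b) (β := β) (P := univ) (I := ∅) (Y := univ) (z := z)
    (L0 := L0)
    hS (by omega) le_rfl hs (hmono_b 1 (by omega)) hβ hA (by omega) hk hd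
    (by rw [Finset.card_univ, Fintype.card_fun]; simp) (by simp)
    (by unfold Large; rw [Finset.card_univ]; omega) (by simp) (by simpa using hV)
    (univ : Finset (Fin m')) (by simpa using hm') f (fun x _ => Finset.mem_univ _)
  have hX : ∀ x ∈ P', (ν i0).eval (inX x) (C.val (inX x)) = true := fun x hx => by
    rw [← g9 x hx]; exact hf x
  have hY : ∀ y ∈ Y', (ν i0).eval (inY y) (C.val (inY y)) = false := fun y _ => h0 y i0
  have hIc := pot_card' hβ hA g3.1 g5 g4
  have hIQ : I'.card ≤ Q := by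
    by_contra hc
    push Not at hc
    have : β * (Q + 1) ≤ β * I'.card := Nat.mul_le_mul_left _ hc
    omega
  cases hn : ν i0 with
  | var i =>
    rw [hn] at hX hY
    obtain ⟨x, hx, y, hy, hV'⟩ := dstep hS (by omega) (by omega) (hmono_b _ (by omega)) g3 g6 g7
      g8 (Jv i) ((hJv i).trans (by omega)) (by omega)
    have h2 := hleaf i x y _ _ (hX x hx) (hY y hy) Finset.subset_union_right hV'
    have h3 := hJv i
    have h4 : L0 ≤ I'.card + 4 := by omega
    calc β * L0 ≤ β * (I'.card + 4) := Nat.mul_le_mul_left _ h4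
      _ = β * I'.card + β * 4 := by ring
      _ ≤ _ := by omega
  | const c =>
    rw [hn] at hX hY
    obtain ⟨x, hx, y, hy, -⟩ := dstep hS (by omega) (by omega) (hmono_b _ (by omega)) g3 g6 g7
      g8 ∅ (by simp) (by omega)
    have e1 := hX x hx
    have e2 := hY y hy
    simp only [Node.eval] at e1 e2
    rw [e1] at e2
    exact absurd e2 (by decide)
  | gate g =>
    have hg : g < C.size := hν i0 g (by rw [hn]; simp [Node.wires])
    rw [hn] at hX hY
    obtain ⟨lo, l1, l2, l3⟩ := exists_lo hlay hg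
    have hst : State C inX inY b Valid lay (0 + (v' + 1)) (1 + (1 + Q * s)) (L0 - I'.card) lo
        (lay g) P' I' Y' γ g :=
      ⟨g3, g4, g5, g6, g7, g8, hg, rfl, hX, hY, fun j hj hlj => absurd hlj (l2 j hj)⟩
    have := drounds hS hmono hwire hw hwv hJv hleaf (rm := rm) hQ4 hs hb hβ hA hk R _ _ _ _ _ _ _
      _ _ hst l1 (by omega) (by omega) (by omega) (by omega)
    omega

end Pool.Agent.H540R2.Lift
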