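import Mathlib
import Pool.Agent.H540R2.Lift.RSim
import Pool.Agent.H540R2.Lift.Lower

/-!
# Layered reachability: strategy and lower bound
-/

set_option autoImplicit false
set_option linter.unusedSectionVars false

namespace Pool.Agent.H540R2.Lift

open Finset Classical

/-- the colours `0 … 0` (gap) `1 … 1` with a gap of length at least `2 ^ L` -/
def PVal (n : ℕ) (I : Finset (Fin n)) (z : Fin n → Bool) (L : ℕ) : Prop :=
  ∃ lo hi : ℕ, lo + 2 ^ L ≤ hi ∧ hi ≤ n + 1 ∧
    ∀ u ∈ I, (u.1 + 1 ≤ lo ∧ z u = false) ∨ (hi ≤ u.1 + 1 ∧ z u = true)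

lemma pstrat (n k : ℕ) : Strat (Fin n) Bool k (PVal n) where
  congr := by
    rintro I z z' L h ⟨lo, hi, h1, h2, h3⟩
    exact ⟨lo, hi, h1, h2, fun u hu => by rw [← h u hu]; exact h3 u hu⟩
  mono := by
    rintro I I' z L h ⟨lo, hi, h1, h2, h3⟩
    exact ⟨lo, hi, h1, h2, fun u hu => h3 u (h hu)⟩
  anti := by
    rintro I z L L' h ⟨lo, hi, h1, h2, h3⟩
    exact ⟨lo, hi, (Nat.add_le_add_left (Nat.pow_le_pow_right (by norm_num) h) _).trans h1, h2, h3⟩
  ext := by
    rintro I z L u ⟨lo, hi, h1, h2, h3⟩ hu _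
    have hupd : ∀ (s : Bool) (v : Fin n), v ∈ I → Function.update z u s v = z v := by
      intro s v hv
      rw [Function.update_of_ne]
      rintro rfl
      exact hu hv
    have hL1 : 2 ^ (L - 1) ≤ 2 ^ L := Nat.pow_le_pow_right (by norm_num) (by omega)
    have hpos : 1 ≤ 2 ^ (L - 1) := Nat.one_le_two_pow
    have h2L : 2 ^ L = 2 * 2 ^ (L - 1) ∨ 2 ^ (L - 1) = 1 := by
      rcases Nat.eq_zero_or_pos L with h | h
      · right; rw [h]; norm_num
      · left; rw [← pow_succ']; congr 1; omega
    by_cases c1 : u.1 + 1 ≤ lo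
    · refine ⟨false, lo, hi, by omega, h2, fun v hv => ?_⟩
      rcases Finset.mem_insert.1 hv with rfl | hv
      · exact Or.inl ⟨c1, by simp⟩
      · rw [hupd _ v hv]; exact h3 v hv
    · by_cases c2 : hi ≤ u.1 + 1
      · refine ⟨true, lo, hi, by omega, h2, fun v hv => ?_⟩
        rcases Finset.mem_insert.1 hv with rfl | hv
        · exact Or.inr ⟨c2, by simp⟩
        · rw [hupd _ v hv]; exact h3 v hv
      · by_cases c3 : lo + 2 ^ (L - 1) ≤ u.1 + 1
        · refine ⟨true, lo, u.1 + 1, c3, by omega, fun v hv => ?_⟩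
          rcases Finset.mem_insert.1 hv with rfl | hv
          · exact Or.inr ⟨le_rfl, by simp⟩
          · rw [hupd _ v hv]
            rcases h3 v hv with h | h
            · exact Or.inl h
            · exact Or.inr ⟨by omega, h.2⟩
        · refine ⟨false, u.1 + 1, hi, by omega, h2, fun v hv => ?_⟩
          rcases Finset.mem_insert.1 hv with rfl | hv
          · exact Or.inl ⟨le_rfl, by simp⟩
          · rw [hupd _ v hv]
            rcases h3 v hv with h | h
            · exact Or.inl ⟨by omega, h.2⟩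
            · exact Or.inr h

/-- the variables of the layered graph with the layers `0, …, n + 1` of `m` vertices: the edges from
layer `l` to layer `l + 1` -/
abbrev RVar (n m : ℕ) := Fin (n + 1) × Fin m × Fin m

/-- the vertices reachable from vertex `0` of layer `0` -/
def rlay {n m : ℕ} [NeZero m] (x : RVar n m → Bool) : ℕ → Fin m → Bool
  | 0, c => decide (c = 0)
  | l + 1, c => if h : l < n + 1 then
      decide (∃ a, rlay x l a = true ∧ x (⟨l, h⟩, a, c) = true) else false

/-- vertex `0` of layer `n + 1` is reachable from vertex `0` of layer `0` -/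
def RF {n m : ℕ} [NeZero m] (x : RVar n m → Bool) : Bool := rlay x (n + 1) 0

variable {n m M : ℕ}

/-- the vertices of a path -/
def rvert [NeZero m] (x : Fin n → Fin m) (l : ℕ) : Fin m :=
  if h : 1 ≤ l ∧ l ≤ n then x ⟨l - 1, by omega⟩ else 0

/-- the colour of a vertex -/
def rcol (y : Fin n × Fin m → Bool) (l : ℕ) (a : Fin m) : Bool :=
  if h : 1 ≤ l ∧ l ≤ n then y (⟨l - 1, by omega⟩, a) else decide (n < l)

/-- the edges of a path -/
def rA [NeZero m] (x : Fin n → Fin m) : RVar n m → Bool :=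
  fun v => decide (v.2.1 = rvert x v.1 ∧ v.2.2 = rvert x (v.1 + 1))

/-- the edges between vertices of the same colour -/
def rB (y : Fin n × Fin m → Bool) : RVar n m → Bool :=
  fun v => decide (rcol y v.1 v.2.1 = rcol y (v.1 + 1) v.2.2)

lemma rlay_A [NeZero m] (x : Fin n → Fin m) : ∀ l ≤ n + 1, rlay (rA x) l (rvert x l) = true := by
  intro l
  induction l with
  | zero => intro _; simp [rlay, rvert]
  | succ l ih =>
    intro hl
    have hl' : l < n + 1 := by omega
    simp only [rlay, dif_pos hl', decide_eq_true_eq]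
    exact ⟨rvert x l, ih (by omega), by simp [rA]⟩

lemma RF_A [NeZero m] (x : Fin n → Fin m) : RF (rA x) = true := by
  have h := rlay_A x (n + 1) le_rfl
  have h0 : rvert x (n + 1) = 0 := by unfold rvert; rw [dif_neg (by omega)]
  rw [h0] at h
  exact h

lemma rlay_B [NeZero m] (y : Fin n × Fin m → Bool) : ∀ l ≤ n + 1, ∀ a,
    rlay (rB y) l a = true → rcol y l a = false := by
  intro l
  induction l with
  | zero => intro _ a _; simp [rcol]
  | succ l ih =>
    intro hl a ha
    have hl' : l < n + 1 := by omega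
    simp only [rlay, dif_pos hl', decide_eq_true_eq] at ha
    obtain ⟨a', h1, h2⟩ := ha
    have h3 := ih (by omega) a' h1
    simp only [rB, decide_eq_true_eq] at h2
    rw [← h2]; exact h3

lemma RF_B [NeZero m] (y : Fin n × Fin m → Bool) : RF (rB y) = false := by
  by_contra h
  have h1 := rlay_B y (n + 1) le_rfl 0 (by simpa [RF] using h)
  have h2 : rcol y (n + 1) 0 = true := by
    unfold rcol; rw [dif_neg (by omega)]; simp
  rw [h2] at h1
  exact absurd h1 (by decide)

/-- the inner positions of an edge -/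
def rJ (v : RVar n m) : Finset (Fin n) :=
  univ.filter (fun u => u.1 + 1 = v.1.1 ∨ u.1 = v.1.1)

lemma rJ_card (v : RVar n m) : (rJ v).card ≤ 2 := by
  have h : (rJ v).image (fun u => u.1) ⊆ {v.1.1 - 1, v.1.1} := by
    intro i hi
    obtain ⟨u, hu, rfl⟩ := Finset.mem_image.1 hi
    have := (Finset.mem_filter.1 hu).2
    rw [Finset.mem_insert, Finset.mem_singleton]
    omega
  rw [← Finset.card_image_of_injective (rJ v) Fin.val_injective]
  exact (Finset.card_le_card h).trans Finset.card_le_two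

lemma rleaf [NeZero m] (v : RVar n m) (x : Fin n → Fin m) (y : Fin n × Fin m → Bool)
    (I : Finset (Fin n)) (L : ℕ) (hA : rA x v = true) (hB : rB y v = false) (hI : rJ v ⊆ I)
    (hV : PVal n I (fun u => y (u, x u)) L) : L = 0 := by
  obtain ⟨lo, hi, h1, h2, h3⟩ := hV
  obtain ⟨⟨l, hl⟩, a, a'⟩ := v
  simp only [rA, decide_eq_true_eq] at hA
  simp only [rB, decide_eq_false_iff_not] at hB
  obtain ⟨rfl, rfl⟩ := hA
  have key : ∀ j, (j = l ∨ j = l + 1) → (j ≤ lo ∧ rcol y j (rvert x j) = false) ∨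
      (hi ≤ j ∧ rcol y j (rvert x j) = true) := by
    intro j hj
    by_cases hjn : 1 ≤ j ∧ j ≤ n
    · have hu : (⟨j - 1, by omega⟩ : Fin n) ∈ I := by
        apply hI
        refine Finset.mem_filter.2 ⟨Finset.mem_univ _, ?_⟩
        simp only
        omega
      have e1 : rcol y j (rvert x j) = y (⟨j - 1, by omega⟩, x ⟨j - 1, by omega⟩) := by
        unfold rcol rvert
        rw [dif_pos hjn, dif_pos hjn]
      rw [e1]
      rcases h3 _ hu with ⟨g1, g2⟩ | ⟨g1, g2⟩
      · refine Or.inl ⟨?_, g2⟩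
        simp only at g1
        omega
      · refine Or.inr ⟨?_, g2⟩
        simp only at g1
        omega
    · have e1 : rcol y j (rvert x j) = decide (n < j) := by
        unfold rcol
        rw [dif_neg hjn]
      rw [e1]
      rcases Nat.eq_zero_or_pos j with h0 | h0
      · subst h0
        exact Or.inl ⟨Nat.zero_le _, by simp⟩
      · refine Or.inr ⟨by omega, ?_⟩
        rw [decide_eq_true_eq]
        omega
  rcases key l (Or.inl rfl) with ⟨k1, k2⟩ | ⟨k1, k2⟩
  · rcases key (l + 1) (Or.inr rfl) with ⟨k3, k4⟩ | ⟨k3, k4⟩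
    · exact absurd (k2.trans k4.symm) hB
    · by_contra hL
      have : 2 ^ 1 ≤ 2 ^ L := Nat.pow_le_pow_right (by norm_num) (by omega)
      omega
  · rcases key (l + 1) (Or.inr rfl) with ⟨k3, k4⟩ | ⟨k3, k4⟩
    · have : 1 ≤ 2 ^ L := Nat.one_le_two_pow
      omega
    · exact absurd (k2.trans k4.symm) hB

lemma RF_false [NeZero m] : RF (fun _ : RVar n m => false) = false := by
  unfold RF
  simp [rlay]

lemma ext_r {e : RVar n m → Fin M} (he : Function.Injective e) (t : RVar n m → Bool)
    (v : RVar n m) : (fun i : Fin M => if h : ∃ v, e v = i then t h.choose else false) (e v) =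
      t v := by
  have h : ∃ v', e v' = e v := ⟨v, rfl⟩
  simp only [dif_pos h]
  rw [he h.choose_spec]

/-- the lower bound for layered reachability -/
theorem rlower {b Q w v v' R rm m' β L0 : ℕ} (hn : 2 ^ L0 ≤ n + 1)
    (e : RVar n (b ^ 2) → Fin M) [NeZero (b ^ 2)]
    (he : Function.Injective e) (C : Circuit M) (hmono : C.Monotone) {lay : ℕ → ℕ}
    (hlay : ∀ i < C.size, 1 ≤ lay i)
    (hwire : ∀ i < C.size, ∀ j, (C.gate i).wires j ≠ 0 → lay j + 1 = lay i)
    (hw : ∀ l, ((range C.size).filter (fun i => lay i = l)).card ≤ w)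
    (hwv : w + 1 ≤ 2 ^ v)
    (ν : Fin m' → Node M) (hν : ∀ i j, (ν i).wires j ≠ 0 → j < C.size)
    (hF : ∀ x : Fin M → Bool, RF (fun v => x (e v)) = true ↔
      ∃ i, (ν i).eval x (C.val x) = true)
    (hm' : m' ≤ 2 ^ v') (hR : C.size ≤ 2 ^ R) (hQ4 : 4 ≤ Q) (hL0 : L0 ≤ Q + 1)
    (hrm : 2 + Q + R * (w + 1 + Q) ≤ rm)
    (hb : 2048 * rm * Q ^ 3 * 4 ≤ b) (hβ : 2 ^ β ≤ b) :
    β * L0 ≤ v' + 1 + R * (v + 1) + β * 4 := by
  have hne : Nonempty (Fin n → Fin (b ^ 2)) := ⟨fun _ => 0⟩
  refine dsim (U := Fin n) (A := Fin (b ^ 2)) (S := Bool) (Q := Q) (b := b) (s := 1)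
    (k := 2 * Q)
    (C := C) (inX := fun x i => if h : ∃ v, e v = i then rA x h.choose else false)
    (inY := fun y i => if h : ∃ v, e v = i then rB y h.choose else false)
    (Jv := fun i => if h : ∃ v, e v = i then rJ h.choose else ∅) (z := fun _ => false)
    (Valid := PVal n) (rm := rm)
    (pstrat n (2 * Q)) hmono hlay hwire hw hwv ?_ ?_ ν hν hm' hR hQ4 (by simp)
    (by rw [mul_one]; exact hrm) (by rw [Fintype.card_bool]; exact hb) hβ (by simp) le_rfl hL0
    ?_ ?_ ?_
  · intro i
    split_ifs with h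
    · exact rJ_card _
    · simp
  · intro i x y I L hx hy hI hV
    by_cases h : ∃ v, e v = i
    · rw [dif_pos h] at hx hy hI
      exact rleaf h.choose x y I L hx hy hI hV
    · rw [dif_neg h] at hx
      exact absurd hx (by decide)
  · intro x
    refine (hF _).1 ?_
    have h1 : (fun v => (fun i : Fin M => if h : ∃ v, e v = i then rA x h.choose else false)
        (e v)) = rA x := funext fun v => ext_r he _ v
    rw [h1]
    exact RF_A x
  · intro y i
    by_contra hc
    have h2 := (hF (fun i => if h : ∃ v, e v = i then rB y h.choose else false)).2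
      ⟨i, by simpa using hc⟩
    have h1 : (fun v => (fun i : Fin M => if h : ∃ v, e v = i then rB y h.choose else false)
        (e v)) = rB y := funext fun v => ext_r he _ v
    rw [h1, RF_B y] at h2
    exact absurd h2 (by decide)
  · exact ⟨0, n + 1, by omega, le_rfl, by simp⟩

end Pool.Agent.H540R2.Lift
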