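import Mathlib
import Pool.Agent.H540R2.Lift.Reach

/-!
# Parallel copies of layered graphs
-/

set_option autoImplicit false
set_option linter.unusedSectionVars false

namespace Pool.Agent.H540R2.Lift

open Finset Classical

section copies

variable {N n m c : ℕ} [NeZero m]

/-- the vertices of parallel copies of a layered graph with common source `s` and sink `t` -/
structure IsCopies (s t : Fin N) (vert : Fin c → Fin (n + 2) → Fin m → Fin N) : Prop where
  ne : s ≠ t
  src : ∀ j, vert j 0 0 = s
  snk : ∀ j, vert j (Fin.last (n + 1)) 0 = t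
  inj : ∀ j l a j' l' a', vert j l a = vert j' l' a' → (j = j' ∧ l = l' ∧ a = a') ∨
    (l = 0 ∧ l' = 0 ∧ a = 0 ∧ a' = 0) ∨
    (l = Fin.last (n + 1) ∧ l' = Fin.last (n + 1) ∧ a = 0 ∧ a' = 0)

/-- the end vertices of an edge of a copy -/
def edge (vert : Fin c → Fin (n + 2) → Fin m → Fin N) (j : Fin c) (v : RVar n m) :
    Fin N × Fin N := (vert j v.1.castSucc v.2.1, vert j v.1.succ v.2.2)

lemma edge_inj {s t : Fin N} {vert : Fin c → Fin (n + 2) → Fin m → Fin N}
    (h : IsCopies s t vert) (hn : 1 ≤ n) (j j' : Fin c) (v v' : RVar n m)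
    (he : edge vert j v = edge vert j' v') : j = j' ∧ v = v' := by
  obtain ⟨l, a, a'⟩ := v
  obtain ⟨l', b, b'⟩ := v'
  simp only [edge, Prod.mk.injEq] at he
  obtain ⟨h1, h2⟩ := he
  have hcl : ∀ l : Fin (n + 1), l.castSucc ≠ Fin.last (n + 1) := fun l =>
    (Fin.castSucc_lt_last l).ne
  rcases h.inj _ _ _ _ _ _ h1 with ⟨e1, e2, e3⟩ | ⟨e1, e2, e3, e4⟩ | ⟨e1, -, -, -⟩
  · have e2' : l = l' := Fin.castSucc_injective _ e2
    subst e1 e2' e3
    rcases h.inj _ _ _ _ _ _ h2 with ⟨-, -, g3⟩ | ⟨g1, -, -, -⟩ | ⟨-, -, g3, g4⟩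
    · exact ⟨rfl, by rw [g3]⟩
    · exact absurd g1 (Fin.succ_ne_zero l)
    · exact ⟨rfl, by rw [g3, g4]⟩
  · have e1' : l = 0 := Fin.castSucc_injective _ (by rw [e1]; rfl)
    have e2' : l' = 0 := Fin.castSucc_injective _ (by rw [e2]; rfl)
    subst e1' e2' e3 e4
    rcases h.inj _ _ _ _ _ _ h2 with ⟨g1, -, g3⟩ | ⟨g1, -, -, -⟩ | ⟨g1, -, -, -⟩
    · exact ⟨g1, by rw [g3]⟩
    · exact absurd g1 (Fin.succ_ne_zero _)
    · exfalso
      have := congrArg Fin.val g1
      simp only [Fin.val_succ, Fin.val_last] at this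
      have h0 : ((0 : Fin (n + 1)) : ℕ) = 0 := rfl
      omega
  · exact absurd e1 (hcl l)

lemma copies_reach {s t : Fin N} {vert : Fin c → Fin (n + 2) → Fin m → Fin N}
    (h : IsCopies s t vert) (A : Fin N → Fin N → Bool)
    (hA : ∀ u v, A u v = true → ∃ j w, edge vert j w = (u, v)) :
    Relation.ReflTransGen (fun u v => A u v = true) s t ↔
      ∃ j, RF (fun w : RVar n m => A (edge vert j w).1 (edge vert j w).2) = true := by
  have hcl : ∀ l : Fin (n + 1), l.castSucc ≠ Fin.last (n + 1) := fun l =>
    (Fin.castSucc_lt_last l).ne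
  constructor
  · intro hr
    have hinv : ∀ u, Relation.ReflTransGen (fun u v => A u v = true) s u →
        (∀ j (l : Fin (n + 2)) a, l ≠ Fin.last (n + 1) → u = vert j l a →
          rlay (fun w : RVar n m => A (edge vert j w).1 (edge vert j w).2) l.1 a = true) ∧
        (u = t → ∃ j, RF (fun w : RVar n m => A (edge vert j w).1 (edge vert j w).2) =
          true) := by
      intro u hu
      induction hu with
      | refl =>
        refine ⟨fun j l a hl hs => ?_, fun hst => absurd hst h.ne⟩
        rw [← h.src j] at hs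
        rcases h.inj _ _ _ _ _ _ hs with ⟨-, e2, e3⟩ | ⟨-, e2, -, e4⟩ | ⟨-, e2, -, -⟩
        · subst e2 e3; simp [rlay]
        · subst e2 e4; simp [rlay]
        · exact absurd e2 hl
      | @tail u v _ huv ih =>
        obtain ⟨j0, ⟨l0, a0, a0'⟩, hw⟩ := hA u v huv
        have hw' := hw
        simp only [edge, Prod.mk.injEq] at hw
        obtain ⟨w1, w2⟩ := hw
        have h1 := ih.1 j0 l0.castSucc a0 (hcl l0) w1.symm
        have h2 : rlay (fun w : RVar n m => A (edge vert j0 w).1 (edge vert j0 w).2)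
            (l0.1 + 1) a0' = true := by
          simp only [rlay, dif_pos l0.2, decide_eq_true_eq]
          refine ⟨a0, h1, ?_⟩
          show A (edge vert j0 (⟨l0.1, l0.2⟩, a0, a0')).1 (edge vert j0 (⟨l0.1, l0.2⟩, a0, a0')).2
            = true
          rw [show ((⟨l0.1, l0.2⟩ : Fin (n + 1)), a0, a0') = (l0, a0, a0') from rfl, hw']
          exact huv
        refine ⟨fun j l a hl hv => ?_, fun hvt => ⟨j0, ?_⟩⟩
        · rw [← w2] at hv
          rcases h.inj _ _ _ _ _ _ hv with ⟨e1, e2, e3⟩ | ⟨e1, -, -, -⟩ | ⟨-, e2, -, -⟩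
          · subst e1 e3
            rw [← e2]
            exact h2
          · exact absurd e1 (Fin.succ_ne_zero _)
          · exact absurd e2 hl
        · rw [← w2, ← h.snk j0] at hvt
          have hlast : ∀ (e1 : l0.succ = Fin.last (n + 1)) (e3 : a0' = 0),
              RF (fun w : RVar n m => A (edge vert j0 w).1 (edge vert j0 w).2) = true := by
            intro e1 e3
            subst e3
            have e4 := congrArg Fin.val e1
            simp only [Fin.val_succ, Fin.val_last] at e4
            rw [e4] at h2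
            exact h2
          rcases h.inj _ _ _ _ _ _ hvt with ⟨-, e2, e3⟩ | ⟨e1, -, -, -⟩ | ⟨e1, -, e3, -⟩
          · exact hlast e2 e3
          · exact absurd e1 (Fin.succ_ne_zero _)
          · exact hlast e1 e3
    exact (hinv t hr).2 rfl
  · rintro ⟨j, hj⟩
    have key : ∀ l (hl : l < n + 2) a,
        rlay (fun w : RVar n m => A (edge vert j w).1 (edge vert j w).2) l a = true →
        Relation.ReflTransGen (fun u v => A u v = true) s (vert j ⟨l, hl⟩ a) := by
      intro l
      induction l with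
      | zero =>
        intro hl a ha
        simp only [rlay, decide_eq_true_eq] at ha
        subst ha
        rw [show (⟨0, hl⟩ : Fin (n + 2)) = 0 from rfl, h.src j]
      | succ l ih =>
        intro hl a ha
        have hl' : l < n + 1 := by omega
        simp only [rlay, dif_pos hl', decide_eq_true_eq] at ha
        obtain ⟨a', h1, h2⟩ := ha
        exact (ih (by omega) a' h1).tail h2
    have := key (n + 1) (by omega) 0 hj
    rw [show (⟨n + 1, by omega⟩ : Fin (n + 2)) = Fin.last (n + 1) from rfl, h.snk j] at this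
    exact this

end copies

end Pool.Agent.H540R2.Lift
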