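import Mathlib
import Pool.Agent.H540R2.Lift.RHost
import Pool.Agent.H540R2.Lift.Neg2

/-!
# The host graph and the lower bound at one scale
-/

set_option autoImplicit false
set_option linter.unusedSectionVars false

namespace Pool.Agent.H540R2.Lift

open Finset Classical

/-- half gadget size at scale `p` -/
def rb (p : ℕ) : ℕ := 2 ^ (p + 1)

/-- number of inner layers at scale `p` -/
def rn (p : ℕ) : ℕ := 2 ^ (p + 1) - 1

/-- number of copies at scale `p` -/
def rc (N p : ℕ) : ℕ := N / (4 * ((Nat.log 2 N + 1) * rb p ^ 5))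

lemma rb_ge (p : ℕ) : 2 ≤ rb p := by
  unfold rb
  calc 2 = 2 ^ 1 := rfl
    _ ≤ _ := Nat.pow_le_pow_right (by norm_num) (by omega)

lemma rn_eq (p : ℕ) : rn p + 1 = rb p := by
  have := rb_ge p
  unfold rn rb at *
  omega

instance (p : ℕ) : NeZero (rb p ^ 2) := ⟨by have := rb_ge p; positivity⟩

/-- inner vertices -/
abbrev RVt (N : ℕ) := Σ p : Fin (Nat.log 2 N + 1),
  Fin (rc N p.1) × Fin (rn p.1 + 2) × Fin (rb p.1 ^ 2)

lemma rc_mul (N p : ℕ) : 4 * ((Nat.log 2 N + 1) * (rc N p * rb p ^ 5)) ≤ N := by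
  calc 4 * ((Nat.log 2 N + 1) * (rc N p * rb p ^ 5))
      = rc N p * (4 * ((Nat.log 2 N + 1) * rb p ^ 5)) := by ring
    _ ≤ N := Nat.div_mul_le_self _ _

lemma rsum (N : ℕ) (g : ℕ → ℕ) (hg : ∀ p, g p ≤ rc N p * rb p ^ 5) :
    4 * ∑ p : Fin (Nat.log 2 N + 1), g p.1 ≤ N := by
  have h1 : ∀ p ∈ (Finset.univ : Finset (Fin (Nat.log 2 N + 1))),
      (Nat.log 2 N + 1) * (4 * g p.1) ≤ N := by
    intro p _
    calc (Nat.log 2 N + 1) * (4 * g p.1) ≤ (Nat.log 2 N + 1) * (4 * (rc N p.1 * rb p.1 ^ 5)) :=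
          Nat.mul_le_mul_left _ (Nat.mul_le_mul_left _ (hg _))
      _ = 4 * ((Nat.log 2 N + 1) * (rc N p.1 * rb p.1 ^ 5)) := by ring
      _ ≤ N := rc_mul N p.1
  have h3 := Finset.sum_le_sum h1
  rw [← Finset.mul_sum] at h3
  simp only [Finset.sum_const, Finset.card_univ, Fintype.card_fin, smul_eq_mul] at h3
  rw [Finset.mul_sum]
  exact Nat.le_of_mul_le_mul_left h3 (Nat.succ_pos _)

lemma card_RVt (N : ℕ) : 4 * Fintype.card (RVt N) ≤ N := by
  rw [Fintype.card_sigma]
  refine rsum N (fun p => Fintype.card (Fin (rc N p) × Fin (rn p + 2) × Fin (rb p ^ 2)))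
    (fun p => ?_)
  simp only [Fintype.card_prod, Fintype.card_fin]
  apply Nat.mul_le_mul_left
  have h1 := rb_ge p
  have h2 := rn_eq p
  calc (rn p + 2) * rb p ^ 2 = (rb p + 1) * rb p ^ 2 := by rw [← h2]
    _ ≤ rb p ^ 3 * rb p ^ 2 := by
        apply Nat.mul_le_mul_right
        calc rb p + 1 ≤ 2 * rb p := by omega
          _ ≤ rb p * rb p := Nat.mul_le_mul_right _ h1
          _ = rb p ^ 2 := by ring
          _ ≤ rb p ^ 3 := Nat.pow_le_pow_right (by omega) (by omega)
    _ = rb p ^ 5 := by ring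

lemma exists_phi {N : ℕ} (hN : 2 ≤ N) : ∃ φ : RVt N → Fin N, Function.Injective φ ∧
    (∀ v, φ v ≠ ⟨0, by omega⟩) ∧ ∀ v, φ v ≠ ⟨1, by omega⟩ := by
  have h := card_RVt N
  have h2 : Fintype.card (RVt N) + 2 ≤ N := by omega
  let eq := Fintype.equivFin (RVt N)
  refine ⟨fun v => ⟨(eq v).1 + 2, by have := (eq v).2; omega⟩, fun v w hvw => ?_, fun v => ?_,
    fun v => ?_⟩
  · simp only [Fin.mk.injEq, Nat.add_right_cancel_iff] at hvw
    exact eq.injective (Fin.ext hvw)
  · intro hv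
    have := congrArg Fin.val hv
    simp only at this
    omega
  · intro hv
    have := congrArg Fin.val hv
    simp only at this
    omega

/-- the vertices of a copy -/
def vertW {N : ℕ} (s t : Fin N) (φ : RVt N → Fin N) (p : Fin (Nat.log 2 N + 1))
    (j : Fin (rc N p.1)) (l : Fin (rn p.1 + 2)) (a : Fin (rb p.1 ^ 2)) : Fin N :=
  if l = 0 ∧ a = 0 then s else if l = Fin.last (rn p.1 + 1) ∧ a = 0 then t else φ ⟨p, j, l, a⟩

lemma vertW_copies {N : ℕ} {s t : Fin N} (hst : s ≠ t) {φ : RVt N → Fin N}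
    (hφ : Function.Injective φ) (h0 : ∀ v, φ v ≠ s) (h1 : ∀ v, φ v ≠ t)
    (p : Fin (Nat.log 2 N + 1)) : IsCopies s t (vertW s t φ p) where
  ne := hst
  src := fun j => by unfold vertW; rw [if_pos ⟨rfl, rfl⟩]
  snk := fun j => by
    unfold vertW
    rw [if_neg, if_pos ⟨rfl, rfl⟩]
    rintro ⟨h, -⟩
    have := congrArg Fin.val h
    simp at this
  inj := by
    intro j l a j' l' a' h
    unfold vertW at h
    by_cases c1 : l = 0 ∧ a = 0
    · rw [if_pos c1] at h
      by_cases c2 : l' = 0 ∧ a' = 0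
      · exact Or.inr (Or.inl ⟨c1.1, c2.1, c1.2, c2.2⟩)
      · rw [if_neg c2] at h
        by_cases c3 : l' = Fin.last (rn p.1 + 1) ∧ a' = 0
        · rw [if_pos c3] at h; exact absurd h hst
        · rw [if_neg c3] at h; exact absurd h.symm (h0 _)
    · rw [if_neg c1] at h
      by_cases c4 : l = Fin.last (rn p.1 + 1) ∧ a = 0
      · rw [if_pos c4] at h
        by_cases c2 : l' = 0 ∧ a' = 0
        · rw [if_pos c2] at h; exact absurd h.symm hst
        · rw [if_neg c2] at h
          by_cases c3 : l' = Fin.last (rn p.1 + 1) ∧ a' = 0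
          · exact Or.inr (Or.inr ⟨c4.1, c3.1, c4.2, c3.2⟩)
          · rw [if_neg c3] at h; exact absurd h.symm (h1 _)
      · rw [if_neg c4] at h
        by_cases c2 : l' = 0 ∧ a' = 0
        · rw [if_pos c2] at h; exact absurd h (h0 _)
        · rw [if_neg c2] at h
          by_cases c3 : l' = Fin.last (rn p.1 + 1) ∧ a' = 0
          · rw [if_pos c3] at h; exact absurd h (h1 _)
          · rw [if_neg c3] at h
            have h5 := hφ h
            simp only [Sigma.mk.injEq, heq_eq_eq, true_and, Prod.mk.injEq] at h5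
            exact Or.inl h5

/-- the host graph -/
noncomputable def hostG {N : ℕ} (s t : Fin N) (φ : RVt N → Fin N) : Finset (Fin N × Fin N) :=
  (univ : Finset (Σ p : Fin (Nat.log 2 N + 1), Fin (rc N p.1) × RVar (rn p.1) (rb p.1 ^ 2))).image
    (fun v => edge (vertW s t φ v.1) v.2.1 v.2.2)

lemma hostG_card {N : ℕ} (s t : Fin N) (φ : RVt N → Fin N) : (hostG s t φ).card ≤ N := by
  unfold hostG
  refine Finset.card_image_le.trans ?_
  rw [Finset.card_univ, Fintype.card_sigma]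
  have h := rsum N (fun p => Fintype.card (Fin (rc N p) × RVar (rn p) (rb p ^ 2))) (fun p => ?_)
  · omega
  · simp only [Fintype.card_prod, Fintype.card_fin]
    apply Nat.mul_le_mul_left
    rw [rn_eq p]
    apply le_of_eq
    ring

/-- the lower bound at one scale -/
lemma rlow1 {N : ℕ} {s t : Fin N} (hst : s ≠ t) {φ : RVt N → Fin N}
    (hφ : Function.Injective φ) (h0 : ∀ v, φ v ≠ s) (h1 : ∀ v, φ v ≠ t)
    (C : Circuit (N * N))
    (hC : ∀ x : Fin (N * N) → Bool,
      (∀ u v, x (finProdFinEquiv (u, v)) = true → (u, v) ∈ hostG s t φ) →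
      (C.eval x = true ↔
        Relation.ReflTransGen (fun u v => x (finProdFinEquiv (u, v)) = true) s t))
    {w q v Q rm : ℕ} (hw : C.Layered w) (hs : C.size ≤ 2 ^ q) (hwv : w + 1 ≤ 2 ^ v)
    {p : ℕ} (hp : p ≤ Nat.log 2 N) (hcop : 2 ^ C.nots ≤ rc N p) (hQ4 : 4 ≤ Q)
    (hQ : p ≤ Q) (hrm : 2 + Q + q * (w + 1 + Q) ≤ rm)
    (hb : 2048 * rm * Q ^ 3 * 4 ≤ rb p) :
    (p + 1) * (p + 1) ≤ (q + 1) + 1 + q * (v + 1) + (p + 1) * 4 := by
  obtain ⟨d, lay, g1, g2, g3, g4⟩ := hw
  obtain ⟨P, hP⟩ : ∃ P : Fin (Nat.log 2 N + 1), P = ⟨p, by omega⟩ := ⟨_, rfl⟩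
  have hPp : P.1 = p := by rw [hP]
  rw [← hPp] at hcop
  have hcop' := vertW_copies hst hφ h0 h1 P
  have hn1 : 1 ≤ rn P.1 := by
    have := rb_ge P.1
    have := rn_eq P.1
    omega
  obtain ⟨j, C', ν, a1, a2, a3, a4, a5⟩ := freeze_core C (m := rc N P.1)
    (fun (j : Fin (rc N P.1)) (v : RVar (rn P.1) (rb P.1 ^ 2)) =>
      finProdFinEquiv (edge (vertW s t φ P) j v))
    (fun j j' v v' h => edge_inj hcop' hn1 j j' v v' (finProdFinEquiv.injective h)) RF RF_false
    (fun x hx => by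
      have hsup : ∀ u v, x (finProdFinEquiv (u, v)) = true →
          ∃ j w, edge (vertW s t φ P) j w = (u, v) := by
        intro u v huv
        by_contra hc
        push Not at hc
        have := hx (finProdFinEquiv (u, v)) (fun j w h => hc j w (finProdFinEquiv.injective h))
        rw [this] at huv
        exact absurd huv (by decide)
      have h5 := hC x (fun u v huv => by
        obtain ⟨j, w, hw⟩ := hsup u v huv
        unfold hostG
        refine Finset.mem_image.2 ⟨⟨P, j, w⟩, Finset.mem_univ _, hw⟩)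
      have h6 := copies_reach hcop' (fun u v => x (finProdFinEquiv (u, v))) hsup
      rw [Bool.eq_iff_iff, decide_eq_true_iff, h5, h6])
    hcop
  have h := rlower (M := N * N) (n := rn P.1) (b := rb P.1) (Q := Q) (w := w) (v := v)
    (v' := q + 1) (R := q) (rm := rm) (m' := C.size + 1) (β := p + 1) (L0 := p + 1)
    (by rw [rn_eq, hPp]; exact le_rfl)
    (fun v => finProdFinEquiv (edge (vertW s t φ P) j v))
    (fun v v' h => (edge_inj hcop' hn1 j j v v' (finProdFinEquiv.injective h)).2)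
    C' a1 (lay := lay) (by rw [a2]; exact fun l hl => (g1 l hl).1)
    (by
      rw [a2]
      intro l hl j' hj'
      exact g2 l hl j' (a3 l hl j' hj'))
    (by rw [a2]; exact g4) hwv ν a4 a5
    (by
      have h1 : 2 ^ (q + 1) = 2 * 2 ^ q := by rw [pow_succ]; ring
      have h2 : 1 ≤ 2 ^ q := Nat.one_le_two_pow
      omega) (by rw [a2]; exact hs) hQ4 (by omega) hrm (by rw [hPp]; exact hb)
    (by rw [hPp]; exact le_rfl)
  exact h

end Pool.Agent.H540R2.Lift
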