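import Mathlib
import Pool.Agent.H540R2.Lift.RLow
import Pool.Agent.H540R2.Lift.WMain

/-!
# Size, width and NOT gates of circuits for directed connectivity
-/

set_option autoImplicit false

namespace Pool.Agent.H540R2.Lift

lemma sq_le_exp (y : ℕ) : (y + 7) ^ 2 ≤ 64 * 2 ^ y := by
  induction y with
  | zero => norm_num
  | succ y ih =>
    have h : (y + 1 + 7) ^ 2 ≤ 2 * (y + 7) ^ 2 := by
      have e : (y + 1 + 7) ^ 2 + (y * y + 12 * y + 34) = 2 * (y + 7) ^ 2 := by ring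
      omega
    calc (y + 1 + 7) ^ 2 ≤ 2 * (y + 7) ^ 2 := h
      _ ≤ 2 * (64 * 2 ^ y) := Nat.mul_le_mul_left _ ih
      _ = 64 * 2 ^ (y + 1) := by rw [pow_succ]; ring

/-- the case distinction on the scale `P` -/
lemma scale_arith : ∃ c1 : ℕ, 9 ≤ c1 ∧ ∀ P q w : ℕ, 1 ≤ P → P ≤ q → 1 ≤ w →
    (2048 * (2 + (P + 4) + q * (w + 1 + (P + 4))) * (P + 4) ^ 3 * 4 ≤ 2 ^ P →
      P * P ≤ (q + 1) + 1 + q * (Nat.log 2 w + 1 + 1) + P * 4) →
    P * P ≤ c1 * (q * (Nat.log 2 w + 1)) := by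
  obtain ⟨L0, hL0⟩ := poly_le_exp (2 ^ 15 * 5 ^ 6) 6
  refine ⟨2 * L0 + 11, by omega, fun P q w hP hPq hw h => ?_⟩
  obtain ⟨y, hy⟩ : ∃ y, y = Nat.log 2 w + 1 := ⟨_, rfl⟩
  have hy1 : 1 ≤ y := by omega
  have hwy : w < 2 ^ y := by rw [hy]; exact Nat.lt_pow_succ_log_self (by norm_num) w
  rw [← hy] at h ⊢
  have hqy : q ≤ q * y := Nat.le_mul_of_pos_right q hy1
  by_cases hbig : 2048 * (2 + (P + 4) + q * (w + 1 + (P + 4))) * (P + 4) ^ 3 * 4 ≤ 2 ^ P
  · have h1 := h hbig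
    calc P * P ≤ (q + 1) + 1 + q * (y + 1) + P * 4 := h1
      _ = 2 * q + 2 + q * y + P * 4 := by ring
      _ ≤ 9 * (q * y) := by omega
      _ ≤ (2 * L0 + 11) * (q * y) := Nat.mul_le_mul_right _ (by omega)
  · push Not at hbig
    by_contra hc
    push Not at hc
    -- `P` is large and `q`, `w` are small
    have hqP : q ≤ P * P := by
      calc q ≤ q * y := hqy
        _ ≤ (2 * L0 + 11) * (q * y) := Nat.le_mul_of_pos_left _ (by omega)
        _ ≤ P * P := hc.le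
    have hyP : (2 * L0 + 11) * y < P := by
      have h1 : (2 * L0 + 11) * y * P < P * P := by
        calc (2 * L0 + 11) * y * P ≤ (2 * L0 + 11) * y * q := Nat.mul_le_mul_left _ hPq
          _ = (2 * L0 + 11) * (q * y) := by ring
          _ < P * P := hc
      exact lt_of_mul_lt_mul_right h1 (Nat.zero_le _)
    obtain ⟨L, hL⟩ : ∃ L, L = P / 2 := ⟨_, rfl⟩
    have hPL : P ≤ 2 * L + 1 := by omega
    have hPL' : 2 * L ≤ P := by omega
    have h2y : 2 * y ≤ (2 * L0 + 11) * y := Nat.mul_le_mul_right _ (by omega)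
    have hL0y : (2 * L0 + 11) * 1 ≤ (2 * L0 + 11) * y := Nat.mul_le_mul_left _ hy1
    have hyL : y ≤ L := by omega
    have hLL : L0 ≤ L := by omega
    have hwL : w ≤ 2 ^ L := hwy.le.trans (Nat.pow_le_pow_right (by norm_num) hyL)
    have h3 := hL0 L hLL
    have h4 : 2 + (P + 4) + q * (w + 1 + (P + 4)) ≤ 4 * (P + 4) * (q * w) := by
      have e1 : 1 ≤ q * w := Nat.mul_pos (by omega) hw
      have e2 : 2 + (P + 4) ≤ 2 * (P + 4) * (q * w) := by
        calc 2 + (P + 4) ≤ 2 * (P + 4) * 1 := by omega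
          _ ≤ _ := Nat.mul_le_mul_left _ e1
      have e3 : q * (w + 1 + (P + 4)) ≤ 2 * (P + 4) * (q * w) := by
        have e4 : w + 1 + (P + 4) ≤ 2 * (P + 4) * w := by
          calc w + 1 + (P + 4) ≤ w + (1 + (P + 4)) * w := by
                have := Nat.le_mul_of_pos_right (1 + (P + 4)) hw
                omega
            _ = (P + 6) * w := by ring
            _ ≤ 2 * (P + 4) * w := Nat.mul_le_mul_right _ (by omega)
        calc q * (w + 1 + (P + 4)) ≤ q * (2 * (P + 4) * w) := Nat.mul_le_mul_left _ e4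
          _ = _ := by ring
      calc 2 + (P + 4) + q * (w + 1 + (P + 4)) ≤ 2 * (P + 4) * (q * w) + 2 * (P + 4) * (q * w) :=
            Nat.add_le_add e2 e3
        _ = _ := by ring
    have h5 : 2048 * (2 + (P + 4) + q * (w + 1 + (P + 4))) * (P + 4) ^ 3 * 4 ≤ 2 ^ P := by
      have e5 : P + 4 ≤ 5 * (L + 1) := by omega
      have e6 : P * P ≤ (5 * (L + 1)) ^ 2 := by
        rw [pow_two]
        exact Nat.mul_le_mul (by omega) (by omega)
      have e7 : (P + 4) ^ 4 ≤ (5 * (L + 1)) ^ 4 := Nat.pow_le_pow_left e5 4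
      calc 2048 * (2 + (P + 4) + q * (w + 1 + (P + 4))) * (P + 4) ^ 3 * 4
          ≤ 2048 * (4 * (P + 4) * (q * w)) * (P + 4) ^ 3 * 4 := by
            apply Nat.mul_le_mul_right
            apply Nat.mul_le_mul_right
            exact Nat.mul_le_mul_left _ h4
        _ = 2 ^ 15 * ((P + 4) ^ 4 * q) * w := by ring
        _ ≤ 2 ^ 15 * ((5 * (L + 1)) ^ 4 * (5 * (L + 1)) ^ 2) * 2 ^ L := by
            apply Nat.mul_le_mul _ hwL
            apply Nat.mul_le_mul_left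
            exact Nat.mul_le_mul e7 (hqP.trans e6)
        _ = (2 ^ 15 * 5 ^ 6 * (L + 1) ^ 6) * 2 ^ L := by ring
        _ ≤ 2 ^ L * 2 ^ L := Nat.mul_le_mul_right _ h3
        _ = 2 ^ (2 * L) := by rw [← pow_add]; congr 1; ring
        _ ≤ 2 ^ P := Nat.pow_le_pow_right (by norm_num) hPL'
    omega

/-- **Size, width and NOT gates of circuits for directed connectivity.** -/
theorem st_tradeoff : ∃ c : ℕ, ∀ (N : ℕ) (hN : 2 ≤ N), ∃ H : Finset (Fin N × Fin N), H.card ≤ N ∧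
    ∀ (C : Circuit (N * N)) (w q : ℕ),
      (∀ x : Fin (N * N) → Bool, (∀ u v, x (finProdFinEquiv (u, v)) = true → (u, v) ∈ H) →
        (C.eval x = true ↔ Relation.ReflTransGen (fun u v => x (finProdFinEquiv (u, v)) = true)
          ⟨0, by omega⟩ ⟨1, by omega⟩)) →
      C.Layered w → Nat.log 2 N ≤ q → C.size ≤ 2 ^ q →
      (Nat.log 2 N - C.nots) ^ 2 ≤ c * (q * (Nat.log 2 w + 1)) := by
  obtain ⟨c1, hc1, hscale⟩ := scale_arith
  refine ⟨50 * c1 + 256, fun N hN => ?_⟩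
  obtain ⟨φ, hφ, h0, h1⟩ := exists_phi hN
  refine ⟨hostG ⟨0, by omega⟩ ⟨1, by omega⟩ φ, hostG_card _ _ _, fun C w q hC hw hq hs => ?_⟩
  have hw1 := layered_pos hw
  obtain ⟨ℓ, hℓ⟩ : ∃ ℓ, ℓ = Nat.log 2 N := ⟨_, rfl⟩
  obtain ⟨K, hK⟩ : ∃ K, K = ℓ - C.nots := ⟨_, rfl⟩
  obtain ⟨Λ, hΛ⟩ : ∃ Λ, Λ = Nat.log 2 (ℓ + 1) + 1 := ⟨_, rfl⟩
  have hℓ1 : 1 ≤ ℓ := by rw [hℓ]; exact Nat.log_pos (by norm_num) hN
  have h2ℓ : 2 ^ ℓ ≤ N := by rw [hℓ]; exact Nat.pow_log_le_self 2 (by omega)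
  have hΛ2 : ℓ + 1 < 2 ^ Λ := by rw [hΛ]; exact Nat.lt_pow_succ_log_self (by norm_num) _
  have hΛsq : (Λ + 6) ^ 2 ≤ 128 * q := by
    have e1 := sq_le_exp (Nat.log 2 (ℓ + 1))
    have e2 : 2 ^ Nat.log 2 (ℓ + 1) ≤ ℓ + 1 := Nat.pow_log_le_self 2 (by omega)
    have e3 : Λ + 6 = Nat.log 2 (ℓ + 1) + 7 := by omega
    rw [e3]
    rw [← hℓ] at hq
    omega
  obtain ⟨y, hy⟩ : ∃ y, y = Nat.log 2 w + 1 := ⟨_, rfl⟩
  have hqy : q ≤ q * y := Nat.le_mul_of_pos_right q (by omega)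
  rw [← hℓ, ← hK, ← hy]
  obtain ⟨P, hP⟩ : ∃ P, P = (K - Λ - 2) / 5 := ⟨_, rfl⟩
  have hKP : K ≤ 5 * P + (Λ + 6) := by omega
  have hPP : P * P ≤ c1 * (q * y) := by
    rcases Nat.eq_zero_or_pos P with hP0 | hP0
    · rw [hP0]; omega
    · rw [hy]
      refine hscale P q w hP0 ?_ hw1 (fun hbig => ?_)
      · rw [← hℓ] at hq; omega
      · obtain ⟨p, rfl⟩ : ∃ p, P = p + 1 := ⟨P - 1, by omega⟩
        refine rlow1 (N := N) (Q := p + 1 + 4) (v := Nat.log 2 w + 1) (by simp) hφ h0 h1 C hC hw hs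
          (Nat.lt_pow_succ_log_self (by norm_num) w) (p := p) (by rw [← hℓ]; omega) ?_
          (by omega) (by omega) le_rfl hbig
        unfold rc
        have hpos : 0 < 4 * ((Nat.log 2 N + 1) * rb p ^ 5) := by
          have := rb_ge p
          positivity
        rw [Nat.le_div_iff_mul_le hpos, ← hℓ]
        refine le_trans ?_ h2ℓ
        have e1 : rb p ^ 5 = 2 ^ (5 * (p + 1)) := by
          unfold rb; rw [← pow_mul]; congr 1; ring
        rw [e1]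
        calc 2 ^ C.nots * (4 * ((ℓ + 1) * 2 ^ (5 * (p + 1))))
            ≤ 2 ^ C.nots * (4 * (2 ^ Λ * 2 ^ (5 * (p + 1)))) := by
              apply Nat.mul_le_mul_left
              apply Nat.mul_le_mul_left
              exact Nat.mul_le_mul_right _ hΛ2.le
          _ = 2 ^ (C.nots + 2 + Λ + 5 * (p + 1)) := by
              rw [pow_add, pow_add, pow_add]; ring
          _ ≤ 2 ^ ℓ := Nat.pow_le_pow_right (by norm_num) (by omega)
  calc K ^ 2 ≤ (5 * P + (Λ + 6)) ^ 2 := Nat.pow_le_pow_left hKP 2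
    _ ≤ 50 * (P * P) + 2 * (Λ + 6) ^ 2 := by
        have h := two_mul_le_add_sq (5 * P) (Λ + 6)
        have e1 : (5 * P + (Λ + 6)) ^ 2 = (5 * P) ^ 2 + 2 * (5 * P) * (Λ + 6) + (Λ + 6) ^ 2 := by
          ring
        have e2 : (5 * P) ^ 2 = 25 * (P * P) := by ring
        omega
    _ ≤ 50 * (c1 * (q * y)) + 2 * (128 * q) :=
        Nat.add_le_add (Nat.mul_le_mul_left _ hPP) (Nat.mul_le_mul_left _ hΛsq)
    _ ≤ 50 * (c1 * (q * y)) + 256 * (q * y) := by omega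
    _ = (50 * c1 + 256) * (q * y) := by ring

end Pool.Agent.H540R2.Lift
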