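import Mathlib
import Pool.Agent.H540R2.Lift.RFinal
import Pool.Agent.H540R2.Lift.Neg3

/-!
# The depth of circuits for directed connectivity
-/

set_option autoImplicit false
set_option linter.unusedSectionVars false

namespace Pool.Agent.H540R2.Lift

open Finset Classical

variable {U A S : Type} [Fintype U] [DecidableEq U] [Fintype A] [DecidableEq A] [Fintype S]
  [DecidableEq S]

section

variable {M : ℕ} {C : Circuit M} {inX : (U → A) → Fin M → Bool}
  {inY : (U × A → S) → Fin M → Bool} {k b Q s β L0 : ℕ}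
  {Valid : Finset U → (U → S) → ℕ → Prop} {Jv : Fin M → Finset U}

lemma Large.nonempty [Nonempty S] {r : ℕ} {Y : Finset (U × A → S)} (h : Large r Y) :
    Y.Nonempty := by
  rw [← Finset.card_pos]
  unfold Large at h
  rcases Nat.eq_zero_or_pos Y.card with h0 | h0
  · rw [h0] at h
    have : 0 < Fintype.card (U × A → S) := Fintype.card_pos
    omega
  · exact h0

/-- the search state at a node -/
structure NState (C : Circuit M) (inX : (U → A) → Fin M → Bool)
    (inY : (U × A → S) → Fin M → Bool) (b : ℕ) (Valid : Finset U → (U → S) → ℕ → Prop)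
    (c r L : ℕ) (P : Finset (U → A)) (I : Finset U)
    (Y : Finset (U × A → S)) (z : U → S) (a : Node M) : Prop where
  dense : Dense b P I
  pot : Fintype.card A ^ Fintype.card U * b ^ I.card ≤
    2 ^ c * (P.card * Fintype.card A ^ I.card)
  eqI : ∀ x ∈ P, ∀ x' ∈ P, ∀ u ∈ I, x u = x' u
  large : Large r Y
  hz : ∀ x ∈ P, ∀ y ∈ Y, ∀ u ∈ I, y (u, x u) = z u
  valid : Valid I z L
  aX : ∀ x ∈ P, a.eval (inX x) (C.val (inX x)) = true
  aY : ∀ y ∈ Y, a.eval (inY y) (C.val (inY y)) = false

lemma descend [Nonempty S] (hS : Strat U S k Valid) (hmono : C.Monotone)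
    (hJv : ∀ i, (Jv i).card ≤ 2)
    (hleaf : ∀ i x y I L, inX x i = true → inY y i = false → Jv i ⊆ I →
      Valid I (fun u => y (u, x u)) L → L = 0)
    {rm : ℕ} (hQ : 4 ≤ Q) (hs : Fintype.card S ≤ 2 ^ s)
    (hb : 2048 * rm * Q ^ 3 * Fintype.card S ^ 2 ≤ b) (hβ : 2 ^ β ≤ b)
    (hA : Fintype.card A = b ^ 2) (hk : 2 * Q ≤ k) :
    ∀ (t c r : ℕ) (P : Finset (U → A)) (I : Finset U) (Y : Finset (U × A → S))
      (z : U → S) (a : Node M), NState C inX inY b Valid c r (L0 - I.card) P I Y z a →
      (∀ j, a.wires j ≠ 0 → j < C.size) → a.depth C.gateDepth ≤ t → 1 ≤ r →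
      c + 2 * t < β * (Q + 1) → r + t * (1 + Q * s) ≤ rm → β * L0 ≤ c + 2 * t + β * 2 := by
  intro t
  induction t with
  | zero =>
    intro c r P I Y z a h hw hd hr hc hrm
    have hb' : 2048 * r * Q ^ 3 * Fintype.card S ^ 2 ≤ b := by
      refine le_trans ?_ hb
      apply Nat.mul_le_mul_right
      apply Nat.mul_le_mul_right
      exact Nat.mul_le_mul_left _ (by omega)
    have hI := pot_card' hβ hA h.dense.1 h.eqI h.pot
    have hIQ : I.card ≤ Q := by
      by_contra hc'
      push Not at hc'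
      have : β * (Q + 1) ≤ β * I.card := Nat.mul_le_mul_left _ hc'
      omega
    cases a with
    | var i =>
      obtain ⟨x, hx, y, hy, hV⟩ := dstep hS (by omega) hr hb' h.dense h.large h.hz h.valid
        (Jv i) ((hJv i).trans (by omega)) (by omega)
      have h2 := hleaf i x y _ _ (h.aX x hx) (h.aY y hy) Finset.subset_union_right hV
      have h3 := hJv i
      have h4 : L0 ≤ I.card + 2 := by omega
      calc β * L0 ≤ β * (I.card + 2) := Nat.mul_le_mul_left _ h4
        _ = β * I.card + β * 2 := by ring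
        _ ≤ _ := by omega
    | const c' =>
      obtain ⟨x, hx⟩ := h.dense.1
      obtain ⟨y, hy⟩ := h.large.nonempty
      have e1 := h.aX x hx
      have e2 := h.aY y hy
      simp only [Node.eval] at e1 e2
      rw [e1] at e2
      exact absurd e2 (by decide)
    | gate g =>
      exfalso
      have hg : g < C.size := hw g (by simp [Node.wires])
      simp only [Node.depth] at hd
      have h1 := C.gateDepth_gate hg
      cases hgate : C.gate g with
      | not a => exact hmono g hg a hgate
      | and a1 a2 => rw [hgate] at h1; simp only [Gate.depth] at h1; omega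
      | or a1 a2 => rw [hgate] at h1; simp only [Gate.depth] at h1; omega
  | succ t ih =>
    intro c r P I Y z a h hw hd hr hc hrm
    have e5 : (t + 1) * (1 + Q * s) = t * (1 + Q * s) + (1 + Q * s) := by ring
    rw [e5] at hrm
    cases a with
    | var i =>
      have := ih c r P I Y z _ h hw (by simp [Node.depth]) hr (by omega) (by omega)
      omega
    | const c' =>
      have := ih c r P I Y z _ h hw (by simp [Node.depth]) hr (by omega) (by omega)
      omega
    | gate g =>
      have hg : g < C.size := hw g (by simp [Node.wires])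
      simp only [Node.depth] at hd
      have h1 := C.gateDepth_gate hg
      have hwires := C.gate_lt g hg
      have hX : ∀ x ∈ P, (C.gate g).eval (inX x) (C.val (inX x)) = true := fun x hx => by
        rw [← C.val_gate hg]; exact h.aX x hx
      have hY : ∀ y ∈ Y, (C.gate g).eval (inY y) (C.val (inY y)) = false := fun y hy => by
        rw [← C.val_gate hg]; exact h.aY y hy
      cases hgate : C.gate g with
      | not a => exact absurd hgate (hmono g hg a)
      | and a1 a2 =>
        rw [hgate] at h1 hX hY hwires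
        simp only [Gate.depth] at h1
        have w1 : ∀ j, a1.wires j ≠ 0 → j < C.size := fun j hj =>
          (hwires j (by simp only [Gate.wires]; omega)).trans hg
        have w2 : ∀ j, a2.wires j ≠ 0 → j < C.size := fun j hj =>
          (hwires j (by simp only [Gate.wires]; omega)).trans hg
        obtain ⟨t0, -, hc0⟩ := popular Y h.large.nonempty (univ : Finset Bool)
          (fun y => a1.eval (inY y) (C.val (inY y))) (fun _ _ => Finset.mem_univ _)
        set Y' := Y.filter (fun y => a1.eval (inY y) (C.val (inY y)) = t0) with hY'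
        have hY'Y : Y' ⊆ Y := Finset.filter_subset _ _
        have hlarge : Large (r + 1) Y' := by
          have hl := h.large
          unfold Large at hl ⊢
          rw [Finset.card_univ, Fintype.card_bool] at hc0
          calc Fintype.card (U × A → S) ≤ Y.card * 2 ^ r := hl
            _ ≤ (2 * Y'.card) * 2 ^ r := Nat.mul_le_mul_right _ hc0
            _ = Y'.card * 2 ^ (r + 1) := by rw [pow_succ]; ring
        simp only [Gate.eval, Bool.and_eq_true] at hX
        simp only [Gate.eval, Bool.and_eq_false_iff] at hY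
        cases ht0 : t0 with
        | false =>
          have hst : NState C inX inY b Valid c (r + 1) (L0 - I.card) P I Y' z a1 :=
            ⟨h.dense, h.pot, h.eqI, hlarge, fun x hx y hy => h.hz x hx y (hY'Y hy), h.valid,
              fun x hx => (hX x hx).1, fun y hy => by
                rw [(Finset.mem_filter.1 hy).2, ht0]⟩
          have := ih c (r + 1) P I Y' z a1 hst w1 (by omega) (by omega) (by omega) (by omega)
          omega
        | true =>
          have hst : NState C inX inY b Valid c (r + 1) (L0 - I.card) P I Y' z a2 :=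
            ⟨h.dense, h.pot, h.eqI, hlarge, fun x hx y hy => h.hz x hx y (hY'Y hy), h.valid,
              fun x hx => (hX x hx).2, fun y hy => by
                rcases hY y (hY'Y hy) with h6 | h6
                · rw [(Finset.mem_filter.1 hy).2, ht0] at h6
                  exact absurd h6 (by decide)
                · exact h6⟩
          have := ih c (r + 1) P I Y' z a2 hst w2 (by omega) (by omega) (by omega) (by omega)
          omega
      | or a1 a2 =>
        rw [hgate] at h1 hX hY hwires
        simp only [Gate.depth] at h1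
        have w1 : ∀ j, a1.wires j ≠ 0 → j < C.size := fun j hj =>
          (hwires j (by simp only [Gate.wires]; omega)).trans hg
        have w2 : ∀ j, a2.wires j ≠ 0 → j < C.size := fun j hj =>
          (hwires j (by simp only [Gate.wires]; omega)).trans hg
        have hb' : 2048 * r * Q ^ 3 * Fintype.card S ^ 2 ≤ b := by
          refine le_trans ?_ hb
          apply Nat.mul_le_mul_right
          apply Nat.mul_le_mul_right
          exact Nat.mul_le_mul_left _ (by omega)
        obtain ⟨P', I', Y', γ, t0, g1, g2, g3, g4, g5, g6, g7, g8, g9⟩ := dnarrow (v := 1) hS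
          (by omega : 1 ≤ Q) hr hs hb' hβ hA (by omega) hk h.dense h.pot h.eqI
          h.large h.hz h.valid (univ : Finset Bool) (by simp)
          (fun x => a1.eval (inX x) (C.val (inX x))) (fun _ _ => Finset.mem_univ _)
        simp only [Gate.eval, Bool.or_eq_true] at hX
        simp only [Gate.eval, Bool.or_eq_false_iff] at hY
        cases ht0 : t0 with
        | true =>
          have hst : NState C inX inY b Valid (c + (1 + 1)) (r + (1 + Q * s)) (L0 - I'.card)
              P' I' Y' γ a1 :=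
            ⟨g3, g4, g5, g6, g7, g8, fun x hx => by rw [g9 x hx, ht0],
              fun y hy => (hY y (g2 hy)).1⟩
          have := ih _ _ P' I' Y' γ a1 hst w1 (by omega) (by omega) (by omega) (by omega)
          omega
        | false =>
          have hst : NState C inX inY b Valid (c + (1 + 1)) (r + (1 + Q * s)) (L0 - I'.card)
              P' I' Y' γ a2 :=
            ⟨g3, g4, g5, g6, g7, g8, fun x hx => by
                rcases hX x (g1 hx) with h6 | h6
                · rw [g9 x hx, ht0] at h6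
                  exact absurd h6 (by decide)
                · exact h6,
              fun y hy => (hY y (g2 hy)).2⟩
          have := ih _ _ P' I' Y' γ a2 hst w2 (by omega) (by omega) (by omega) (by omega)
          omega

end

theorem dsim2 [Nonempty S] [Nonempty (U → A)] {M : ℕ} {C : Circuit M}
    {inX : (U → A) → Fin M → Bool}
    {inY : (U × A → S) → Fin M → Bool} {k b Q s v' D rm β L0 : ℕ} {ι : Type}
    {Valid : Finset U → (U → S) → ℕ → Prop} {Jv : Fin M → Finset U}
    (hS : Strat U S k Valid) (hmono : C.Monotone)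
    (hJv : ∀ i, (Jv i).card ≤ 2)
    (hleaf : ∀ i x y I L, inX x i = true → inY y i = false → Jv i ⊆ I →
      Valid I (fun u => y (u, x u)) L → L = 0)
    (ν : ι → Node M) (hν : ∀ i j, (ν i).wires j ≠ 0 → j < C.size)
    (T : Finset (Node M)) (hT : T.card ≤ 2 ^ v') (hνT : ∀ i, ν i ∈ T)
    (hD : ∀ i, (ν i).depth C.gateDepth ≤ D)
    (hQ4 : 4 ≤ Q) (hs : Fintype.card S ≤ 2 ^ s)
    (hrm : 2 + Q * s + D * (1 + Q * s) ≤ rm)
    (hb : 2048 * rm * Q ^ 3 * Fintype.card S ^ 2 ≤ b) (hβ : 2 ^ β ≤ b)
    (hA : Fintype.card A = b ^ 2) (hk : 2 * Q ≤ k) (hL0 : L0 ≤ Q + 1)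
    (h1 : ∀ x, ∃ i, (ν i).eval (inX x) (C.val (inX x)) = true)
    (h0 : ∀ (y : U × A → S) i, (ν i).eval (inY y) (C.val (inY y)) = false)
    {z : U → S} (hV : Valid ∅ z L0) : β * L0 ≤ v' + 1 + 2 * D + β * 2 := by
  by_cases hcQ : v' + 1 + 2 * D < β * (Q + 1)
  swap
  · push Not at hcQ
    have := Nat.mul_le_mul_left β hL0
    omega
  have hb1 : 1 ≤ b := Nat.one_le_two_pow.trans hβ
  have hmono_b : ∀ r, r ≤ rm → 2048 * r * Q ^ 3 * Fintype.card S ^ 2 ≤ b := fun r hr => by
    refine le_trans ?_ hb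
    apply Nat.mul_le_mul_right
    apply Nat.mul_le_mul_right
    exact Nat.mul_le_mul_left _ hr
  choose f hf using h1
  have hd : Dense b (univ : Finset (U → A)) ∅ := by
    refine ⟨Finset.univ_nonempty, fun J _ β => ?_⟩
    have h2 := card_fix (univ : Finset (U → A)) J β
    rw [Finset.card_univ, Fintype.card_fun]
    refine le_trans ?_ h2
    apply Nat.mul_le_mul_left
    apply Nat.pow_le_pow_left
    rw [hA]
    exact Nat.le_self_pow (by norm_num) b
  obtain ⟨P', I', Y', γ, a0, g1, g2, g3, g4, g5, g6, g7, g8, g9⟩ := dnarrow (Q := Q) (s := s)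
    (v := v') (c := 0) (r := 1) (b := b) (β := β) (P := univ) (I := ∅) (Y := univ) (z := z)
    (L0 := L0)
    hS (by omega) le_rfl hs (hmono_b 1 (by omega)) hβ hA (by omega) hk hd
    (by rw [Finset.card_univ, Fintype.card_fun]; simp) (by simp)
    (by unfold Large; rw [Finset.card_univ]; omega) (by simp) (by simpa using hV)
    T hT (fun x => ν (f x)) (fun x _ => hνT _)
  obtain ⟨x0, hx0⟩ := g3.1
  have ha0 : a0 = ν (f x0) := (g9 x0 hx0).symm
  have hst : NState C inX inY b Valid (0 + (v' + 1)) (1 + (1 + Q * s)) (L0 - I'.card)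
      P' I' Y' γ a0 :=
    ⟨g3, g4, g5, g6, g7, g8, fun x hx => by rw [← g9 x hx]; exact hf x,
      fun y _ => by rw [ha0]; exact h0 y _⟩
  have := descend hS hmono hJv hleaf (rm := rm) hQ4 hs hb hβ hA hk D _ _ _ _ _ _ _ hst
    (by rw [ha0]; exact hν _) (by rw [ha0]; exact hD _) (by omega) (by omega) (by omega)
  omega

variable {n m M : ℕ}

/-- the depth lower bound for layered reachability -/
theorem rlower2 {b Q v' D rm β L0 : ℕ} {ι : Type} (hn : 2 ^ L0 ≤ n + 1)
    (e : RVar n (b ^ 2) → Fin M) [NeZero (b ^ 2)]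
    (he : Function.Injective e) (C : Circuit M) (hmono : C.Monotone)
    (ν : ι → Node M) (hν : ∀ i j, (ν i).wires j ≠ 0 → j < C.size)
    (T : Finset (Node M)) (hT : T.card ≤ 2 ^ v') (hνT : ∀ i, ν i ∈ T)
    (hD : ∀ i, (ν i).depth C.gateDepth ≤ D)
    (hF : ∀ x : Fin M → Bool, RF (fun v => x (e v)) = true ↔
      ∃ i, (ν i).eval x (C.val x) = true)
    (hQ4 : 4 ≤ Q) (hL0 : L0 ≤ Q + 1)
    (hrm : 2 + Q + D * (1 + Q) ≤ rm)
    (hb : 2048 * rm * Q ^ 3 * 4 ≤ b) (hβ : 2 ^ β ≤ b) :
    β * L0 ≤ v' + 1 + 2 * D + β * 2 := by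
  have hne : Nonempty (Fin n → Fin (b ^ 2)) := ⟨fun _ => 0⟩
  refine dsim2 (U := Fin n) (A := Fin (b ^ 2)) (S := Bool) (Q := Q) (b := b) (s := 1)
    (k := 2 * Q)
    (C := C) (inX := fun x i => if h : ∃ v, e v = i then rA x h.choose else false)
    (inY := fun y i => if h : ∃ v, e v = i then rB y h.choose else false)
    (Jv := fun i => if h : ∃ v, e v = i then rJ h.choose else ∅) (z := fun _ => false)
    (Valid := PVal n) (rm := rm)
    (pstrat n (2 * Q)) hmono ?_ ?_ ν hν T hT hνT hD hQ4 (by simp)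
    (by rw [mul_one]; exact hrm) (by rw [Fintype.card_bool]; exact hb) hβ (by simp) le_rfl hL0
    ?_ ?_ ?_
  · intro i
    split_ifs with h
    · exact rJ_card _
    · simp
  · intro i x y I L hx hy hI hV
    by_cases h : ∃ v, e v = i
    · rw [dif_pos h] at hx hy hI
      exact rleaf h.choose x y I L hx hy hI hV
    · rw [dif_neg h] at hx
      exact absurd hx (by decide)
  · intro x
    refine (hF _).1 ?_
    have h1 : (fun v => (fun i : Fin M => if h : ∃ v, e v = i then rA x h.choose else false)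
        (e v)) = rA x := funext fun v => ext_r he _ v
    rw [h1]
    exact RF_A x
  · intro y i
    by_contra hc
    have h2 := (hF (fun i => if h : ∃ v, e v = i then rB y h.choose else false)).2
      ⟨i, by simpa using hc⟩
    have h1 : (fun v => (fun i : Fin M => if h : ∃ v, e v = i then rB y h.choose else false)
        (e v)) = rB y := funext fun v => ext_r he _ v
    rw [h1, RF_B y] at h2
    exact absurd h2 (by decide)
  · exact ⟨0, n + 1, by omega, le_rfl, by simp⟩

/-- the lower bound at one scale -/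
lemma rlow2 {N : ℕ} {s t : Fin N} (hst : s ≠ t) {φ : RVt N → Fin N}
    (hφ : Function.Injective φ) (h0 : ∀ v, φ v ≠ s) (h1 : ∀ v, φ v ≠ t)
    (C : Circuit (N * N))
    (hC : ∀ x : Fin (N * N) → Bool,
      (∀ u v, x (finProdFinEquiv (u, v)) = true → (u, v) ∈ hostG s t φ) →
      (C.eval x = true ↔
        Relation.ReflTransGen (fun u v => x (finProdFinEquiv (u, v)) = true) s t))
    {q Q rm : ℕ} (hs : C.depth ≤ q) (hnots : C.nots + 1 ≤ 2 ^ q)
    {p : ℕ} (hp : p ≤ Nat.log 2 N) (hcop : 2 ^ C.nots ≤ rc N p) (hQ4 : 4 ≤ Q)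
    (hQ : p ≤ Q) (hrm : 2 + Q + q * (1 + Q) ≤ rm)
    (hb : 2048 * rm * Q ^ 3 * 4 ≤ rb p) :
    (p + 1) * (p + 1) ≤ q + 1 + 2 * q + (p + 1) * 2 := by
  obtain ⟨P, hP⟩ : ∃ P : Fin (Nat.log 2 N + 1), P = ⟨p, by omega⟩ := ⟨_, rfl⟩
  have hPp : P.1 = p := by rw [hP]
  rw [← hPp] at hcop
  have hcop' := vertW_copies hst hφ h0 h1 P
  have hn1 : 1 ≤ rn P.1 := by
    have := rb_ge P.1
    have := rn_eq P.1
    omega
  obtain ⟨j, C', ν, a1, a2, ⟨T, a6, a7⟩, a8, a3, a4, a5⟩ := freeze_core3 C (m := rc N P.1)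
    (fun (j : Fin (rc N P.1)) (v : RVar (rn P.1) (rb P.1 ^ 2)) =>
      finProdFinEquiv (edge (vertW s t φ P) j v))
    (fun j j' v v' h => edge_inj hcop' hn1 j j' v v' (finProdFinEquiv.injective h)) RF RF_false
    (fun x hx => by
      have hsup : ∀ u v, x (finProdFinEquiv (u, v)) = true →
          ∃ j w, edge (vertW s t φ P) j w = (u, v) := by
        intro u v huv
        by_contra hc
        push Not at hc
        have := hx (finProdFinEquiv (u, v)) (fun j w h => hc j w (finProdFinEquiv.injective h))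
        rw [this] at huv
        exact absurd huv (by decide)
      have h5 := hC x (fun u v huv => by
        obtain ⟨j, w, hw⟩ := hsup u v huv
        unfold hostG
        refine Finset.mem_image.2 ⟨⟨P, j, w⟩, Finset.mem_univ _, hw⟩)
      have h6 := copies_reach hcop' (fun u v => x (finProdFinEquiv (u, v))) hsup
      rw [Bool.eq_iff_iff, decide_eq_true_iff, h5, h6])
    hcop
  exact rlower2 (M := N * N) (n := rn P.1) (b := rb P.1) (Q := Q)
    (v' := q) (D := q) (rm := rm) (β := p + 1) (L0 := p + 1)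
    (by rw [rn_eq, hPp]; exact le_rfl)
    (fun v => finProdFinEquiv (edge (vertW s t φ P) j v))
    (fun v v' h => (edge_inj hcop' hn1 j j v v' (finProdFinEquiv.injective h)).2)
    C' a1 ν a4 T (a6.trans hnots) a7 (fun i => (a8 i).trans hs) a5
    hQ4 (by omega) hrm (by rw [hPp]; exact hb)
    (by rw [hPp]; exact le_rfl)

/-- **Depth and NOT gates of circuits for directed connectivity.** -/
theorem st_depth : ∃ c : ℕ, ∀ (N : ℕ) (hN : 2 ≤ N), ∃ H : Finset (Fin N × Fin N), H.card ≤ N ∧
    ∀ (C : Circuit (N * N)) (q : ℕ),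
      (∀ x : Fin (N * N) → Bool, (∀ u v, x (finProdFinEquiv (u, v)) = true → (u, v) ∈ H) →
        (C.eval x = true ↔ Relation.ReflTransGen (fun u v => x (finProdFinEquiv (u, v)) = true)
          ⟨0, by omega⟩ ⟨1, by omega⟩)) →
      Nat.log 2 N ≤ q → C.depth ≤ q → (Nat.log 2 N - C.nots) ^ 2 ≤ c * q := by
  obtain ⟨c1, hc1, hscale⟩ := scale_arith
  refine ⟨50 * c1 + 256, fun N hN => ?_⟩
  obtain ⟨φ, hφ, h0, h1⟩ := exists_phi hN
  refine ⟨hostG ⟨0, by omega⟩ ⟨1, by omega⟩ φ, hostG_card _ _ _, fun C q hC hq hs => ?_⟩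
  obtain ⟨ℓ, hℓ⟩ : ∃ ℓ, ℓ = Nat.log 2 N := ⟨_, rfl⟩
  obtain ⟨K, hK⟩ : ∃ K, K = ℓ - C.nots := ⟨_, rfl⟩
  obtain ⟨Λ, hΛ⟩ : ∃ Λ, Λ = Nat.log 2 (ℓ + 1) + 1 := ⟨_, rfl⟩
  have hℓ1 : 1 ≤ ℓ := by rw [hℓ]; exact Nat.log_pos (by norm_num) hN
  have h2ℓ : 2 ^ ℓ ≤ N := by rw [hℓ]; exact Nat.pow_log_le_self 2 (by omega)
  have hΛ2 : ℓ + 1 < 2 ^ Λ := by rw [hΛ]; exact Nat.lt_pow_succ_log_self (by norm_num) _
  have hΛsq : (Λ + 6) ^ 2 ≤ 128 * q := by
    have e1 := sq_le_exp (Nat.log 2 (ℓ + 1))
    have e2 : 2 ^ Nat.log 2 (ℓ + 1) ≤ ℓ + 1 := Nat.pow_log_le_self 2 (by omega)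
    have e3 : Λ + 6 = Nat.log 2 (ℓ + 1) + 7 := by omega
    rw [e3]
    rw [← hℓ] at hq
    omega
  rw [← hℓ, ← hK]
  obtain ⟨P, hP⟩ : ∃ P, P = (K - Λ - 2) / 5 := ⟨_, rfl⟩
  have hKP : K ≤ 5 * P + (Λ + 6) := by omega
  have hPP : P * P ≤ c1 * q := by
    rcases Nat.eq_zero_or_pos P with hP0 | hP0
    · rw [hP0]; omega
    · have h := hscale P q 1 hP0 (by rw [← hℓ] at hq; omega) le_rfl (fun hbig => ?_)
      · rw [Nat.log_one_right, zero_add, mul_one] at h
        exact h
      · obtain ⟨p, rfl⟩ : ∃ p, P = p + 1 := ⟨P - 1, by omega⟩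
        have hnots : C.nots + 1 ≤ 2 ^ q := by
          have : q < 2 ^ q := Nat.lt_two_pow_self
          rw [← hℓ] at hq
          omega
        have hlow := rlow2 (N := N) (Q := p + 1 + 4) (rm := 2 + (p + 1 + 4) + q *
          (1 + 1 + (p + 1 + 4))) (by simp) hφ h0 h1 C hC hs hnots (p := p)
          (by rw [← hℓ]; omega) ?_ (by omega) (by omega) ?_ hbig
        · rw [Nat.log_one_right]
          omega
        · unfold rc
          have hpos : 0 < 4 * ((Nat.log 2 N + 1) * rb p ^ 5) := by
            have := rb_ge p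
            positivity
          rw [Nat.le_div_iff_mul_le hpos, ← hℓ]
          refine le_trans ?_ h2ℓ
          have e1 : rb p ^ 5 = 2 ^ (5 * (p + 1)) := by
            unfold rb; rw [← pow_mul]; congr 1; ring
          rw [e1]
          calc 2 ^ C.nots * (4 * ((ℓ + 1) * 2 ^ (5 * (p + 1))))
              ≤ 2 ^ C.nots * (4 * (2 ^ Λ * 2 ^ (5 * (p + 1)))) := by
                apply Nat.mul_le_mul_left
                apply Nat.mul_le_mul_left
                exact Nat.mul_le_mul_right _ hΛ2.le
            _ = 2 ^ (C.nots + 2 + Λ + 5 * (p + 1)) := by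
                rw [pow_add, pow_add, pow_add]; ring
            _ ≤ 2 ^ ℓ := Nat.pow_le_pow_right (by norm_num) (by omega)
        · have : q * (1 + (p + 1 + 4)) ≤ q * (1 + 1 + (p + 1 + 4)) :=
            Nat.mul_le_mul_left _ (by omega)
          omega
  calc K ^ 2 ≤ (5 * P + (Λ + 6)) ^ 2 := Nat.pow_le_pow_left hKP 2
    _ ≤ 50 * (P * P) + 2 * (Λ + 6) ^ 2 := by
        have h := two_mul_le_add_sq (5 * P) (Λ + 6)
        have e1 : (5 * P + (Λ + 6)) ^ 2 = (5 * P) ^ 2 + 2 * (5 * P) * (Λ + 6) + (Λ + 6) ^ 2 := by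
          ring
        have e2 : (5 * P) ^ 2 = 25 * (P * P) := by ring
        omega
    _ ≤ 50 * (c1 * q) + 2 * (128 * q) :=
        Nat.add_le_add (Nat.mul_le_mul_left _ hPP) (Nat.mul_le_mul_left _ hΛsq)
    _ = (50 * c1 + 256) * q := by ring

end Pool.Agent.H540R2.Lift
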