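import Mathlib
import Pool.Agent.H540R2.Lift.Final1

/-!
# Monotone SC is not contained in monotone NC
-/

set_option autoImplicit false

namespace Pool.Agent.H540R2.Lift

theorem monoSC_tradeoff (A : ℕ) : ∃ f : (n : ℕ) → (Fin n → Bool) → Bool, MonoSC f ∧
    ∃ c n₀ : ℕ, ∀ n ≥ n₀, ∀ C : Circuit n, C.Monotone → (∀ x, C.eval x = f n x) →
      C.size ≤ 2 ^ (Nat.log 2 n) ^ A → n ≤ (Nat.log 2 n) ^ c * C.depth := by
  obtain ⟨c, n0, h⟩ := exists_fn A
  choose f h1 h2 using h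
  refine ⟨f, ⟨c, fun n => ?_⟩, c, n0, fun n hn C hm hC hs => h2 n hn C hm hC hs⟩
  obtain ⟨C, g1, g2, g3, g4⟩ := h1 n
  exact ⟨C, g1, g2, g3, g4⟩

/-- The size-depth tradeoff excludes monotone NC. -/
theorem not_monoNC_of_tradeoff {f : (n : ℕ) → (Fin n → Bool) → Bool}
    (hf : ∃ c n₀ : ℕ, ∀ n ≥ n₀, ∀ C : Circuit n, C.Monotone → (∀ x, C.eval x = f n x) →
      C.size ≤ 2 ^ (Nat.log 2 n) ^ 2 → n ≤ (Nat.log 2 n) ^ c * C.depth) : ¬ MonoNC f := by
  obtain ⟨c, n0, h⟩ := hf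
  rintro ⟨d, hd⟩
  obtain ⟨L1, h1⟩ := poly_le_exp (2 * (d + 1)) (c + d + 1)
  set L := max (max L1 n0) (2 * d + 2) with hL
  have hL1 : L1 ≤ L := (le_max_left _ _).trans (le_max_left _ _)
  have hL2 : n0 ≤ L := (le_max_right _ _).trans (le_max_left _ _)
  have hL3 : 2 * d + 2 ≤ L := le_max_right _ _
  obtain ⟨C, g1, g2, g3, g4⟩ := hd (2 ^ L)
  have hlog : Nat.log 2 (2 ^ L) = L := Nat.log_pow (by norm_num) _
  have hL2' : L < 2 ^ L := Nat.lt_two_pow_self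
  have h2 := h (2 ^ L) (by omega) C g1 g2 (by
    rw [hlog]
    refine g3.trans ?_
    rw [← pow_mul]
    have e1 : d ≤ 2 ^ (L * d) := by
      calc d ≤ 2 ^ d := Nat.lt_two_pow_self.le
        _ ≤ 2 ^ (L * d) := by
          apply Nat.pow_le_pow_right (by norm_num)
          exact Nat.le_mul_of_pos_left d (by omega)
    calc 2 ^ (L * d) + d ≤ 2 ^ (L * d) + 2 ^ (L * d) := Nat.add_le_add_left e1 _
      _ = 2 ^ (L * d + 1) := by rw [pow_succ]; ring
      _ ≤ 2 ^ (L ^ 2) := by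
        apply Nat.pow_le_pow_right (by norm_num)
        rw [pow_two]
        calc L * d + 1 ≤ L * d + L := by omega
          _ = L * (d + 1) := by ring
          _ ≤ L * L := Nat.mul_le_mul_left _ (by omega))
  rw [hlog] at h2 g4
  have h3 : L ^ c * C.depth ≤ (d + 1) * (L + 1) ^ (c + d) := by
    calc L ^ c * C.depth ≤ L ^ c * (L ^ d + d) := Nat.mul_le_mul_left _ g4
      _ ≤ (L + 1) ^ c * ((L + 1) ^ d + d * (L + 1) ^ d) := by
          apply Nat.mul_le_mul (Nat.pow_le_pow_left (by omega) _)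
          apply Nat.add_le_add (Nat.pow_le_pow_left (by omega) _)
          exact Nat.le_mul_of_pos_right d (by positivity)
      _ = _ := by rw [pow_add]; ring
  have h4 := h1 L hL1
  have h5 : (L + 1) ^ (c + d) ≤ (L + 1) ^ (c + d + 1) :=
    Nat.pow_le_pow_right (by omega) (by omega)
  have h6 : 2 * ((d + 1) * (L + 1) ^ (c + d)) ≤ 2 ^ L := by
    calc 2 * ((d + 1) * (L + 1) ^ (c + d)) ≤ 2 * ((d + 1) * (L + 1) ^ (c + d + 1)) :=
          Nat.mul_le_mul_left _ (Nat.mul_le_mul_left _ h5)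
      _ = 2 * (d + 1) * (L + 1) ^ (c + d + 1) := by ring
      _ ≤ 2 ^ L := h4
  have h7 : 0 < (d + 1) * (L + 1) ^ (c + d) := by positivity
  omega

theorem monoSC_main (A : ℕ) : ∃ f : (n : ℕ) → (Fin n → Bool) → Bool, MonoSC f ∧ ¬ MonoNC f ∧
    ∃ c n₀ : ℕ, ∀ n ≥ n₀, ∀ C : Circuit n, C.Monotone → (∀ x, C.eval x = f n x) →
      C.size ≤ 2 ^ (Nat.log 2 n) ^ A → n ≤ (Nat.log 2 n) ^ c * C.depth := by
  obtain ⟨f, hf, c, n0, h⟩ := monoSC_tradeoff (max A 2)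
  have hmono : ∀ n B : ℕ, 2 ≤ n → B ≤ max A 2 →
      2 ^ (Nat.log 2 n) ^ B ≤ 2 ^ (Nat.log 2 n) ^ (max A 2) := by
    intro n B hn hB
    apply Nat.pow_le_pow_right (by norm_num)
    apply Nat.pow_le_pow_right _ hB
    exact Nat.log_pos (by norm_num) hn
  refine ⟨f, hf, not_monoNC_of_tradeoff ⟨c, max n0 2, fun n hn C h1 h2 h3 => ?_⟩,
    c, max n0 2, fun n hn C h1 h2 h3 => ?_⟩
  · exact h n (le_trans (le_max_left _ _) hn) C h1 h2
      (h3.trans (hmono n 2 (le_trans (le_max_right _ _) hn) (le_max_right _ _)))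
  · exact h n (le_trans (le_max_left _ _) hn) C h1 h2
      (h3.trans (hmono n A (le_trans (le_max_right _ _) hn) (le_max_left _ _)))

end Pool.Agent.H540R2.Lift
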