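import Mathlib
import Pool.Agent.H540R2.Lift.Param

/-!
# Monotone circuits cannot be parallelised
-/

set_option autoImplicit false

namespace Pool.Agent.H540R2.Lift

/-- the circuit `x₀ ∧ x₁` -/
def andC : Circuit 2 where
  size := 1
  gate := fun _ => .and (.var 0) (.var 1)
  out := .gate 0
  gate_lt := by intro i _ j hj; exact absurd rfl hj
  out_lt := by
    intro j hj
    simp only [Node.wires] at hj
    split_ifs at hj with h
    · omega
    · exact absurd rfl hj

lemma andC_eval (x : Fin 2 → Bool) : andC.eval x = (x 0 && x 1) := by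
  show Node.eval x _ (.gate 0) = _
  simp only [Node.eval]
  rw [Circuit.val]
  simp [andC, Gate.eval, Node.eval]

lemma andC_depth : andC.depth = 1 := by
  show Node.depth _ (.gate 0) = _
  simp only [Node.depth]
  rw [Circuit.gateDepth]
  simp [andC, Gate.depth, Node.depth]

lemma andC_mono : andC.Monotone := by
  intro i _ a; simp [andC]

lemma gateDepth_pos {n : ℕ} (C : Circuit n) (i : ℕ) : 1 ≤ C.gateDepth i := by
  rw [Circuit.gateDepth]
  cases C.gate i <;> simp [Gate.depth]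

lemma depth_pos_of_and {C : Circuit 2} (h : andC.Equiv C) : 1 ≤ C.depth := by
  by_contra hc
  have h0 : C.depth = 0 := by omega
  have h1 : C.out.depth C.gateDepth = 0 := h0
  have h2 : ∀ x, (x 0 && x 1) = C.out.eval x (C.val x) := fun x => by
    rw [← andC_eval]; exact h x
  cases ho : C.out with
  | gate j =>
    rw [ho] at h1
    have := gateDepth_pos C j
    simp only [Node.depth] at h1
    omega
  | const b =>
    rw [ho] at h2
    have e1 := h2 (fun _ => true)
    have e2 := h2 (fun _ => false)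
    simp only [Node.eval] at e1 e2
    rw [← e2] at e1
    exact absurd e1 (by decide)
  | var i =>
    rw [ho] at h2
    simp only [Node.eval] at h2
    have e1 := h2 (fun j => decide (j = i))
    simp only [decide_true] at e1
    fin_cases i <;> simp at e1

theorem parallel (q S : ℕ) (hq : 2 ≤ q) (hS : 2 ≤ S) : ∃ (n : ℕ) (C : Circuit n),
    C.Monotone ∧ C.size ≤ S ∧
    (∃ C₁ : Circuit n, C₁.Monotone ∧ C.Equiv C₁ ∧ C₁.depth ≤ (q * Nat.log 2 S) ^ 250) ∧
    ∀ C₂ : Circuit n, C₂.Monotone → C.Equiv C₂ → C₂.size ≤ 2 ^ q →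
      S ≤ (q * Nat.log 2 S) ^ 250 * C₂.depth := by
  obtain ⟨L0, hL0, hb, hsz⟩ := exists_L0 hq
  obtain ⟨l, hl⟩ : ∃ l, l = Nat.log 2 S := ⟨_, rfl⟩
  have hl1 : 1 ≤ l := by rw [hl]; exact Nat.log_pos (by norm_num) hS
  rw [← hl]
  obtain ⟨X, hX⟩ : ∃ X, X = q * l := ⟨_, rfl⟩
  have hX2 : 2 ≤ X := by
    rw [hX]
    calc 2 = 2 * 1 := rfl
      _ ≤ q * l := Nat.mul_le_mul hq hl1
  have hqX : q ≤ X := by rw [hX]; exact Nat.le_mul_of_pos_right q hl1
  have hlX : l ≤ X := by rw [hX]; exact Nat.le_mul_of_pos_left l (by omega)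
  rw [← hX]
  have hX0 : 0 < X := by omega
  by_cases hcase : sz q L0 ≤ S
  · obtain ⟨L, hLL0, hS1, hS2⟩ := exists_L' (by omega) hL0 hcase
    have hL1 : 1 ≤ L := by omega
    have hgb := hb L hLL0
    have hgbpos : 1 ≤ gb q L := gb_pos (by omega) hL1
    have _i1 : NeZero (3 * q) := ⟨by omega⟩
    have _i2 : NeZero (gb q L ^ 2) := ⟨by positivity⟩
    obtain ⟨e, he⟩ := exists_embed (n := 2 ^ L) (k := 3 * q) (m := gb q L ^ 2) le_rfl
    obtain ⟨C, m1, -, m3, m4⟩ := exists_layered (n := 2 ^ L) (by positivity) e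
    have h2L : 2 ^ L ≤ S := (two_pow_le_sz (by omega) hL1).trans hS1
    have hLl : L ≤ l := by rw [hl]; exact Nat.le_log_of_pow_le (by norm_num) h2L
    have hstp : stp (2 ^ L) (3 * q) (gb q L ^ 2) ≤ 2 ^ (l + 1) := by
      have h1 : stp (2 ^ L) (3 * q) (gb q L ^ 2) ≤ sz q L := by
        unfold sz
        exact Nat.le_mul_of_pos_right _ (by positivity)
      have h2 : S < 2 ^ (l + 1) := by rw [hl]; exact Nat.lt_pow_succ_log_self (by norm_num) S
      omega
    obtain ⟨C₁, k1, k2, k3⟩ := exists_shallow (n := 2 ^ L) (by positivity) e hstp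
    refine ⟨_, C, m1, m3.trans hS1, ⟨C₁, k1, fun x => by rw [m4, k3], k2.trans ?_⟩, ?_⟩
    · have h1 : 3 * q * gb q L ^ 2 ≤ 2 ^ 44 * X ^ 13 := by
        unfold gb
        have h2 : L ^ 2 * q ^ 13 ≤ X ^ 13 := by
          calc L ^ 2 * q ^ 13 ≤ l ^ 2 * q ^ 13 :=
                Nat.mul_le_mul_right _ (Nat.pow_le_pow_left hLl 2)
            _ ≤ l ^ 13 * q ^ 13 :=
                Nat.mul_le_mul_right _ (Nat.pow_le_pow_right hl1 (by norm_num))
            _ = X ^ 13 := by rw [hX, mul_pow, mul_comm]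
        calc 3 * q * (2 ^ 21 * L * q ^ 6) ^ 2 = 3 * 2 ^ 42 * (L ^ 2 * q ^ 13) := by ring
          _ ≤ 3 * 2 ^ 42 * X ^ 13 := Nat.mul_le_mul_left _ h2
          _ ≤ 2 ^ 44 * X ^ 13 := Nat.mul_le_mul_right _ (by norm_num)
      have h3 : 1 ≤ X ^ 13 := Nat.one_le_pow _ _ hX0
      have h4 : 2 * (4 * (3 * q * gb q L ^ 2)) + 2 ≤ 2 ^ 48 * X ^ 13 := by
        have : 2 ^ 48 * X ^ 13 = 16 * (2 ^ 44 * X ^ 13) := by ring
        have h5 : 1 ≤ 2 ^ 44 * X ^ 13 := Nat.mul_pos (by norm_num) h3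
        omega
      calc (l + 1) * (2 * (4 * (3 * q * gb q L ^ 2)) + 2) + 1
          ≤ (2 * X) * (2 ^ 48 * X ^ 13) + 1 :=
            Nat.add_le_add_right (Nat.mul_le_mul (by omega) h4) 1
        _ = 2 ^ 49 * X ^ 14 + 1 := by ring
        _ ≤ 2 ^ 49 * X ^ 14 + 2 ^ 49 * X ^ 14 :=
            Nat.add_le_add_left (Nat.mul_pos (by norm_num) (Nat.pow_pos hX0)) _
        _ = 2 ^ 50 * X ^ 14 := by ring
        _ ≤ X ^ 50 * X ^ 14 := Nat.mul_le_mul_right _ (Nat.pow_le_pow_left hX2 50)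
        _ = X ^ 64 := by rw [← pow_add]
        _ ≤ X ^ 250 := Nat.pow_le_pow_right hX0 (by norm_num)
    · intro C₂ n1 n2 n3
      have hlow := core_param hq hL1 hgb e he C₂ n1 (fun w => by rw [← n2 w, m4]) n3
      have hdep : 1 ≤ C₂.depth := by
        by_contra hc
        have h0 : C₂.depth = 0 := by omega
        rw [h0] at hlow
        have h1 : 2 ^ 21 * q ≤ gb q L := by
          unfold gb
          calc 2 ^ 21 * q = 2 ^ 21 * 1 * q := by ring
            _ ≤ 2 ^ 21 * L * q ^ 6 :=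
              Nat.mul_le_mul (Nat.mul_le_mul_left _ hL1) (Nat.le_self_pow (by norm_num) q)
        omega
      have h1 := hS2.le.trans (sz_le (q := q) (L := L + 1) (by omega) (by omega))
      have h2 : 2 ^ (L + 1) ≤ 8 * q * C₂.depth := by
        rw [pow_succ]
        calc 2 ^ L * 2 ≤ 2 * q * (C₂.depth + 1) * 2 := Nat.mul_le_mul_right _ hlow
          _ ≤ 2 * q * (2 * C₂.depth) * 2 :=
            Nat.mul_le_mul_right _ (Nat.mul_le_mul_left _ (by omega))
          _ = _ := by ring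
      have h3 : (L + 1) ^ 4 ≤ 16 * l ^ 4 := by
        calc (L + 1) ^ 4 ≤ (2 * l) ^ 4 := Nat.pow_le_pow_left (by omega) 4
          _ = _ := by ring
      calc S ≤ 324 * 2 ^ 84 * 2 ^ (L + 1) * (L + 1) ^ 4 * q ^ 26 := h1
        _ ≤ 324 * 2 ^ 84 * (8 * q * C₂.depth) * (16 * l ^ 4) * q ^ 26 :=
            Nat.mul_le_mul_right _ (Nat.mul_le_mul (Nat.mul_le_mul_left _ h2) h3)
        _ = 324 * 2 ^ 91 * (l ^ 4 * q ^ 27) * C₂.depth := by ring
        _ ≤ 2 ^ 100 * (X ^ 4 * X ^ 27) * C₂.depth := by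
            apply Nat.mul_le_mul_right
            exact Nat.mul_le_mul (by norm_num)
              (Nat.mul_le_mul (Nat.pow_le_pow_left hlX 4) (Nat.pow_le_pow_left hqX 27))
        _ ≤ X ^ 100 * (X ^ 4 * X ^ 27) * C₂.depth := by
            apply Nat.mul_le_mul_right
            exact Nat.mul_le_mul_right _ (Nat.pow_le_pow_left hX2 100)
        _ = X ^ 131 * C₂.depth := by rw [← pow_add, ← pow_add]
        _ ≤ X ^ 250 * C₂.depth :=
            Nat.mul_le_mul_right _ (Nat.pow_le_pow_right hX0 (by norm_num))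
  · refine ⟨2, andC, andC_mono, by show 1 ≤ S; omega,
      ⟨andC, andC_mono, fun _ => rfl, ?_⟩, fun C₂ _ n2 _ => ?_⟩
    · rw [andC_depth]; exact Nat.one_le_pow _ _ hX0
    · have h1 := depth_pos_of_and n2
      calc S ≤ 2 ^ 183 * q ^ 42 := by omega
        _ ≤ X ^ 183 * X ^ 42 :=
            Nat.mul_le_mul (Nat.pow_le_pow_left hX2 183) (Nat.pow_le_pow_left hqX 42)
        _ = X ^ 225 := by rw [← pow_add]
        _ ≤ X ^ 250 := Nat.pow_le_pow_right hX0 (by norm_num)
        _ ≤ X ^ 250 * C₂.depth := Nat.le_mul_of_pos_right _ h1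

end Pool.Agent.H540R2.Lift
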