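import Mathlib
import Pool.Agent.H540R2.Lift.Multi
import Pool.Agent.H540R2.Lift.Parallel

/-!
# NOT gates against depth, with two parameters
-/

set_option autoImplicit false

namespace Pool.Agent.H540R2.Lift

/-- the product `k m` -/
def km (q L : ℕ) : ℕ := 3 * q * gb q L ^ 2

lemma km_pos {q L : ℕ} (hq : 1 ≤ q) (hL : 1 ≤ L) : 1 ≤ km q L := by
  unfold km
  have : 1 ≤ gb q L ^ 2 := Nat.one_le_pow _ _ (gb_pos hq hL)
  calc 1 = 1 * 1 := rfl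
    _ ≤ 3 * q * gb q L ^ 2 := Nat.mul_le_mul (by omega) this

lemma km_eq (q L : ℕ) : km q L = 3 * 2 ^ 42 * (L ^ 2 * q ^ 13) := by
  unfold km gb; ring

/-- the size of the circuit -/
def msz (q L : ℕ) : ℕ := (L + 1) * 2 ^ L * (50 * km q L ^ 2)

lemma msz_eq (q L : ℕ) : msz q L = 450 * 2 ^ 84 * ((L + 1) * L ^ 4 * 2 ^ L * q ^ 26) := by
  unfold msz; rw [km_eq]; ring

lemma len_le_msz {q L : ℕ} (hq : 1 ≤ q) (hL : 1 ≤ L) :
    (L + 1) * (2 ^ L * (10 * (3 * q * gb q L ^ 2))) ≤ msz q L := by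
  have h := km_pos hq hL
  unfold msz
  show (L + 1) * (2 ^ L * (10 * km q L)) ≤ _
  calc (L + 1) * (2 ^ L * (10 * km q L)) = (L + 1) * 2 ^ L * (10 * km q L) := by ring
    _ ≤ _ := Nat.mul_le_mul_left _ (by nlinarith)

lemma two_pow_le_msz {q L : ℕ} (hq : 1 ≤ q) (hL : 1 ≤ L) : 2 ^ L ≤ msz q L := by
  have h := km_pos hq hL
  unfold msz
  calc 2 ^ L = 1 * 2 ^ L * 1 := by ring
    _ ≤ (L + 1) * 2 ^ L * (50 * km q L ^ 2) :=
      Nat.mul_le_mul (Nat.mul_le_mul_right _ (by omega)) (by nlinarith)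

lemma exists_between {f : ℕ → ℕ} (hf : ∀ L, 1 ≤ L → 2 ^ L ≤ f L) {L0 S : ℕ} (hL0 : 1 ≤ L0)
    (hS : f L0 ≤ S) : ∃ L, L0 ≤ L ∧ f L ≤ S ∧ S < f (L + 1) := by
  set L := Nat.findGreatest (fun L => f L ≤ S) S with hL
  have h0 : L0 ≤ S := by
    have := hf L0 hL0
    have := Nat.lt_two_pow_self (n := L0)
    omega
  have h1 : L0 ≤ L := Nat.le_findGreatest h0 hS
  have h2 : f L ≤ S := Nat.findGreatest_spec (P := fun L => f L ≤ S) h0 hS
  refine ⟨L, h1, h2, ?_⟩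
  by_contra hc
  push Not at hc
  have h3 : L + 1 ≤ S := by
    have := hf L (by omega)
    have := Nat.lt_two_pow_self (n := L)
    omega
  exact Nat.findGreatest_is_greatest (P := fun L => f L ≤ S) (Nat.lt_succ_self L) h3 hc

/-- threshold for `L` -/
lemma exists_L0' {q : ℕ} (hq : 2 ≤ q) : ∃ L0 : ℕ, 1 ≤ L0 ∧ (∀ L ≥ L0, gb q L ≤ 2 ^ L) ∧
    msz q L0 ≤ 2 ^ 186 * q ^ 43 := by
  set l := Nat.clog 2 q with hl
  have hl1 : 1 ≤ l := Nat.clog_pos (by norm_num) hq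
  have hql : q ≤ 2 ^ l := Nat.le_pow_clog (by norm_num) q
  have hlq : 2 ^ l ≤ 2 * q := by
    have h1 : 2 ^ (l - 1) < q := Nat.pow_pred_clog_lt_self (by norm_num) hq
    have h2 : 2 ^ l = 2 * 2 ^ (l - 1) := by
      rw [← pow_succ']; congr 1; omega
    omega
  have hlq' : l ≤ q := by
    have h1 : l < 2 ^ l := Nat.lt_two_pow_self
    by_contra hc
    push Not at hc
    have h2 : 2 ^ (q + 1) ≤ 2 ^ l := Nat.pow_le_pow_right (by norm_num) hc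
    have h3 : q < 2 ^ q := Nat.lt_two_pow_self
    rw [pow_succ] at h2
    omega
  set L0 := 12 * l + 50 with hL0
  have hbase : gb q L0 ≤ 2 ^ L0 := by
    unfold gb
    have h1 : q ^ 6 ≤ 2 ^ (6 * l) := by
      calc q ^ 6 ≤ (2 ^ l) ^ 6 := Nat.pow_le_pow_left hql 6
        _ = 2 ^ (6 * l) := by rw [← pow_mul]; congr 1; ring
    have h2 : L0 ≤ 2 ^ (6 * l + 29) := by
      have h3 : 6 * l + 29 < 2 ^ (6 * l + 29) := Nat.lt_two_pow_self
      have h4 : 2 * (6 * l + 28) + 2 ≤ 2 ^ (6 * l + 29) := by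
        have h5 : 6 * l + 28 < 2 ^ (6 * l + 28) := Nat.lt_two_pow_self
        rw [show 6 * l + 29 = 6 * l + 28 + 1 by ring, pow_succ]
        omega
      omega
    calc 2 ^ 21 * L0 * q ^ 6 ≤ 2 ^ 21 * 2 ^ (6 * l + 29) * 2 ^ (6 * l) :=
          Nat.mul_le_mul (Nat.mul_le_mul_left _ h2) h1
      _ = 2 ^ L0 := by rw [← pow_add, ← pow_add]; congr 1; omega
  refine ⟨L0, by omega, ?_, ?_⟩
  · intro L hL
    induction L, hL using Nat.le_induction with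
    | base => exact hbase
    | succ L hL ih =>
      unfold gb at ih ⊢
      calc 2 ^ 21 * (L + 1) * q ^ 6 ≤ 2 ^ 21 * (2 * L) * q ^ 6 :=
            Nat.mul_le_mul_right _ (Nat.mul_le_mul_left _ (by omega))
        _ = 2 * (2 ^ 21 * L * q ^ 6) := by ring
        _ ≤ 2 * 2 ^ L := Nat.mul_le_mul_left _ ih
        _ = 2 ^ (L + 1) := by rw [pow_succ]; ring
  · rw [msz_eq]
    have h1 : 2 ^ L0 ≤ 2 ^ 62 * q ^ 12 := by
      calc 2 ^ L0 = 2 ^ 50 * (2 ^ l) ^ 12 := by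
            rw [← pow_mul, ← pow_add]; congr 1; omega
        _ ≤ 2 ^ 50 * (2 * q) ^ 12 := Nat.mul_le_mul_left _ (Nat.pow_le_pow_left hlq 12)
        _ = _ := by ring
    have h2 : L0 ^ 4 ≤ 2 ^ 24 * q ^ 4 := by
      calc L0 ^ 4 ≤ (64 * q) ^ 4 := Nat.pow_le_pow_left (by omega) 4
        _ = _ := by ring
    have h3 : L0 + 1 ≤ 2 ^ 7 * q := by omega
    calc 450 * 2 ^ 84 * ((L0 + 1) * L0 ^ 4 * 2 ^ L0 * q ^ 26)
        ≤ 450 * 2 ^ 84 * ((2 ^ 7 * q) * (2 ^ 24 * q ^ 4) * (2 ^ 62 * q ^ 12) * q ^ 26) :=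
          Nat.mul_le_mul_left _ (Nat.mul_le_mul_right _ (Nat.mul_le_mul
            (Nat.mul_le_mul h3 h2) h1))
      _ = 450 * 2 ^ 177 * q ^ 43 := by ring
      _ ≤ 2 ^ 186 * q ^ 43 := Nat.mul_le_mul_right _ (by norm_num)

/-- variables embed in `Fin M` -/
lemma exists_embedM {L k m M : ℕ} (hk : 1 ≤ k) (hm : 1 ≤ m)
    (h : (L + 1) * (2 ^ L * (3 * (k * m) ^ 2)) ≤ M) :
    ∃ e : MV L k m → Fin M, Function.Injective e := by
  have hcard : Fintype.card (Σ t : Fin (L + 1), Fin (2 ^ t.1) × ((Fin k × Fin m) ⊕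
      (Fin (2 ^ (L - t.1)) × Fin k × Fin k × Fin m × Fin m) ⊕ Fin m)) ≤
      Fintype.card (Fin M) := by
    rw [Fintype.card_sigma, Fintype.card_fin]
    refine le_trans ?_ h
    have h1 : ∀ t ∈ (Finset.univ : Finset (Fin (L + 1))), Fintype.card (Fin (2 ^ t.1) ×
        ((Fin k × Fin m) ⊕ (Fin (2 ^ (L - t.1)) × Fin k × Fin k × Fin m × Fin m) ⊕ Fin m)) ≤
        2 ^ L * (3 * (k * m) ^ 2) := by
      intro t _
      simp only [Fintype.card_prod, Fintype.card_sum, Fintype.card_fin]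
      have h3 : 2 ^ t.1 * 2 ^ (L - t.1) = 2 ^ L := by
        rw [← pow_add]; congr 1; have := t.2; omega
      have h4 : 2 ^ t.1 ≤ 2 ^ L := Nat.pow_le_pow_right (by norm_num) (by have := t.2; omega)
      have f1 : 1 ≤ k * m := Nat.mul_pos hk hm
      have f2 : k * m ≤ (k * m) ^ 2 := by nlinarith
      have f3 : m ≤ k * m := Nat.le_mul_of_pos_left m hk
      calc 2 ^ t.1 * (k * m + (2 ^ (L - t.1) * (k * (k * (m * m))) + m))
          = 2 ^ t.1 * 2 ^ (L - t.1) * (k * m) ^ 2 + 2 ^ t.1 * (k * m + m) := by ring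
        _ ≤ 2 ^ L * (k * m) ^ 2 + 2 ^ L * (2 * (k * m) ^ 2) := by
            rw [h3]
            exact Nat.add_le_add_left (Nat.mul_le_mul h4 (by omega)) _
        _ = _ := by ring
    calc _ ≤ ∑ _t : Fin (L + 1), 2 ^ L * (3 * (k * m) ^ 2) := Finset.sum_le_sum h1
      _ = _ := by simp
  obtain ⟨e⟩ := Function.Embedding.nonempty_of_card_le hcard
  refine ⟨fun v => e ⟨v.1, v.2.1, varEquiv _ k m v.2.2⟩, fun v w hvw => ?_⟩
  have h1 := e.injective hvw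
  obtain ⟨t, j, v⟩ := v
  obtain ⟨t', j', v'⟩ := w
  simp only [Sigma.mk.injEq] at h1
  obtain ⟨rfl, h2⟩ := h1
  simp only [heq_eq_eq, Prod.mk.injEq, EmbeddingLike.apply_eq_iff_eq] at h2
  obtain ⟨rfl, rfl⟩ := h2
  rfl

theorem neg_tradeoff : ∃ c : ℕ, ∀ q S : ℕ, 2 ≤ q → 2 ≤ S → ∃ (n : ℕ) (C : Circuit n),
    C.Monotone ∧ C.size ≤ S ∧
    (∃ C₁ : Circuit n, C₁.Monotone ∧ C.Equiv C₁ ∧ C₁.depth ≤ (q * Nat.log 2 S) ^ c) ∧
    ∀ C₂ : Circuit n, C.Equiv C₂ → C₂.size ≤ 2 ^ q →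
      S ≤ (q * Nat.log 2 S) ^ c * (2 ^ C₂.nots * C₂.depth) := by
  obtain ⟨c, hc⟩ : ∃ c : ℕ, 300 ≤ c := ⟨300, le_rfl⟩
  refine ⟨c, fun q S hq hS => ?_⟩
  obtain ⟨Q, hQ⟩ : ∃ Q, Q = q + 2 := ⟨_, rfl⟩
  have hQ2 : 2 ≤ Q := by omega
  obtain ⟨L0, hL0, hb, hsz⟩ := exists_L0' hQ2
  obtain ⟨l, hl⟩ : ∃ l, l = Nat.log 2 S := ⟨_, rfl⟩
  have hl1 : 1 ≤ l := by rw [hl]; exact Nat.log_pos (by norm_num) hS
  rw [← hl]
  obtain ⟨X, hX⟩ : ∃ X, X = q * l := ⟨_, rfl⟩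
  have hX2 : 2 ≤ X := by
    rw [hX]
    calc 2 = 2 * 1 := rfl
      _ ≤ q * l := Nat.mul_le_mul hq hl1
  have hqX : q ≤ X := by rw [hX]; exact Nat.le_mul_of_pos_right q hl1
  have hlX : l ≤ X := by rw [hX]; exact Nat.le_mul_of_pos_left l (by omega)
  have hQq : Q ≤ 2 * q := by omega
  rw [← hX]
  have hX0 : 0 < X := by omega
  by_cases hcase : msz Q L0 ≤ S
  · obtain ⟨L, hLL0, hS1, hS2⟩ := exists_between (f := msz Q)
      (fun L hL => two_pow_le_msz (by omega) hL) hL0 hcase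
    have hL1 : 1 ≤ L := by omega
    have hgb := hb L hLL0
    have hgbpos : 1 ≤ gb Q L := gb_pos (by omega) hL1
    have _i1 : NeZero (3 * Q) := ⟨by omega⟩
    have _i2 : NeZero (gb Q L ^ 2) := ⟨by positivity⟩
    obtain ⟨e, he⟩ := exists_embedM (L := L) (k := 3 * Q) (m := gb Q L ^ 2) (by omega)
      (Nat.one_le_pow _ _ hgbpos) le_rfl
    obtain ⟨C, m1, -, m3, m4⟩ := multi_layered e
    have h2L : 2 ^ L ≤ S := (two_pow_le_msz (by omega) hL1).trans hS1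
    have hLl : L ≤ l := by rw [hl]; exact Nat.le_log_of_pow_le (by norm_num) h2L
    have hlen : (L + 1) * (2 ^ L * (10 * (3 * Q * gb Q L ^ 2))) ≤ 2 ^ (l + 1) := by
      have h1 := len_le_msz (q := Q) (L := L) (by omega) hL1
      have h2 : S < 2 ^ (l + 1) := by rw [hl]; exact Nat.lt_pow_succ_log_self (by norm_num) S
      omega
    obtain ⟨C₁, k1, k2, k3⟩ := multi_shallow e hlen
    refine ⟨_, C, m1, m3.trans hS1, ⟨C₁, k1, fun x => by rw [m4, k3], k2.trans ?_⟩, ?_⟩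
    · have h1 : 3 * Q * gb Q L ^ 2 ≤ 2 ^ 57 * X ^ 13 := by
        show km Q L ≤ _
        rw [km_eq]
        have h2 : L ^ 2 * Q ^ 13 ≤ 2 ^ 13 * X ^ 13 := by
          calc L ^ 2 * Q ^ 13 ≤ l ^ 2 * (2 * q) ^ 13 :=
                Nat.mul_le_mul (Nat.pow_le_pow_left hLl 2) (Nat.pow_le_pow_left hQq 13)
            _ ≤ l ^ 13 * (2 * q) ^ 13 :=
                Nat.mul_le_mul_right _ (Nat.pow_le_pow_right hl1 (by norm_num))
            _ = 2 ^ 13 * X ^ 13 := by rw [hX]; ring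
        calc 3 * 2 ^ 42 * (L ^ 2 * Q ^ 13) ≤ 3 * 2 ^ 42 * (2 ^ 13 * X ^ 13) :=
              Nat.mul_le_mul_left _ h2
          _ = 3 * 2 ^ 55 * X ^ 13 := by ring
          _ ≤ 2 ^ 57 * X ^ 13 := Nat.mul_le_mul_right _ (by norm_num)
      have h3 : 1 ≤ X ^ 13 := Nat.one_le_pow _ _ hX0
      have h4 : 2 * (4 * (3 * Q * gb Q L ^ 2) + 1) + 2 ≤ 2 ^ 61 * X ^ 13 := by
        have : 2 ^ 61 * X ^ 13 = 16 * (2 ^ 57 * X ^ 13) := by ring
        have h5 : 1 ≤ 2 ^ 57 * X ^ 13 := Nat.mul_pos (by norm_num) h3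
        omega
      calc (l + 1) * (2 * (4 * (3 * Q * gb Q L ^ 2) + 1) + 2) + 1
          ≤ (2 * X) * (2 ^ 61 * X ^ 13) + 1 :=
            Nat.add_le_add_right (Nat.mul_le_mul (by omega) h4) 1
        _ = 2 ^ 62 * X ^ 14 + 1 := by ring
        _ ≤ 2 ^ 62 * X ^ 14 + 2 ^ 62 * X ^ 14 :=
            Nat.add_le_add_left (Nat.mul_pos (by norm_num) (Nat.pow_pos hX0)) _
        _ = 2 ^ 63 * X ^ 14 := by ring
        _ ≤ X ^ 63 * X ^ 14 := Nat.mul_le_mul_right _ (Nat.pow_le_pow_left hX2 63)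
        _ = X ^ 77 := by rw [← pow_add]
        _ ≤ X ^ c := Nat.pow_le_pow_right hX0 (by omega)
    · intro C₂ n2 n3
      have hlow := multi_lower hQ2 hL1 hgb e he C₂ (fun w => by rw [← n2 w, m4])
        (n3.trans (Nat.pow_le_pow_right (by norm_num) (by omega)))
      obtain ⟨d, hd⟩ : ∃ d, d = 2 ^ C₂.nots * C₂.depth := ⟨_, rfl⟩
      rw [← hd] at hlow ⊢
      have h1 : S ≤ 450 * 2 ^ 84 * ((L + 1 + 1) * (L + 1) ^ 4 * 2 ^ (L + 1) * Q ^ 26) := by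
        rw [← msz_eq]; exact hS2.le
      have h2 : 2 ^ (L + 1) ≤ 8 * Q ^ 2 * d := by
        rw [pow_succ]
        calc 2 ^ L * 2 ≤ 4 * Q ^ 2 * d * 2 := Nat.mul_le_mul_right _ hlow
          _ = _ := by ring
      have h3 : (L + 1) ^ 4 ≤ 16 * l ^ 4 := by
        calc (L + 1) ^ 4 ≤ (2 * l) ^ 4 := Nat.pow_le_pow_left (by omega) 4
          _ = _ := by ring
      calc S ≤ 450 * 2 ^ 84 * ((L + 1 + 1) * (L + 1) ^ 4 * 2 ^ (L + 1) * Q ^ 26) := h1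
        _ ≤ 450 * 2 ^ 84 * ((3 * l) * (16 * l ^ 4) * (8 * Q ^ 2 * d) * Q ^ 26) :=
            Nat.mul_le_mul_left _ (Nat.mul_le_mul_right _ (Nat.mul_le_mul
              (Nat.mul_le_mul (by omega) h3) h2))
        _ = 450 * 2 ^ 84 * 384 * (l ^ 5 * Q ^ 28) * d := by ring
        _ ≤ 450 * 2 ^ 84 * 384 * (l ^ 5 * (2 * q) ^ 28) * d := by
            apply Nat.mul_le_mul_right
            apply Nat.mul_le_mul_left
            exact Nat.mul_le_mul_left _ (Nat.pow_le_pow_left hQq 28)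
        _ = 450 * 2 ^ 112 * 384 * (l ^ 5 * q ^ 28) * d := by ring
        _ ≤ 2 ^ 130 * (X ^ 5 * X ^ 28) * d := by
            apply Nat.mul_le_mul_right
            exact Nat.mul_le_mul (by norm_num)
              (Nat.mul_le_mul (Nat.pow_le_pow_left hlX 5) (Nat.pow_le_pow_left hqX 28))
        _ ≤ X ^ 130 * (X ^ 5 * X ^ 28) * d := by
            apply Nat.mul_le_mul_right
            exact Nat.mul_le_mul_right _ (Nat.pow_le_pow_left hX2 130)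
        _ = X ^ 163 * d := by rw [← pow_add, ← pow_add]
        _ ≤ X ^ c * d := Nat.mul_le_mul_right _ (Nat.pow_le_pow_right hX0 (by omega))
  · refine ⟨2, andC, andC_mono, by show 1 ≤ S; omega,
      ⟨andC, andC_mono, fun _ => rfl, ?_⟩, fun C₂ n2 _ => ?_⟩
    · rw [andC_depth]; exact Nat.one_le_pow _ _ hX0
    · have h1 := depth_pos_of_and n2
      have h2 : 1 ≤ 2 ^ C₂.nots * C₂.depth := Nat.mul_pos (Nat.two_pow_pos _) h1
      calc S ≤ 2 ^ 186 * Q ^ 43 := by omega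
        _ ≤ 2 ^ 186 * (2 * q) ^ 43 := Nat.mul_le_mul_left _ (Nat.pow_le_pow_left hQq 43)
        _ = 2 ^ 229 * q ^ 43 := by ring
        _ ≤ X ^ 229 * X ^ 43 :=
            Nat.mul_le_mul (Nat.pow_le_pow_left hX2 229) (Nat.pow_le_pow_left hqX 43)
        _ = X ^ (229 + 43) := by rw [pow_add]
        _ ≤ X ^ c := Nat.pow_le_pow_right hX0 (by omega)
        _ ≤ X ^ c * (2 ^ C₂.nots * C₂.depth) := Nat.le_mul_of_pos_right _ h2

end Pool.Agent.H540R2.Lift
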