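import Mathlib
import Pool.Agent.H540R2.Lift.MParam
import Pool.Agent.H540R2.Lift.Final2

/-!
# Monotone SC against NC with few NOT gates
-/

set_option autoImplicit false

namespace Pool.Agent.H540R2.Lift

lemma pow_le_km {L k m : ℕ} (hk : 1 ≤ k) (hm : 1 ≤ m) :
    2 ^ L ≤ (L + 1) * (2 ^ L * (3 * (k * m) ^ 2)) := by
  have f1 : 1 ≤ k * m := Nat.mul_pos hk hm
  calc 2 ^ L = 1 * (2 ^ L * 1) := by ring
    _ ≤ _ := Nat.mul_le_mul (by omega) (Nat.mul_le_mul_left _ (by nlinarith))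

/-- number of variables -/
def mV (a L : ℕ) : ℕ := (L + 1) * (2 ^ L * (3 * km (L ^ a) L ^ 2))

lemma mV_eq (a L : ℕ) : mV a L = 27 * 2 ^ 84 * ((L + 1) * 2 ^ L * L ^ (26 * a + 4)) := by
  unfold mV
  rw [km_eq]
  have e1 : L ^ (26 * a + 4) = L ^ 4 * (L ^ a) ^ 26 := by
    rw [← pow_mul, ← pow_add]; congr 1; ring
  rw [e1]; ring

lemma two_pow_le_mV {a L : ℕ} (hL : 1 ≤ L) : 2 ^ L ≤ mV a L := by
  have h := km_pos (q := L ^ a) (L := L) (Nat.one_le_pow _ _ hL) hL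
  unfold mV
  calc 2 ^ L = 1 * (2 ^ L * 1) := by ring
    _ ≤ _ := Nat.mul_le_mul (by omega) (Nat.mul_le_mul_left _ (by nlinarith))

/-- one input length -/
theorem exists_fn' (A : ℕ) : ∃ c n0 : ℕ, ∀ M : ℕ, ∃ f : (Fin M → Bool) → Bool,
    (∃ C : Circuit M, C.Monotone ∧ (∀ x, C.eval x = f x) ∧ C.size ≤ M ^ c + c ∧
      C.Layered ((Nat.log 2 M) ^ c + c)) ∧
    (n0 ≤ M → ∀ C : Circuit M, (∀ x, C.eval x = f x) →
      C.size ≤ 2 ^ (Nat.log 2 M) ^ A → M ≤ (Nat.log 2 M) ^ c * (2 ^ C.nots * C.depth)) := by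
  obtain ⟨a, ha⟩ : ∃ a, a = A + 1 := ⟨_, rfl⟩
  obtain ⟨K, hK⟩ : ∃ K, K = 108 * 2 ^ 84 := ⟨_, rfl⟩
  obtain ⟨L1, hL1⟩ := poly_le_exp (2 ^ 21) (6 * a + 1)
  obtain ⟨L2, hL2⟩ := poly_le_exp K (26 * a + 5)
  obtain ⟨L0, hL0⟩ : ∃ L0, L0 = max (max L1 L2) (2 ^ A + 2) := ⟨_, rfl⟩
  have hL01 : L1 ≤ L0 := by rw [hL0]; exact (le_max_left _ _).trans (le_max_left _ _)
  have hL02 : L2 ≤ L0 := by rw [hL0]; exact (le_max_right _ _).trans (le_max_left _ _)
  have hL04 : 2 ^ A + 2 ≤ L0 := by rw [hL0]; exact le_max_right _ _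
  clear hL0
  have hA1 : 1 ≤ 2 ^ A := Nat.one_le_two_pow
  obtain ⟨K1, hK1⟩ : ∃ K1, K1 = 15 * 2 ^ 42 := ⟨_, rfl⟩
  obtain ⟨K2, hK2⟩ : ∃ K2, K2 = 4 * K * 2 ^ (28 * a + 5) := ⟨_, rfl⟩
  obtain ⟨c, hc⟩ : ∃ c, c = max (max (K1 + (13 * a + 2)) (K2 + (28 * a + 5))) 18 := ⟨_, rfl⟩
  have hc1 : K1 + (13 * a + 2) ≤ c := by
    rw [hc]; exact (le_max_left _ _).trans (le_max_left _ _)
  have hc2 : K2 + (28 * a + 5) ≤ c := by
    rw [hc]; exact (le_max_right _ _).trans (le_max_left _ _)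
  have hc3 : 18 ≤ c := by rw [hc]; exact le_max_right _ _
  clear hc
  refine ⟨c, mV a L0, fun M => ?_⟩
  by_cases hM : mV a L0 ≤ M
  · obtain ⟨L, hLL0, hVL, hVL1⟩ := exists_between (f := mV a)
      (fun L hL => two_pow_le_mV hL) (by omega) hM
    have hL1' : 1 ≤ L := by omega
    obtain ⟨Q, hQ⟩ : ∃ Q, Q = L ^ a := ⟨_, rfl⟩
    have hQ2 : 2 ≤ Q := by
      rw [hQ]
      calc 2 ≤ L := by omega
        _ = L ^ 1 := (pow_one L).symm
        _ ≤ L ^ a := Nat.pow_le_pow_right (by omega) (by omega)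
    have hgbpos : 1 ≤ gb Q L := gb_pos (by omega) hL1'
    have hgb : gb Q L ≤ 2 ^ L := by
      refine le_trans ?_ (hL1 L (by omega))
      unfold gb
      rw [hQ, ← pow_mul]
      calc 2 ^ 21 * L * L ^ (a * 6) = 2 ^ 21 * L ^ (6 * a + 1) := by
            rw [mul_assoc, ← pow_succ']; congr 2; ring
        _ ≤ _ := Nat.mul_le_mul_left _ (Nat.pow_le_pow_left (by omega) _)
    have _i1 : NeZero (3 * Q) := ⟨by omega⟩
    have _i2 : NeZero (gb Q L ^ 2) := ⟨by positivity⟩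
    have hVL' : (L + 1) * (2 ^ L * (3 * (3 * Q * gb Q L ^ 2) ^ 2)) ≤ M := by
      rw [hQ]; exact hVL
    obtain ⟨e, he⟩ := exists_embedM (L := L) (k := 3 * Q) (m := gb Q L ^ 2) (by omega)
      (Nat.one_le_pow _ _ hgbpos) hVL'
    have h2L : 2 ^ L ≤ M := (two_pow_le_mV hL1').trans hVL
    have hM2 : 2 ≤ M := by
      calc 2 = 2 ^ 1 := rfl
        _ ≤ 2 ^ L := Nat.pow_le_pow_right (by norm_num) hL1'
        _ ≤ M := h2L
    have hLlog : L ≤ Nat.log 2 M := Nat.le_log_of_pow_le (by norm_num) h2L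
    have hlog2 : 2 ≤ Nat.log 2 M := by omega
    refine ⟨MF e, ?_, fun _ C hC hs => ?_⟩
    · obtain ⟨C, h1, h2, h3, h4⟩ := multi_layered e
      refine ⟨C, h1, h4, ?_, ?_⟩
      · have h5 : (L + 1) * 2 ^ L * (50 * (3 * Q * gb Q L ^ 2) ^ 2) ≤ 17 * M := by
          calc (L + 1) * 2 ^ L * (50 * (3 * Q * gb Q L ^ 2) ^ 2)
              ≤ (L + 1) * 2 ^ L * (51 * (3 * Q * gb Q L ^ 2) ^ 2) :=
                Nat.mul_le_mul_left _ (Nat.mul_le_mul_right _ (by norm_num))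
            _ = 17 * ((L + 1) * (2 ^ L * (3 * (3 * Q * gb Q L ^ 2) ^ 2))) := by ring
            _ ≤ 17 * M := Nat.mul_le_mul_left _ hVL'
        refine (h3.trans h5).trans ?_
        have h6 := poly_bound' 17 1 M hM2
        rw [pow_one] at h6
        exact (h6.trans (Nat.pow_le_pow_right (by omega) hc3)).trans (Nat.le_add_right _ _)
      · obtain ⟨d, lay, g1, g2, g3, g4⟩ := h2
        refine ⟨d, lay, g1, g2, g3, fun l => (g4 l).trans ?_⟩
        have hkm : 1 ≤ 3 * Q * gb Q L ^ 2 := km_pos (by omega) hL1'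
        have e1 : 3 * Q * gb Q L ^ 2 = 3 * 2 ^ 42 * L ^ (13 * a + 2) := by
          show km Q L = _
          rw [km_eq, hQ, ← pow_mul, ← pow_add]; congr 2; ring
        have h6 : 4 * (3 * Q * gb Q L ^ 2) + 1 ≤ K1 * (Nat.log 2 M) ^ (13 * a + 2) := by
          rw [hK1]
          calc 4 * (3 * Q * gb Q L ^ 2) + 1 ≤ 5 * (3 * Q * gb Q L ^ 2) := by omega
            _ = 15 * 2 ^ 42 * L ^ (13 * a + 2) := by rw [e1]; ring
            _ ≤ _ := Nat.mul_le_mul_left _ (Nat.pow_le_pow_left hLlog _)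
        refine h6.trans ((poly_bound' K1 (13 * a + 2) _ hlog2).trans ?_)
        exact (Nat.pow_le_pow_right (by omega) hc1).trans (Nat.le_add_right _ _)
    · obtain ⟨d, hd⟩ : ∃ d, d = 2 ^ C.nots * C.depth := ⟨_, rfl⟩
      have hVup : M ≤ K * (L + 1) ^ (26 * a + 5) * 2 ^ L := by
        rw [hK]
        refine hVL1.le.trans ?_
        rw [mV_eq]
        calc 27 * 2 ^ 84 * ((L + 1 + 1) * 2 ^ (L + 1) * (L + 1) ^ (26 * a + 4))
            ≤ 27 * 2 ^ 84 * ((2 * (L + 1)) * 2 ^ (L + 1) * (L + 1) ^ (26 * a + 4)) :=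
              Nat.mul_le_mul_left _ (Nat.mul_le_mul_right _
                (Nat.mul_le_mul_right _ (by omega)))
          _ = 108 * 2 ^ 84 * (L + 1) ^ (26 * a + 5) * 2 ^ L := by
              rw [pow_succ 2 L, pow_succ (L + 1) (26 * a + 4)]; ring
      have h22L : M ≤ 2 ^ (2 * L) := by
        refine hVup.trans ?_
        calc K * (L + 1) ^ (26 * a + 5) * 2 ^ L ≤ 2 ^ L * 2 ^ L :=
              Nat.mul_le_mul_right _ (hL2 L (by omega))
          _ = 2 ^ (2 * L) := by rw [← pow_add]; congr 1; ring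
      have hlogL : Nat.log 2 M ≤ 2 * L := by
        calc Nat.log 2 M ≤ Nat.log 2 (2 ^ (2 * L)) := Nat.log_mono_right h22L
          _ = 2 * L := Nat.log_pow (by norm_num) _
      have hexp : (Nat.log 2 M) ^ A ≤ Q - 2 := by
        have h1 : (Nat.log 2 M) ^ A ≤ 2 ^ A * L ^ A := by
          calc (Nat.log 2 M) ^ A ≤ (2 * L) ^ A := Nat.pow_le_pow_left hlogL A
            _ = 2 ^ A * L ^ A := mul_pow _ _ _
        have h2 : (2 ^ A + 2) * L ^ A ≤ Q := by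
          rw [hQ, ha, pow_succ, mul_comm (L ^ A) L]
          exact Nat.mul_le_mul_right _ (by omega)
        have h3 : 1 ≤ L ^ A := Nat.one_le_pow _ _ hL1'
        have h4 : (2 ^ A + 2) * L ^ A = 2 ^ A * L ^ A + 2 * L ^ A := by ring
        omega
      have hs' : C.size ≤ 2 ^ (Q - 2) := hs.trans (Nat.pow_le_pow_right (by norm_num) hexp)
      have hlow := multi_lower hQ2 hL1' hgb e he C hC hs'
      rw [← hd] at hlow ⊢
      calc M ≤ K * (L + 1) ^ (26 * a + 5) * 2 ^ L := hVup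
        _ ≤ K * (L + 1) ^ (26 * a + 5) * (4 * Q ^ 2 * d) := Nat.mul_le_mul_left _ hlow
        _ ≤ K * (L + 1) ^ (26 * a + 5) * (4 * (L + 1) ^ (2 * a) * d) := by
            apply Nat.mul_le_mul_left
            apply Nat.mul_le_mul_right
            apply Nat.mul_le_mul_left
            rw [hQ, ← pow_mul, mul_comm a 2]
            exact Nat.pow_le_pow_left (by omega) _
        _ = 4 * K * ((L + 1) ^ (26 * a + 5) * (L + 1) ^ (2 * a)) * d := by ring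
        _ = 4 * K * (L + 1) ^ (28 * a + 5) * d := by
            rw [← pow_add]; congr 3; ring
        _ ≤ 4 * K * (2 * Nat.log 2 M) ^ (28 * a + 5) * d := by
            apply Nat.mul_le_mul_right
            exact Nat.mul_le_mul_left _ (Nat.pow_le_pow_left (by omega) _)
        _ = K2 * (Nat.log 2 M) ^ (28 * a + 5) * d := by
            rw [hK2, mul_pow]; ring
        _ ≤ (Nat.log 2 M) ^ c * d := by
            apply Nat.mul_le_mul_right
            exact (poly_bound' _ _ _ hlog2).trans (Nat.pow_le_pow_right (by omega) hc2)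
  · obtain ⟨C, h1, h2, h3, h4⟩ := const_circuit M
    refine ⟨fun _ => false, ⟨C, h1, h4, by omega, ?_⟩, fun h => absurd h hM⟩
    obtain ⟨d, lay, g1, g2, g3, g4⟩ := h2
    exact ⟨d, lay, g1, g2, g3, fun l => (g4 l).trans (by omega)⟩

/-- **Monotone SC against NC with few NOT gates.** -/
theorem monoSC_neg (A : ℕ) : ∃ f : (n : ℕ) → (Fin n → Bool) → Bool, MonoSC f ∧
    ∃ c n₀ : ℕ, ∀ n ≥ n₀, ∀ C : Circuit n, (∀ x, C.eval x = f n x) →
      C.size ≤ 2 ^ (Nat.log 2 n) ^ A → n ≤ (Nat.log 2 n) ^ c * (2 ^ C.nots * C.depth) := by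
  obtain ⟨c, n0, h⟩ := exists_fn' A
  choose f h1 h2 using h
  refine ⟨f, ⟨c, fun n => ?_⟩, c, n0, fun n hn C hC hs => h2 n hn C hC hs⟩
  obtain ⟨C, g1, g2, g3, g4⟩ := h1 n
  exact ⟨C, g1, g2, g3, g4⟩

end Pool.Agent.H540R2.Lift
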