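import Mathlib
import Pool.Agent.H540R2.Lift.GFinal
import Pool.Agent.H540R2.Lift.WMain

/-!
# Depth slightly above log n is not in SC with few NOT gates
-/

set_option autoImplicit false

namespace Pool.Agent.H540R2.Lift

/-- `log log n`, rounded -/
def ll (n : ℕ) : ℕ := Nat.log 2 (Nat.log 2 n + 1) + 1

lemma ll_pos (n : ℕ) : 1 ≤ ll n := by unfold ll; omega

lemma lt_two_pow_ll (n : ℕ) : Nat.log 2 n + 1 < 2 ^ ll n :=
  Nat.lt_pow_succ_log_self (by norm_num) _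

lemma ll_le (n : ℕ) : ll n ≤ Nat.log 2 n + 1 := by
  unfold ll
  have : Nat.log 2 (Nat.log 2 n + 1) < Nat.log 2 n + 1 :=
    Nat.log_lt_self 2 (by omega)
  omega

lemma wZ_le (n i : ℕ) (hi : i < ll n ^ 2 + 1) :
    wZ (Nat.log 2 n * ll n) i ≤ 2 ^ (ll n ^ 2 + 2 * ll n + 3) := by
  obtain ⟨l, hl⟩ : ∃ l, l = ll n := ⟨_, rfl⟩
  have h1 := lt_two_pow_ll n
  have h2 := ll_pos n
  rw [← hl] at h1 h2 hi ⊢
  have h3 : l ≤ 2 ^ l := Nat.lt_two_pow_self.le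
  have h4 : 2 ≤ 2 ^ l := by
    calc 2 = 2 ^ 1 := rfl
      _ ≤ 2 ^ l := Nat.pow_le_pow_right (by norm_num) h2
  have h5 : Nat.log 2 n * l + 4 ≤ 2 ^ (2 * l + 1) := by
    have e1 : 2 ^ (2 * l + 1) = 2 * (2 ^ l * 2 ^ l) := by
      rw [pow_succ, two_mul, pow_add]; ring
    have e2 : Nat.log 2 n * l ≤ 2 ^ l * 2 ^ l := Nat.mul_le_mul (by omega) h3
    have e3 : 2 * 2 ≤ 2 ^ l * 2 ^ l := Nat.mul_le_mul h4 h4
    omega
  have h6 : 2 ^ i + 2 ≤ 2 ^ (l ^ 2 + 2) := by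
    have e1 : 2 ^ i ≤ 2 ^ (l ^ 2) := Nat.pow_le_pow_right (by norm_num) (by omega)
    have e2 : 1 ≤ 2 ^ (l ^ 2) := Nat.one_le_two_pow
    have e3 : 2 ^ (l ^ 2 + 2) = 4 * 2 ^ (l ^ 2) := by rw [pow_add]; ring
    omega
  unfold wZ
  calc (Nat.log 2 n * l + 4) * (2 ^ i + 2) ≤ 2 ^ (2 * l + 1) * 2 ^ (l ^ 2 + 2) :=
        Nat.mul_le_mul h5 h6
    _ = 2 ^ (l ^ 2 + 2 * l + 3) := by rw [← pow_add]; congr 1; ring

lemma xdepth (n : ℕ) : (Nat.log 2 n * ll n + 3) * (17 * (ll n ^ 2 + 2 * ll n + 3) + 34) +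
    16 * (ll n ^ 2 + 2 * ll n + 3) + 32 + (Nat.log 2 n + 1) ≤
      600 * ((Nat.log 2 n + 1) * ll n ^ 3) := by
  obtain ⟨l, hl⟩ : ∃ l, l = ll n := ⟨_, rfl⟩
  obtain ⟨L, hL⟩ : ∃ L, L = Nat.log 2 n := ⟨_, rfl⟩
  have h2 := ll_pos n
  rw [← hl] at h2 ⊢
  rw [← hL]
  have h3 : l ≤ l ^ 2 := Nat.le_self_pow (by norm_num) l
  have h4 : 1 ≤ l ^ 2 := Nat.one_le_pow _ _ h2
  have h5 : l ^ 2 + 2 * l + 3 ≤ 6 * l ^ 2 := by omega
  have h6 : L * l + 3 ≤ 3 * ((L + 1) * l) := by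
    have : (L + 1) * l = L * l + l := by ring
    omega
  have h7 : (L * l + 3) * (17 * (l ^ 2 + 2 * l + 3) + 34) ≤ 3 * ((L + 1) * l) * (136 * l ^ 2) :=
    Nat.mul_le_mul h6 (by omega)
  have h8 : 3 * ((L + 1) * l) * (136 * l ^ 2) = 408 * ((L + 1) * l ^ 3) := by ring
  have h9 : l ^ 2 ≤ (L + 1) * l ^ 3 := by
    calc l ^ 2 = 1 * l ^ 2 := (one_mul _).symm
      _ ≤ (L + 1) * l ^ 3 := Nat.mul_le_mul (by omega) (Nat.pow_le_pow_right h2 (by norm_num))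
  have h10 : L + 1 ≤ (L + 1) * l ^ 3 := Nat.le_mul_of_pos_right _ (Nat.one_le_pow _ _ h2)
  omega

lemma xsize (n : ℕ) : n * (((Nat.log 2 n * ll n + 3) * (17 * (ll n ^ 2 + 2 * ll n + 3) + 34) +
    16 * (ll n ^ 2 + 2 * ll n + 3) + 32) * (2 * n) + 1) ≤ n ^ 1201 + 1201 := by
  rcases Nat.eq_zero_or_pos n with h0 | h0
  · subst h0; omega
  rcases Nat.lt_or_ge n 2 with h1 | h1
  · have hn : n = 1 := by omega
    subst hn
    have e1 : Nat.log 2 1 = 0 := Nat.log_one_right 2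
    have e2 : ll 1 = 1 := by unfold ll; rw [e1]; simp
    rw [e1, e2, one_pow]
    norm_num
  · have hd := xdepth n
    have hl := ll_le n
    have hln : Nat.log 2 n + 1 ≤ n := Nat.log_lt_self 2 (by omega)
    have h2 : 600 * ((Nat.log 2 n + 1) * ll n ^ 3) ≤ 600 * n ^ 4 := by
      apply Nat.mul_le_mul_left
      calc (Nat.log 2 n + 1) * ll n ^ 3 ≤ n * n ^ 3 :=
            Nat.mul_le_mul hln (Nat.pow_le_pow_left (by omega) 3)
        _ = n ^ 4 := by ring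
    have h3 : (Nat.log 2 n * ll n + 3) * (17 * (ll n ^ 2 + 2 * ll n + 3) + 34) +
        16 * (ll n ^ 2 + 2 * ll n + 3) + 32 ≤ 600 * n ^ 4 := by omega
    have h4 : 1 ≤ n ^ 5 := Nat.one_le_pow _ _ h0
    refine le_trans ?_ (Nat.le_add_right _ _)
    calc n * (((Nat.log 2 n * ll n + 3) * (17 * (ll n ^ 2 + 2 * ll n + 3) + 34) +
          16 * (ll n ^ 2 + 2 * ll n + 3) + 32) * (2 * n) + 1)
        ≤ n * ((600 * n ^ 4) * (2 * n) + 1) :=
          Nat.mul_le_mul_left _ (Nat.add_le_add_right (Nat.mul_le_mul_right _ h3) _)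
      _ = n * (1200 * n ^ 5 + 1) := by ring
      _ ≤ n * (1201 * n ^ 5) := Nat.mul_le_mul_left _ (by omega)
      _ = 1201 * n ^ 6 := by ring
      _ ≤ 2 ^ 11 * n ^ 6 := Nat.mul_le_mul_right _ (by norm_num)
      _ ≤ n ^ 11 * n ^ 6 := Nat.mul_le_mul_right _ (Nat.pow_le_pow_left h1 _)
      _ = n ^ 17 := by rw [← pow_add]
      _ ≤ n ^ 1201 := Nat.pow_le_pow_right h0 (by norm_num)

lemma xlow_arith (a L l w : ℕ) (hL : 2 ≤ L) (hl : l ≤ L + 1) (hw : w ≤ L ^ a) :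
    (l ^ 2 + 1) * (2 ^ 125 * ((L * l + 4) * (w + 1)) ^ 35) ≤ L ^ (5 + 125 + 35 * (a + 5)) := by
  have h1 : l ≤ L ^ 2 := by
    calc l ≤ L + 1 := hl
      _ ≤ 2 * L := by omega
      _ ≤ L * L := Nat.mul_le_mul_right _ hL
      _ = L ^ 2 := by ring
  have hpow : ∀ k, 1 ≤ L ^ k := fun k => Nat.one_le_pow _ _ (by omega)
  have h2 : l ^ 2 + 1 ≤ L ^ 5 := by
    calc l ^ 2 + 1 ≤ (L ^ 2) ^ 2 + 1 := Nat.add_le_add_right (Nat.pow_le_pow_left h1 2) 1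
      _ = L ^ 4 + 1 := by rw [← pow_mul]
      _ ≤ 2 * L ^ 4 := by have := hpow 4; omega
      _ ≤ L * L ^ 4 := Nat.mul_le_mul_right _ hL
      _ = L ^ 5 := by ring
  have h3 : L * l + 4 ≤ L ^ 4 := by
    have e8 : 2 ^ 3 ≤ L ^ 3 := Nat.pow_le_pow_left hL 3
    calc L * l + 4 ≤ L * L ^ 2 + 4 := Nat.add_le_add_right (Nat.mul_le_mul_left _ h1) 4
      _ = L ^ 3 + 4 := by ring
      _ ≤ 2 * L ^ 3 := by omega
      _ ≤ L * L ^ 3 := Nat.mul_le_mul_right _ hL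
      _ = L ^ 4 := by ring
  have h4 : w + 1 ≤ L ^ (a + 1) := by
    calc w + 1 ≤ L ^ a + L ^ a := Nat.add_le_add hw (hpow a)
      _ = 2 * L ^ a := by ring
      _ ≤ L * L ^ a := Nat.mul_le_mul_right _ hL
      _ = L ^ (a + 1) := by ring
  have h5 : (L * l + 4) * (w + 1) ≤ L ^ (a + 5) := by
    calc (L * l + 4) * (w + 1) ≤ L ^ 4 * L ^ (a + 1) := Nat.mul_le_mul h3 h4
      _ = L ^ (a + 5) := by rw [← pow_add]; congr 1; ring
  have h6 : ((L * l + 4) * (w + 1)) ^ 35 ≤ L ^ (35 * (a + 5)) := by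
    calc ((L * l + 4) * (w + 1)) ^ 35 ≤ (L ^ (a + 5)) ^ 35 := Nat.pow_le_pow_left h5 35
      _ = L ^ (35 * (a + 5)) := by rw [← pow_mul]; congr 1; ring
  have h7 : 2 ^ 125 ≤ L ^ 125 := Nat.pow_le_pow_left hL 125
  calc (l ^ 2 + 1) * (2 ^ 125 * ((L * l + 4) * (w + 1)) ^ 35)
      ≤ L ^ 5 * (L ^ 125 * L ^ (35 * (a + 5))) := Nat.mul_le_mul h2 (Nat.mul_le_mul h7 h6)
    _ = L ^ (5 + 125 + 35 * (a + 5)) := by rw [← pow_add, ← pow_add]; congr 1; ring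

/-- **Depth slightly above log n against SC with few NOT gates.** -/
theorem shallow_neg : ∃ f : (n : ℕ) → (Fin n → Bool) → Bool,
    (∃ c : ℕ, ∀ n, ∃ C : Circuit n, C.Monotone ∧ (∀ x, C.eval x = f n x) ∧
      C.size ≤ n ^ c + c ∧
      C.depth ≤ c * ((Nat.log 2 n + 1) * (Nat.log 2 (Nat.log 2 n + 1) + 1) ^ 3)) ∧
    ∀ a : ℕ, ∃ c n₀ : ℕ, ∀ n ≥ n₀, ∀ (C : Circuit n) (w : ℕ), (∀ x, C.eval x = f n x) →
      C.size ≤ n ^ a → C.Layered w → w ≤ (Nat.log 2 n) ^ a →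
      n ≤ (Nat.log 2 n) ^ c * 2 ^ C.nots := by
  have hex : ∀ n : ℕ, ∃ f : (Fin n → Bool) → Bool,
      ∃ e : GV n (Nat.log 2 n * ll n) (ll n ^ 2 + 1) → Fin n, Function.Injective e ∧
        f = GF e := by
    intro n
    obtain ⟨e, he⟩ := exists_embedG n (Nat.log 2 n * ll n) (ll n ^ 2 + 1) (Nat.succ_pos _)
    exact ⟨_, e, he, rfl⟩
  choose f e he hf using hex
  refine ⟨f, ⟨1201, fun n => ?_⟩, fun a => ⟨5 + 125 + 35 * (a + 5), 2 ^ 2 ^ (2 * a + 2),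
    fun n hn C w hC hs hw hwa => ?_⟩⟩
  · obtain ⟨C, c1, c2, c3, c4⟩ := gupper (Nat.succ_pos _) (fun i hi => wZ_le n i hi) (e n)
    refine ⟨C, c1, fun x => by rw [c4 x, hf n], c3.trans (xsize n), ?_⟩
    calc C.depth ≤ _ := c2
      _ ≤ 600 * ((Nat.log 2 n + 1) * ll n ^ 3) := xdepth n
      _ ≤ 1201 * ((Nat.log 2 n + 1) * ll n ^ 3) := Nat.mul_le_mul_right _ (by norm_num)
  · obtain ⟨L, hL⟩ : ∃ L, L = Nat.log 2 n := ⟨_, rfl⟩
    obtain ⟨l, hl⟩ : ∃ l, l = ll n := ⟨_, rfl⟩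
    have hn0 : n ≠ 0 := by
      have : 0 < 2 ^ 2 ^ (2 * a + 2) := by positivity
      omega
    have hLa : 2 ^ (2 * a + 2) ≤ L := by
      rw [hL]; exact Nat.le_log_of_pow_le (by norm_num) hn
    have hL2 : 2 ≤ L := by
      calc 2 = 2 ^ 1 := rfl
        _ ≤ 2 ^ (2 * a + 2) := Nat.pow_le_pow_right (by norm_num) (by omega)
        _ ≤ L := hLa
    have hla : 2 * a + 2 ≤ l := by
      have : 2 * a + 2 ≤ Nat.log 2 (L + 1) := Nat.le_log_of_pow_le (by norm_num) (by omega)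
      rw [hl]; unfold ll; rw [← hL]; omega
    have hL2l : L + 1 < 2 ^ l := by rw [hl, hL]; exact lt_two_pow_ll n
    have hlL : l ≤ L + 1 := by rw [hl, hL]; exact ll_le n
    have hs' : C.size ≤ 2 ^ (Nat.log 2 n * ll n) := by
      rw [← hL, ← hl]
      have h1 : n < 2 ^ (L + 1) := by rw [hL]; exact Nat.lt_pow_succ_log_self (by norm_num) n
      calc C.size ≤ n ^ a := hs
        _ ≤ (2 ^ (L + 1)) ^ a := Nat.pow_le_pow_left h1.le a
        _ = 2 ^ ((L + 1) * a) := by rw [← pow_mul]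
        _ ≤ 2 ^ (L * l) := by
            apply Nat.pow_le_pow_right (by norm_num)
            calc (L + 1) * a ≤ (2 * L) * a := Nat.mul_le_mul_right _ (by omega)
              _ = L * (2 * a) := by ring
              _ ≤ L * l := Nat.mul_le_mul_left _ (by omega)
    have hcl : Nat.clog 2 w < ll n ^ 2 + 1 := by
      rw [← hl]
      have h1 : w ≤ 2 ^ (l * a) := by
        calc w ≤ L ^ a := by rw [hL]; exact hwa
          _ ≤ (2 ^ l) ^ a := Nat.pow_le_pow_left (by omega) a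
          _ = 2 ^ (l * a) := by rw [← pow_mul]
      have h2 : Nat.clog 2 w ≤ l * a := Nat.clog_le_of_le_pow h1
      have h3 : l * a ≤ l ^ 2 := by
        rw [pow_two]; exact Nat.mul_le_mul_left _ (by omega)
      omega
    have h1 := glow (e n) (he n) C (fun x => by rw [hC x, hf n]) hs' hw hcl
    rw [← hL, ← hl] at h1
    have h2 := xlow_arith a L l w hL2 hlL (by rw [hL]; exact hwa)
    rw [← hL]
    calc n ≤ _ := h1
      _ ≤ 2 ^ C.nots * L ^ (5 + 125 + 35 * (a + 5)) := Nat.mul_le_mul_left _ h2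
      _ = _ := mul_comm _ _

end Pool.Agent.H540R2.Lift
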